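import Pool.Agent.H77.S6.LC3
import Pool.Agent.H35.K2S.Prod
import Pool.Agent.H13.K2S.Skel

/-!
# Plank labels: a moving plank which is visible and conserved, and how it is produced

A plank label of the windows of length `1 / 2 ^ w` is a plank which moves with constant velocity,
contains the line on its window, is a function of the exact point and a function of the line with
its window. If a visible plank agrees, outside a small precision, with a function of the line with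
its window, a slightly less precise plank label exists on a smaller event of comparable probability.
-/

set_option autoImplicit false

namespace Pool.KS6

open Finset Real
open Pool.Agent.H49.Ent Pool.Agent.H32.Dense Pool.STK Pool.KA Pool.KSAT Pool.K3 Pool.K2S

/-- A plank in three dimensions which moves with constant velocity: slope, normal form, base point
at time zero, base velocity. -/
structure Pln : Type where
  /-- the slope along the fans -/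
  e : ℝ
  /-- the first coefficient of the normal form -/
  c : ℝ
  /-- the second coefficient of the normal form -/
  s : ℝ
  /-- the base point at time zero -/
  xb : Fin 3 → ℝ
  /-- the base velocity -/
  db : Fin 3 → ℝ

/-- The line with position `x` and velocity `d` at time `t` lies in the plank. -/
structure Inc (i0 iu iN : Fin 3) (w lam P : ℕ) (C : ℝ) (y : Pln) (t : ℝ) (x d : Fin 3 → ℝ) :
    Prop where
  e_le : |y.e| ≤ 2
  c_le : |y.c| ≤ 4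
  s_le : |y.s| ≤ 4
  pe : |x i0 - (y.xb i0 + t * y.db i0)| ≤ C / 2 ^ w
  pu : |fu i0 iu y.e x - fu i0 iu y.e (fun i => y.xb i + t * y.db i)| ≤ C / 2 ^ (w + lam)
  pn : |fn i0 iu iN y.c y.s x - fn i0 iu iN y.c y.s (fun i => y.xb i + t * y.db i)| ≤ C / 2 ^ P
  ve : |d i0 - y.db i0| ≤ C
  vu : |fu i0 iu y.e d - fu i0 iu y.e y.db| ≤ C / 2 ^ lam
  vn : |fn i0 iu iN y.c y.s d - fn i0 iu iN y.c y.s y.db| ≤ C * 2 ^ w / 2 ^ P

section Lab

variable {J : ℕ}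

/-- The point at precision `1 / 2 ^ Qt`, with its time and side information. -/
noncomputable def ptq (F : Fam 3 J) (Qt : ℕ) (ω : F.Ω) : (Fin 3 → ℤ) × (ℕ × F.ζ) :=
  (F.X Qt ω, F.W ω)

/-- **Plank label** on the windows of length `1 / 2 ^ w`, visible from the points at precision
`1 / 2 ^ Qt`. -/
def LABq (F : Fam 3 J) (Qt : ℕ) (i0 iu iN : Fin 3) (w lam P : ℕ) (C : ℝ) (A : F.Ω → Prop) :
    Prop :=
  ∃ y : F.Ω → Pln, (∀ ω, A ω → Inc i0 iu iN w lam P C (y ω) (F.t ω) (F.x ω) (F.d ω)) ∧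
    (∃ φ : (Fin 3 → ℤ) × (ℕ × F.ζ) → Pln, ∀ ω, A ω → y ω = φ (ptq F Qt ω)) ∧
    ∃ ψ : ((Fin 3 → ℝ) × (Fin 3 → ℝ)) × F.ζ × ℕ → Pln, ∀ ω, A ω → y ω = ψ (slam F w ω)

theorem LABq.hered (F : Fam 3 J) (Qt : ℕ) (i0 iu iN : Fin 3) (w lam P : ℕ) (C : ℝ) :
    Hered (LABq F Qt i0 iu iN w lam P C) := by
  rintro A B hB ⟨y, h1, ⟨φ, h2⟩, ψ, h3⟩
  exact ⟨y, fun ω hω => h1 ω (hB ω hω), ⟨φ, fun ω hω => h2 ω (hB ω hω)⟩, ψ,
    fun ω hω => h3 ω (hB ω hω)⟩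

/-- **Plank label** on the windows of length `1 / 2 ^ w`, visible from the exact points. -/
def LAB (F : Fam 3 J) (i0 iu iN : Fin 3) (w lam P : ℕ) (C : ℝ) (A : F.Ω → Prop) : Prop :=
  LABq F J i0 iu iN w lam P C A

theorem LAB.hered (F : Fam 3 J) (i0 iu iN : Fin 3) (w lam P : ℕ) (C : ℝ) :
    Hered (LAB F i0 iu iN w lam P C) := LABq.hered F J i0 iu iN w lam P C

/-- The plank of the exact point and its time. -/
theorem Pk_of_Inc {F : Fam 3 J} {i0 iu iN : Fin 3} {w lam P : ℕ} {C : ℝ} {A : F.Ω → Prop}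
    {y : F.Ω → Pln} (h : ∀ ω, A ω → Inc i0 iu iN w lam P C (y ω) (F.t ω) (F.x ω) (F.d ω)) :
    Pk F.x F.d A i0 iu iN w lam P C (fun ω => (y ω, F.T ω)) (fun q => q.1.e) (fun q => q.1.c)
      (fun q => q.1.s) (fun q i => q.1.xb i + (q.2 : ℝ) / 2 ^ J * q.1.db i) (fun q => q.1.db) where
  e_le := fun ω hω => (h ω hω).e_le
  c_le := fun ω hω => (h ω hω).c_le
  s_le := fun ω hω => (h ω hω).s_le
  pe := fun ω hω => (h ω hω).pe
  pu := fun ω hω => (h ω hω).pu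
  pn := fun ω hω => (h ω hω).pn
  ve := fun ω hω => (h ω hω).ve
  vu := fun ω hω => (h ω hω).vu
  vn := fun ω hω => (h ω hω).vn

end Lab

/-! ### Rounding -/

lemma floor_diff {a b M : ℝ} (h : |a - b| ≤ M) : |((⌊a⌋ - ⌊b⌋ : ℤ) : ℝ)| ≤ M + 1 := by
  have h1 := Int.floor_le a
  have h2 := Int.lt_floor_add_one a
  have h3 := Int.floor_le b
  have h4 := Int.lt_floor_add_one b
  rw [abs_le] at h ⊢
  push_cast
  constructor <;> linarith [h.1, h.2]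

lemma floor_close {n : ℕ} {a b : ℝ} (h : ⌊(2 : ℝ) ^ n * a⌋ = ⌊(2 : ℝ) ^ n * b⌋) :
    |a - b| ≤ 1 / 2 ^ n := by
  have h1 := Int.floor_le ((2 : ℝ) ^ n * a)
  have h2 := Int.lt_floor_add_one ((2 : ℝ) ^ n * a)
  have h3 := Int.floor_le ((2 : ℝ) ^ n * b)
  have h4 := Int.lt_floor_add_one ((2 : ℝ) ^ n * b)
  rw [h] at h1 h2
  have hp : (0 : ℝ) < 2 ^ n := by positivity
  have e1 : |a - b| * 2 ^ n = |(a - b) * 2 ^ n| := by rw [abs_mul, abs_of_pos hp]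
  rw [le_div_iff₀ hp, e1, abs_le]
  constructor <;> nlinarith

lemma floor_near (n : ℕ) (a : ℝ) : |a - (⌊(2 : ℝ) ^ n * a⌋ : ℝ) / 2 ^ n| ≤ 1 / 2 ^ n := by
  have h1 := Int.floor_le ((2 : ℝ) ^ n * a)
  have h2 := Int.lt_floor_add_one ((2 : ℝ) ^ n * a)
  have hp : (0 : ℝ) < 2 ^ n := by positivity
  have e1 : a - (⌊(2 : ℝ) ^ n * a⌋ : ℝ) / 2 ^ n = (2 ^ n * a - ⌊(2 : ℝ) ^ n * a⌋) / 2 ^ n := by
    field_simp
  rw [e1, abs_div, abs_of_pos hp]
  refine div_le_div_of_nonneg_right ?_ hp.le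
  rw [abs_le]
  constructor <;> linarith

/-- The cell of the frame of a plank. -/
noncomputable def fcl (l2 sg ag : ℕ) (y : Pln) : Fin 3 → ℤ :=
  ![⌊(2 : ℝ) ^ l2 * y.e⌋, ⌊(2 : ℝ) ^ sg * y.s⌋,
    ⌊(2 : ℝ) ^ ag * (y.c + y.s * ((⌊(2 : ℝ) ^ l2 * y.e⌋ : ℝ) / 2 ^ l2))⌋]

/-- Frames of one cell. -/
lemma fcl_close {l2 sg ag : ℕ} {y y' : Pln} (h : fcl l2 sg ag y = fcl l2 sg ag y')
    (hag : ag ≤ sg + l2) :
    |y.e - y'.e| ≤ 1 / 2 ^ l2 ∧ |y.s - y'.s| ≤ 1 / 2 ^ sg ∧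
      |(y'.c - y.c) + (y'.s - y.s) * y.e| ≤ 2 / 2 ^ ag := by
  have h0 : ⌊(2 : ℝ) ^ l2 * y.e⌋ = ⌊(2 : ℝ) ^ l2 * y'.e⌋ := congrFun h 0
  have h1 : ⌊(2 : ℝ) ^ sg * y.s⌋ = ⌊(2 : ℝ) ^ sg * y'.s⌋ := congrFun h 1
  have h2 : ⌊(2 : ℝ) ^ ag * (y.c + y.s * ((⌊(2 : ℝ) ^ l2 * y.e⌋ : ℝ) / 2 ^ l2))⌋ =
    ⌊(2 : ℝ) ^ ag * (y'.c + y'.s * ((⌊(2 : ℝ) ^ l2 * y'.e⌋ : ℝ) / 2 ^ l2))⌋ := congrFun h 2
  rw [← h0] at h2
  have c1 := floor_close h1
  have c2 := floor_close h2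
  have c3 := floor_near l2 y.e
  refine ⟨floor_close h0, c1, ?_⟩
  obtain ⟨r, hr⟩ : ∃ r, r = (⌊(2 : ℝ) ^ l2 * y.e⌋ : ℝ) / 2 ^ l2 := ⟨_, rfl⟩
  rw [← hr] at c2 c3
  have e1 : (y'.c - y.c) + (y'.s - y.s) * y.e =
      -((y.c + y.s * r) - (y'.c + y'.s * r)) + -((y.s - y'.s) * (y.e - r)) := by ring
  rw [e1]
  refine (abs_add_le _ _).trans ?_
  rw [abs_neg, abs_neg, abs_mul]
  have e2 : |y.s - y'.s| * |y.e - r| ≤ 1 / 2 ^ sg * (1 / 2 ^ l2) :=
    mul_le_mul c1 c3 (abs_nonneg _) (by positivity)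
  have e3 : (1 : ℝ) / 2 ^ sg * (1 / 2 ^ l2) ≤ 1 / 2 ^ ag := by
    rw [one_div_mul_one_div, ← pow_add]
    exact one_div_le_one_div_of_le (by positivity) (pow_le_pow_right₀ (by norm_num) hag)
  have e4 : (2 : ℝ) / 2 ^ ag = 1 / 2 ^ ag + 1 / 2 ^ ag := by ring
  linarith

/-- The point with given coordinates in a frame. -/
noncomputable def bp (i0 iu : Fin 3) (e c s a b n : ℝ) : Fin 3 → ℝ := fun j =>
  if j = i0 then a else if j = iu then b + e * a else n - c * a - s * (b + e * a)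

lemma bp_i0 (i0 iu : Fin 3) (e c s a b n : ℝ) : bp i0 iu e c s a b n i0 = a := by
  unfold bp; rw [if_pos rfl]

lemma bp_fu {i0 iu : Fin 3} (h : iu ≠ i0) (e c s a b n : ℝ) :
    fu i0 iu e (bp i0 iu e c s a b n) = b := by
  unfold fu bp
  rw [if_neg h, if_pos rfl, if_pos rfl]
  ring

lemma bp_fn {i0 iu iN : Fin 3} (h : iu ≠ i0) (h1 : iN ≠ i0) (h2 : iN ≠ iu) (e c s a b n : ℝ) :
    fn i0 iu iN c s (bp i0 iu e c s a b n) = n := by
  unfold fn bp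
  rw [if_neg h, if_pos rfl, if_pos rfl, if_neg h1, if_neg h2]
  ring

lemma three {i0 iu iN : Fin 3} (hi : ∀ j : Fin 3, j = i0 ∨ j = iu ∨ j = iN) :
    iu ≠ i0 ∧ iN ≠ i0 ∧ iN ≠ iu := by
  revert i0 iu iN
  decide

lemma fu_lin (i0 iu : Fin 3) (e : ℝ) (a b : Fin 3 → ℝ) (r : ℝ) :
    fu i0 iu e (fun i => a i + r * b i) = fu i0 iu e a + r * fu i0 iu e b := by
  unfold fu; ring

lemma fn_lin (i0 iu iN : Fin 3) (c s : ℝ) (a b : Fin 3 → ℝ) (r : ℝ) :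
    fn i0 iu iN c s (fun i => a i + r * b i) = fn i0 iu iN c s a + r * fn i0 iu iN c s b := by
  unfold fn; ring

end Pool.KS6
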