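import Pool.Agent.H77.S6.LAB3

/-!
# Production of plank labels: the label on a smaller event
-/

set_option autoImplicit false

namespace Pool.KS6

open Finset Real
open Pool.Agent.H49.Ent Pool.Agent.H32.Dense Pool.STK Pool.KA Pool.KSAT Pool.K3 Pool.K2S

section Prod

variable {J : ℕ}

instance : Inhabited Pln := ⟨⟨0, 0, 0, 0, 0⟩⟩

/-- **Production.** A visible plank which is close to a function of the line with its window. -/
theorem lab_prod (F : Fam 3 J) {Qt : ℕ} (hQJ : Qt ≤ J) {i0 iu iN : Fin 3}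
    (hi : ∀ j : Fin 3, j = i0 ∨ j = iu ∨ j = iN)
    {v W lam P l2 sg ag P2 : ℕ} {C : ℝ} (hC : 1 ≤ C) {A : F.Ω → Prop} (hA : 0 < Pe F.p A)
    {y : F.Ω → Pln} (hI : ∀ ω, A ω → Inc i0 iu iN W lam P C (y ω) (F.t ω) (F.x ω) (F.d ω))
    {φ : (Fin 3 → ℤ) × (ℕ × F.ζ) → Pln} (hφ : ∀ ω, A ω → y ω = φ (ptq F Qt ω))
    {ζ : ((Fin 3 → ℝ) × (Fin 3 → ℝ)) × F.ζ × ℕ → Pln}
    (hr : ∀ ω, A ω → |(y ω).e - (ζ (slam F v ω)).e| ≤ 1 / 2 ^ l2 ∧
      |(y ω).s - (ζ (slam F v ω)).s| ≤ 1 / 2 ^ sg ∧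
      |Ae (y ω).c (y ω).s (ζ (slam F v ω)).c (ζ (slam F v ω)).s (ζ (slam F v ω)).e| ≤ 1 / 2 ^ ag)
    (h1 : l2 ≤ lam) (h2 : v + l2 ≤ Qt) (h3 : ag ≤ sg + l2) (h4 : P2 ≤ v + ag)
    (h5 : W + P2 ≤ v + P) (h6 : P2 ≤ Qt) :
    ∃ B : F.Ω → Prop, Sub B A ∧
      Real.exp (-(8 * (3 * Real.log 15 + 6 * Real.log (16 * C + 21)))) / 2 * Pe F.p A ≤
        Pe F.p B ∧ LABq F Qt i0 iu iN v l2 P2 2 B := by
  classical
  have hv : v ≤ J := by omega
  obtain ⟨q, hq⟩ : ∃ q, q = Pool.Agent.H49.Ent.cond F.p A True := ⟨_, rfl⟩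
  have hql : IsLaw q := by rw [hq]; exact isLaw_cond F.isLaw hA
  have hqA : ∀ ω, 0 < q ω → A ω := fun ω hω => by
    rw [hq] at hω
    have := ((cond_pos_iff F.isLaw.nonneg A True ω).1 hω).2
    simpa using this
  -- representatives of the frame cells
  obtain ⟨R, hR⟩ : ∃ R : (Fin 3 → ℤ) → Pln, ∀ ω, A ω → ∃ ω', A ω' ∧
      R (fcl l2 sg ag (y ω)) = y ω' ∧ fcl l2 sg ag (y ω') = fcl l2 sg ag (y ω) := by
    refine ⟨fun k => if h : ∃ ω, A ω ∧ fcl l2 sg ag (y ω) = k then y h.choose else default,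
      fun ω hω => ?_⟩
    have h : ∃ ω', A ω' ∧ fcl l2 sg ag (y ω') = fcl l2 sg ag (y ω) := ⟨ω, hω, rfl⟩
    refine ⟨h.choose, h.choose_spec.1, ?_, h.choose_spec.2⟩
    simp only [dif_pos h]
  have hRb : ∀ ω, A ω → |(R (fcl l2 sg ag (y ω))).e| ≤ 2 ∧ |(R (fcl l2 sg ag (y ω))).c| ≤ 4 ∧
      |(R (fcl l2 sg ag (y ω))).s| ≤ 4 := by
    intro ω hω
    obtain ⟨ω', a1, a2, -⟩ := hR ω hω
    rw [a2]
    exact ⟨(hI ω' a1).e_le, (hI ω' a1).c_le, (hI ω' a1).s_le⟩
  obtain ⟨z, hz⟩ : ∃ z : F.Ω → (Fin 6 → ℤ) × (Fin 3 → ℤ), z = fun ω =>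
      (kmc F i0 iu iN v l2 P2 (R (fcl l2 sg ag (y ω))) ω, fcl l2 sg ag (y ω)) := ⟨_, rfl⟩
  obtain ⟨δ, hδ⟩ : ∃ δ, δ = 3 * Real.log 15 + 6 * Real.log (16 * C + 21) := ⟨_, rfl⟩
  have l15 : 0 < Real.log 15 := Real.log_pos (by norm_num)
  have lC : 0 < Real.log (16 * C + 21) := Real.log_pos (by linarith)
  have hδ0 : 0 < δ := by rw [hδ]; positivity
  -- conserved
  have g1 : CH q z (slam F v) ≤ δ := by
    have e1 : CH q z (slam F v) = CH q (fun ω => fcl l2 sg ag (y ω)) (slam F v) +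
        CH q (fun ω => kmc F i0 iu iN v l2 P2 (R (fcl l2 sg ag (y ω))) ω)
          (fun ω => (fcl l2 sg ag (y ω), slam F v ω)) := by
      rw [hz]
      exact CH_chain hql.nonneg _ _ _
    have e2 : CH q (fun ω => kmc F i0 iu iN v l2 P2 (R (fcl l2 sg ag (y ω))) ω)
        (fun ω => (fcl l2 sg ag (y ω), slam F v ω)) = 0 := by
      refine CH_eq_zero hql.nonneg fun ω ω' _ _ h => ?_
      obtain ⟨a1, a2⟩ := Prod.ext_iff.mp h
      have a1' : fcl l2 sg ag (y ω) = fcl l2 sg ag (y ω') := a1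
      have a2' : slam F v ω = slam F v ω' := a2
      simp only [slam, Prod.mk.injEq, Fam.l] at a2'
      obtain ⟨⟨b1, b2⟩, -, b3⟩ := a2'
      have b4 : F.x1 v ω = F.x1 v ω' := by
        funext i
        unfold Fam.x1
        rw [b1, b2, b3]
      change kmc F i0 iu iN v l2 P2 (R (fcl l2 sg ag (y ω))) ω =
        kmc F i0 iu iN v l2 P2 (R (fcl l2 sg ag (y ω'))) ω'
      rw [a1']
      unfold kmc
      rw [b4, b2]
    have e3 : CH q (fun ω => fcl l2 sg ag (y ω)) (slam F v) ≤ 3 * Real.log 15 := by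
      have h := CH_le_seq hql (slam F v) (fun ω => fcl l2 sg ag (y ω)) (fun _ _ => 7) (by
        intro i ω ω' hω hω' hs hj
        have r1 := hr ω (hqA ω hω)
        have r2 := hr ω' (hqA ω' hω')
        rw [← hs] at r2
        obtain ⟨y0, hy0⟩ : ∃ y0, y0 = ζ (slam F v ω) := ⟨_, rfl⟩
        rw [← hy0] at r1 r2
        have d1 : |(y ω).e - (y ω').e| ≤ 2 / 2 ^ l2 := by
          have a1 := r1.1
          have a2 := r2.1
          have e1 : (2 : ℝ) / 2 ^ l2 = 1 / 2 ^ l2 + 1 / 2 ^ l2 := by ring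
          rw [e1]
          rw [abs_le] at a1 a2 ⊢
          constructor <;> linarith [a1.1, a1.2, a2.1, a2.2]
        have d2 : |(y ω).s - (y ω').s| ≤ 2 / 2 ^ sg := by
          have a1 := r1.2.1
          have a2 := r2.2.1
          have e1 : (2 : ℝ) / 2 ^ sg = 1 / 2 ^ sg + 1 / 2 ^ sg := by ring
          rw [e1]
          rw [abs_le] at a1 a2 ⊢
          constructor <;> linarith [a1.1, a1.2, a2.1, a2.2]
        have sc : ∀ (n : ℕ) (a b M : ℝ), |a - b| ≤ M / 2 ^ n →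
            |(2 : ℝ) ^ n * a - 2 ^ n * b| ≤ M := by
          intro n a b M h
          have hp : (0 : ℝ) < 2 ^ n := by positivity
          rw [← mul_sub, abs_mul, abs_of_pos hp]
          rw [le_div_iff₀ hp] at h
          linarith
        fin_cases i
        · exact (floor_diff (sc _ _ _ _ d1)).trans (by norm_num)
        · exact (floor_diff (sc _ _ _ _ d2)).trans (by norm_num)
        · have hj0 : ⌊(2 : ℝ) ^ l2 * (y ω).e⌋ = ⌊(2 : ℝ) ^ l2 * (y ω').e⌋ :=
            hj 0 (by decide)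
          have key : |((y ω).c + (y ω).s * ((⌊(2 : ℝ) ^ l2 * (y ω).e⌋ : ℝ) / 2 ^ l2)) -
              ((y ω').c + (y ω').s * ((⌊(2 : ℝ) ^ l2 * (y ω').e⌋ : ℝ) / 2 ^ l2))| ≤ 6 / 2 ^ ag := by
            have c3 := floor_near l2 (y ω).e
            rw [← hj0]
            obtain ⟨r, hr'⟩ : ∃ r, r = (⌊(2 : ℝ) ^ l2 * (y ω).e⌋ : ℝ) / 2 ^ l2 := ⟨_, rfl⟩
            rw [← hr'] at c3 ⊢
            have c4 : |r - y0.e| ≤ 2 / 2 ^ l2 := by
              have a1 := r1.1
              have e1 : (2 : ℝ) / 2 ^ l2 = 1 / 2 ^ l2 + 1 / 2 ^ l2 := by ring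
              rw [e1]
              rw [abs_le] at a1 c3 ⊢
              constructor <;> linarith [a1.1, a1.2, c3.1, c3.2]
            have one : ∀ w : Pln, |w.s - y0.s| ≤ 1 / 2 ^ sg →
                |Ae w.c w.s y0.c y0.s y0.e| ≤ 1 / 2 ^ ag →
                |(w.c + w.s * r) - (y0.c + y0.s * r)| ≤ 3 / 2 ^ ag := by
              intro w w1 w2
              have e1 : (w.c + w.s * r) - (y0.c + y0.s * r) = Ae w.c w.s y0.c y0.s y0.e +
                  (w.s - y0.s) * (r - y0.e) := by unfold Ae; ring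
              rw [e1]
              refine (abs_add_le _ _).trans ?_
              have e2 : |(w.s - y0.s) * (r - y0.e)| ≤ 1 / 2 ^ sg * (2 / 2 ^ l2) := by
                rw [abs_mul]
                exact mul_le_mul w1 c4 (abs_nonneg _) (by positivity)
              have e3 : (1 : ℝ) / 2 ^ sg * (2 / 2 ^ l2) ≤ 2 / 2 ^ ag := by
                rw [div_mul_div_comm, one_mul, ← pow_add]
                exact div_le_div_of_nonneg_left (by norm_num) (by positivity)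
                  (pow_le_pow_right₀ (by norm_num) h3)
              have e4 : (3 : ℝ) / 2 ^ ag = 1 / 2 ^ ag + 2 / 2 ^ ag := by ring
              linarith
            have o1 := one (y ω) r1.2.1 r1.2.2
            have o2 := one (y ω') r2.2.1 r2.2.2
            have e1 : (6 : ℝ) / 2 ^ ag = 3 / 2 ^ ag + 3 / 2 ^ ag := by ring
            rw [e1]
            rw [abs_le] at o1 o2 ⊢
            constructor <;> linarith [o1.1, o1.2, o2.1, o2.2]
          exact (floor_diff (sc _ _ _ _ key)).trans (by norm_num))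
      refine h.trans (le_of_eq ?_)
      simp only [Ex_const hql.sum_one]
      norm_num
    rw [e1, e2, hδ]
    linarith
  -- visible
  have g2 : CH q z (ptq F Qt) ≤ δ := by
    have e1 : CH q z (ptq F Qt) = CH q (fun ω => fcl l2 sg ag (y ω)) (ptq F Qt) +
        CH q (fun ω => kmc F i0 iu iN v l2 P2 (R (fcl l2 sg ag (y ω))) ω)
          (fun ω => (fcl l2 sg ag (y ω), ptq F Qt ω)) := by
      rw [hz]
      exact CH_chain hql.nonneg _ _ _
    have e2 : CH q (fun ω => fcl l2 sg ag (y ω)) (ptq F Qt) = 0 := by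
      refine CH_eq_zero hql.nonneg fun ω ω' hω hω' h => ?_
      rw [hφ ω (hqA ω hω), hφ ω' (hqA ω' hω'), h]
    have e3 : CH q (fun ω => kmc F i0 iu iN v l2 P2 (R (fcl l2 sg ag (y ω))) ω)
        (fun ω => (fcl l2 sg ag (y ω), ptq F Qt ω)) ≤ 6 * Real.log (16 * C + 21) := by
      have h := CH_le_vec hql.nonneg hql.sum_one
        (fun ω => kmc F i0 iu iN v l2 P2 (R (fcl l2 sg ag (y ω))) ω)
        (fun ω => (fcl l2 sg ag (y ω), ptq F Qt ω)) (fun _ => 8 * C + 10) (by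
        intro ω ω' hω hω' hs k
        obtain ⟨-, a2⟩ := Prod.ext_iff.mp hs
        have a3 : F.X Qt ω = F.X Qt ω' := (Prod.ext_iff.mp a2).1
        have a4 : F.W ω = F.W ω' := (Prod.ext_iff.mp a2).2
        have a5 : F.T ω = F.T ω' := (Prod.ext_iff.mp a4).1
        have hAω := hqA ω hω
        have hAω' := hqA ω' hω'
        have a6 : y ω' = y ω := by
          rw [hφ ω hAω, hφ ω' hAω']
          exact congrArg φ a2.symm
        have hI' := hI ω' hAω'
        rw [a6] at hI' ⊢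
        obtain ⟨ω₀, b1, b2, b3⟩ := hR ω hAω
        rw [b2]
        obtain ⟨c1, c2, c3⟩ := fcl_close b3.symm h3
        exact kmc_vis F hQJ hC a3 a5 (hI ω hAω) hI' c1 c2 c3 (hI ω₀ b1).e_le (hI ω₀ b1).c_le
          (hI ω₀ b1).s_le h1 h2 h3 h4 h5 h6 k)
      refine h.trans (le_of_eq ?_)
      rw [Ex_const hql.sum_one]
      have : 2 * (8 * C + 10) + 1 = 16 * C + 21 := by ring
      rw [this]
      norm_num
    rw [e1, e2, hδ]
    linarith
  -- both at once
  obtain ⟨ζ', hζ'⟩ := exists_fns_of_CH (n := 2) (S := fun _ => (Fin 6 → ℤ) × (Fin 3 → ℤ))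
    (T := fun _ => (((Fin 3 → ℝ) × (Fin 3 → ℝ)) × F.ζ × ℕ) ⊕ ((Fin 3 → ℤ) × (ℕ × F.ζ)))
    hql (fun _ => z) (fun i ω => if i = 0 then Sum.inl (slam F v ω) else Sum.inr (ptq F Qt ω))
    hδ0 (by
      intro i
      fin_cases i
      · refine le_trans (le_of_eq ?_) g1
        refine CH_congr hql.nonneg (fun _ _ _ _ h => (Prod.ext_iff.mp h).1)
          (fun _ _ _ _ h => (Prod.ext_iff.mp h).1) ?_ ?_
        · intro ω ω' _ _ h
          exact Sum.inl_injective h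
        · intro ω ω' _ _ h
          exact congrArg Sum.inl h
      · refine le_trans (le_of_eq ?_) g2
        refine CH_congr hql.nonneg (fun _ _ _ _ h => (Prod.ext_iff.mp h).1)
          (fun _ _ _ _ h => (Prod.ext_iff.mp h).1) ?_ ?_
        · intro ω ω' _ _ h
          exact Sum.inr_injective h
        · intro ω ω' _ _ h
          exact congrArg Sum.inr h)
  rw [hq, Pe_cond, le_div_iff₀ hA] at hζ'
  refine ⟨fun ω => A ω ∧ ∀ i : Fin 2, z ω = ζ' i (if i = 0 then Sum.inl (slam F v ω) else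
    Sum.inr (ptq F Qt ω)), fun ω hω => hω.1, ?_, ?_⟩
  · refine le_trans (le_of_eq ?_) hζ'
    rw [hδ]
    norm_num
  · refine ⟨fun ω => plg i0 iu v l2 P2 R (z ω) (F.T1 v ω), ?_, ?_, ?_⟩
    · intro ω hω
      obtain ⟨r1, r2, r3⟩ := hRb ω hω.1
      have := plg_Inc F hi (l2 := l2) (P2 := P2) hv r1 r2 r3 ω
      rw [hz]
      exact this
    · refine ⟨fun s => plg i0 iu v l2 P2 R (ζ' 1 (Sum.inr s)) (s.2.1 / 2 ^ (J - v)),
        fun ω hω => ?_⟩
      have e1 : z ω = ζ' 1 (Sum.inr (ptq F Qt ω)) := by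
        have := hω.2 1
        simpa using this
      change plg i0 iu v l2 P2 R (z ω) (F.T1 v ω) = _
      rw [e1]
      rfl
    · refine ⟨fun s => plg i0 iu v l2 P2 R (ζ' 0 (Sum.inl s)) s.2.2, fun ω hω => ?_⟩
      have e1 : z ω = ζ' 0 (Sum.inl (slam F v ω)) := by
        have := hω.2 0
        simpa using this
      change plg i0 iu v l2 P2 R (z ω) (F.T1 v ω) = _
      rw [e1]
      rfl

end Prod

end Pool.KS6
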