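import Pool.Agent.H77.S6.Event

/-!
# Collisions: if two copies given `B` are close with high probability, the entropy is small
-/

set_option autoImplicit false

namespace Pool.KS6

open Finset Real
open Pool.Agent.H49.Ent Pool.Agent.H32.Dense Pool.STK

section Near

variable {Ω V : Type} [Fintype Ω]

open Classical in
/-- Indicator. -/
noncomputable def ind (P : Prop) : ℝ := if P then 1 else 0

lemma ind_nonneg (P : Prop) : 0 ≤ ind P := by unfold ind; split_ifs <;> norm_num

/-- A best centre of the fibre. -/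
theorem centre {p : Ω → ℝ} (hp : IsLaw p) (B : Ω → V) (far : Ω → Ω → Prop) :
    ∃ cen : V → Ω, (∀ ω, 0 < p ω → 0 < p (cen (B ω)) ∧ B (cen (B ω)) = B ω) ∧
      Ex p (fun ω => ind (far (cen (B ω)) ω)) ≤
        Ex (dbl p B) (fun w => ind (far w.1 w.2)) := by
  classical
  -- the mass of far points
  set φ : Ω → ℝ := fun ω => (∑ ω', if B ω' = B ω ∧ far ω ω' then p ω' else 0) /
    law p B (B ω) with hφ
  have hne : Nonempty Ω := by
    by_contra h
    rw [not_nonempty_iff] at h
    have := hp.sum_one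
    simp at this
  have hcen : ∀ b : V, ∃ ω₀ : Ω, ∀ ω, 0 < p ω → B ω = b →
      (0 < p ω₀ ∧ B ω₀ = b ∧ φ ω₀ ≤ φ ω) := by
    intro b
    by_cases h : ∃ ω, 0 < p ω ∧ B ω = b
    · obtain ⟨ω₁, h1, h2⟩ := h
      obtain ⟨ω₀, h3, h4⟩ := Finset.exists_min_image
        (Finset.univ.filter fun ω => 0 < p ω ∧ B ω = b) φ
        ⟨ω₁, Finset.mem_filter.mpr ⟨Finset.mem_univ _, h1, h2⟩⟩
      refine ⟨ω₀, fun ω h5 h6 => ?_⟩
      have h7 := (Finset.mem_filter.mp h3).2
      exact ⟨h7.1, h7.2, h4 ω (Finset.mem_filter.mpr ⟨Finset.mem_univ _, h5, h6⟩)⟩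
    · exact ⟨hne.some, fun ω h5 h6 => absurd ⟨ω, h5, h6⟩ h⟩
  choose cen hcen using hcen
  refine ⟨cen, fun ω hω => ⟨(hcen (B ω) ω hω rfl).1, (hcen (B ω) ω hω rfl).2.1⟩, ?_⟩
  have e1 : Ex (dbl p B) (fun w => ind (far w.1 w.2)) = Ex p φ := by
    unfold Ex
    rw [Fintype.sum_prod_type]
    refine Finset.sum_congr rfl fun ω _ => ?_
    rw [hφ]
    dsimp only
    rw [mul_div_assoc', Finset.mul_sum, Finset.sum_div]
    refine Finset.sum_congr rfl fun ω' _ => ?_
    unfold dbl glue ind
    dsimp only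
    by_cases h1 : B ω = B ω'
    · by_cases h2 : far ω ω'
      · rw [if_pos h1, if_pos h2, if_pos (show B ω' = B ω ∧ far ω ω' from ⟨h1.symm, h2⟩),
          mul_one]
      · rw [if_pos h1, if_neg h2, if_neg (show ¬ (B ω' = B ω ∧ far ω ω') from fun h => h2 h.2)]
        simp
    · rw [if_neg h1, if_neg (show ¬ (B ω' = B ω ∧ far ω ω') from fun h => h1 h.1.symm)]
      simp
  have e2 : Ex p (fun ω => ind (far (cen (B ω)) ω)) = Ex p (fun ω => φ (cen (B ω))) := by
    have e3 : Ex p (fun ω => φ (cen (B ω))) = ∑ ω, ∑ ω', p ω *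
        ((if B ω' = B ω ∧ far (cen (B ω')) ω' then p ω' else 0) / law p B (B ω')) := by
      unfold Ex
      refine Finset.sum_congr rfl fun ω _ => ?_
      rcases (hp.nonneg ω).eq_or_lt with h0 | h0
      · rw [← h0, zero_mul]
        symm
        exact Finset.sum_eq_zero fun ω' _ => by rw [zero_mul]
      · rw [hφ]
        dsimp only
        rw [(hcen (B ω) ω h0 rfl).2.1, ← Finset.mul_sum, Finset.sum_div]
        congr 1
        refine Finset.sum_congr rfl fun ω' _ => ?_
        by_cases h1 : B ω' = B ω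
        · rw [h1]
        · rw [if_neg (fun h => h1 h.1), if_neg (fun h => h1 h.1), zero_div, zero_div]
    rw [e3, Finset.sum_comm]
    unfold Ex
    refine Finset.sum_congr rfl fun ω' _ => ?_
    rcases (hp.nonneg ω').eq_or_lt with h0 | h0
    · rw [← h0, zero_mul]
      symm
      refine Finset.sum_eq_zero fun ω _ => ?_
      split_ifs <;> simp
    · have hl : 0 < law p B (B ω') := law_pos hp.nonneg B h0
      by_cases h2 : far (cen (B ω')) ω'
      · have e4 : ∀ ω ∈ Finset.univ, p ω *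
            ((if B ω' = B ω ∧ far (cen (B ω')) ω' then p ω' else 0) / law p B (B ω')) =
            (if B ω = B ω' then p ω else 0) * (p ω' / law p B (B ω')) := by
          intro ω _
          by_cases h1 : B ω' = B ω
          · rw [if_pos ⟨h1, h2⟩, if_pos h1.symm]
          · rw [if_neg (fun h => h1 h.1), if_neg (fun h => h1 h.symm)]; simp
        rw [Finset.sum_congr rfl e4, ← Finset.sum_mul]
        have e5 : (∑ ω, if B ω = B ω' then p ω else 0) = law p B (B ω') := by
          unfold law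
          exact Finset.sum_congr rfl fun ω _ => by split_ifs <;> rfl
        rw [e5]
        have e6 : ind (far (cen (B ω')) ω') = 1 := by unfold ind; rw [if_pos h2]
        dsimp only
        rw [e6]
        field_simp
      · have e6 : ind (far (cen (B ω')) ω') = 0 := by unfold ind; rw [if_neg h2]
        dsimp only
        rw [e6, mul_zero]
        symm
        refine Finset.sum_eq_zero fun ω _ => ?_
        rw [if_neg (fun h => h2 h.2)]; simp
  rw [e1, e2]
  exact Ex_mono hp.nonneg fun ω hω => (hcen (B ω) ω hω rfl).2.2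

/-- Collisions. -/
theorem CH_le_near {d : ℕ} {p : Ω → ℝ} (hp : IsLaw p) (X : Ω → Fin d → ℤ) (B : Ω → V)
    (r M : ℝ) (hr : 0 ≤ r) (hM : 0 ≤ M)
    (hX : ∀ ω ω', 0 < p ω → 0 < p ω' → ∀ k, |((X ω k - X ω' k : ℤ) : ℝ)| ≤ M) (e : ℝ)
    (hf : Ex (dbl p B) (fun w => ind (¬ ∀ k, |((X w.1 k - X w.2 k : ℤ) : ℝ)| ≤ r)) ≤ e) :
    CH p X B ≤ Real.log 2 + d * (Real.log (4 * r + 1) + e * Real.log (2 * M + 1)) := by
  classical
  obtain ⟨cen, hc1, hc2⟩ := centre hp B
    (fun ω ω' => ¬ ∀ k, |((X ω k - X ω' k : ℤ) : ℝ)| ≤ r)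
  set I : Ω → Bool := fun ω => decide (∀ k, |((X (cen (B ω)) k - X ω k : ℤ) : ℝ)| ≤ r) with hI
  have h1 : CH p X B ≤ CH p I B + CH p X (fun ω => (I ω, B ω)) := CH_le_add hp.nonneg X I B
  have h2 : CH p I B ≤ Real.log 2 := by
    have h3 := CH_le_card hp.nonneg hp.sum_one I B (fun _ => Finset.univ)
      (fun ω _ => Finset.mem_univ _)
    refine h3.trans ?_
    rw [Ex_const hp.sum_one]
    simp
  set L : Ω → ℝ := fun ω => if I ω = true then 2 * r else M with hL
  have h4 : CH p X (fun ω => (I ω, B ω)) ≤ d * Ex p (fun ω => Real.log (2 * L ω + 1)) := by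
    refine CH_le_vec hp.nonneg hp.sum_one X _ L ?_
    intro ω ω' hω hω' h k
    simp only [Prod.mk.injEq] at h
    obtain ⟨h5, h6⟩ := h
    by_cases h7 : I ω = true
    · have h8 : I ω' = true := h5 ▸ h7
      rw [hL]
      dsimp only
      rw [if_pos h7]
      have h9 := of_decide_eq_true h7
      have h10 := of_decide_eq_true h8
      have h11 := h9 k
      have h12 := h10 k
      rw [← h6] at h12
      have h13 : ((X ω k - X ω' k : ℤ) : ℝ) = ((X (cen (B ω)) k - X ω' k : ℤ) : ℝ) -
          ((X (cen (B ω)) k - X ω k : ℤ) : ℝ) := by push_cast; ring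
      rw [h13]
      refine (abs_sub _ _).trans ?_
      linarith
    · rw [hL]
      dsimp only
      rw [if_neg h7]
      exact hX ω ω' hω hω' k
  have hlogM : 0 ≤ Real.log (2 * M + 1) := Real.log_nonneg (by linarith)
  have hlogr : 0 ≤ Real.log (4 * r + 1) := Real.log_nonneg (by linarith)
  have h5 : Ex p (fun ω => Real.log (2 * L ω + 1)) ≤
      Real.log (4 * r + 1) + e * Real.log (2 * M + 1) := by
    have h6 : Ex p (fun ω => Real.log (2 * L ω + 1)) ≤ Ex p (fun ω => Real.log (4 * r + 1) +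
        Real.log (2 * M + 1) * ind (¬ ∀ k, |((X (cen (B ω)) k - X ω k : ℤ) : ℝ)| ≤ r)) := by
      refine Ex_mono hp.nonneg fun ω _ => ?_
      rw [hL]
      dsimp only
      by_cases h7 : I ω = true
      · rw [if_pos h7]
        have h8 := of_decide_eq_true h7
        unfold ind
        rw [if_neg (not_not.mpr h8), mul_zero, add_zero]
        exact le_of_eq (by congr 1; ring)
      · rw [if_neg h7]
        have h8 : ¬ ∀ k, |((X (cen (B ω)) k - X ω k : ℤ) : ℝ)| ≤ r :=
          fun h => h7 (decide_eq_true h)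
        unfold ind
        rw [if_pos h8, mul_one]
        linarith
    rw [Ex_add, Ex_const hp.sum_one, Ex_smul] at h6
    have h9 := mul_le_mul_of_nonneg_left (hc2.trans hf) hlogM
    linarith
  have h10 : (d : ℝ) * Ex p (fun ω => Real.log (2 * L ω + 1)) ≤
      d * (Real.log (4 * r + 1) + e * Real.log (2 * M + 1)) :=
    mul_le_mul_of_nonneg_left h5 (Nat.cast_nonneg d)
  linarith

end Near

end Pool.KS6
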