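import Pool.Agent.H77.S6.Mac

/-!
# Averages over classes from above; digits known from two planks
-/

set_option autoImplicit false

namespace Pool.KS6

open Finset Real
open Pool.Agent.H49.Ent Pool.Agent.H32.Dense Pool.STK

section Upper

variable {Ω S T : Type} [Fintype Ω]

/-- Upper bounds for the classes of probability at least `exp (-κ)`. -/
theorem CH_le_classes {p : Ω → ℝ} (hp : IsLaw p) {N : ℕ} (k : Ω → Fin N) (X : Ω → S)
    (W : Ω → T) (κ M : ℝ) (u : Fin N → ℝ) (hu0 : ∀ j, 0 ≤ u j) (hM0 : 0 ≤ M)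
    (hM : ∀ j, 0 < law p k j → CH (cond p k j) X W ≤ M)
    (hu : ∀ j, Real.exp (-κ) ≤ law p k j → CH (cond p k j) X W ≤ u j) :
    CH p X W ≤ Real.log N + Ex p (fun ω => u (k ω)) + N * Real.exp (-κ) * M := by
  classical
  have h1 := CH_le_add hp.nonneg X k W
  have h2 : CH p k W ≤ Real.log N := by
    have h3 := CH_le_card hp.nonneg hp.sum_one k W (fun _ => Finset.univ)
      (fun ω _ => Finset.mem_univ _)
    refine h3.trans ?_
    rw [Ex_const hp.sum_one]
    simp
  have h3 : CH p X (fun ω => (k ω, W ω)) ≤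
      Ex p (fun ω => u (k ω)) + N * Real.exp (-κ) * M := by
    rw [CH_classes hp k X W]
    have h4 : ∀ j ∈ Finset.univ, law p k j * CH (cond p k j) X W ≤
        law p k j * u j + Real.exp (-κ) * M := by
      intro j _
      have l0 : 0 ≤ law p k j := law_nonneg hp.nonneg k j
      by_cases hj : Real.exp (-κ) ≤ law p k j
      · have a1 := mul_le_mul_of_nonneg_left (hu j hj) l0
        have a7 : 0 ≤ Real.exp (-κ) * M := mul_nonneg (Real.exp_pos _).le hM0
        linarith
      · push Not at hj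
        rcases l0.eq_or_lt with h0 | h0
        · rw [← h0, zero_mul, zero_mul, zero_add]
          exact mul_nonneg (Real.exp_pos _).le hM0
        · have b1 := mul_le_mul_of_nonneg_left (hM j h0) l0
          have b2 : law p k j * M ≤ Real.exp (-κ) * M := mul_le_mul_of_nonneg_right hj.le hM0
          have b3 := mul_nonneg l0 (hu0 j)
          linarith
    have h5 := Finset.sum_le_sum h4
    rw [Finset.sum_add_distrib, Finset.sum_const, Finset.card_univ, Fintype.card_fin,
      nsmul_eq_mul] at h5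
    have e1 : Ex p (fun ω => u (k ω)) = ∑ j, law p k j * u j := by
      have f1 := sum_mul_eq_sum_image p k u
      unfold Ex
      rw [f1]
      refine Finset.sum_subset (Finset.subset_univ _) ?_
      intro j _ hj
      rw [law_eq_zero_of_notMem p k hj, zero_mul]
    rw [e1]
    linarith
  linarith

/-- The digits of a coordinate which are known from two forms: on the support, given `Q`, the
number `a ξ` is known up to `c` and `|a| ≥ 1 / L`. -/
theorem cross_le {p : Ω → ℝ} (hp : IsLaw p) (Q : Ω → T) (ξ a f : Ω → ℝ) (c L : ℝ) (i : ℕ)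
    (hL : 0 < L) (ha : Det p Q a) (hf : Det p Q f)
    (hk : ∀ ω, 0 < p ω → |a ω * ξ ω - f ω| ≤ c) (haL : ∀ ω, 0 < p ω → 1 ≤ L * |a ω|) :
    CH p (fun ω => ⌊2 ^ i * ξ ω⌋) Q ≤ Real.log (2 * (2 ^ i * (2 * c * L) + 1) + 1) := by
  have h1 := CH_le_int hp.nonneg hp.sum_one (fun ω => ⌊2 ^ i * ξ ω⌋) Q
    (fun _ => 2 ^ i * (2 * c * L) + 1) (by
      intro ω ω' hω hω' hQ
      have e1 := ha ω ω' hω hω' hQ
      have e2 := hf ω ω' hω hω' hQ
      have h2 := hk ω hω
      have h3 := hk ω' hω'
      have h4 : |a ω * (ξ ω - ξ ω')| ≤ 2 * c := by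
        have : a ω * (ξ ω - ξ ω') = (a ω * ξ ω - f ω) - (a ω' * ξ ω' - f ω') := by
          rw [← e1, ← e2]; ring
        rw [this]
        refine (abs_sub _ _).trans ?_
        linarith
      rw [abs_mul] at h4
      have h5 : |ξ ω - ξ ω'| ≤ 2 * c * L := by
        have g0 := abs_nonneg (ξ ω - ξ ω')
        calc |ξ ω - ξ ω'| = 1 * |ξ ω - ξ ω'| := by ring
          _ ≤ (L * |a ω|) * |ξ ω - ξ ω'| := mul_le_mul_of_nonneg_right (haL ω hω) g0
          _ = L * (|a ω| * |ξ ω - ξ ω'|) := by ring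
          _ ≤ L * (2 * c) := mul_le_mul_of_nonneg_left h4 hL.le
          _ = 2 * c * L := by ring
      have h6 : (0 : ℝ) < 2 ^ i := by positivity
      have f1 := Int.floor_le ((2 : ℝ) ^ i * ξ ω)
      have f2 := Int.lt_floor_add_one ((2 : ℝ) ^ i * ξ ω)
      have f3 := Int.floor_le ((2 : ℝ) ^ i * ξ ω')
      have f4 := Int.lt_floor_add_one ((2 : ℝ) ^ i * ξ ω')
      rw [abs_le] at h5
      have h7 := mul_le_mul_of_nonneg_left h5.1 h6.le
      have h8 := mul_le_mul_of_nonneg_left h5.2 h6.le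
      push_cast
      rw [abs_le]
      constructor
      · linarith
      · linarith)
  refine h1.trans ?_
  rw [Ex_const hp.sum_one]

/-- The difference of the transversal coordinates in two frames `(1, e)`, `(1, e')` is
`(e' - e) ξ`: if the first is known up to `c` from `z` and the second from `z'`, the digits of
`ξ` up to `2 ^ -i` are known from both, provided `2 ^ -i ≥ c / |e' - e|`. -/
theorem cross_frames {p : Ω → ℝ} (hp : IsLaw p) {U : Type} (z z' : Ω → U) (V : Ω → T)
    (ξ η e e' g g' : Ω → ℝ) (c L : ℝ) (i : ℕ) (hL : 0 < L)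
    (he : Det p (fun ω => (z ω, V ω)) e) (he' : Det p (fun ω => (z' ω, V ω)) e')
    (hg : Det p (fun ω => (z ω, V ω)) g) (hg' : Det p (fun ω => (z' ω, V ω)) g')
    (h1 : ∀ ω, 0 < p ω → |(η ω - e ω * ξ ω) - g ω| ≤ c)
    (h2 : ∀ ω, 0 < p ω → |(η ω - e' ω * ξ ω) - g' ω| ≤ c)
    (hd : ∀ ω, 0 < p ω → 1 ≤ L * |e' ω - e ω|) :
    CH p (fun ω => ⌊2 ^ i * ξ ω⌋) (fun ω => (z ω, z' ω, V ω)) ≤
      Real.log (2 * (2 ^ i * (4 * c * L) + 1) + 1) := by
  have h := cross_le hp (fun ω => (z ω, z' ω, V ω)) ξ (fun ω => e' ω - e ω)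
    (fun ω => g ω - g' ω) (2 * c) L i hL (by
      intro ω ω' hω hω' hh
      simp only [Prod.mk.injEq] at hh
      have a1 := he ω ω' hω hω' (by simp only [Prod.mk.injEq]; exact ⟨hh.1, hh.2.2⟩)
      have a2 := he' ω ω' hω hω' (by simp only [Prod.mk.injEq]; exact hh.2)
      dsimp only
      rw [a1, a2]) (by
      intro ω ω' hω hω' hh
      simp only [Prod.mk.injEq] at hh
      have a1 := hg ω ω' hω hω' (by simp only [Prod.mk.injEq]; exact ⟨hh.1, hh.2.2⟩)
      have a2 := hg' ω ω' hω hω' (by simp only [Prod.mk.injEq]; exact hh.2)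
      dsimp only
      rw [a1, a2]) (by
      intro ω hω
      have b1 := h1 ω hω
      have b2 := h2 ω hω
      have : (e' ω - e ω) * ξ ω - (g ω - g' ω) = ((η ω - e ω * ξ ω) - g ω) -
          ((η ω - e' ω * ξ ω) - g' ω) := by ring
      rw [this]
      refine (abs_sub _ _).trans ?_
      linarith) hd
  have e1 : (2 : ℝ) * (2 * c) * L = 4 * c * L := by ring
  rw [e1] at h
  exact h

end Upper

end Pool.KS6
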