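import Pool.Agent.H77.S6.LC5

/-!
# Lemma C as a claim: planks have no jump at the last rows
-/

set_option autoImplicit false

namespace Pool.KS6

open Finset Real
open Pool.Agent.H49.Ent Pool.Agent.H32.Dense Pool.STK Pool.KA Pool.KSAT Pool.K3 Pool.K2S

/-- **Lemma C (claim), with top row `Q J`.** Scales are multiples of `u = J / N`. There are planks
of the windows `w`, of precisions `w`, `w + l`, `p`, visible from the points at precision
`Q J`; the direction of the fans is conserved to precision `l - b` on the windows `w - y`. If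
three times the deficit of the position in the plank plus `(2 y + b + 1) u + 3 (Q - p u)` is less
than the deficit of the rows after `p₁ u` (`w + l < p₁ ≤ p - y`), then there are plank labels
(visible and conserved) for the windows `w - y`, of thickness almost `p₁ - y - b`. -/
def LCQStmt : Prop :=
  ∀ a R : ℝ, 1 ≤ a → 0 < R → UBa 3 a R → ∀ h₁ η C : ℝ, 0 < h₁ → 0 < η → 1 ≤ C →
    ∀ (N : ℕ) (i0 iu iN : Fin 3), (∀ j : Fin 3, j = i0 ∨ j = iu ∨ j = iN) →
    ∀ w y l p p1 b : ℕ, y ≤ w → y ≤ b + 1 → b < l → w + l < p1 → p1 + y ≤ p → p ≤ N →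
    ∀ Q : ℕ → ℕ, (∀ J, p * (J / N) ≤ Q J ∧ Q J ≤ J) →
    Claim (m := 3) a R (fun J F A => LineAt i0 (1 / 2 ^ ⌊h₁ * J⌋₊) (ptq F (Q J)) F.d A →
      RotU i0 (1 / 2 ^ ((l - b) * (J / N))) (1 / 2 ^ ((l - b) * (J / N))) (ptq F (Q J))
        (slam F ((w - y) * (J / N))) F.d A → ∀ z : F.Ω → Pln,
      (∀ ω, A ω → Inc i0 iu iN (w * (J / N)) (l * (J / N)) (p * (J / N)) C (z ω) (F.t ω)
        (F.x ω) (F.d ω)) →
      (∃ φ : (Fin 3 → ℤ) × (ℕ × F.ζ) → Pln, ∀ ω, A ω → z ω = φ (ptq F (Q J) ω)) →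
      3 * ((((Q J : ℕ) : ℝ) - (w * (J / N) : ℕ) + (((Q J : ℕ) : ℝ) - ((w + l) * (J / N) : ℕ))) *
          Real.log 2 -
          CH (Pool.Agent.H49.Ent.cond F.p A True) (F.X (Q J)) (fun ω => (z ω, F.W ω))) +
        ((((2 * y + b + 1) * (J / N) : ℕ) : ℝ) + 3 * (((Q J : ℕ) : ℝ) - (p * (J / N) : ℕ))) *
          Real.log 2 +
        CH (Pool.Agent.H49.Ent.cond F.p A True) (F.X (Q J))
          (fun ω => (F.X (p1 * (J / N)) ω, F.W ω)) ≤
        3 * (((Q J : ℕ) : ℝ) - (p1 * (J / N) : ℕ)) * Real.log 2 - η * J →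
      LABq F (Q J) i0 iu iN ((w - y) * (J / N)) ((l - b - 1) * (J / N))
        ((p1 - y - b - 2) * (J / N)) 2 A)

/-- **Lemma C (claim).** Scales are multiples of `u = J / N`. There are visible planks of the
windows `w`, of precisions `w`, `w + l`, `p`; the direction of the fans is conserved to precision
`l - b` on the windows `w - y`. If three times the deficit of the position in the plank plus
`(2 y + b + 1) u + 3 (J - p u)` is less than `(R / a) (J - p₁ u)` (`w + l < p₁ ≤ p - y`), then there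
are plank labels (visible and conserved) for the windows `w - y`, of thickness almost
`p₁ - y - b`. -/
def LCStmt : Prop :=
  ∀ a R : ℝ, 1 ≤ a → 0 < R → UBa 3 a R → ∀ h₁ η C : ℝ, 0 < h₁ → 0 < η → 1 ≤ C →
    ∀ (N : ℕ) (i0 iu iN : Fin 3), (∀ j : Fin 3, j = i0 ∨ j = iu ∨ j = iN) →
    ∀ w y l p p1 b : ℕ, y ≤ w → y ≤ b + 1 → b < l → w + l < p1 → p1 + y ≤ p → p ≤ N →
    Claim (m := 3) a R (fun J F A => Lb F i0 ⌊h₁ * J⌋₊ A →
      Cn F i0 ((l - b) * (J / N)) ((w - y) * (J / N)) A → ∀ z : F.Ω → Pln,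
      (∀ ω, A ω → Inc i0 iu iN (w * (J / N)) (l * (J / N)) (p * (J / N)) C (z ω) (F.t ω)
        (F.x ω) (F.d ω)) →
      (∃ φ : (Fin 3 → ℤ) × (ℕ × F.ζ) → Pln, ∀ ω, A ω → z ω = φ (Fam.pt F ω)) →
      3 * ((((J : ℝ) - (w * (J / N) : ℕ)) + ((J : ℝ) - ((w + l) * (J / N) : ℕ))) * Real.log 2 -
          CH (Pool.Agent.H49.Ent.cond F.p A True) (F.X J) (fun ω => (z ω, F.W ω))) +
        ((((2 * y + b + 1) * (J / N) : ℕ) : ℝ) + 3 * ((J : ℝ) - (p * (J / N) : ℕ))) *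
          Real.log 2 ≤
        R / a * ((J : ℝ) - (p1 * (J / N) : ℕ)) - η * J →
      LAB F i0 iu iN ((w - y) * (J / N)) ((l - b - 1) * (J / N)) ((p1 - y - b - 2) * (J / N))
        2 A)

/-- The law of an event in an event. -/
lemma cond_class {Ω : Type} [Fintype Ω] {p : Ω → ℝ} {A B : Ω → Prop} (k : Ω → Fin 2)
    (hk : ∀ ω, k ω = 1 ↔ B ω) (hA : Pe p A ≠ 0) :
    Pool.Agent.H49.Ent.cond (Pool.Agent.H49.Ent.cond p A True) k 1 =
      Pool.Agent.H49.Ent.cond p (fun ω => A ω ∧ B ω) True := by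
  classical
  have e1 : law (Pool.Agent.H49.Ent.cond p A True) k 1 =
      Pe p (fun ω => A ω ∧ B ω) / Pe p A := by
    rw [← Pe_cond, Pe_eq]
    unfold law
    refine Finset.sum_congr rfl fun ω _ => ?_
    by_cases h : B ω
    · rw [if_pos ((hk ω).2 h), if_pos h]
    · rw [if_neg (fun h' => h ((hk ω).1 h')), if_neg h]
  funext ω
  have e2 : law p (fun ω => A ω ∧ B ω) True = Pe p (fun ω => A ω ∧ B ω) := rfl
  have e3 : law p A True = Pe p A := rfl
  unfold Pool.Agent.H49.Ent.cond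
  unfold Pool.Agent.H49.Ent.cond at e1
  rw [e1]
  by_cases hAω : A ω
  · by_cases hB : B ω
    · rw [if_pos ((hk ω).2 hB), if_pos (eq_true hAω), if_pos (eq_true ⟨hAω, hB⟩), e2, e3]
      by_cases h0 : Pe p (fun ω => A ω ∧ B ω) = 0
      · rw [h0]; simp
      · field_simp
    · rw [if_neg (fun h' => hB ((hk ω).1 h')), if_neg (fun h' => hB (of_eq_true h').2)]
  · have e4 : ¬ (A ω ∧ B ω) := fun h => hAω h.1
    rw [if_neg (fun h' => hAω (of_eq_true h')), if_neg (fun h' => e4 (of_eq_true h'))]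
    simp

/-- Removing a rare event. -/
theorem CH_clean {Ω S T : Type} [Fintype Ω] {p : Ω → ℝ} (hp : IsLaw p) {A B : Ω → Prop}
    (hA : 0 < Pe p A) {κ M : ℝ} (hB : Pe p (fun ω => A ω ∧ ¬ B ω) < Real.exp (-κ) * Pe p A)
    (X : Ω → S) (W : Ω → T) (hM0 : 0 ≤ M)
    (hM : ∀ q : Ω → ℝ, IsLaw q → (∀ ω, 0 < q ω → A ω) → CH q X W ≤ M)
    (hAB : 0 < Pe p (fun ω => A ω ∧ B ω)) :
    CH (Pool.Agent.H49.Ent.cond p A True) X W ≤ Real.log 2 +
      CH (Pool.Agent.H49.Ent.cond p (fun ω => A ω ∧ B ω) True) X W +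
      2 * (Real.exp (-κ) * M) := by
  classical
  obtain ⟨q, hq⟩ : ∃ q, q = Pool.Agent.H49.Ent.cond p A True := ⟨_, rfl⟩
  have hql : IsLaw q := by rw [hq]; exact isLaw_cond hp hA
  have hqA : ∀ ω, 0 < q ω → A ω := fun ω hω => by
    rw [hq] at hω
    have := ((cond_pos_iff hp.nonneg A True ω).1 hω).2
    simpa using this
  obtain ⟨k, hk⟩ : ∃ k : Ω → Fin 2, k = fun ω => if B ω then 1 else 0 := ⟨_, rfl⟩
  have hk1 : ∀ ω, k ω = 1 ↔ B ω := by
    intro ω
    rw [hk]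
    by_cases h : B ω
    · simp [h]
    · simp [h]
  have hk0 : ∀ ω, k ω = 0 ↔ ¬ B ω := by
    intro ω
    rw [hk]
    by_cases h : B ω
    · simp [h]
    · simp [h]
  have hc1 := cond_class (p := p) (A := A) (B := B) k hk1 hA.ne'
  have hl0 : law q k 0 < Real.exp (-κ) := by
    have e1 : law q k 0 = Pe p (fun ω => A ω ∧ ¬ B ω) / Pe p A := by
      rw [← Pe_cond, Pe_eq, hq]
      unfold law
      refine Finset.sum_congr rfl fun ω _ => ?_
      by_cases h : B ω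
      · rw [if_neg (fun h' => (hk0 ω).1 h' h), if_neg (not_not.2 h)]
      · rw [if_pos ((hk0 ω).2 h), if_pos h]
    rw [e1, div_lt_iff₀ hA]
    exact hB
  have hlc : ∀ j, 0 < law q k j → IsLaw (cond q k j) := fun j hj =>
    ⟨cond_nonneg hql.nonneg k j, sum_cond q k hj.ne'⟩
  have h := CH_le_classes hql k X W κ M
    (fun _ => CH (Pool.Agent.H49.Ent.cond p (fun ω => A ω ∧ B ω) True) X W)
    (fun _ => CH_nonneg (isLaw_cond hp hAB).nonneg _ _) hM0
    (fun j hj => hM _ (hlc j hj) fun ω hω => hqA ω ((cond_pos_iff hql.nonneg k j ω).1 hω).1)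
    (by
      intro j hj
      fin_cases j
      · exact absurd hj (not_le.2 hl0)
      · refine le_of_eq ?_
        change CH (cond q k 1) X W = _
        rw [hq, hc1])
  rw [Ex_const hql.sum_one] at h
  rw [← hq]
  push_cast at h
  linarith

/-- Removing a rare event, other direction. -/
theorem CH_clean' {Ω S T : Type} [Fintype Ω] {p : Ω → ℝ} (hp : IsLaw p) {A B : Ω → Prop}
    (hA : 0 < Pe p A) {κ M : ℝ} (hB : Pe p (fun ω => A ω ∧ ¬ B ω) < Real.exp (-κ) * Pe p A)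
    (X : Ω → S) (W : Ω → T) (hAB : 0 < Pe p (fun ω => A ω ∧ B ω))
    (hM : CH (Pool.Agent.H49.Ent.cond p (fun ω => A ω ∧ B ω) True) X W ≤ M) :
    CH (Pool.Agent.H49.Ent.cond p (fun ω => A ω ∧ B ω) True) X W ≤
      CH (Pool.Agent.H49.Ent.cond p A True) X W + Real.exp (-κ) * M := by
  classical
  obtain ⟨q, hq⟩ : ∃ q, q = Pool.Agent.H49.Ent.cond p A True := ⟨_, rfl⟩
  have hql : IsLaw q := by rw [hq]; exact isLaw_cond hp hA
  obtain ⟨k, hk⟩ : ∃ k : Ω → Fin 2, k = fun ω => if B ω then 1 else 0 := ⟨_, rfl⟩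
  have hk1 : ∀ ω, k ω = 1 ↔ B ω := by
    intro ω
    rw [hk]
    by_cases h : B ω
    · simp [h]
    · simp [h]
  have hk0 : ∀ ω, k ω = 0 ↔ ¬ B ω := by
    intro ω
    rw [hk]
    by_cases h : B ω
    · simp [h]
    · simp [h]
  have hc1 := cond_class (p := p) (A := A) (B := B) k hk1 hA.ne'
  have hl0 : law q k 0 < Real.exp (-κ) := by
    have e1 : law q k 0 = Pe p (fun ω => A ω ∧ ¬ B ω) / Pe p A := by
      rw [← Pe_cond, Pe_eq, hq]
      unfold law
      refine Finset.sum_congr rfl fun ω _ => ?_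
      by_cases h : B ω
      · rw [if_neg (fun h' => (hk0 ω).1 h' h), if_neg (not_not.2 h)]
      · rw [if_pos ((hk0 ω).2 h), if_pos h]
    rw [e1, div_lt_iff₀ hA]
    exact hB
  have hsum : law q k 0 + law q k 1 = 1 := by
    unfold law
    rw [← Finset.sum_add_distrib, ← hql.sum_one]
    refine Finset.sum_congr rfl fun ω _ => ?_
    by_cases h : B ω
    · rw [if_neg (fun h' => (hk0 ω).1 h' h), if_pos ((hk1 ω).2 h), zero_add]
    · rw [if_pos ((hk0 ω).2 h), if_neg (fun h' => h ((hk1 ω).1 h')), add_zero]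
  have h1 := CH_classes hql k X W
  have h2 : CH q X (fun ω => (k ω, W ω)) ≤ CH q X W :=
    CH_mono_cond hql.nonneg fun _ _ _ _ h => (Prod.ext_iff.mp h).2
  rw [Fin.sum_univ_two] at h1
  have h3 : 0 ≤ law q k 0 * CH (cond q k 0) X W :=
    mul_nonneg (law_nonneg hql.nonneg k 0) (CH_nonneg (cond_nonneg hql.nonneg k 0) _ _)
  rw [← hq] at hc1
  rw [← hc1] at hM ⊢
  rw [← hq]
  have h4 : 0 ≤ CH (cond q k 1) X W := CH_nonneg (cond_nonneg hql.nonneg k 1) _ _
  have h5 : law q k 0 * CH (cond q k 1) X W ≤ Real.exp (-κ) * M :=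
    mul_le_mul hl0.le hM h4 (Real.exp_pos _).le
  have h6 : CH (cond q k 1) X W = law q k 0 * CH (cond q k 1) X W +
      law q k 1 * CH (cond q k 1) X W := by
    rw [← add_mul, hsum, one_mul]
  linarith

/-- A ball at coarse points is a ball at exact points. -/
theorem ball_coarse {J : ℕ} (F : Fam 3 J) {Qt : ℕ} (hQ : Qt ≤ J) {r : ℝ} {A : F.Ω → Prop}
    (h : Ball r (ptq F Qt) F.d A) : Ball r (Fam.pt F) F.d A := by
  classical
  obtain ⟨ζ, hζ⟩ := h
  refine ⟨fun u => if hu : ∃ ω, A ω ∧ Fam.pt F ω = u then ζ (ptq F Qt hu.choose) else 0,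
    fun ω hω => ?_⟩
  have hu : ∃ ω', A ω' ∧ Fam.pt F ω' = Fam.pt F ω := ⟨ω, hω, rfl⟩
  have e1 : ptq F Qt hu.choose = ptq F Qt ω := by
    have h1 := hu.choose_spec.2
    have h2 : F.X J hu.choose = F.X J ω := (Prod.ext_iff.mp h1).1
    have h3 : F.W hu.choose = F.W ω := (Prod.ext_iff.mp h1).2
    exact Prod.ext (Pool.STK.B58.fl_fine hQ h2) h3
  have h4 := hζ ω hω
  rw [← e1] at h4
  simp only [dif_pos hu]
  exact h4

/-- The number of digits between two precisions. -/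
theorem rows_card {J : ℕ} (F : Fam 3 J) {Qt P1 : ℕ} {q : F.Ω → ℝ} (hq : IsLaw q) :
    CH q (F.X Qt) (fun ω => (F.X P1 ω, F.W ω)) ≤ 3 * ((Qt : ℝ) + Real.log 5) := by
  have hQ : (0 : ℝ) < 2 ^ Qt := by positivity
  have h := CH_le_vec hq.nonneg hq.sum_one (F.X Qt) (fun ω => (F.X P1 ω, F.W ω))
    (fun _ => 2 * 2 ^ Qt) (by
      intro ω ω' _ _ hh k
      have h1 : F.X P1 ω = F.X P1 ω' := (Prod.ext_iff.mp hh).1
      have h2 : ⌊(2 : ℝ) ^ P1 * F.x ω k⌋ = ⌊(2 : ℝ) ^ P1 * F.x ω' k⌋ := congrFun h1 k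
      have h3 := floor_close h2
      have h4 : |F.x ω k - F.x ω' k| ≤ 1 := h3.trans (by
        rw [div_le_one (by positivity)]
        exact one_le_pow₀ (by norm_num))
      have h5 := fl_near' (Q := Qt) h4
      have h6 : (1 : ℝ) ≤ 2 ^ Qt := one_le_pow₀ (by norm_num)
      change |((⌊(2 : ℝ) ^ Qt * F.x ω k⌋ - ⌊(2 : ℝ) ^ Qt * F.x ω' k⌋ : ℤ) : ℝ)| ≤ _
      linarith)
  rw [Ex_const hq.sum_one] at h
  have h1 : Real.log (2 * (2 * 2 ^ Qt) + 1) ≤ Qt + Real.log 5 := by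
    have h6 : (1 : ℝ) ≤ 2 ^ Qt := one_le_pow₀ (by norm_num)
    have h2 : (2 * (2 * 2 ^ Qt) + 1 : ℝ) ≤ 2 ^ Qt * 5 := by linarith
    have h3 := Real.log_le_log (by positivity) h2
    rw [Real.log_mul (by positivity) (by norm_num), Real.log_pow] at h3
    have h4 : (Qt : ℝ) * Real.log 2 ≤ Qt * 1 := by
      refine mul_le_mul_of_nonneg_left ?_ (Nat.cast_nonneg Qt)
      have := Real.log_two_lt_d9
      linarith
    linarith
  push_cast at h
  linarith

end Pool.KS6
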