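import Pool.Agent.H77.S6.FR

/-!
# Sequential counting
-/

set_option autoImplicit false

namespace Pool.KS6

open Finset Real
open Pool.Agent.H49.Ent Pool.Agent.H32.Dense Pool.STK

variable {Ω V : Type} [Fintype Ω]

/-- Sequential count: given the earlier coordinates, the coordinate `i` is known up to `L i`. -/
theorem CH_le_seq {p : Ω → ℝ} (hp : IsLaw p) (Q : Ω → V) : ∀ {n : ℕ} (X : Ω → Fin n → ℤ)
    (L : Fin n → Ω → ℝ) (_ : ∀ i ω ω', 0 < p ω → 0 < p ω' → Q ω = Q ω' →
      (∀ j, j < i → X ω j = X ω' j) → |((X ω i - X ω' i : ℤ) : ℝ)| ≤ L i ω),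
    CH p X Q ≤ ∑ i, Ex p (fun ω => Real.log (2 * L i ω + 1)) := by
  intro n
  induction n with
  | zero =>
    intro X L _
    rw [Finset.univ_eq_empty, Finset.sum_empty]
    refine (CH_eq_zero hp.nonneg (X := X) (W := Q) ?_).le
    intro ω ω' _ _ _
    funext i
    exact Fin.elim0 i
  | succ n ih =>
    intro X L h
    have h1 := ih (fun ω i => X ω i.castSucc) (fun i => L i.castSucc)
      (fun i ω ω' a b c d => h i.castSucc ω ω' a b c (fun j hj => by
        have hjn : (j : ℕ) < n := lt_of_lt_of_le (Fin.lt_def.1 hj) (by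
          have := i.isLt
          simp only [Fin.val_castSucc]
          omega)
        have := d ⟨j, hjn⟩ (by
          rw [Fin.lt_def] at hj ⊢
          simpa using hj)
        simpa using this))
    have h2 := CH_le_int hp.nonneg hp.sum_one (fun ω => X ω (Fin.last n))
      (fun ω => ((fun i : Fin n => X ω i.castSucc), Q ω)) (L (Fin.last n))
      (fun ω ω' a b c => by
        have c1 := Prod.ext_iff.mp c
        refine h (Fin.last n) ω ω' a b c1.2 (fun j hj => ?_)
        have hjn : (j : ℕ) < n := Fin.lt_def.1 hj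
        have := congrFun c1.1 ⟨j, hjn⟩
        simpa using this)
    rw [Fin.sum_univ_castSucc]
    have h3 : CH p X Q ≤ CH p (fun ω => (X ω (Fin.last n), fun i : Fin n => X ω i.castSucc)) Q := by
      refine CH_mono_left hp.nonneg ?_
      intro ω ω' _ _ e
      have e1 := Prod.ext_iff.mp (Prod.ext_iff.mp e).1
      funext i
      rcases Fin.eq_castSucc_or_eq_last i with ⟨j, rfl⟩ | rfl
      · exact congrFun e1.2 j
      · exact e1.1
    rw [CH_chain hp.nonneg] at h3
    linarith

/-- Sequential count, with powers of two. -/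
theorem CH_le_pow {p : Ω → ℝ} (hp : IsLaw p) (Q : Ω → V) {n : ℕ} (X : Ω → Fin n → ℤ)
    (c : Fin n → ℝ) (a : Fin n → Ω → ℕ) (hc : ∀ i, 0 ≤ c i)
    (h : ∀ i ω ω', 0 < p ω → 0 < p ω' → Q ω = Q ω' →
      (∀ j, j < i → X ω j = X ω' j) → |((X ω i - X ω' i : ℤ) : ℝ)| ≤ c i * 2 ^ a i ω) :
    CH p X Q ≤ Ex p (fun ω => ((∑ i, a i ω : ℕ) : ℝ)) * Real.log 2 +
      ∑ i, Real.log (2 * c i + 1) := by
  have h1 := CH_le_seq hp Q X (fun i ω => c i * 2 ^ a i ω) h
  have h2 : ∀ i, Ex p (fun ω => Real.log (2 * (c i * 2 ^ a i ω) + 1)) ≤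
      Ex p (fun ω => (a i ω : ℝ)) * Real.log 2 + Real.log (2 * c i + 1) := by
    intro i
    have h3 : Ex p (fun ω => Real.log (2 * (c i * 2 ^ a i ω) + 1)) ≤
        Ex p (fun ω => (a i ω : ℝ) * Real.log 2 + Real.log (2 * c i + 1)) := by
      refine Ex_mono hp.nonneg fun ω _ => ?_
      have hci := hc i
      rw [← Real.log_pow, ← Real.log_mul (by positivity) (by positivity)]
      refine Real.log_le_log (by positivity) ?_
      have h1 : (1 : ℝ) ≤ 2 ^ a i ω := one_le_pow₀ (by norm_num)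
      nlinarith
    refine h3.trans (le_of_eq ?_)
    unfold Ex
    rw [Finset.sum_mul]
    have e1 : ∀ ω, p ω * ((a i ω : ℝ) * Real.log 2 + Real.log (2 * c i + 1)) =
        p ω * (a i ω : ℝ) * Real.log 2 + p ω * Real.log (2 * c i + 1) := fun ω => by ring
    rw [Finset.sum_congr rfl fun ω _ => e1 ω, Finset.sum_add_distrib, ← Finset.sum_mul,
      ← Finset.sum_mul, hp.sum_one, one_mul]
  refine h1.trans ((Finset.sum_le_sum fun i _ => h2 i).trans (le_of_eq ?_))
  rw [Finset.sum_add_distrib, ← Finset.sum_mul]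
  congr 2
  unfold Ex
  rw [Finset.sum_comm]
  refine Finset.sum_congr rfl fun ω _ => ?_
  rw [← Finset.mul_sum]
  push_cast
  rfl

end Pool.KS6
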