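import Pool.Agent.H77.S6.FQ9

/-!
# Planks at truncated points, one family
-/

set_option autoImplicit false

namespace Pool.KS6

open Finset Real
open Pool.Agent.H49.Ent Pool.Agent.H32.Dense Pool.STK Pool.KA Pool.KSAT Pool.K3 Pool.K2S

/-- The hypotheses of the entropy argument, in both cases. -/
lemma mk_fqh2 {J : ℕ} {F : Fam 3 J} {Qt : ℕ} {i0 iu iN : Fin 3} {W lam : ℕ} {C : ℝ}
    {z : F.Ω → Pln} {A : F.Ω → Prop} (hQJ : Qt ≤ J) (hi : ∀ j : Fin 3, j = i0 ∨ j = iu ∨ j = iN)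
    (hC : 1 ≤ C) {l2 P1 Pt : ℕ} (hA : ∀ ω, 0 < F.p ω → A ω)
    (hI : ∀ ω, A ω → Inc i0 iu iN W lam Pt C (z ω) (F.t ω) (F.x ω) (F.d ω))
    {φ : (Fin 3 → ℤ) × (ℕ × F.ζ) → Pln} (hφ : ∀ ω, A ω → z ω = φ (Fam.pt F ω))
    {ψ : ((Fin 3 → ℝ) × (Fin 3 → ℝ)) × F.ζ × ℕ → Pln} (hψ : ∀ ω, A ω → z ω = ψ (slam F W ω))
    {s : ℝ} (hs : 0 < s) (hsp : SpreadI i0 s (Fam.pt F) F.d A)
    (hon : l2 = 0 ∨ LineU i0 (1 / 2 ^ lam) (ptq F Qt) F.d A)
    (hnum : l2 = 0 ∨ (4 * (1 + 3 * C) * 2 ^ l2 ≤ s * 2 ^ lam ∧ l2 ≤ lam))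
    (h1 : W + l2 ≤ P1) (h2 : P1 ≤ Pt) (h3 : Pt ≤ Qt) :
    ∃ (z' : F.Ω → Pln) (ψ' : ((Fin 3 → ℝ) × (Fin 3 → ℝ)) × F.ζ × ℕ → Pln),
      FQH F Qt Pt i0 iu iN W l2 P1 (3 * C) z' ∧
      (∀ ω, 0 < F.p ω → z' ω = ψ' (slam F W ω)) ∧
      CH F.p (F.X Qt) (fun ω => (z ω, F.W ω)) ≤ CH F.p (F.X Qt) (fun ω => (z' ω, F.W ω)) := by
  by_cases hl : l2 = 0
  · subst hl
    refine ⟨fun ω => ⟨0, (z ω).c, (z ω).s, (z ω).xb, (z ω).db⟩,
      fun v => ⟨0, (ψ v).c, (ψ v).s, (ψ v).xb, (ψ v).db⟩,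
      mk_fqh0 hQJ hi hC hA hI (by omega) h2 h3, fun ω hω => ?_, ?_⟩
    · simp only
      rw [← hψ ω (hA ω hω)]
    · refine CH_mono_cond F.isLaw.nonneg fun ω ω' _ _ h => ?_
      obtain ⟨a1, a2⟩ := Prod.ext_iff.mp h
      have a3 : z ω = z ω' := a1
      refine Prod.ext ?_ a2
      simp only
      rw [a3]
  · obtain ⟨e, n, hon⟩ := hon.resolve_left hl
    obtain ⟨hn1, hn2⟩ := hnum.resolve_left hl
    refine ⟨z, ψ, mk_fqh hQJ hi (by linarith only [hC]) hA (fun ω hω => (hI ω hω).mono (by linarith only [hC]) le_rfl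
      le_rfl (by linarith only [hC])) hφ hs hsp hon hn1 hn2 h1 h2 h3, fun ω hω => hψ ω (hA ω hω), le_rfl⟩

lemma log_small {η : ℝ} (hη : 0 < η) {n J : ℕ} (h : n ≤ J) :
    Real.log ((n : ℝ) + 1) ≤ η * J + η + |Real.log η| := by
  have h1 : Real.log (η * ((n : ℝ) + 1)) ≤ η * ((n : ℝ) + 1) - 1 :=
    Real.log_le_sub_one_of_pos (by positivity)
  rw [Real.log_mul (by positivity) (by positivity)] at h1
  have h2 := neg_abs_le (Real.log η)
  have h3 : (n : ℝ) ≤ J := by exact_mod_cast h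
  have h4 : η * (n : ℝ) ≤ η * J := mul_le_mul_of_nonneg_left h3 hη.le
  linarith only [h1, h2, h4]

/-- **Planks at truncated points**, one family: a plank label of thickness `Pt` at the exact points,
with small deficit, gives a plank label of thickness almost `P1` at the points at precision `Q`, if
the rows between `P1` and `Q` are not full. -/
theorem frq_core {a R : ℝ} (ha : 1 < a) (hR : 0 < R) (hU : UBa 3 a R) {h₁ η x C : ℝ}
    (hh₁ : 0 < h₁) (hη : 0 < η) (hx : 0 < x) (hC : 1 ≤ C) :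
    ∃ c₀ > 0, ∀ κ > 0, ∃ τ > 0, ∃ J₁ : ℕ, ∀ J ≥ J₁, ∀ (F : Fam 3 J) (A : F.Ω → Prop),
      Fam.Stt F a R τ A →
      ∀ i0 iu iN : Fin 3, (∀ j : Fin 3, j = i0 ∨ j = iu ∨ j = iN) →
      ∀ W lam l2 P1 P2 Pt Q V : ℕ, (l2 = 0 ∨ l2 + x * J ≤ lam) → W + l2 + x * J ≤ P1 →
      P2 + x * J ≤ P1 → P1 ≤ Pt → Pt ≤ Q → Q ≤ J → W ≤ V → V + l2 ≤ Q →
      Stb F.p (κ * J) A (Ball (1 / 2 ^ ⌈min h₁ (min x 1) / 8 * J⌉₊) (Fam.pt F) F.d) →
      Lb F i0 ⌊h₁ * J⌋₊ A → (l2 = 0 ∨ LineU i0 (1 / 2 ^ lam) (ptq F Q) F.d A) →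
      ∀ z : F.Ω → Pln,
      (∀ ω, A ω → Inc i0 iu iN W lam Pt C (z ω) (F.t ω) (F.x ω) (F.d ω)) →
      (∃ φ : (Fin 3 → ℤ) × (ℕ × F.ζ) → Pln, ∀ ω, A ω → z ω = φ (Fam.pt F ω)) →
      (∃ ψ : ((Fin 3 → ℝ) × (Fin 3 → ℝ)) × F.ζ × ℕ → Pln, ∀ ω, A ω → z ω = ψ (slam F W ω)) →
      2 * ((((Q : ℝ) - W) + ((Q : ℝ) - (W + l2 : ℕ))) * Real.log 2 -
        CH (Pool.Agent.H49.Ent.cond F.p A True) (F.X Q) (fun ω => (z ω, F.W ω))) +
        2 * ((Q : ℝ) - Pt) * Real.log 2 +
        CH (Pool.Agent.H49.Ent.cond F.p A True) (F.X Q) (fun ω => (F.X P1 ω, F.W ω)) ≤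
        3 * ((Q : ℝ) - P1) * Real.log 2 - η * J →
      ∃ B : F.Ω → Prop, Sub B A ∧ c₀ * Pe F.p A ≤ Pe F.p B ∧ LABq F Q i0 iu iN V l2 P2 2 B := by
  classical
  have ha0 : 0 < a := by linarith only [ha]
  obtain ⟨x₀, hx₀⟩ : ∃ x₀, x₀ = min h₁ (min x 1) / 8 := ⟨_, rfl⟩
  rw [← hx₀]
  have hx00 : 0 < x₀ := by rw [hx₀]; have := lt_min hh₁ (lt_min hx one_pos); linarith only [this]
  have hx01 : x₀ ≤ h₁ / 8 := by
    rw [hx₀]
    have := min_le_left h₁ (min x 1)
    linarith only [this]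
  have hx02 : x₀ ≤ x / 8 := by
    rw [hx₀]
    have := (min_le_right h₁ (min x 1)).trans (min_le_left _ _)
    linarith only [this]
  have hx03 : x₀ ≤ 1 / 8 := by
    rw [hx₀]
    have := (min_le_right h₁ (min x 1)).trans (min_le_right _ _)
    linarith only [this]
  obtain ⟨cB, hcB⟩ : ∃ cB : ℝ, cB = Real.exp (-(8 * (3 * Real.log 15 +
    6 * Real.log (16 * cP (3 * C) + 21)))) / 2 := ⟨_, rfl⟩
  have hcB0 : 0 < cB := by rw [hcB]; positivity
  obtain ⟨β, hβ⟩ : ∃ β : ℝ, β = min 1 (η / 8) := ⟨_, rfl⟩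
  have hβ0 : 0 < β := by rw [hβ]; exact lt_min one_pos (by positivity)
  have hβ1 : β ≤ η / 8 := by rw [hβ]; exact min_le_right _ _
  refine ⟨cB * β / 2, by positivity, fun κ hκ => ?_⟩
  obtain ⟨τ₁, hτ₁, J₂, hball⟩ := not_ball (ap6r_thm ap5_thm (ap2_thm aop_thm) tub_thm) ha.le hR hU
    hx00
  obtain ⟨τ', hτ'⟩ : ∃ τ', τ' = min τ₁ (η / 16) := ⟨_, rfl⟩
  have hτ'0 : 0 < τ' := by rw [hτ']; exact lt_min hτ₁ (by positivity)
  obtain ⟨τ, hτ⟩ : ∃ τ, τ = τ' / (7 * (1 + a)) := ⟨_, rfl⟩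
  have hτ0 : 0 < τ := by rw [hτ]; positivity
  obtain ⟨LM, hLM⟩ : ∃ LM : ℝ, LM = Real.log (2 * (2 * C + 9) + 1) := ⟨_, rfl⟩
  have hLM0 : 0 ≤ LM := by rw [hLM]; exact Real.log_nonneg (by linarith only [hC, hx00, hx03])
  obtain ⟨L1, hL1⟩ : ∃ L1 : ℝ, L1 = 3 * Real.log (2 * (10 * (3 * C) + 11) + 1) +
    6 * Real.log (2 * (4 * (3 * C) + 100) + 1) + 2 * cRq (3 * C) := ⟨_, rfl⟩
  have hL10 : 0 ≤ L1 := by
    rw [hL1]
    have h1 : 0 ≤ Real.log (2 * (10 * (3 * C) + 11) + 1) := Real.log_nonneg (by linarith only [hC, hx00, hx03])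
    have h2 : 0 ≤ Real.log (2 * (4 * (3 * C) + 100) + 1) := Real.log_nonneg (by linarith only [hC, hx00, hx03])
    have h3 : 0 ≤ cRq (3 * C) := cRq_nonneg (by linarith only [hC, hx00, hx03])
    positivity
  have hl5 : 0 ≤ Real.log 5 := Real.log_nonneg (by norm_num)
  have hl20 : 0 ≤ Real.log 2 := Real.log_nonneg (by norm_num)
  have hl21 : Real.log 2 ≤ 1 := by
    have := Real.log_two_lt_d9
    linarith only [hx00, hx03, this]
  obtain ⟨Cst, hCst⟩ : ∃ Cst : ℝ, Cst = L1 + 3 * (|Real.log (η / 24)| + η / 24) +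
    2 * Real.log 2 + 4 * (3 / κ + 3 * LM) + (3 / κ + 3 * Real.log 5) := ⟨_, rfl⟩
  have hCst0 : 0 ≤ Cst := by rw [hCst]; positivity
  obtain ⟨nC, hnC⟩ : ∃ nC : ℕ, 4 * (1 + 3 * C) < 2 ^ nC := pow_unbounded_of_one_lt _ (by norm_num)
  obtain ⟨nK, hnK⟩ : ∃ nK : ℕ, 96 * (3 * C) + (96 * (3 * C)) ^ 2 < 2 ^ nK :=
    pow_unbounded_of_one_lt _ (by norm_num)
  obtain ⟨J₁, hJ₁⟩ := exists_nat_gt (Cst / (η / 8) + J₂ + 16 / x₀ + (nC + nK + 4) / (x / 2) +
    (Real.log 2 / τ + 1 / κ) + 1)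
  refine ⟨τ, hτ0, J₁, ?_⟩
  intro J hJ F A hS i0 iu iN hi W lam l2 P1 P2 Pt Q V hl2 hWP hP2 hP1t hPtQ hQJ hWV hVQ hs1 hb
    hln z hI hφ hψ hnum
  have hJr : Cst / (η / 8) + J₂ + 16 / x₀ + (nC + nK + 4) / (x / 2) +
    (Real.log 2 / τ + 1 / κ) + 1 < J :=
    hJ₁.trans_le (by exact_mod_cast hJ)
  have t1 : 0 ≤ Cst / (η / 8) := by positivity
  have t2 : (0 : ℝ) ≤ J₂ := by positivity
  have t4 : 0 ≤ 16 / x₀ := by positivity
  have t5 : 0 ≤ ((nC : ℝ) + nK + 4) / (x / 2) := by positivity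
  have t6 : 0 ≤ Real.log 2 / τ := by positivity
  have t6' : 0 ≤ 1 / κ := by positivity
  have hJ0 : (0 : ℝ) < J := by linarith only [hx00, hx03, hJr, t1, t4, t5, t6, t6']
  have k1 : Cst < η / 8 * J := by
    have : Cst / (η / 8) < J := by linarith only [hx00, hx03, hJr, t4, t5, t6, t6']
    rw [div_lt_iff₀ (by positivity)] at this
    linarith only [this]
  have k2 : J₂ ≤ J := by
    have : (J₂ : ℝ) ≤ J := by linarith only [hx00, hx03, hJr, t1, t4, t5, t6, t6']
    exact_mod_cast this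
  have k4 : 16 < x₀ * J := by
    have : 16 / x₀ < J := by linarith only [hx00, hx03, hJr, t1, t5, t6, t6']
    rw [div_lt_iff₀ hx00] at this
    linarith only [this]
  have k5 : (nC : ℝ) + nK + 4 < x / 2 * J := by
    have : ((nC : ℝ) + nK + 4) / (x / 2) < J := by linarith only [hx00, hx03, hJr, t1, t4, t6, t6']
    rw [div_lt_iff₀ (by positivity)] at this
    linarith only [this]
  have k6 : Real.log 2 < τ * J := by
    have : Real.log 2 / τ < J := by linarith only [hx00, hx03, hJr, t1, t4, t5, t6']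
    rw [div_lt_iff₀ hτ0] at this
    linarith only [this]
  have k6' : 1 < κ * J := by
    have : 1 / κ < J := by linarith only [hx00, hx03, hJr, t1, t4, t5, t6]
    rw [div_lt_iff₀ hκ] at this
    linarith only [this]
  obtain ⟨hTr, hMx, hRb, hPA⟩ := hS
  have hp := F.isLaw
  have hA0 : 0 < Pe F.p A := lt_of_lt_of_le (Real.exp_pos _) hPA
  have hxh : ⌈x₀ * J⌉₊ + 3 ≤ ⌊h₁ * J⌋₊ := by
    have h1 : (⌈x₀ * J⌉₊ : ℝ) < x₀ * J + 1 := Nat.ceil_lt_add_one (by positivity)
    have h2 : x₀ * J ≤ h₁ / 8 * J := mul_le_mul_of_nonneg_right hx01 hJ0.le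
    refine Nat.le_floor ?_
    push_cast
    linarith only [hx00, hx03, k4, h1, h2]
  -- no balls
  obtain ⟨hlawA, -, hMxA, -⟩ := max_res F ha.le hτ0.le hτ0.le hTr hMx hRb A hPA
  have hle : ∀ (G : Fam 3 J) (s t : ℝ), s ≤ t → G.Mx a R s → G.Mx a R t := by
    intro G s t hst hG
    exact Mx_mono hst hG
  have e6 : (1 + a) * (5 * τ + τ) ≤ τ' := by
    rw [hτ]
    have : (1 + a) * (5 * (τ' / (7 * (1 + a))) + τ' / (7 * (1 + a))) = 6 / 7 * τ' := by
      field_simp
      ring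
    rw [this]
    linarith only [hτ'0]
  have hnb : ¬ Ball (1 / 2 ^ ⌈x₀ * J⌉₊) (Fam.pt F) F.d A := by
    rintro ⟨ζ, hζ⟩
    have hxJ : ⌈x₀ * J⌉₊ ≤ J := by
      have h1 : (⌈x₀ * J⌉₊ : ℝ) < x₀ * J + 1 := Nat.ceil_lt_add_one (by positivity)
      have h2 : x₀ * J ≤ 1 / 8 * J := mul_le_mul_of_nonneg_right hx03 hJ0.le
      have h3 : (⌈x₀ * J⌉₊ : ℝ) ≤ J := by linarith only [hx00, hx03, k4, h1, h2]
      exact_mod_cast h3
    refine hball J k2 (F.res A True hlawA) (hle _ _ τ₁ ?_ hMxA) ⌈x₀ * J⌉₊ hxJ (Nat.le_ceil _)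
      ⟨ζ, ?_⟩
    · refine e6.trans ?_
      rw [hτ']
      exact min_le_left _ _
    · intro ω hω i
      have hω' : A ω := by
        have := ((cond_pos_iff hp.nonneg A True ω).1 hω).2
        simpa using this
      exact hζ ω hω' i
  -- cleaning
  obtain ⟨r, hr⟩ : ∃ r : ℝ, r = 1 / 2 ^ ⌈x₀ * J⌉₊ := ⟨_, rfl⟩
  rw [← hr] at hnb hs1
  obtain ⟨G, hG⟩ : ∃ G : F.Ω → Prop, G = fun ω => ¬ Thin r (Fam.pt F) F.d A ω := ⟨_, rfl⟩
  obtain ⟨A', hA'⟩ : ∃ A' : F.Ω → Prop, A' = fun ω => A ω ∧ G ω := ⟨_, rfl⟩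
  have hthin := hs1.thin_lt hnb
  have hthin' : Pe F.p (fun ω => A ω ∧ ¬ G ω) < Real.exp (-(κ * J)) * Pe F.p A := by
    refine lt_of_le_of_lt (le_of_eq ?_) hthin
    congr 1
    funext ω
    rw [hG]
    simp only [not_not]
  have hexp2 : Real.exp (-(κ * J)) ≤ 1 / 2 := by
    have h1 : Real.exp (-(κ * J)) ≤ Real.exp (-1) := Real.exp_le_exp.2 (by linarith only [k6'])
    have h2 : Real.exp (-1) ≤ 1 / 2 := by
      rw [Real.exp_neg, inv_eq_one_div]
      have := Real.add_one_le_exp (1 : ℝ)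
      exact one_div_le_one_div_of_le (by norm_num) (by linarith only [this])
    linarith only [h1, h2]
  have hPA' : Real.exp (-Real.log 2) * Pe F.p A ≤ Pe F.p A' := by
    have h1 : Pe F.p (fun ω => A ω ∧ Thin r (Fam.pt F) F.d A ω) ≤ Pe F.p A / 2 := by
      have := mul_le_mul_of_nonneg_right hexp2 hA0.le
      linarith only [hthin, this]
    have h2 := Pe_diff h1
    rw [hA', hG]
    exact h2
  have hA'0 : 0 < Pe F.p A' := lt_of_lt_of_le (by positivity) hPA'
  have hPA'' : Real.exp (-(2 * τ * J)) ≤ Pe F.p A' := by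
    refine le_trans ?_ hPA'
    calc Real.exp (-(2 * τ * J)) ≤ Real.exp (-Real.log 2 + -(τ * J)) :=
          Real.exp_le_exp.2 (by linarith only [k6])
      _ = Real.exp (-Real.log 2) * Real.exp (-(τ * J)) := Real.exp_add _ _
      _ ≤ _ := mul_le_mul_of_nonneg_left hPA (Real.exp_pos _).le
  have hsub : ∀ ω, A' ω → A ω := fun ω hω => by rw [hA'] at hω; exact hω.1
  obtain ⟨hlaw, -, hMx', -⟩ := max_res F ha.le hτ0.le (by positivity) hTr hMx hRb A' hPA''
  have e7 : (1 + a) * (5 * τ + 2 * τ) = τ' := by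
    rw [hτ]
    field_simp
    ring
  rw [e7] at hMx'
  have hpos : ∀ ω, 0 < (F.res A' True hlaw).p ω → A' ω := fun ω hω => by
    have := ((cond_pos_iff hp.nonneg A' True ω).1 hω).2
    simpa using this
  -- the planks on the clean event
  obtain ⟨φ, hφ⟩ := hφ
  obtain ⟨ψ, hψ⟩ := hψ
  obtain ⟨e₀, n₀, hfr⟩ := hb
  have hspr : Spread r (Fam.pt F) F.d A' := by
    rw [hA', hG]
    exact spread_of_not_thin r (Fam.pt F) F.d A
  have hfr' : IsFrame i0 (1 / 2 ^ ⌊h₁ * J⌋₊) (Fam.pt F) F.d A' e₀ n₀ := hfr.sub hsub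
  have hspI := hfr'.spreadI hspr
  obtain ⟨s, hs⟩ : ∃ s : ℝ, s = r - 2 * (1 / 2 ^ ⌊h₁ * J⌋₊) := ⟨_, rfl⟩
  rw [← hs] at hspI
  have hr0 : 0 < r := by rw [hr]; positivity
  have hsr : r / 2 ≤ s := by
    have h1 : (1 : ℝ) / 2 ^ ⌊h₁ * J⌋₊ ≤ 1 / 2 ^ (⌈x₀ * J⌉₊ + 3) :=
      one_div_le_one_div_of_le (by positivity) (pow_le_pow_right₀ (by norm_num) hxh)
    have h2 : (1 : ℝ) / 2 ^ (⌈x₀ * J⌉₊ + 3) = r / 8 := by
      rw [hr, pow_add]
      field_simp
      norm_num
    rw [hs]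
    linarith only [hr0, h1, h2]
  have hs00 : 0 < s := by linarith only [hr0, hsr]
  -- numbers
  have hceil : (⌈x₀ * J⌉₊ : ℝ) < x₀ * J + 1 := Nat.ceil_lt_add_one (by positivity)
  have hx2J : x₀ * J ≤ x / 8 * J := mul_le_mul_of_nonneg_right hx02 hJ0.le
  have hxJ0 : 0 < x * J := by positivity
  have hWl : W + l2 ≤ P1 := by
    have : ((W + l2 : ℕ) : ℝ) ≤ P1 := by push_cast; linarith only [hx00, hx03, hWP, k4, hx2J]
    exact_mod_cast this
  have hWln : W + l2 + nK ≤ P1 := by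
    have : ((W + l2 + nK : ℕ) : ℝ) ≤ P1 := by
      push_cast
      have : (0 : ℝ) ≤ nC := Nat.cast_nonneg nC
      linarith only [hx00, hx03, hWP, k4, k5, hx2J]
    exact by
     exact_mod_cast this
  exact by
   have hP2n : P2 ≤ P1 - nK := by
     have h1 : ((P2 + nK : ℕ) : ℝ) ≤ P1 := by
       push_cast
       have : (0 : ℝ) ≤ nC := Nat.cast_nonneg nC
       linarith only [hx00, hx03, hP2, k4, k5, hx2J]
     exact by
      have h2 : P2 + nK ≤ P1 := by exact_mod_cast h1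
      omega
   exact by
    have hnum2 : l2 = 0 ∨ (4 * (1 + 3 * C) * 2 ^ l2 ≤ s * 2 ^ lam ∧ l2 ≤ lam) := by
      exact by
       rcases hl2 with h | h
       · exact Or.inl h
       refine Or.inr ⟨?_, ?_⟩
       · have h1 : ((l2 + nC + (⌈x₀ * J⌉₊ + 1) : ℕ) : ℝ) ≤ lam := by
           push_cast
           have : (0 : ℝ) ≤ nK := Nat.cast_nonneg nK
           linarith only [hx00, hx03, k4, k5, hceil, hx2J, h]
         exact by
          have h2 : l2 + nC + (⌈x₀ * J⌉₊ + 1) ≤ lam := by exact_mod_cast h1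
          have h3 : (2 : ℝ) ^ (l2 + nC + (⌈x₀ * J⌉₊ + 1)) ≤ 2 ^ lam :=
            pow_le_pow_right₀ (by norm_num) h2
          have h4 : 4 * (1 + 3 * C) * 2 ^ l2 ≤ 2 ^ nC * 2 ^ l2 :=
            mul_le_mul_of_nonneg_right hnC.le (by positivity)
          have h5 : r / 2 * 2 ^ (l2 + nC + (⌈x₀ * J⌉₊ + 1)) = 2 ^ nC * 2 ^ l2 := by
            rw [hr, pow_add, pow_add, pow_add]
            field_simp
          exact by
           calc 4 * (1 + 3 * C) * 2 ^ l2 ≤ 2 ^ nC * 2 ^ l2 := h4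
             _ = r / 2 * 2 ^ (l2 + nC + (⌈x₀ * J⌉₊ + 1)) := h5.symm
             _ ≤ s * 2 ^ lam := mul_le_mul hsr h3 (by positivity) hs00.le
       · have : (l2 : ℝ) ≤ lam := by linarith only [hx00, hx03, k4, hx2J, h]
         exact_mod_cast this
    exact by
     obtain ⟨z', ψ', H, hψ', hzz⟩ := mk_fqh2 (F := F.res A' True hlaw) (Qt := Q) (A := A') (z := z)
       hQJ hi hC (l2 := l2) (P1 := P1) (Pt := Pt) hpos (fun ω hω => hI ω (hsub ω hω))
       (φ := φ) (fun ω hω => hφ ω (hsub ω hω)) (ψ := ψ) (fun ω hω => hψ ω (hsub ω hω)) hs00 hspI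
       (by
         rcases hln with h | ⟨e, n, h⟩
         · exact Or.inl h
         · exact Or.inr ⟨e, n, h.sub hsub⟩) hnum2 hWl hP1t hPtQ
     have hP1J : P1 ≤ J := by omega
     exact by
      have hPtJ : Pt ≤ J := by omega
      exact by
       have hQJr : (Q : ℝ) ≤ J := by exact_mod_cast hQJ
       -- the rows
       have hAG0 : 0 < Pe F.p (fun ω => A ω ∧ G ω) := by rw [← hA']; exact hA'0
       obtain ⟨R1, hR1⟩ : ∃ R1, R1 = CH (Pool.Agent.H49.Ent.cond F.p A True) (F.X Q)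
         (fun ω => (F.X P1 ω, F.W ω)) := ⟨_, rfl⟩
       have hrows := CH_clean' hp hA0 hthin' (F.X Q) (fun ω => (F.X P1 ω, F.W ω)) hAG0
         (rows_card F (Qt := Q) (P1 := P1) (isLaw_cond hp hAG0))
       rw [← hR1] at hrows
       have hE7 : Real.exp (-(κ * J)) * (3 * ((Q : ℝ) + Real.log 5)) ≤
           3 / κ + 3 * Real.log 5 := by
         have h1 := exp_mul_le (J := (J : ℝ)) hκ
         have h2 : Real.exp (-(κ * J)) ≤ 1 := by linarith only [hx00, hx03, hexp2]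
         have h3 : Real.exp (-(κ * J)) * (3 * Real.log 5) ≤ 1 * (3 * Real.log 5) :=
           mul_le_mul_of_nonneg_right h2 (by positivity)
         have h4 : 3 / κ = 3 * (1 / κ) := by ring
         have h5 : Real.exp (-(κ * J)) * (Q : ℝ) ≤ Real.exp (-(κ * J)) * J :=
           mul_le_mul_of_nonneg_left hQJr (Real.exp_pos _).le
         rw [h4]
         linarith only [h1, h3, h5]
       exact by
        obtain ⟨ρ, hρ⟩ : ∃ ρ : ℝ, ρ = R1 + (3 / κ + 3 * Real.log 5) := ⟨_, rfl⟩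
        have hρ1 : CH (F.res A' True hlaw).p ((F.res A' True hlaw).X Q)
            (fun ω => ((F.res A' True hlaw).X P1 ω, (F.res A' True hlaw).W ω)) ≤ ρ := by
          have e1 : CH (F.res A' True hlaw).p ((F.res A' True hlaw).X Q)
            (fun ω => ((F.res A' True hlaw).X P1 ω, (F.res A' True hlaw).W ω)) =
            CH (Pool.Agent.H49.Ent.cond F.p (fun ω => A ω ∧ G ω) True) (F.X Q)
              (fun ω => (F.X P1 ω, F.W ω)) := by
            rw [← hA']
            rfl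
          rw [e1, hρ]
          linarith only [hrows, hE7]
        exact by
         have hmain := fq_main H hMx'.1 (fun ω ω' hω hω' h => by
           rw [hψ' ω hω, hψ' ω' hω', h]) hρ1
         obtain ⟨H', hH'⟩ : ∃ H', H' = CH (F.res A' True hlaw).p ((F.res A' True hlaw).X Q)
           (fun ω => (z ω, (F.res A' True hlaw).W ω)) := ⟨_, rfl⟩
         rw [← hH'] at hzz
         obtain ⟨Pk, hPk⟩ : ∃ Pk, Pk = Pe (dbl (F.res A' True hlaw).p (ptq (F.res A' True hlaw) Q))
           (fun w => kq (F.res A' True hlaw) i0 iu iN W l2 P1 (3 * C) z' w = P1) := ⟨_, rfl⟩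
         -- the clean event
         have hM : ∀ q : F.Ω → ℝ, IsLaw q → (∀ ω, 0 < q ω → A ω) →
             CH q (F.X Q) (fun ω => (z ω, F.W ω)) ≤ 3 * J + 3 * LM := by
           intro q hq hqA
           have h1 := pk_CH (Q := Q) hq hi (by linarith only [hC, hx00, hx03])
             (Pk_of_Inc (A := fun ω => 0 < q ω) fun ω hω => hI ω (hqA ω hω))
           have h2 : CH q (F.X Q) (fun ω => (z ω, F.W ω)) ≤
               CH q (fun ω => fl Q (F.x ω)) (fun ω => (z ω, F.T ω)) := by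
             refine CH_mono_cond hq.nonneg fun ω ω' _ _ h => ?_
             obtain ⟨b1, b2⟩ := Prod.ext_iff.mp h
             exact Prod.ext b1 (Prod.ext_iff.mp b2).1
           have h3 : (((Q - W) + (Q - (W + lam)) + (Q - Pt) : ℕ) : ℝ) * Real.log 2 ≤
               3 * J := by
             have h4 : (((Q - W) + (Q - (W + lam)) + (Q - Pt) : ℕ) : ℝ) ≤ 3 * J := by
               have : (Q - W) + (Q - (W + lam)) + (Q - Pt) ≤ 3 * J := by omega
               exact_mod_cast this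
             calc _ ≤ 3 * (J : ℝ) * 1 := mul_le_mul h4 hl21 hl20 (by positivity)
               _ = _ := mul_one _
           exact by
            rw [← hLM] at h1
            linarith only [h1, h2, h3]
         exact by
          have hclean := CH_clean hp hA0 hthin' (F.X Q) (fun ω => (z ω, F.W ω))
            (M := 3 * J + 3 * LM) (by positivity) hM (by rw [← hA']; exact hA'0)
          have hH'' : CH (Pool.Agent.H49.Ent.cond F.p (fun ω => A ω ∧ G ω) True) (F.X Q)
              (fun ω => (z ω, F.W ω)) = H' := by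
            rw [hH', ← hA']
            rfl
          rw [hH''] at hclean
          obtain ⟨H₀, hH₀⟩ : ∃ H₀, H₀ = CH (Pool.Agent.H49.Ent.cond F.p A True) (F.X Q)
              (fun ω => (z ω, F.W ω)) := ⟨_, rfl⟩
          rw [← hH₀] at hclean hnum
          rw [← hR1] at hnum
          have hE1 : Real.exp (-(κ * J)) * (3 * J + 3 * LM) ≤ 3 / κ + 3 * LM := by
            have h1 := exp_mul_le (J := (J : ℝ)) hκ
            have h2 : Real.exp (-(κ * J)) ≤ 1 := by linarith only [hx00, hx03, hexp2]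
            exact by
             have h3 : Real.exp (-(κ * J)) * (3 * LM) ≤ 1 * (3 * LM) :=
               mul_le_mul_of_nonneg_right h2 (by positivity)
             exact by
              have h4 : 3 / κ = 3 * (1 / κ) := by ring
              rw [h4]
              linarith only [h1, h3]
          exact by
           have hE4 := log_small (η := η / 24) (by positivity) hP1J
           have hE6 : 2 * (τ' * J) ≤ η / 8 * J := by
             have h1 : τ' ≤ η / 16 := by rw [hτ']; exact min_le_right _ _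
             have h2 := mul_le_mul_of_nonneg_right h1 hJ0.le
             linarith only [h2]
           -- close planks are not rare
           exact by
            have hPb : β ≤ Pk := by
              by_contra hcon
              push Not at hcon
              have hPk0 : 0 ≤ Pk := by
                rw [hPk]
                exact Pe_nonneg (dblq_law (F.res A' True hlaw) Q).1 _
              have hE2 : ((Pt : ℝ) - P1) * Pk * Real.log 2 ≤ η / 8 * J := by
                have g1 : (Pt : ℝ) - P1 ≤ J := by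
                  have h1 : (Pt : ℝ) ≤ J := by exact_mod_cast hPtJ
                  have h2 : (0 : ℝ) ≤ P1 := Nat.cast_nonneg P1
                  linarith only [hx00, hx03, hWP, k4, hx2J, h1]
                exact by
                 have g0 : 0 ≤ (Pt : ℝ) - P1 := by
                   have : (P1 : ℝ) ≤ Pt := by exact_mod_cast hP1t
                   linarith only [this]
                 have g2 : ((Pt : ℝ) - P1) * Pk ≤ J * (η / 8) :=
                   mul_le_mul g1 (by linarith only [hβ1, hcon]) hPk0 hJ0.le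
                 exact by
                  have g3 : ((Pt : ℝ) - P1) * Pk * Real.log 2 ≤ J * (η / 8) * 1 :=
                    mul_le_mul g2 hl21 hl20 (by positivity)
                  exact by
                   linarith only [g3]
              exact by
               rw [← hPk] at hmain
               rw [hCst, hL1] at k1
               rw [hρ] at hmain
               have hηJ : 0 < η * J := by positivity
               linarith only [hlaw, hL1, hCst, hCst0, k1, hzz, hmain, hnum, hclean, hE1, hE4, hE6, hE2]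
            -- production
            exact by
             exact by
              rw [hPk] at hPb
              obtain ⟨B, hB1, hB2, hB3⟩ := fq_lab H hψ' hWV hnK.le hWln hVQ hβ0 hPb
              rw [← hcB] at hB2
              have hB4 : LABq F Q i0 iu iN V l2 P2 2 (fun ω => A' ω ∧ B ω) := by
                have h1 : LABq F Q i0 iu iN V l2 (P1 - nK) 2 B := hB3
                exact LABq.hered _ _ _ _ _ _ _ _ _ B _ (fun ω hω => hω.2)
                  (h1.mono (by norm_num) le_rfl hP2n le_rfl)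
              exact by
               have hB5 : Pe (F.res A' True hlaw).p B = Pe F.p (fun ω => A' ω ∧ B ω) / Pe F.p A' :=
                 Pe_cond (Ω := F.Ω) (p := F.p) (A := A') B
               exact by
                refine ⟨fun ω => A' ω ∧ B ω, fun ω hω => hsub ω hω.1, ?_, hB4⟩
                rw [hB5, le_div_iff₀ hA'0] at hB2
                exact by
                 refine le_trans ?_ hB2
                 have q3 : Real.exp (-Real.log 2) = 1 / 2 := by
                   exact by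
                    rw [Real.exp_neg, Real.exp_log (by norm_num)]
                    exact by
                     norm_num
                 rw [q3] at hPA'
                 calc cB * β / 2 * Pe F.p A = cB * β * (1 / 2 * Pe F.p A) := by ring
                   _ ≤ _ := mul_le_mul_of_nonneg_left hPA' (by positivity)

end Pool.KS6
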