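import Pool.Agent.H77.S6.LC6

/-!
# Lemma C as a claim: proof
-/

set_option autoImplicit false

namespace Pool.KS6

open Finset Real
open Pool.Agent.H49.Ent Pool.Agent.H32.Dense Pool.STK Pool.KA Pool.KSAT Pool.K3 Pool.K2S

lemma close_num {C r s K T : ℝ} {X U nC : ℕ} (hC : 1 ≤ C) (hr : r = 1 / 2 ^ X) (hsr : r / 2 ≤ s)
    (hK0 : 0 < K) (f1 : T ≤ 5 * C * K) (hnC : 10 + 40 * C < 2 ^ nC) (hX : nC + X ≤ U) :
    2 * (K + (2 * K + 2 * T) / s) ≤ 2 ^ U * K := by
  have hr0 : 0 < r := by rw [hr]; positivity
  have hs00 : 0 < s := by linarith only [hsr, hr0]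
  have f2 : (2 * K + 2 * T) / s ≤ (4 + 20 * C) * K / r := by
    rw [div_le_div_iff₀ hs00 hr0]
    have g1 : 2 * K + 2 * T ≤ (2 + 10 * C) * K := by linarith only [f1]
    have g2 : (2 * K + 2 * T) * r ≤ (2 + 10 * C) * K * r :=
      mul_le_mul_of_nonneg_right g1 hr0.le
    have g3 : (2 + 10 * C) * K * r ≤ (2 + 10 * C) * K * (2 * s) :=
      mul_le_mul_of_nonneg_left (by linarith) (by positivity)
    linarith only [g2, g3]
  have f3 : (4 + 20 * C) * K / r = (4 + 20 * C) * K * 2 ^ X := by
    rw [hr]; field_simp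
  have f4 : (1 : ℝ) ≤ 2 ^ X := one_le_pow₀ (by norm_num)
  have f5 : 2 * (K + (2 * K + 2 * T) / s) ≤ (10 + 40 * C) * 2 ^ X * K := by
    rw [f3] at f2
    have g1 : 2 * K * 1 ≤ 2 * K * 2 ^ X := mul_le_mul_of_nonneg_left f4 (by linarith only [hK0])
    linarith only [f2, g1]
  refine f5.trans (mul_le_mul_of_nonneg_right ?_ hK0.le)
  calc (10 + 40 * C) * 2 ^ X ≤ 2 ^ nC * 2 ^ X :=
        mul_le_mul_of_nonneg_right hnC.le (by positivity)
    _ = 2 ^ (nC + X) := by rw [← pow_add]
    _ ≤ _ := pow_le_pow_right₀ (by norm_num) hX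

theorem lcq_thm : LCQStmt := by
  classical
  intro a R ha hR hU h₁ η C hh₁ hη hC N i0 iu iN hi w y l p p1 b hyw hyb hbl hwl hp1 hpN Q hQ
  have hN0 : 0 < N := by omega
  have hNr : (0 : ℝ) < N := by exact_mod_cast hN0
  have ha0 : 0 < a := by linarith only [ha]
  -- the spread of the fans
  obtain ⟨x, hx⟩ : ∃ x, x = min h₁ (1 / N) / 8 := ⟨_, rfl⟩
  have hx0 : 0 < x := by rw [hx]; positivity
  have hx1 : x ≤ h₁ / 8 := by
    rw [hx]
    have := min_le_left h₁ (1 / N : ℝ)
    linarith only [this]
  have hx2 : x ≤ 1 / N / 8 := by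
    rw [hx]
    have := min_le_right h₁ (1 / N : ℝ)
    linarith only [this]
  refine Claim.one ⟨2, fun J F i => if i = 0 then
    LABq F (Q J) i0 iu iN ((w - y) * (J / N)) ((l - b - 1) * (J / N))
      ((p1 - y - b - 2) * (J / N)) 2
    else Ball (1 / 2 ^ ⌈x * J⌉₊) (ptq F (Q J)) F.d,
    fun J F i => by
      split_ifs
      · exact LABq.hered _ _ _ _ _ _ _ _ _
      · exact Ball.hered _ _ _⟩ fun κ hκ => ?_
  obtain ⟨τ₁, hτ₁, J₂, hball⟩ := not_ball (ap6r_thm ap5_thm (ap2_thm aop_thm) tub_thm) ha hR hU hx0
  obtain ⟨τ', hτ'⟩ : ∃ τ', τ' = min τ₁ (η / 16) := ⟨_, rfl⟩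
  have hτ'0 : 0 < τ' := by rw [hτ']; positivity
  obtain ⟨τ, hτ⟩ : ∃ τ, τ = τ' / (7 * (1 + a)) := ⟨_, rfl⟩
  have hτ0 : 0 < τ := by rw [hτ]; positivity
  obtain ⟨LM, hLM⟩ : ∃ LM : ℝ, LM = Real.log (2 * (2 * C + 9) + 1) := ⟨_, rfl⟩
  have hLM0 : 0 ≤ LM := by rw [hLM]; exact Real.log_nonneg (by linarith only [hC])
  obtain ⟨L6, hL6⟩ : ∃ L6 : ℝ, L6 = Real.log (2 * (6 * C + 40) + 1) := ⟨_, rfl⟩
  have hL60 : 0 ≤ L6 := by rw [hL6]; exact Real.log_nonneg (by linarith only [hC])
  obtain ⟨L3, hL3⟩ : ∃ L3 : ℝ, L3 = Real.log (2 * (392 * C + 4 * C ^ 2 + 9) + 1) := ⟨_, rfl⟩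
  have hL30 : 0 ≤ L3 := by rw [hL3]; exact Real.log_nonneg (by nlinarith only [hC])
  obtain ⟨cB, hcB⟩ : ∃ cB : ℝ, cB = Real.exp (-(8 * (3 * Real.log 15 +
    6 * Real.log (16 * C + 21)))) / 2 := ⟨_, rfl⟩
  have hcB0 : 0 < cB := by rw [hcB]; positivity
  obtain ⟨Cst, hCst⟩ : ∃ Cst : ℝ, Cst = 4 * LM + 4 * L6 + 3 * L3 + 2 * Real.log 5 +
    3 * Real.log 2 + 6 * (3 / κ + 3 * LM) + (3 / κ + 3 * Real.log 5) + 2 / κ +
    |Real.log (η / 8)| + η / 8 := ⟨_, rfl⟩
  have hl5 : 0 ≤ Real.log 5 := Real.log_nonneg (by norm_num)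
  have hl20 : 0 ≤ Real.log 2 := Real.log_nonneg (by norm_num)
  have hl21 : Real.log 2 ≤ 1 := by
    have := Real.log_two_lt_d9
    linarith only [this]
  have hCst0 : 0 ≤ Cst := by rw [hCst]; positivity
  obtain ⟨nC, hnC⟩ : ∃ nC : ℕ, 10 + 40 * C < 2 ^ nC := pow_unbounded_of_one_lt _ (by norm_num)
  obtain ⟨J₁, hJ₁⟩ := exists_nat_gt (Cst / (η / 8) + J₂ + 16 / x + N * (2 * nC + 32) +
    (Real.log 2 / τ + 1 / κ) + |Real.log (2 / cB)| / (κ / 2) + 1)
  refine ⟨τ, hτ0, J₁, ?_⟩
  intro J hJ F A hS hSb hb hcn z hI hφ hnum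
  by_contra hn
  have hJr : Cst / (η / 8) + J₂ + 16 / x + N * (2 * nC + 32) +
    (Real.log 2 / τ + 1 / κ) + |Real.log (2 / cB)| / (κ / 2) + 1 < J :=
    hJ₁.trans_le (by exact_mod_cast hJ)
  have t1 : 0 ≤ Cst / (η / 8) := by positivity
  have t2 : (0 : ℝ) ≤ J₂ := by positivity
  have t4 : 0 ≤ 16 / x := by positivity
  have t5 : 0 ≤ (N : ℝ) * (2 * nC + 32) := by positivity
  have t6 : 0 ≤ Real.log 2 / τ := by positivity
  have t6' : 0 ≤ 1 / κ := by positivity
  have t7 : 0 ≤ |Real.log (2 / cB)| / (κ / 2) := by positivity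
  have hJ0 : (0 : ℝ) < J := by linarith only [hJr, t1, t4, t5, t6, t6', t7]
  have k1 : Cst < η / 8 * J := by
    have : Cst / (η / 8) < J := by linarith only [hJr, t4, t5, t6, t6', t7]
    rw [div_lt_iff₀ (by positivity)] at this
    linarith only [this]
  exact by
   have k2 : J₂ ≤ J := by
     have : (J₂ : ℝ) ≤ J := by linarith only [hJr, t1, t4, t5, t6, t6', t7]
     exact_mod_cast this
   have k4 : 16 < x * J := by
     have : 16 / x < J := by linarith only [hJr, t1, t5, t6, t6', t7]
     rw [div_lt_iff₀ hx0] at this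
     linarith only [this]
   have k5 : (N : ℝ) * (2 * nC + 32) < J := by linarith only [hJr, t1, t4, t6, t6', t7]
   have k6 : Real.log 2 < τ * J := by
     have : Real.log 2 / τ < J := by linarith only [hJr, t1, t4, t5, t6', t7]
     rw [div_lt_iff₀ hτ0] at this
     linarith only [this]
   have k6' : 1 < κ * J := by
     have : 1 / κ < J := by linarith only [hJr, t1, t4, t5, t6, t7]
     rw [div_lt_iff₀ hκ] at this
     linarith only [this]
   have k7 : Real.log (2 / cB) ≤ κ / 2 * J := by
     have : |Real.log (2 / cB)| / (κ / 2) < J := by linarith only [hJr, t1, t4, t5, t6, t6']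
     rw [div_lt_iff₀ (by positivity)] at this
     have h2 := le_abs_self (Real.log (2 / cB))
     linarith only [this, h2]
   exact by
    obtain ⟨hTr, hMx, hRb, hPA⟩ := hS
    have hp := F.isLaw
    have hA0 : 0 < Pe F.p A := lt_of_lt_of_le (Real.exp_pos _) hPA
    -- scales
    obtain ⟨u, hu⟩ : ∃ u, u = J / N := ⟨_, rfl⟩
    have hu1 : N * u ≤ J := by rw [hu]; exact Nat.mul_div_le J N
    have hu2 : (J : ℝ) < N * (u + 1) := by
      have := Nat.lt_mul_div_succ J hN0
      rw [← hu] at this
      exact_mod_cast this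
    have hu1r : (N : ℝ) * u ≤ J := by exact_mod_cast hu1
    have hu3 : 2 * nC + 31 < u := by
      have h1 : (N : ℝ) * (2 * nC + 32) < N * (u + 1) := by linarith only [hJr, t1, t4, t6, t6', t7, hu2]
      have h2 := lt_of_mul_lt_mul_left h1 hNr.le
      have h3 : (2 * nC + 31 : ℝ) < u := by linarith only [h2]
      exact_mod_cast h3
    exact by
     have hxu : ⌈x * J⌉₊ + nC + 6 ≤ u := by
       have h1 : (⌈x * J⌉₊ : ℝ) < x * J + 1 := Nat.ceil_lt_add_one (by positivity)
       have h2 : x * J ≤ (u + 1) / 8 := by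
         calc x * J ≤ 1 / N / 8 * J := mul_le_mul_of_nonneg_right hx2 hJ0.le
           _ = J / N / 8 := by ring
           _ ≤ _ := by
             refine div_le_div_of_nonneg_right ?_ (by norm_num)
             rw [div_le_iff₀ hNr]
             linarith only [hu2]
       have h3 : (⌈x * J⌉₊ : ℝ) + nC + 6 ≤ u := by
         have h4 : (2 * nC + 31 : ℝ) < u := by exact_mod_cast hu3
         linarith only [k4, h1, h2, h4]
       exact_mod_cast h3
     exact by
      have hxh : ⌈x * J⌉₊ + 3 ≤ ⌊h₁ * J⌋₊ := by
        have h1 : (⌈x * J⌉₊ : ℝ) < x * J + 1 := Nat.ceil_lt_add_one (by positivity)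
        have h2 : x * J ≤ h₁ / 8 * J := mul_le_mul_of_nonneg_right hx1 hJ0.le
        refine Nat.le_floor ?_
        push_cast
        linarith only [k4, h1, h2]
      rw [← hu] at hn hcn hI hnum
      have hs0 := hSb 0
      have hs1 := hSb 1
      simp only [if_true, ← hu] at hs0
      simp only [show ¬ ((1 : Fin 2) = 0) by decide, if_false] at hs1
      -- no balls
      obtain ⟨hlawA, -, hMxA, -⟩ := max_res F ha hτ0.le hτ0.le hTr hMx hRb A hPA
      have hle : ∀ (G : Fam 3 J) (s t : ℝ), s ≤ t → G.Mx a R s → G.Mx a R t := by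
        intro G s t hst hG
        exact Mx_mono hst hG
      have e6 : (1 + a) * (5 * τ + τ) ≤ τ' := by
        rw [hτ]
        have : (1 + a) * (5 * (τ' / (7 * (1 + a))) + τ' / (7 * (1 + a))) = 6 / 7 * τ' := by
          field_simp
          ring
        rw [this]
        linarith only [hτ'0]
      obtain ⟨hQ1, hQJ⟩ := hQ J
      rw [← hu] at hQ1
      have hnb : ¬ Ball (1 / 2 ^ ⌈x * J⌉₊) (ptq F (Q J)) F.d A := by
        intro hball'
        obtain ⟨ζ, hζ⟩ := ball_coarse F hQJ hball'
        have hxJ : ⌈x * J⌉₊ ≤ J := by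
          have h1 : u ≤ J := by
            have : 1 * u ≤ N * u := Nat.mul_le_mul_right u (by omega)
            omega
          omega
        refine hball J k2 (F.res A True hlawA) (hle _ _ τ₁ ?_ hMxA) ⌈x * J⌉₊ hxJ (Nat.le_ceil _)
          ⟨ζ, ?_⟩
        · refine e6.trans ?_
          rw [hτ']
          exact min_le_left _ _
        · intro ω hω i
          have hω' : A ω := by
            have := ((cond_pos_iff hp.nonneg A True ω).1 hω).2
            simpa using this
          exact hζ ω hω' i
      -- cleaning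
      obtain ⟨r, hr⟩ : ∃ r : ℝ, r = 1 / 2 ^ ⌈x * J⌉₊ := ⟨_, rfl⟩
      rw [← hr] at hnb hs1
      obtain ⟨G, hG⟩ : ∃ G : F.Ω → Prop, G = fun ω => ¬ Thin r (ptq F (Q J)) F.d A ω := ⟨_, rfl⟩
      obtain ⟨A', hA'⟩ : ∃ A' : F.Ω → Prop, A' = fun ω => A ω ∧ G ω := ⟨_, rfl⟩
      have hthin := hs1.thin_lt hnb
      have hthin' : Pe F.p (fun ω => A ω ∧ ¬ G ω) < Real.exp (-(κ * J)) * Pe F.p A := by
        refine lt_of_le_of_lt (le_of_eq ?_) hthin
        congr 1
        funext ω
        rw [hG]
        simp only [not_not]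
      have hexp2 : Real.exp (-(κ * J)) ≤ 1 / 2 := by
        have h1 : Real.exp (-(κ * J)) ≤ Real.exp (-1) := Real.exp_le_exp.2 (by linarith only [k6'])
        have h2 : Real.exp (-1) ≤ 1 / 2 := by
          rw [Real.exp_neg, inv_eq_one_div]
          have := Real.add_one_le_exp (1 : ℝ)
          exact one_div_le_one_div_of_le (by norm_num) (by linarith only [this])
        linarith only [h1, h2]
      have hPA' : Real.exp (-Real.log 2) * Pe F.p A ≤ Pe F.p A' := by
        have h1 : Pe F.p (fun ω => A ω ∧ Thin r (ptq F (Q J)) F.d A ω) ≤ Pe F.p A / 2 := by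
          have := mul_le_mul_of_nonneg_right hexp2 hA0.le
          linarith only [hthin, this]
        have h2 := Pe_diff h1
        rw [hA', hG]
        exact h2
      have hA'0 : 0 < Pe F.p A' := lt_of_lt_of_le (by positivity) hPA'
      have hPA'' : Real.exp (-(2 * τ * J)) ≤ Pe F.p A' := by
        refine le_trans ?_ hPA'
        calc Real.exp (-(2 * τ * J)) ≤ Real.exp (-Real.log 2 + -(τ * J)) :=
              Real.exp_le_exp.2 (by linarith only [k6])
          _ = Real.exp (-Real.log 2) * Real.exp (-(τ * J)) := Real.exp_add _ _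
          _ ≤ _ := mul_le_mul_of_nonneg_left hPA (Real.exp_pos _).le
      have hsub : ∀ ω, A' ω → A ω := fun ω hω => by rw [hA'] at hω; exact hω.1
      obtain ⟨hlaw, -, hMx', -⟩ := max_res F ha hτ0.le (by positivity) hTr hMx hRb A' hPA''
      have e7 : (1 + a) * (5 * τ + 2 * τ) = τ' := by
        rw [hτ]
        field_simp
        ring
      rw [e7] at hMx'
      have hpos : ∀ ω, 0 < (F.res A' True hlaw).p ω → A' ω := fun ω hω => by
        have := ((cond_pos_iff hp.nonneg A' True ω).1 hω).2
        simpa using this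
      -- the planks on the clean event
      obtain ⟨φ, hφ⟩ := hφ
      obtain ⟨e₀, n₀, hfr⟩ := hb
      have hspr : Spread r (ptq F (Q J)) F.d A' := by
        rw [hA', hG]
        exact spread_of_not_thin r (ptq F (Q J)) F.d A
      have hfr' : IsFrame i0 (1 / 2 ^ ⌊h₁ * J⌋₊) (ptq F (Q J)) F.d A' e₀ n₀ := hfr.sub hsub
      have hspI := hfr'.spreadI hspr
      obtain ⟨s, hs⟩ : ∃ s : ℝ, s = r - 2 * (1 / 2 ^ ⌊h₁ * J⌋₊) := ⟨_, rfl⟩
      rw [← hs] at hspI
      have hsr : r / 2 ≤ s := by
        have h1 : (1 : ℝ) / 2 ^ ⌊h₁ * J⌋₊ ≤ 1 / 2 ^ (⌈x * J⌉₊ + 3) :=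
          one_div_le_one_div_of_le (by positivity) (pow_le_pow_right₀ (by norm_num) hxh)
        have h2 : (1 : ℝ) / 2 ^ (⌈x * J⌉₊ + 3) = r / 8 := by
          rw [hr, pow_add]
          field_simp
          norm_num
        have h3 : 0 < r := by rw [hr]; positivity
        rw [hs]
        linarith only [h1, h2, h3]
      exact by
       have hr0 : 0 < r := by rw [hr]; positivity
       have hs00 : 0 < s := by linarith only [hsr, hr0]
       have hWl : w * u + l * u ≤ p * u := by
         rw [← add_mul]
         exact Nat.mul_le_mul_right u (by omega)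
       obtain ⟨n₁, hon⟩ := onL_Inc F hi (by linarith only [hC]) (fun ω hω => hI ω (hsub ω hω))
         (fun ω hω => hφ ω (hsub ω hω)) hWl
       have hcn' : RotU i0 (1 / 2 ^ ((l - b) * u)) (1 / 2 ^ ((l - b) * u)) (ptq F (Q J))
           (slam F ((w - y) * u)) F.d A' := RotU.hered _ _ _ _ _ _ A A' hsub hcn
       have hclose : ∀ ω ω', A' ω → A' ω' → slam F ((w - y) * u) ω = slam F ((w - y) * u) ω' →
           |(z ω).e - (z ω').e| ≤ 1 / 2 ^ ((l - b - 1) * u) := by
         intro ω ω' hω hω' hsl
         have h1 := hcn'.pairs hon hspI hs00 hω hω' hsl iu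
         obtain ⟨m1, m2, m3⟩ := three hi
         have e1 : ∀ q : (Fin 3 → ℤ) × (ℕ × F.ζ),
             bp i0 iu (φ q).e (φ q).c (φ q).s 1 0 0 iu = (φ q).e := by
           intro q
           unfold bp
           rw [if_neg m1, if_pos rfl]
           ring
         simp only [e1] at h1
         rw [← hφ ω (hsub ω hω), ← hφ ω' (hsub ω' hω')] at h1
         refine h1.trans ?_
         -- numbers
         obtain ⟨K, hK⟩ : ∃ K : ℝ, K = 1 / 2 ^ ((l - b) * u) := ⟨_, rfl⟩
         have hK0 : 0 < K := by rw [hK]; positivity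
         rw [← hK]
         have f1 : 5 * C / 2 ^ (l * u) ≤ 5 * C * K := by
           rw [hK, mul_one_div]
           exact div_le_div_of_nonneg_left (by linarith only [hC]) (by positivity)
             (pow_le_pow_right₀ (by norm_num) (Nat.mul_le_mul_right u (by omega)))
         exact by
          refine (close_num hC hr hsr hK0 f1 hnC (show nC + ⌈x * J⌉₊ ≤ u by omega)).trans (le_of_eq ?_)
          rw [hK]
          have : (l - b) * u = (l - b - 1) * u + u := by
            obtain ⟨t, ht⟩ : ∃ t, l - b = t + 1 := ⟨l - b - 1, by omega⟩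
            rw [ht, Nat.add_sub_cancel, Nat.add_mul, one_mul]
          rw [this, pow_add]
          field_simp
       -- arithmetic of the scales
       exact by
        have hv : (w - y) * u + y * u = w * u := by
          rw [← add_mul]
          congr 1
          omega
        have hl2 : l * u = (l - b - 1) * u + (b + 1) * u := by
          rw [← add_mul]
          congr 1
          omega
        have g1 : (w - y) * u + y * u + l * u + 6 ≤ p1 * u := by
          have h1 : (w + l + 1) * u ≤ p1 * u := Nat.mul_le_mul_right u (by omega)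
          have h2 : (w + l + 1) * u = w * u + l * u + u := by ring
          omega
        have g2 : p1 * u + y * u ≤ p * u := by
          rw [← add_mul]
          exact Nat.mul_le_mul_right u hp1
        have g3 : p * u ≤ Q J := hQ1
        have g4 : y * u ≤ (b + 1) * u := Nat.mul_le_mul_right u hyb
        obtain ⟨β, hβ⟩ : ∃ β : ℝ, β = Real.exp (-(κ / 2 * J)) := ⟨_, rfl⟩
        have hβ0 : 0 < β := by rw [hβ]; exact Real.exp_pos _
        -- close planks are rare
        have hrare : Pe (prs (F.res A' True hlaw) ((w - y) * u)) (fun ww => Cls ((l - b - 1) * u)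
            ((w - y) * u + y * u) (l * u) (p1 * u) (z ww.1) (z ww.2)) ≤ β := by
          by_contra hcon
          push Not at hcon
          have hP2 : (p1 - y - b - 2) * u + y * u + (b + 1) * u + 6 ≤ p1 * u := by
            by_cases hpp : p1 - y - b - 2 = 0
            · rw [hpp]; omega
            · have h1 : (p1 - y - b - 2) * u + y * u + (b + 1) * u + u = p1 * u := by
                have h3 : p1 = (p1 - y - b - 2) + y + (b + 1) + 1 := by omega
                calc (p1 - y - b - 2) * u + y * u + (b + 1) * u + u =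
                    ((p1 - y - b - 2) + y + (b + 1) + 1) * u := by ring
                  _ = p1 * u := by rw [← h3]
              omega
          obtain ⟨B, hB1, hB2, hB3⟩ := cls_lab F hQJ hi (v := (w - y) * u) (y := y * u) (lam := l * u)
            (P := p * u) (P1 := p1 * u) (b := (b + 1) * u) (l2 := (l - b - 1) * u)
            (P2 := (p1 - y - b - 2) * u) hC hA'0
            (by rw [hv]; exact fun ω hω => hI ω (hsub ω hω)) (fun ω hω => hφ ω (hsub ω hω)) hlaw
            g1 g2 g3 hl2 hP2 hβ0 hcon.le
          rcases hs0 with hs0 | hs0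
          · exact hn hs0
          · refine hs0 B (fun ω hω => hsub ω (hB1 ω hω)) ?_ hB3
            refine le_trans ?_ hB2
            rw [← hcB]
            have q1 : Real.exp (-(κ / 2 * J)) ≤ cB / 2 := by
              have h1 : 2 / cB ≤ Real.exp (κ / 2 * J) := by
                rw [← Real.log_le_iff_le_exp (by positivity)]
                exact k7
              rw [Real.exp_neg, inv_eq_one_div, div_le_div_iff₀ (Real.exp_pos _) (by norm_num)]
              rw [div_le_iff₀ hcB0] at h1
              linarith only [h1]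
            have q2 : Real.exp (-(κ * J)) = Real.exp (-(κ / 2 * J)) * β := by
              rw [hβ, ← Real.exp_add]
              congr 1
              ring
            have q3 : Real.exp (-Real.log 2) = 1 / 2 := by
              rw [Real.exp_neg, Real.exp_log (by norm_num)]
              norm_num
            rw [q3] at hPA'
            rw [q2]
            calc Real.exp (-(κ / 2 * J)) * β * Pe F.p A ≤ cB / 2 * β * Pe F.p A := by
                  refine mul_le_mul_of_nonneg_right ?_ hA0.le
                  exact mul_le_mul_of_nonneg_right q1 hβ0.le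
              _ = cB * (β * (1 / 2 * Pe F.p A)) := by ring
              _ ≤ _ := by
                  refine mul_le_mul_of_nonneg_left ?_ hcB0.le
                  exact mul_le_mul_of_nonneg_left hPA' hβ0.le
        -- the rows
        exact by
         have hP1Q : p1 * u ≤ Q J := by omega
         have hP1J : p1 * u ≤ J := by omega
         have hQJr : ((Q J : ℕ) : ℝ) ≤ J := by exact_mod_cast hQJ
         have hAG0 : 0 < Pe F.p (fun ω => A ω ∧ G ω) := by rw [← hA']; exact hA'0
         obtain ⟨R1, hR1⟩ : ∃ R1, R1 = CH (Pool.Agent.H49.Ent.cond F.p A True) (F.X (Q J))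
           (fun ω => (F.X (p1 * u) ω, F.W ω)) := ⟨_, rfl⟩
         have hrows := CH_clean' hp hA0 hthin' (F.X (Q J)) (fun ω => (F.X (p1 * u) ω, F.W ω)) hAG0
           (rows_card F (Qt := Q J) (P1 := p1 * u) (isLaw_cond hp hAG0))
         rw [← hR1] at hrows
         have hE7 : Real.exp (-(κ * J)) * (3 * (((Q J : ℕ) : ℝ) + Real.log 5)) ≤
             3 / κ + 3 * Real.log 5 := by
           have h1 := exp_mul_le (J := (J : ℝ)) hκ
           have h2 : Real.exp (-(κ * J)) ≤ 1 := by linarith only [hexp2]
           have h3 : Real.exp (-(κ * J)) * (3 * Real.log 5) ≤ 1 * (3 * Real.log 5) :=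
             mul_le_mul_of_nonneg_right h2 (by positivity)
           have h4 : 3 / κ = 3 * (1 / κ) := by ring
           have h5 : Real.exp (-(κ * J)) * ((Q J : ℕ) : ℝ) ≤ Real.exp (-(κ * J)) * J :=
             mul_le_mul_of_nonneg_left hQJr (Real.exp_pos _).le
           rw [h4]
           linarith only [h1, h3, h5]
         obtain ⟨ρ, hρ⟩ : ∃ ρ : ℝ, ρ = R1 + (3 / κ + 3 * Real.log 5) := ⟨_, rfl⟩
         have hρ1 : CH (F.res A' True hlaw).p ((F.res A' True hlaw).X (Q J))
             (fun ω => ((F.res A' True hlaw).X (p1 * u) ω, (F.res A' True hlaw).W ω)) ≤ ρ := by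
           have e1 : CH (F.res A' True hlaw).p ((F.res A' True hlaw).X (Q J))
             (fun ω => ((F.res A' True hlaw).X (p1 * u) ω, (F.res A' True hlaw).W ω)) =
             CH (Pool.Agent.H49.Ent.cond F.p (fun ω => A ω ∧ G ω) True) (F.X (Q J))
               (fun ω => (F.X (p1 * u) ω, F.W ω)) := by
             rw [← hA']
             rfl
           rw [e1, hρ]
           linarith only [hrows, hE7]
         exact by
          have hfam := lemC_fam (F.res A' True hlaw) hQJ hi (v := (w - y) * u) (y := y * u) (lam := l * u)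
            (P := p * u) (P1 := p1 * u) (b := (b + 1) * u) (l2 := (l - b - 1) * u) hC (z := z)
            (by rw [hv]; exact fun ω hω => hI ω (hsub ω (hpos ω hω)))
            (φ := φ) (fun ω hω => hφ ω (hsub ω (hpos ω hω))) (by omega) g2 g3 g4 hl2.le
            (by
              intro ww hww
              obtain ⟨a1, a2, a3, a4, a5, a6⟩ := prs_pos hww
              refine hclose ww.1 ww.2 (hpos _ a1) (hpos _ a2) ?_
              have b1 : F.u ww.1 = F.u ww.2 := a3
              have b2 : F.d ww.1 = F.d ww.2 := a4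
              have b3 : F.Z ww.1 = F.Z ww.2 := a5
              have b4 : F.T1 ((w - y) * u) ww.1 = F.T1 ((w - y) * u) ww.2 := a6
              unfold slam Fam.l
              rw [b1, b2, b3, b4])
            hMx'.1 le_rfl hρ1 hrare
          exact by
           obtain ⟨H', hH'⟩ : ∃ H', H' = CH (F.res A' True hlaw).p ((F.res A' True hlaw).X (Q J))
             (fun ω => (z ω, (F.res A' True hlaw).W ω)) := ⟨_, rfl⟩
           rw [← hH'] at hfam
           -- the clean event
           have hM : ∀ q : F.Ω → ℝ, IsLaw q → (∀ ω, 0 < q ω → A ω) →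
               CH q (F.X (Q J)) (fun ω => (z ω, F.W ω)) ≤ 3 * J + 3 * LM := by
             intro q hq hqA
             have h1 := pk_CH (Q := Q J) hq hi (by linarith only [hC])
               (Pk_of_Inc (A := fun ω => 0 < q ω) fun ω hω => hI ω (hqA ω hω))
             have h2 : CH q (F.X (Q J)) (fun ω => (z ω, F.W ω)) ≤
                 CH q (fun ω => fl (Q J) (F.x ω)) (fun ω => (z ω, F.T ω)) := by
               refine CH_mono_cond hq.nonneg fun ω ω' _ _ h => ?_
               obtain ⟨b1, b2⟩ := Prod.ext_iff.mp h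
               exact Prod.ext b1 (Prod.ext_iff.mp b2).1
             have h3 : (((Q J - w * u) + (Q J - (w * u + l * u)) + (Q J - p * u) : ℕ) : ℝ) * Real.log 2 ≤
                 3 * J := by
               have h4 : (((Q J - w * u) + (Q J - (w * u + l * u)) + (Q J - p * u) : ℕ) : ℝ) ≤ 3 * J := by
                 have : (Q J - w * u) + (Q J - (w * u + l * u)) + (Q J - p * u) ≤ 3 * J := by omega
                 exact_mod_cast this
               calc _ ≤ 3 * (J : ℝ) * 1 := mul_le_mul h4 hl21 hl20 (by positivity)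
                 _ = _ := mul_one _
             rw [← hLM] at h1
             linarith only [h1, h2, h3]
           exact by
            have hclean := CH_clean hp hA0 hthin' (F.X (Q J)) (fun ω => (z ω, F.W ω))
              (M := 3 * J + 3 * LM) (by positivity) hM (by rw [← hA']; exact hA'0)
            have hH'' : CH (Pool.Agent.H49.Ent.cond F.p (fun ω => A ω ∧ G ω) True) (F.X (Q J))
                (fun ω => (z ω, F.W ω)) = H' := by
              rw [hH', ← hA']
              rfl
            rw [hH''] at hclean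
            obtain ⟨H, hH⟩ : ∃ H, H = CH (Pool.Agent.H49.Ent.cond F.p A True) (F.X (Q J))
                (fun ω => (z ω, F.W ω)) := ⟨_, rfl⟩
            rw [← hH] at hclean hnum
            rw [← hR1] at hnum
            -- the errors
            have hE1 : Real.exp (-(κ * J)) * (3 * J + 3 * LM) ≤ 3 / κ + 3 * LM := by
              have h1 := exp_mul_le (J := (J : ℝ)) hκ
              have h2 : Real.exp (-(κ * J)) ≤ 1 := by linarith only [hexp2]
              have h3 : Real.exp (-(κ * J)) * (3 * LM) ≤ 1 * (3 * LM) :=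
                mul_le_mul_of_nonneg_right h2 (by positivity)
              have h4 : 3 / κ = 3 * (1 / κ) := by ring
              rw [h4]
              linarith only [h1, h3]
            exact by
             have hE2 : β * J ≤ 2 / κ := by
               have h1 := exp_mul_le (κ := κ / 2) (J := (J : ℝ)) (by positivity)
               rw [hβ]
               refine h1.trans (le_of_eq ?_)
               field_simp
             have hE3 : β * ((Q J : ℕ) : ℝ) * Real.log 2 ≤ 2 / κ := by
               have h0 : β * ((Q J : ℕ) : ℝ) ≤ β * J := mul_le_mul_of_nonneg_left hQJr hβ0.le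
               have h1 : β * ((Q J : ℕ) : ℝ) * Real.log 2 ≤ β * ((Q J : ℕ) : ℝ) * 1 :=
                 mul_le_mul_of_nonneg_left hl21 (by positivity)
               linarith only [hE2, h0, h1]
             have hE4 : Real.log (((p1 * u : ℕ) : ℝ) + 1) ≤ η / 8 * J + η / 8 + |Real.log (η / 8)| := by
               have h1 : Real.log (η / 8 * (((p1 * u : ℕ) : ℝ) + 1)) ≤
                   η / 8 * (((p1 * u : ℕ) : ℝ) + 1) - 1 := Real.log_le_sub_one_of_pos (by positivity)
               rw [Real.log_mul (by positivity) (by positivity)] at h1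
               have h2 := neg_abs_le (Real.log (η / 8))
               have h3 : ((p1 * u : ℕ) : ℝ) ≤ J := by exact_mod_cast hP1J
               have h4 : η / 8 * ((p1 * u : ℕ) : ℝ) ≤ η / 8 * J :=
                 mul_le_mul_of_nonneg_left h3 (by positivity)
               linarith only [h1, h2, h4]
             exact by
              have hE6 : 2 * (τ' * J) ≤ η / 8 * J := by
                have h1 : τ' ≤ η / 16 := by rw [hτ']; exact min_le_right _ _
                have h2 := mul_le_mul_of_nonneg_right h1 hJ0.le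
                linarith only [h2]
              exact by
               have hvr : (((w - y) * u : ℕ) : ℝ) + ((y * u : ℕ) : ℝ) = ((w * u : ℕ) : ℝ) := by
                 exact_mod_cast hv
               have hwl' : (((w + l) * u : ℕ) : ℝ) = ((w * u : ℕ) : ℝ) + ((l * u : ℕ) : ℝ) := by
                 push_cast; ring
               exact by
                have hyb' : (((2 * y + b + 1) * u : ℕ) : ℝ) = 2 * ((y * u : ℕ) : ℝ) +
                    (((b + 1) * u : ℕ) : ℝ) := by
                  push_cast; ring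
                rw [hvr] at hfam
                rw [hwl', hyb'] at hnum
                rw [← hLM, ← hL6, ← hL3] at hfam
                rw [hCst] at k1
                rw [hρ] at hfam
                linarith only [hCst, hCst0, k1, hfam, hnum, hclean, hE1, hE3, hE4, hE6]

end Pool.KS6
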