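import Pool.Agent.H77.S6.FQ8
import Pool.Agent.H77.S6.LC7

/-!
# Frames of planks at truncated points
-/

set_option autoImplicit false

namespace Pool.KS6

open Finset Real
open Pool.Agent.H49.Ent Pool.Agent.H32.Dense Pool.STK Pool.KA Pool.KSAT Pool.K3 Pool.K2S

section Mono

variable {i0 iu iN : Fin 3} {W lam P : ℕ} {C t : ℝ} {y : Pln} {x d : Fin 3 → ℝ}

/-- The slope zero, without precision of the second coordinate. -/
lemma Inc.e0 (h : Inc i0 iu iN W lam P C y t x d) (hC : 0 ≤ C) :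
    Inc i0 iu iN W 0 P (3 * C) ⟨0, y.c, y.s, y.xb, y.db⟩ t x d := by
  have p0 : (0 : ℝ) < 2 ^ W := by positivity
  have q1 : C / 2 ^ (W + lam) ≤ C / 2 ^ W :=
    div_le_div_of_nonneg_left hC p0 (pow_le_pow_right₀ (by norm_num) (by omega))
  have q2 : C / 2 ^ lam ≤ C := by
    rw [div_le_iff₀ (by positivity)]
    have : (1 : ℝ) ≤ 2 ^ lam := one_le_pow₀ (by norm_num)
    nlinarith
  refine ⟨by norm_num, h.c_le, h.s_le, ?_, ?_, ?_, ?_, ?_, ?_⟩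
  · exact h.pe.trans (div_le_div_of_nonneg_right (by linarith) p0.le)
  · have e1 : fu i0 iu 0 x - fu i0 iu 0 (fun i => y.xb i + t * y.db i) =
        (fu i0 iu y.e x - fu i0 iu y.e (fun i => y.xb i + t * y.db i)) +
          y.e * (x i0 - (y.xb i0 + t * y.db i0)) := by unfold fu; ring
    simp only
    rw [e1, Nat.add_zero]
    refine (abs_add_le _ _).trans ?_
    have e2 : |y.e * (x i0 - (y.xb i0 + t * y.db i0))| ≤ 2 * (C / 2 ^ W) := by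
      rw [abs_mul]
      exact mul_le_mul h.e_le h.pe (abs_nonneg _) (by norm_num)
    have e3 : 3 * C / 2 ^ W = C / 2 ^ W + 2 * (C / 2 ^ W) := by ring
    rw [e3]
    exact add_le_add (h.pu.trans q1) e2
  · exact h.pn.trans (div_le_div_of_nonneg_right (by linarith) (by positivity))
  · exact h.ve.trans (by linarith)
  · have e1 : fu i0 iu 0 d - fu i0 iu 0 y.db =
        (fu i0 iu y.e d - fu i0 iu y.e y.db) + y.e * (d i0 - y.db i0) := by unfold fu; ring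
    simp only
    rw [e1, pow_zero, div_one]
    refine (abs_add_le _ _).trans ?_
    have e2 : |y.e * (d i0 - y.db i0)| ≤ 2 * C := by
      rw [abs_mul]
      exact mul_le_mul h.e_le h.ve (abs_nonneg _) (by norm_num)
    linarith [h.vu]
  · refine h.vn.trans ?_
    refine div_le_div_of_nonneg_right ?_ (by positivity)
    exact mul_le_mul_of_nonneg_right (by linarith) (by positivity)

lemma Inc.mono {lam' P' : ℕ} {C' : ℝ} (h : Inc i0 iu iN W lam P C y t x d) (hC : 0 ≤ C)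
    (hl : lam' ≤ lam) (hP : P' ≤ P) (hCC : C ≤ C') :
    Inc i0 iu iN W lam' P' C' y t x d := by
  have hC' : 0 ≤ C' := hC.trans hCC
  refine ⟨h.e_le, h.c_le, h.s_le, ?_, ?_, ?_, ?_, ?_, ?_⟩
  · exact h.pe.trans (div_le_div_of_nonneg_right hCC (by positivity))
  · exact h.pu.trans (div_le_div₀ hC' hCC (by positivity)
      (pow_le_pow_right₀ (by norm_num) (by omega)))
  · exact h.pn.trans (div_le_div₀ hC' hCC (by positivity)
      (pow_le_pow_right₀ (by norm_num) hP))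
  · exact h.ve.trans hCC
  · exact h.vu.trans (div_le_div₀ hC' hCC (by positivity)
      (pow_le_pow_right₀ (by norm_num) hl))
  · exact h.vn.trans (div_le_div₀ (by positivity)
      (mul_le_mul_of_nonneg_right hCC (by positivity)) (by positivity)
      (pow_le_pow_right₀ (by norm_num) hP))

end Mono

/-- Weaker plank labels. -/
lemma LABq.mono {J : ℕ} {F : Fam 3 J} {Qt : ℕ} {i0 iu iN : Fin 3} {w lam lam' P P' : ℕ}
    {C C' : ℝ} {A : F.Ω → Prop} (h : LABq F Qt i0 iu iN w lam P C A) (hC : 0 ≤ C)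
    (hl : lam' ≤ lam) (hP : P' ≤ P) (hCC : C ≤ C') : LABq F Qt i0 iu iN w lam' P' C' A := by
  obtain ⟨y, h1, h2, h3⟩ := h
  exact ⟨y, fun ω hω => (h1 ω hω).mono hC hl hP hCC, h2, h3⟩

section Dir

variable {J : ℕ} {F : Fam 3 J} {Qt : ℕ} {i0 iu iN : Fin 3} {W lam : ℕ} {C : ℝ}
  {z : F.Ω → Pln} {A : F.Ω → Prop}

/-- The truncated point is a function of the exact point. -/
lemma ptq_of_pt (hQJ : Qt ≤ J) {ω ω' : F.Ω} (h : Fam.pt F ω = Fam.pt F ω') :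
    ptq F Qt ω = ptq F Qt ω' := by
  have h2 : F.X J ω = F.X J ω' := (Prod.ext_iff.mp h).1
  have h3 : F.W ω = F.W ω' := (Prod.ext_iff.mp h).2
  exact Prod.ext (Pool.STK.B58.fl_fine hQJ h2) h3

/-- The slope of the plank of the exact point is the slope of the fan of the truncated point. -/
lemma pair_dir (hQJ : Qt ≤ J) {s r : ℝ} (hs : 0 < s)
    (hI : ∀ ω, A ω → |fu i0 iu (z ω).e (F.d ω) - fu i0 iu (z ω).e (z ω).db| ≤ C / 2 ^ lam)
    {φ : (Fin 3 → ℤ) × (ℕ × F.ζ) → Pln} (hφ : ∀ ω, A ω → z ω = φ (Fam.pt F ω))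
    (hsp : SpreadI i0 s (Fam.pt F) F.d A)
    {e n : (Fin 3 → ℤ) × (ℕ × F.ζ) → Fin 3 → ℝ} (hon : OnL i0 r (ptq F Qt) F.d A e n)
    {ω : F.Ω} (hω : A ω) :
    |(z ω).e - e (ptq F Qt ω) iu| ≤ (2 * r + 2 * (C / 2 ^ lam)) / s := by
  obtain ⟨ω₁, ω₂, a1, a2, b1, b2, b3⟩ := hsp ω hω
  have z1 : z ω₁ = z ω := by rw [hφ ω₁ a1, hφ ω hω, b1]
  have z2 : z ω₂ = z ω := by rw [hφ ω₂ a2, hφ ω hω, b2]
  have c1 := hI ω₁ a1
  have c2 := hI ω₂ a2
  rw [z1] at c1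
  rw [z2] at c2
  have d1 := hon ω₁ a1 iu
  have d2 := hon ω₂ a2 iu
  rw [ptq_of_pt hQJ b1] at d1
  rw [ptq_of_pt hQJ b2] at d2
  obtain ⟨E, hE⟩ : ∃ E, E = e (ptq F Qt ω) iu := ⟨_, rfl⟩
  rw [← hE] at d1 d2 ⊢
  obtain ⟨Δ, hΔ⟩ : ∃ Δ, Δ = F.d ω₁ i0 - F.d ω₂ i0 := ⟨_, rfl⟩
  rw [← hΔ] at b3
  have k : |((z ω).e - E) * Δ| ≤ 2 * r + 2 * (C / 2 ^ lam) := by
    have e1 : ((z ω).e - E) * Δ =
        ((F.d ω₁ iu - E * F.d ω₁ i0 - n (ptq F Qt ω) iu) -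
          (F.d ω₂ iu - E * F.d ω₂ i0 - n (ptq F Qt ω) iu)) -
        ((fu i0 iu (z ω).e (F.d ω₁) - fu i0 iu (z ω).e (z ω).db) -
          (fu i0 iu (z ω).e (F.d ω₂) - fu i0 iu (z ω).e (z ω).db)) := by
      rw [hΔ]; unfold fu; ring
    rw [e1]
    refine (abs_sub _ _).trans ?_
    have f1 := abs_sub (F.d ω₁ iu - E * F.d ω₁ i0 - n (ptq F Qt ω) iu)
      (F.d ω₂ iu - E * F.d ω₂ i0 - n (ptq F Qt ω) iu)
    have f2 := abs_sub (fu i0 iu (z ω).e (F.d ω₁) - fu i0 iu (z ω).e (z ω).db)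
      (fu i0 iu (z ω).e (F.d ω₂) - fu i0 iu (z ω).e (z ω).db)
    linarith
  rw [le_div_iff₀ hs]
  rw [abs_mul] at k
  have := mul_le_mul_of_nonneg_left b3.le (abs_nonneg ((z ω).e - E))
  linarith

/-- The hypotheses of the entropy argument, from straight fans of the truncated points. -/
lemma mk_fqh (hQJ : Qt ≤ J) (hi : ∀ j : Fin 3, j = i0 ∨ j = iu ∨ j = iN) (hC : 1 ≤ C)
    {l2 P1 Pt : ℕ} (hA : ∀ ω, 0 < F.p ω → A ω)
    (hI : ∀ ω, A ω → Inc i0 iu iN W lam Pt C (z ω) (F.t ω) (F.x ω) (F.d ω))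
    {φ : (Fin 3 → ℤ) × (ℕ × F.ζ) → Pln} (hφ : ∀ ω, A ω → z ω = φ (Fam.pt F ω))
    {s : ℝ} (hs : 0 < s) (hsp : SpreadI i0 s (Fam.pt F) F.d A)
    {e n : (Fin 3 → ℤ) × (ℕ × F.ζ) → Fin 3 → ℝ}
    (hon : OnL i0 (1 / 2 ^ lam) (ptq F Qt) F.d A e n)
    (hnum : 4 * (1 + C) * 2 ^ l2 ≤ s * 2 ^ lam) (hl : l2 ≤ lam)
    (h1 : W + l2 ≤ P1) (h2 : P1 ≤ Pt) (h3 : Pt ≤ Qt) : FQH F Qt Pt i0 iu iN W l2 P1 C z := by
  have pl : (0 : ℝ) < 2 ^ lam := by positivity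
  have p2 : (0 : ℝ) < 2 ^ l2 := by positivity
  have hθ : ∀ ω, 0 < F.p ω → |(z ω).e - e (ptq F Qt ω) iu| ≤ 1 / 2 * (1 / 2 ^ l2) := by
    intro ω hω
    have k := pair_dir hQJ hs (fun ω hω => (hI ω hω).vu) hφ hsp hon (hA ω hω)
    refine k.trans ?_
    rw [div_le_iff₀ hs]
    have e1 : 2 * (1 / 2 ^ lam) + 2 * (C / 2 ^ lam) = 2 * (1 + C) / 2 ^ lam := by ring
    have e2 : 1 / 2 * (1 / 2 ^ l2) * s = s / (2 * 2 ^ l2) := by
      rw [div_mul_div_comm, div_mul_eq_mul_div, one_mul, one_mul]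
    rw [e1, e2, div_le_div_iff₀ pl (by positivity)]
    linarith
  refine ⟨hQJ, hi, hC, fun ω hω => (hI ω (hA ω hω)).mono (by linarith) hl le_rfl le_rfl, ?_, ?_,
    h1, h2, h3⟩
  · intro ω ω' hω hω' hp
    have k1 := hθ ω hω
    have k2 := hθ ω' hω'
    rw [← hp] at k2
    rw [abs_le] at k1 k2 ⊢
    constructor <;> linarith [k1.1, k1.2, k2.1, k2.2]
  · intro ω ω' hω hω' hp
    have k2 := hθ ω' hω'
    have d1 := hon ω (hA ω hω) iu
    have d2 := hon ω' (hA ω' hω') iu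
    rw [← hp] at k2 d2
    obtain ⟨E, hE⟩ : ∃ E, E = e (ptq F Qt ω) iu := ⟨_, rfl⟩
    rw [← hE] at d1 d2 k2
    have e1 : fu i0 iu (z ω').e (fun i => F.d ω i - F.d ω' i) =
        (F.d ω iu - E * F.d ω i0 - n (ptq F Qt ω) iu) +
        -(F.d ω' iu - E * F.d ω' i0 - n (ptq F Qt ω) iu) +
        -(((z ω').e - E) * (F.d ω i0 - F.d ω' i0)) := by unfold fu; ring
    rw [e1]
    refine (abs_add_three _ _ _).trans ?_
    rw [abs_neg, abs_neg, abs_mul]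
    have f1 : |F.d ω i0 - F.d ω' i0| ≤ 2 := by
      have := abs_sub (F.d ω i0) (F.d ω' i0)
      linarith [F.dir ω i0, F.dir ω' i0]
    have f2 : |(z ω').e - E| * |F.d ω i0 - F.d ω' i0| ≤ 1 / 2 * (1 / 2 ^ l2) * 2 :=
      mul_le_mul k2 f1 (abs_nonneg _) (by positivity)
    have f3 : (1 : ℝ) / 2 ^ lam ≤ 1 / 2 ^ l2 :=
      one_div_le_one_div_of_le p2 (pow_le_pow_right₀ (by norm_num) hl)
    have f4 : (6 : ℝ) / 2 ^ l2 = 6 * (1 / 2 ^ l2) := by ring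
    have f5 : (0 : ℝ) < 1 / 2 ^ l2 := by positivity
    rw [f4]
    linarith

/-- The hypotheses of the entropy argument, without precision of the second coordinate. -/
lemma mk_fqh0 (hQJ : Qt ≤ J) (hi : ∀ j : Fin 3, j = i0 ∨ j = iu ∨ j = iN) (hC : 1 ≤ C)
    {P1 Pt : ℕ} (hA : ∀ ω, 0 < F.p ω → A ω)
    (hI : ∀ ω, A ω → Inc i0 iu iN W lam Pt C (z ω) (F.t ω) (F.x ω) (F.d ω))
    (h1 : W ≤ P1) (h2 : P1 ≤ Pt) (h3 : Pt ≤ Qt) :
    FQH F Qt Pt i0 iu iN W 0 P1 (3 * C) (fun ω => ⟨0, (z ω).c, (z ω).s, (z ω).xb, (z ω).db⟩) := by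
  refine ⟨hQJ, hi, by linarith, fun ω hω => (hI ω (hA ω hω)).e0 (by linarith), ?_, ?_, h1, h2, h3⟩
  · intro ω ω' _ _ _
    simp only [sub_self, abs_zero]
    positivity
  · intro ω ω' _ _ _
    have e1 : fu i0 iu 0 (fun i => F.d ω i - F.d ω' i) = F.d ω iu - F.d ω' iu := by
      unfold fu; ring
    simp only
    rw [e1, pow_zero, div_one]
    have := abs_sub (F.d ω iu) (F.d ω' iu)
    linarith [F.dir ω iu, F.dir ω' iu]

end Dir

end Pool.KS6
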