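import Pool.Agent.H90.STK.Defs

/-!
# Entropy tools for labels: two labels, strips, events, collisions
-/

set_option autoImplicit false

namespace Pool.KS6

open Finset Real
open Pool.Agent.H49.Ent Pool.Agent.H32.Dense Pool.STK

section Two

variable {Ω S T U V : Type} [Fintype Ω]

/-- Two labels of a point. -/
theorem two_labels {p : Ω → ℝ} (hp : ∀ ω, 0 ≤ p ω) (Y : Ω → S) (N : Ω → T) (Z Z' : Ω → U)
    (W : Ω → V) :
    CH p Y (fun ω => (Z ω, W ω)) + CH p Y (fun ω => (Z' ω, W ω)) ≤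
      CH p Y (fun ω => (Z ω, Z' ω, W ω)) + CH p Y W + CH p N (fun ω => (Y ω, W ω)) +
      (CH p Z (fun ω => (N ω, Y ω, W ω)) - CH p Z (fun ω => (Z' ω, N ω, Y ω, W ω))) := by
  have s1 := submod hp (X := fun ω => (Z ω, W ω)) (Y := fun ω => (Z' ω, W ω)) (Z := W)
    (W := fun ω => (Z ω, Z' ω, W ω)) (fun ω ω' _ _ h => by
      simp only [Prod.mk.injEq] at h; exact h.2) (fun ω ω' _ _ h => by
      simp only [Prod.mk.injEq] at h; exact h.2) (fun ω ω' _ _ h => by
      simp only [Prod.mk.injEq] at h ⊢; tauto)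
  have s2 := submod hp (X := fun ω => (Y ω, (Z ω, Z' ω, W ω)))
    (Y := fun ω => (Z ω, (N ω, Y ω, W ω))) (Z := fun ω => (Y ω, (Z ω, W ω)))
    (W := fun ω => (Z ω, (Z' ω, N ω, Y ω, W ω))) (fun ω ω' _ _ h => by
      simp only [Prod.mk.injEq] at h ⊢; tauto) (fun ω ω' _ _ h => by
      simp only [Prod.mk.injEq] at h ⊢; tauto) (fun ω ω' _ _ h => by
      simp only [Prod.mk.injEq] at h ⊢; tauto)
  have s3 := H_mono hp (X := fun ω => (Z' ω, N ω, Y ω, W ω)) (Y := fun ω => (Y ω, (Z' ω, W ω)))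
    (fun ω ω' _ _ h => by
      simp only [Prod.mk.injEq] at h ⊢; tauto)
  have s4 : H p (fun ω => (N ω, (Y ω, W ω))) = H p (fun ω => (N ω, Y ω, W ω)) := rfl
  unfold CH
  linarith

end Two

section Strip

variable {Ω V : Type} [Fintype Ω]

/-- A linear form with a coefficient `≥ 1 / L` known up to `c`. -/
theorem strip_le {m : ℕ} {p : Ω → ℝ} (hp : IsLaw p) (M : ℕ) (Y : Ω → Fin (m + 1) → ℤ)
    (Q : Ω → V) (a : Ω → Fin (m + 1) → ℝ) (a0 : Ω → ℝ) (c : ℝ) (L : Ω → ℝ)
    (hY : ∀ ω, 0 < p ω → ∀ k, 0 ≤ Y ω k ∧ Y ω k < M)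
    (ha : Det p Q a) (ha0 : Det p Q a0)
    (hs : ∀ ω, 0 < p ω → |a0 ω + ∑ k, a ω k * Y ω k| ≤ c)
    (hL : ∀ ω, 0 < p ω → 0 < L ω ∧ ∃ k, 1 ≤ L ω * |a ω k|) :
    CH p Y Q ≤ m * Real.log M + Ex p (fun ω => Real.log (4 * c * L ω + 1)) := by
  classical
  -- the largest coefficient
  have hex : ∀ v : Fin (m + 1) → ℝ, ∃ k, ∀ j, |v j| ≤ |v k| := by
    intro v
    obtain ⟨k, _, hk⟩ := Finset.exists_max_image Finset.univ (fun j => |v j|)
      ⟨0, Finset.mem_univ _⟩
    exact ⟨k, fun j => hk j (Finset.mem_univ j)⟩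
  choose f hf using hex
  set X : Ω → ℤ := fun ω => Y ω (f (a ω)) with hX
  set Y0 : Ω → Fin (m + 1) → ℤ := fun ω => Function.update (Y ω) (f (a ω)) 0 with hY0
  have h1 : CH p Y Q ≤ CH p (fun ω => (X ω, Y0 ω)) Q := by
    refine CH_mono_left hp.nonneg ?_
    intro ω ω' hω hω' h
    simp only [Prod.mk.injEq] at h
    obtain ⟨⟨e1, e2⟩, e3⟩ := h
    have e4 := ha ω ω' hω hω' e3
    funext j
    have e5 : Function.update (Y ω) (f (a ω)) 0 j = Function.update (Y ω') (f (a ω')) 0 j :=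
      congrFun e2 j
    by_cases hj : j = f (a ω)
    · have e6 : Y ω (f (a ω)) = Y ω' (f (a ω')) := e1
      rw [hj, e6, e4]
    · rw [Function.update_of_ne hj, Function.update_of_ne (by rw [← e4]; exact hj)] at e5
      exact e5
  rw [CH_chain hp.nonneg] at h1
  -- the other coordinates
  set g : V → Fin (m + 1) := fun w =>
    if h : ∃ ω, 0 < p ω ∧ Q ω = w then f (a h.choose) else 0 with hg
  have hgf : ∀ ω, 0 < p ω → g (Q ω) = f (a ω) := by
    intro ω hω
    have h : ∃ ω', 0 < p ω' ∧ Q ω' = Q ω := ⟨ω, hω, rfl⟩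
    rw [hg]
    dsimp only
    rw [dif_pos h, ha _ _ h.choose_spec.1 hω h.choose_spec.2]
  have h2 : CH p Y0 Q ≤ m * Real.log M := by
    have h3 := CH_le_card hp.nonneg hp.sum_one Y0 Q
      (fun w => Fintype.piFinset fun j : Fin (m + 1) =>
        if j = g w then ({0} : Finset ℤ) else Finset.Ico 0 (M : ℤ)) (by
        intro ω hω
        rw [Fintype.mem_piFinset]
        intro j
        rw [hgf ω hω]
        by_cases hj : j = f (a ω)
        · rw [if_pos hj, hj, hY0]
          simp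
        · rw [if_neg hj, hY0]
          dsimp only
          rw [Function.update_of_ne hj, Finset.mem_Ico]
          exact hY ω hω j)
    refine h3.trans ?_
    rw [← Ex_const hp.sum_one (m * Real.log M)]
    refine Ex_mono hp.nonneg fun ω hω => ?_
    rw [Fintype.card_piFinset]
    have h4 : ∀ j : Fin (m + 1), (if j = g (Q ω) then ({0} : Finset ℤ)
        else Finset.Ico 0 (M : ℤ)).card = if j = g (Q ω) then 1 else M := by
      intro j
      split_ifs
      · simp
      · simp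
    rw [Finset.prod_congr rfl fun j _ => h4 j, Finset.prod_ite, Finset.prod_const_one, one_mul,
      Finset.prod_const]
    have h5 : (Finset.univ.filter fun j : Fin (m + 1) => ¬ j = g (Q ω)).card = m := by
      have : (Finset.univ.filter fun j : Fin (m + 1) => ¬ j = g (Q ω)) =
          Finset.univ.erase (g (Q ω)) := by
        ext j; simp
      rw [this, Finset.card_erase_of_mem (Finset.mem_univ _)]
      simp
    rw [h5]
    push_cast
    rw [Real.log_pow]
  -- the last coordinate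
  have h6 : CH p X (fun ω => (Y0 ω, Q ω)) ≤ Ex p (fun ω => Real.log (2 * (2 * c * L ω) + 1)) := by
    refine CH_le_int hp.nonneg hp.sum_one X _ (fun ω => 2 * c * L ω) ?_
    intro ω ω' hω hω' h
    simp only [Prod.mk.injEq] at h
    obtain ⟨e2, e3⟩ := h
    have e4 := ha ω ω' hω hω' e3
    have e5 := ha0 ω ω' hω hω' e3
    set k := f (a ω) with hk
    have e6 : ∀ j, j ≠ k → Y ω j = Y ω' j := by
      intro j hj
      have e7 : Function.update (Y ω) (f (a ω)) 0 j = Function.update (Y ω') (f (a ω')) 0 j :=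
        congrFun e2 j
      rw [Function.update_of_ne hj, Function.update_of_ne (by rw [← e4]; exact hj)] at e7
      exact e7
    have e8 : (a0 ω + ∑ j, a ω j * Y ω j) - (a0 ω' + ∑ j, a ω' j * Y ω' j) =
        a ω k * ((Y ω k - Y ω' k : ℤ) : ℝ) := by
      rw [← e4, ← e5, add_sub_add_left_eq_sub, ← Finset.sum_sub_distrib]
      rw [Finset.sum_eq_single k]
      · push_cast; ring
      · intro j _ hj
        rw [e6 j hj]; ring
      · intro h; exact absurd (Finset.mem_univ _) h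
    have e9 := hs ω hω
    have e10 := hs ω' hω'
    obtain ⟨l1, j, hj⟩ := hL ω hω
    have e11 : 1 ≤ L ω * |a ω k| := hj.trans (mul_le_mul_of_nonneg_left (hf (a ω) j) l1.le)
    have e12 : |a ω k * ((Y ω k - Y ω' k : ℤ) : ℝ)| ≤ 2 * c := by
      rw [← e8]
      refine (abs_sub _ _).trans ?_
      linarith
    have e13 : X ω - X ω' = Y ω k - Y ω' k := by
      rw [hX]
      dsimp only
      rw [← e4]
    rw [e13]
    have e14 : 0 ≤ |((Y ω k - Y ω' k : ℤ) : ℝ)| := abs_nonneg _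
    rw [abs_mul] at e12
    calc |((Y ω k - Y ω' k : ℤ) : ℝ)| = 1 * |((Y ω k - Y ω' k : ℤ) : ℝ)| := by ring
      _ ≤ (L ω * |a ω k|) * |((Y ω k - Y ω' k : ℤ) : ℝ)| :=
          mul_le_mul_of_nonneg_right e11 e14
      _ = L ω * (|a ω k| * |((Y ω k - Y ω' k : ℤ) : ℝ)|) := by ring
      _ ≤ L ω * (2 * c) := mul_le_mul_of_nonneg_left e12 l1.le
      _ = 2 * c * L ω := by ring
  have h7 : (fun ω => Real.log (2 * (2 * c * L ω) + 1)) =
      fun ω => Real.log (4 * c * L ω + 1) := by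
    funext ω
    congr 1
    ring
  rw [h7] at h6
  linarith

end Strip

end Pool.KS6
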