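import Pool.Agent.H77.S6.Pk

/-!
# Two planks of one line: counting in the strip
-/

set_option autoImplicit false

namespace Pool.KS6

open Finset Real
open Pool.Agent.H49.Ent Pool.Agent.H32.Dense Pool.STK Pool.KA Pool.KSAT Pool.K3

section Class

/-- The distance of two planks, in units of the window. -/
noncomputable def dl (W lam : ℕ) (c s c' s' e' : ℝ) : ℝ :=
  max (|Ae c s c' s' e'| / 2 ^ W) (|s - s'| / 2 ^ (W + lam)) / 48

open Classical in
/-- The number of digits (at most `P1`) of the normal coordinate to which two planks agree. -/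
noncomputable def kc (W lam P1 : ℕ) (c s c' s' e' : ℝ) : ℕ :=
  Nat.findGreatest (fun k => dl W lam c s c' s' e' ≤ 1 / 2 ^ k) P1

variable {W lam P1 : ℕ} {c s c' s' e' : ℝ}

lemma kc_le : kc W lam P1 c s c' s' e' ≤ P1 := Nat.findGreatest_le P1

lemma dl_le_one (hA : |Ae c s c' s' e'| ≤ 24) (hs : |s - s'| ≤ 8) :
    dl W lam c s c' s' e' ≤ 1 := by
  unfold dl
  rw [div_le_one (by norm_num), max_le_iff]
  constructor
  · rw [div_le_iff₀ (by positivity)]
    have : (1 : ℝ) ≤ 2 ^ W := one_le_pow₀ (by norm_num)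
    linarith
  · rw [div_le_iff₀ (by positivity)]
    have : (1 : ℝ) ≤ 2 ^ (W + lam) := one_le_pow₀ (by norm_num)
    linarith

lemma dl_le_kc (hA : |Ae c s c' s' e'| ≤ 24) (hs : |s - s'| ≤ 8) :
    dl W lam c s c' s' e' ≤ 1 / 2 ^ kc W lam P1 c s c' s' e' := by
  classical
  unfold kc
  refine Nat.findGreatest_spec (P := fun k => dl W lam c s c' s' e' ≤ 1 / 2 ^ k)
    (Nat.zero_le P1) ?_
  simpa using dl_le_one (W := W) (lam := lam) hA hs

lemma lt_dl (h : kc W lam P1 c s c' s' e' < P1) :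
    1 / 2 ^ (kc W lam P1 c s c' s' e' + 1) < dl W lam c s c' s' e' := by
  classical
  have h1 := Nat.findGreatest_is_greatest (P := fun k => dl W lam c s c' s' e' ≤ 1 / 2 ^ k)
    (n := P1) (k := kc W lam P1 c s c' s' e' + 1) (Nat.lt_succ_self _) (by omega)
  exact not_le.1 h1

lemma le_kc (hA : |Ae c s c' s' e'| ≤ 24)
    (h : |s - s'| / 2 ^ (W + lam) ≤ |Ae c s c' s' e'| / 2 ^ W) (hW : W ≤ P1) :
    W ≤ kc W lam P1 c s c' s' e' := by
  classical
  refine Nat.le_findGreatest hW ?_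
  unfold dl
  rw [max_eq_left h, div_div, div_le_div_iff₀ (by positivity) (by positivity)]
  have : (0 : ℝ) < 2 ^ W := by positivity
  nlinarith

lemma le_kc' (hs : |s - s'| ≤ 8)
    (h : |Ae c s c' s' e'| / 2 ^ W < |s - s'| / 2 ^ (W + lam)) (hW : W + lam ≤ P1) :
    W + lam ≤ kc W lam P1 c s c' s' e' := by
  classical
  refine Nat.le_findGreatest hW ?_
  unfold dl
  rw [max_eq_right h.le, div_div, div_le_div_iff₀ (by positivity) (by positivity)]
  have : (0 : ℝ) < 2 ^ (W + lam) := by positivity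
  nlinarith

/-- Case A: the coefficient along the fans dominates. -/
lemma Ae_ge (h : kc W lam P1 c s c' s' e' < P1)
    (hA : |s - s'| / 2 ^ (W + lam) ≤ |Ae c s c' s' e'| / 2 ^ W) :
    24 * 2 ^ W / 2 ^ kc W lam P1 c s c' s' e' ≤ |Ae c s c' s' e'| := by
  have h1 := lt_dl h
  unfold dl at h1
  rw [max_eq_left hA, div_div, lt_div_iff₀ (by positivity), pow_succ] at h1
  refine le_trans (le_of_eq ?_) h1.le
  field_simp
  ring

/-- Case B: the other coefficient dominates. -/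
lemma s_ge (h : kc W lam P1 c s c' s' e' < P1)
    (hA : |Ae c s c' s' e'| / 2 ^ W < |s - s'| / 2 ^ (W + lam)) :
    24 * 2 ^ (W + lam) / 2 ^ kc W lam P1 c s c' s' e' ≤ |s - s'| := by
  have h1 := lt_dl h
  unfold dl at h1
  rw [max_eq_right hA.le, div_div, lt_div_iff₀ (by positivity), pow_succ] at h1
  refine le_trans (le_of_eq ?_) h1.le
  field_simp
  ring

/-- Both coefficients are at most of the order of the distance. -/
lemma coef_le (hA : |Ae c s c' s' e'| ≤ 24) (hs : |s - s'| ≤ 8) :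
    |Ae c s c' s' e'| / 2 ^ W ≤ 48 / 2 ^ kc W lam P1 c s c' s' e' ∧
      |s - s'| / 2 ^ (W + lam) ≤ 48 / 2 ^ kc W lam P1 c s c' s' e' := by
  have h1 := dl_le_kc (W := W) (lam := lam) (P1 := P1) hA hs
  unfold dl at h1
  rw [div_le_iff₀ (by norm_num)] at h1
  have e1 : 1 / 2 ^ kc W lam P1 c s c' s' e' * (48 : ℝ) =
      48 / 2 ^ kc W lam P1 c s c' s' e' := by ring
  rw [e1] at h1
  exact ⟨(le_max_left _ _).trans h1, (le_max_right _ _).trans h1⟩

end Class

section Cells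

lemma cell_le {J : ℕ} {a b r : ℝ} (h : |a - b| ≤ r) :
    |((⌊(2 : ℝ) ^ J * a⌋ - ⌊(2 : ℝ) ^ J * b⌋ : ℤ) : ℝ)| ≤ 2 ^ J * r + 1 := by
  refine (floor_sub_le' _ _).trans ?_
  rw [← mul_sub, abs_mul, abs_of_pos (by positivity : (0 : ℝ) < 2 ^ J)]
  have := mul_le_mul_of_nonneg_left h (by positivity : (0 : ℝ) ≤ 2 ^ J)
  linarith

lemma cell_eq {J : ℕ} {a b : ℝ} (h : ⌊(2 : ℝ) ^ J * a⌋ = ⌊(2 : ℝ) ^ J * b⌋) :
    |a - b| ≤ 1 / 2 ^ J := by
  have h1 := Int.abs_sub_lt_one_of_floor_eq_floor h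
  rw [← mul_sub, abs_mul, abs_of_pos (by positivity : (0 : ℝ) < 2 ^ J)] at h1
  rw [le_div_iff₀ (by positivity), mul_comm]
  exact h1.le

/-- A length `c / 2 ^ k` contains at most `(c + 1) 2 ^ (J - k)` cells. -/
lemma cells {J k : ℕ} {r c : ℝ} (hk : k ≤ J) (hr : r ≤ c / 2 ^ k) :
    2 ^ J * r + 1 ≤ (c + 1) * 2 ^ (J - k) := by
  have e1 : (2 : ℝ) ^ J = 2 ^ (J - k) * 2 ^ k := by rw [← pow_add, Nat.sub_add_cancel hk]
  have h1 := mul_le_mul_of_nonneg_left hr (by positivity : (0 : ℝ) ≤ 2 ^ J)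
  have e2 : (2 : ℝ) ^ J * (c / 2 ^ k) = c * 2 ^ (J - k) := by
    rw [e1]; field_simp
  rw [e2] at h1
  have : (1 : ℝ) ≤ 2 ^ (J - k) := one_le_pow₀ (by norm_num)
  linarith

end Cells

end Pool.KS6
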