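import Pool.Agent.H77.S6.CC

/-!
# The point given the two planks
-/

set_option autoImplicit false

namespace Pool.KS6

open Finset Real
open Pool.Agent.H49.Ent Pool.Agent.H32.Dense Pool.STK Pool.KA Pool.KSAT Pool.K3

/-- The class of a pair of labels. -/
noncomputable def kk {Ω S : Type} (W lam P1 : ℕ) (z : Ω → S) (e c s : S → ℝ) (w : Ω × Ω) : ℕ :=
  kc W lam P1 (c (z w.1)) (s (z w.1)) (c (z w.2)) (s (z w.2)) (e (z w.2))

/-- The number of rows saved by the strip. -/
noncomputable def sv (P y P1 k : ℕ) : ℕ := if k < P1 then P - y - k else 0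

open Classical in
/-- The point `X'` given the two planks. -/
theorem U2_le {J : ℕ} (F : Fam 3 J) {Qt : ℕ} (hQJ : Qt ≤ J) {i0 iu iN : Fin 3}
    (hi : ∀ j : Fin 3, j = i0 ∨ j = iu ∨ j = iN)
    {v y lam P P1 : ℕ} {C : ℝ} (hC : 0 ≤ C) {S V' : Type} {z : F.Ω → S} {e c s : S → ℝ}
    {xb db : S → Fin 3 → ℝ}
    (hP : Pk F.x F.d (fun ω => 0 < F.p ω) i0 iu iN (v + y) lam P C z e c s xb db)
    (V : F.Ω × F.Ω → V') (hV : Det (prs F v) V (fun w => F.t w.2 - F.t w.1))
    (h1 : v + y + lam ≤ P1) (h2 : P1 + y ≤ P) (h3 : P ≤ Qt) :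
    CH (prs F v) (fun w => F.X Qt w.2) (fun w => (z w.1, z w.2, V w)) ≤
      Ex (prs F v) (fun w => (((Qt - (v + y) + (Qt - (v + y + lam)) + (Qt - P) -
        sv P y P1 (kk (v + y) lam P1 z e c s w) : ℕ)) : ℝ)) * Real.log 2 +
      4 * Real.log (2 * (6 * C + 40) + 1) := by
  obtain ⟨W, hW⟩ : ∃ W, W = v + y := ⟨_, rfl⟩
  have hvJ : v ≤ J := by omega
  obtain ⟨p, hp⟩ : ∃ p, p = prs F v := ⟨_, rfl⟩
  have hpl : IsLaw p := by rw [hp]; exact prs_law F v
  set k : F.Ω × F.Ω → ℕ := kk W lam P1 z e c s with hk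
  set cA : F.Ω × F.Ω → Prop := fun w => |s (z w.1) - s (z w.2)| / 2 ^ (W + lam) ≤
    |Ae (c (z w.1)) (s (z w.1)) (c (z w.2)) (s (z w.2)) (e (z w.2))| / 2 ^ W with hcA
  set Y : F.Ω × F.Ω → Fin 4 → ℤ := fun w =>
    ![if cA w then ⌊(2 : ℝ) ^ Qt * fu i0 iu (e (z w.2)) (F.x w.2)⌋ else 0,
      ⌊(2 : ℝ) ^ Qt * F.x w.2 i0⌋, ⌊(2 : ℝ) ^ Qt * F.x w.2 iu⌋, ⌊(2 : ℝ) ^ Qt * F.x w.2 iN⌋] with hY
  set Q : F.Ω × F.Ω → S × S × V' := fun w => (z w.1, z w.2, V w) with hQ
  have hXY : CH p (fun w => F.X Qt w.2) Q ≤ CH p Y Q := by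
    refine CH_mono_left hpl.nonneg fun w w' _ _ hh => ?_
    have hh1 := (Prod.ext_iff.mp hh).1
    funext j
    rcases hi j with rfl | rfl | rfl
    · exact congrFun hh1 1
    · exact congrFun hh1 2
    · exact congrFun hh1 3
  -- the exponents
  set a : Fin 4 → F.Ω × F.Ω → ℕ := fun i w =>
    ![if cA w then Qt - (W + lam) else 0,
      if cA w then Qt - W - sv P y P1 (k w) else Qt - W,
      if cA w then 0 else Qt - (W + lam) - sv P y P1 (k w),
      Qt - P] i with ha
  have hcount := CH_le_pow hpl Q Y (fun _ => 6 * C + 40) a (fun _ => by positivity) (by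
    intro i w w' hw hw' hQQ hlt
    rw [hp] at hw hw'
    obtain ⟨q1, q2, q3⟩ : z w.1 = z w'.1 ∧ z w.2 = z w'.2 ∧ V w = V w' := by
      simp only [hQ, Prod.mk.injEq] at hQQ
      exact hQQ
    have hτ : F.t w.2 - F.t w.1 = F.t w'.2 - F.t w'.1 := hV w w' hw hw' q3
    have m1 := moved hvJ hC hP hw
    have m2 := moved hvJ hC hP hw'
    rw [← hτ, ← q1] at m2
    have p1 := (prs_pos hw).2.1
    have p2 := (prs_pos hw').2.1
    have p3 := (prs_pos hw).1
    -- the differences
    obtain ⟨D0, hD0⟩ : ∃ D0, D0 = F.x w.2 i0 - F.x w'.2 i0 := ⟨_, rfl⟩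
    obtain ⟨Du, hDu⟩ : ∃ Du, Du = F.x w.2 iu - F.x w'.2 iu := ⟨_, rfl⟩
    obtain ⟨DN, hDN⟩ : ∃ DN, DN = F.x w.2 iN - F.x w'.2 iN := ⟨_, rfl⟩
    obtain ⟨e', he'⟩ : ∃ e', e' = e (z w.2) := ⟨_, rfl⟩
    obtain ⟨c', hc'⟩ : ∃ c', c' = c (z w.2) := ⟨_, rfl⟩
    obtain ⟨s', hs'⟩ : ∃ s', s' = s (z w.2) := ⟨_, rfl⟩
    obtain ⟨c1, hc1⟩ : ∃ c1, c1 = c (z w.1) := ⟨_, rfl⟩
    obtain ⟨s1, hs1⟩ : ∃ s1, s1 = s (z w.1) := ⟨_, rfl⟩
    have be := hP.e_le _ p1
    have bc := hP.c_le _ p1
    have bs := hP.s_le _ p1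
    have bc1 := hP.c_le _ p3
    have bs1 := hP.s_le _ p3
    rw [← he'] at be
    rw [← hc'] at bc
    rw [← hs'] at bs
    rw [← hc1] at bc1
    rw [← hs1] at bs1
    have f0 : |D0| ≤ 2 * C / 2 ^ W := by
      have g1 := hP.pe _ p1
      have g2 := hP.pe _ p2
      rw [← q2] at g2
      rw [← hW] at g1 g2
      have : D0 = (F.x w.2 i0 - xb (z w.2) i0) - (F.x w'.2 i0 - xb (z w.2) i0) := by
        rw [hD0]; ring
      rw [this]
      refine (abs_sub _ _).trans ?_
      have e1 : 2 * C / 2 ^ W = C / 2 ^ W + C / 2 ^ W := by ring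
      linarith only [g1, g2, e1]
    have f1 : |Du - e' * D0| ≤ 2 * C / 2 ^ (W + lam) := by
      have g1 := hP.pu _ p1
      have g2 := hP.pu _ p2
      rw [← q2] at g2
      rw [← hW, ← he'] at g1 g2
      have : Du - e' * D0 = (fu i0 iu e' (F.x w.2) - fu i0 iu e' (xb (z w.2))) -
          (fu i0 iu e' (F.x w'.2) - fu i0 iu e' (xb (z w.2))) := by
        rw [hD0, hDu]; unfold fu; ring
      rw [this]
      refine (abs_sub _ _).trans ?_
      have e1 : 2 * C / 2 ^ (W + lam) = C / 2 ^ (W + lam) + C / 2 ^ (W + lam) := by ring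
      linarith only [g1, g2, e1]
    have f2 : |c' * D0 + s' * Du + DN| ≤ 2 * C / 2 ^ P := by
      have g1 := hP.pn _ p1
      have g2 := hP.pn _ p2
      rw [← q2] at g2
      rw [← hc', ← hs'] at g1 g2
      have : c' * D0 + s' * Du + DN = (fn i0 iu iN c' s' (F.x w.2) - fn i0 iu iN c' s' (xb (z w.2)))
          - (fn i0 iu iN c' s' (F.x w'.2) - fn i0 iu iN c' s' (xb (z w.2))) := by
        rw [hD0, hDu, hDN]; unfold fn; ring
      rw [this]
      refine (abs_sub _ _).trans ?_
      have e1 : 2 * C / 2 ^ P = C / 2 ^ P + C / 2 ^ P := by ring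
      linarith only [g1, g2, e1]
    have f3 : |c1 * D0 + s1 * Du + DN| ≤ 4 * C * 2 ^ y / 2 ^ P := by
      have g1 := m1.2.2
      have g2 := m2.2.2
      rw [← hc1, ← hs1] at g1 g2
      have : c1 * D0 + s1 * Du + DN =
          (fn i0 iu iN c1 s1 (F.x w.2) - fn i0 iu iN c1 s1 (xm xb db (z w.1)
            (F.t w.2 - F.t w.1))) -
          (fn i0 iu iN c1 s1 (F.x w'.2) - fn i0 iu iN c1 s1 (xm xb db (z w.1)
            (F.t w.2 - F.t w.1))) := by
        rw [hD0, hDu, hDN]; unfold fn; ring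
      rw [this]
      refine (abs_sub _ _).trans ?_
      have e1 : 4 * C * 2 ^ y / 2 ^ P = 2 * C * 2 ^ y / 2 ^ P + 2 * C * 2 ^ y / 2 ^ P := by ring
      linarith only [g1, g2, e1]
    have h2y : (1 : ℝ) ≤ 2 ^ y := one_le_pow₀ (by norm_num)
    have hPp : (0 : ℝ) < 2 ^ P := by positivity
    -- the strip
    obtain ⟨A1, hA1⟩ : ∃ A1, A1 = Ae c1 s1 c' s' e' := ⟨_, rfl⟩
    have hA24 : |A1| ≤ 24 := by rw [hA1]; exact Ae_le bc1 bs1 bc bs be
    have hs8 : |s1 - s'| ≤ 8 := by
      have := abs_sub s1 s'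
      linarith only [bs, bs1, this]
    have f4 : |A1 * D0 + (s1 - s') * (Du - e' * D0)| ≤ 6 * C * 2 ^ y / 2 ^ P := by
      have : A1 * D0 + (s1 - s') * (Du - e' * D0) =
          (c1 * D0 + s1 * Du + DN) - (c' * D0 + s' * Du + DN) := by
        rw [hA1]; unfold Ae; ring
      rw [this]
      refine (abs_sub _ _).trans ?_
      have e1 : 2 * C / 2 ^ P ≤ 2 * C * 2 ^ y / 2 ^ P := by
        refine div_le_div_of_nonneg_right ?_ hPp.le
        nlinarith only [hC, h2y]
      have e2 : 6 * C * 2 ^ y / 2 ^ P = 4 * C * 2 ^ y / 2 ^ P + 2 * C * 2 ^ y / 2 ^ P := by ring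
      linarith only [f2, f3, e1, e2]
    have hkw : k w = kc W lam P1 c1 s1 c' s' e' := by
      rw [hk, hc1, hs1, hc', hs', he']
      rfl
    have hcAw : cA w ↔ |s1 - s'| / 2 ^ (W + lam) ≤ |A1| / 2 ^ W := by
      rw [hcA, hA1, hc1, hs1, hc', hs', he']
    have hcAw' : cA w' ↔ cA w := by
      simp only [hcA, q1, q2]
    obtain ⟨K, hK⟩ : ∃ K, K = kc W lam P1 c1 s1 c' s' e' := ⟨_, rfl⟩
    have hKP : K ≤ P1 := by rw [hK]; exact kc_le
    have hJ0 : (0 : ℝ) < 2 ^ Qt := by positivity
    have hPJ : (1 : ℝ) / 2 ^ Qt ≤ 1 / 2 ^ P :=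
      one_div_le_one_div_of_le hPp (pow_le_pow_right₀ (by norm_num) h3)
    fin_cases i
    · -- the transversal coordinate
      change |(((if cA w then ⌊(2 : ℝ) ^ Qt * fu i0 iu (e (z w.2)) (F.x w.2)⌋ else 0) -
        (if cA w' then ⌊(2 : ℝ) ^ Qt * fu i0 iu (e (z w'.2)) (F.x w'.2)⌋ else 0) : ℤ) : ℝ)| ≤
        (6 * C + 40) * 2 ^ (if cA w then Qt - (W + lam) else 0)
      by_cases hc : cA w
      · rw [if_pos hc, if_pos (hcAw'.2 hc), if_pos hc, ← q2, ← he']
        have g : |fu i0 iu e' (F.x w.2) - fu i0 iu e' (F.x w'.2)| ≤ 2 * C / 2 ^ (W + lam) := by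
          have : fu i0 iu e' (F.x w.2) - fu i0 iu e' (F.x w'.2) = Du - e' * D0 := by
            rw [hD0, hDu]; unfold fu; ring
          rw [this]; exact f1
        refine (cell_le g).trans ((cells (by omega) le_rfl).trans ?_)
        refine mul_le_mul_of_nonneg_right (by linarith only [hC]) (by positivity)
      · rw [if_neg hc, if_neg (fun h => hc (hcAw'.1 h)), if_neg hc]
        simp only [sub_zero, Int.cast_zero, abs_zero, pow_zero, mul_one]
        linarith only [hC]
    · -- the coordinate along the fans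
      change |((⌊(2 : ℝ) ^ Qt * F.x w.2 i0⌋ - ⌊(2 : ℝ) ^ Qt * F.x w'.2 i0⌋ : ℤ) : ℝ)| ≤
        (6 * C + 40) * 2 ^ (if cA w then Qt - W - sv P y P1 (k w) else Qt - W)
      by_cases hc : cA w
      · rw [if_pos hc]
        have g0 := hlt 0 (by decide)
        change (if cA w then ⌊(2 : ℝ) ^ Qt * fu i0 iu (e (z w.2)) (F.x w.2)⌋ else 0) =
          (if cA w' then ⌊(2 : ℝ) ^ Qt * fu i0 iu (e (z w'.2)) (F.x w'.2)⌋ else 0) at g0
        rw [if_pos hc, if_pos (hcAw'.2 hc), ← q2, ← he'] at g0
        have g1 := cell_eq g0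
        have g2 : |Du - e' * D0| ≤ 1 / 2 ^ Qt := by
          have : fu i0 iu e' (F.x w.2) - fu i0 iu e' (F.x w'.2) = Du - e' * D0 := by
            rw [hD0, hDu]; unfold fu; ring
          rw [← this]; exact g1
        rw [hkw, ← hK]
        unfold sv
        by_cases hkl : K < P1
        · rw [if_pos hkl]
          have g3 := Ae_ge (c := c1) (s := s1) (c' := c') (s' := s') (e' := e')
            (W := W) (lam := lam) (P1 := P1) (by rw [← hK]; exact hkl)
            (by rw [← hA1]; exact hcAw.1 hc)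
          rw [← hK, ← hA1] at g3
          have g4 : |A1 * D0| ≤ (6 * C + 8) * 2 ^ y / 2 ^ P := by
            have e1 : A1 * D0 = (A1 * D0 + (s1 - s') * (Du - e' * D0)) -
                (s1 - s') * (Du - e' * D0) := by ring
            rw [e1]
            refine (abs_sub _ _).trans ?_
            have e2 : |(s1 - s') * (Du - e' * D0)| ≤ 8 * (1 / 2 ^ Qt) := by
              rw [abs_mul]
              exact mul_le_mul hs8 g2 (abs_nonneg _) (by norm_num)
            have e3 : 8 * ((1 : ℝ) / 2 ^ P) ≤ 8 * 2 ^ y / 2 ^ P := by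
              rw [mul_one_div]
              exact div_le_div_of_nonneg_right (by linarith only [h2y]) hPp.le
            have e4 : (6 * C + 8) * 2 ^ y / 2 ^ P = 6 * C * 2 ^ y / 2 ^ P + 8 * 2 ^ y / 2 ^ P := by
              ring
            linarith only [f4, hPJ, e2, e3, e4]
          have g5 : |D0| ≤ (6 * C + 8) / 2 ^ (W + (P - y - K)) := by
            rw [abs_mul] at g4
            have e1 : (24 * 2 ^ W / 2 ^ K) * |D0| ≤ (6 * C + 8) * 2 ^ y / 2 ^ P :=
              (mul_le_mul_of_nonneg_right g3 (abs_nonneg _)).trans g4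
            have e2 : (2 : ℝ) ^ P = 2 ^ (P - y - K) * 2 ^ y * 2 ^ K := by
              rw [← pow_add, ← pow_add]; congr 1; omega
            rw [e2] at e1
            rw [le_div_iff₀ (by positivity), pow_add]
            have e3 : (6 * C + 8) * 2 ^ y / (2 ^ (P - y - K) * 2 ^ y * 2 ^ K) =
                (6 * C + 8) / (2 ^ (P - y - K) * 2 ^ K) := by
              field_simp
            rw [e3, le_div_iff₀ (by positivity)] at e1
            have e4 : 24 * 2 ^ W / 2 ^ K * |D0| * (2 ^ (P - y - K) * 2 ^ K) =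
                24 * (|D0| * (2 ^ W * 2 ^ (P - y - K))) := by
              field_simp
            rw [e4] at e1
            have e5 : 0 ≤ |D0| * (2 ^ W * 2 ^ (P - y - K)) := by positivity
            linarith only [hC, e1]
          have hWK : W ≤ K := by
            rw [hK]
            refine le_kc (by rw [← hA1]; exact hA24) (by rw [← hA1]; exact hcAw.1 hc) (by omega)
          rw [hD0] at g5
          refine (cell_le g5).trans ((cells (by omega) le_rfl).trans ?_)
          have e1 : Qt - (W + (P - y - K)) = Qt - W - (P - y - K) := by omega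
          rw [e1]
          refine mul_le_mul_of_nonneg_right (by linarith only) (by positivity)
        · rw [if_neg hkl, Nat.sub_zero]
          rw [hD0] at f0
          refine (cell_le f0).trans ((cells (by omega) le_rfl).trans ?_)
          refine mul_le_mul_of_nonneg_right (by linarith only [hC]) (by positivity)
      · rw [if_neg hc]
        rw [hD0] at f0
        refine (cell_le f0).trans ((cells (by omega) le_rfl).trans ?_)
        refine mul_le_mul_of_nonneg_right (by linarith only [hC]) (by positivity)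
    · -- the second coordinate
      change |((⌊(2 : ℝ) ^ Qt * F.x w.2 iu⌋ - ⌊(2 : ℝ) ^ Qt * F.x w'.2 iu⌋ : ℤ) : ℝ)| ≤
        (6 * C + 40) * 2 ^ (if cA w then 0 else Qt - (W + lam) - sv P y P1 (k w))
      have g0 := hlt 1 (by decide)
      change ⌊(2 : ℝ) ^ Qt * F.x w.2 i0⌋ = ⌊(2 : ℝ) ^ Qt * F.x w'.2 i0⌋ at g0
      have g1 := cell_eq g0
      rw [← hD0] at g1
      have g2 : |e' * D0| ≤ 2 * (1 / 2 ^ Qt) := by
        rw [abs_mul]
        exact mul_le_mul be g1 (abs_nonneg _) (by norm_num)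
      have gDu : ∀ r : ℝ, |Du - e' * D0| ≤ r → |Du| ≤ r + 2 * (1 / 2 ^ Qt) := by
        intro r hr
        have : Du = (Du - e' * D0) + e' * D0 := by ring
        rw [this]
        refine (abs_add_le _ _).trans ?_
        linarith only [g2, hr]
      by_cases hc : cA w
      · rw [if_pos hc, pow_zero, mul_one]
        have g3 := hlt 0 (by decide)
        change (if cA w then ⌊(2 : ℝ) ^ Qt * fu i0 iu (e (z w.2)) (F.x w.2)⌋ else 0) =
          (if cA w' then ⌊(2 : ℝ) ^ Qt * fu i0 iu (e (z w'.2)) (F.x w'.2)⌋ else 0) at g3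
        rw [if_pos hc, if_pos (hcAw'.2 hc), ← q2, ← he'] at g3
        have g4 := cell_eq g3
        have g5 : |Du - e' * D0| ≤ 1 / 2 ^ Qt := by
          have : fu i0 iu e' (F.x w.2) - fu i0 iu e' (F.x w'.2) = Du - e' * D0 := by
            rw [hD0, hDu]; unfold fu; ring
          rw [← this]; exact g4
        have g6 := gDu _ g5
        rw [hDu] at g6
        refine (cell_le g6).trans ?_
        have e1 : (2 : ℝ) ^ Qt * (1 / 2 ^ Qt + 2 * (1 / 2 ^ Qt)) = 3 := by
          field_simp; norm_num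
        rw [e1]
        linarith only [hC]
      · rw [if_neg hc]
        have hcB := hcAw.not.1 hc
        push Not at hcB
        rw [hkw, ← hK]
        unfold sv
        by_cases hkl : K < P1
        · rw [if_pos hkl]
          have g3 := s_ge (c := c1) (s := s1) (c' := c') (s' := s') (e' := e')
            (W := W) (lam := lam) (P1 := P1) (by rw [← hK]; exact hkl)
            (by rw [← hA1]; exact hcB)
          rw [← hK] at g3
          have g4 : |(s1 - s') * (Du - e' * D0)| ≤ (6 * C + 24) * 2 ^ y / 2 ^ P := by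
            have e1 : (s1 - s') * (Du - e' * D0) = (A1 * D0 + (s1 - s') * (Du - e' * D0)) -
                A1 * D0 := by ring
            rw [e1]
            refine (abs_sub _ _).trans ?_
            have e2 : |A1 * D0| ≤ 24 * (1 / 2 ^ Qt) := by
              rw [abs_mul]
              exact mul_le_mul hA24 g1 (abs_nonneg _) (by norm_num)
            have e3 : 24 * ((1 : ℝ) / 2 ^ P) ≤ 24 * 2 ^ y / 2 ^ P := by
              rw [mul_one_div]
              exact div_le_div_of_nonneg_right (by linarith only [h2y]) hPp.le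
            have e4 : (6 * C + 24) * 2 ^ y / 2 ^ P =
                6 * C * 2 ^ y / 2 ^ P + 24 * 2 ^ y / 2 ^ P := by ring
            linarith only [f4, hPJ, e2, e3, e4]
          have g5 : |Du - e' * D0| ≤ (6 * C + 24) / 2 ^ (W + lam + (P - y - K)) := by
            rw [abs_mul] at g4
            have e1 : (24 * 2 ^ (W + lam) / 2 ^ K) * |Du - e' * D0| ≤
                (6 * C + 24) * 2 ^ y / 2 ^ P :=
              (mul_le_mul_of_nonneg_right g3 (abs_nonneg _)).trans g4
            have e2 : (2 : ℝ) ^ P = 2 ^ (P - y - K) * 2 ^ y * 2 ^ K := by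
              rw [← pow_add, ← pow_add]; congr 1; omega
            rw [e2] at e1
            rw [le_div_iff₀ (by positivity), pow_add _ (W + lam)]
            have e3 : (6 * C + 24) * 2 ^ y / (2 ^ (P - y - K) * 2 ^ y * 2 ^ K) =
                (6 * C + 24) / (2 ^ (P - y - K) * 2 ^ K) := by
              field_simp
            rw [e3, le_div_iff₀ (by positivity)] at e1
            have e4 : 24 * 2 ^ (W + lam) / 2 ^ K * |Du - e' * D0| * (2 ^ (P - y - K) * 2 ^ K) =
                24 * (|Du - e' * D0| * (2 ^ (W + lam) * 2 ^ (P - y - K))) := by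
              field_simp
            rw [e4] at e1
            have e5 : 0 ≤ |Du - e' * D0| * (2 ^ (W + lam) * 2 ^ (P - y - K)) := by positivity
            linarith only [hC, e1]
          have hWK : W + lam ≤ K := by
            rw [hK]
            exact le_kc' hs8 (by rw [← hA1]; exact hcB) (by omega)
          have hle : W + lam + (P - y - K) ≤ Qt := by omega
          have hPK : (1 : ℝ) / 2 ^ Qt ≤ 1 / 2 ^ (W + lam + (P - y - K)) :=
            one_div_le_one_div_of_le (by positivity) (pow_le_pow_right₀ (by norm_num) hle)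
          have g6 : |Du| ≤ (6 * C + 26) / 2 ^ (W + lam + (P - y - K)) := by
            refine (gDu _ g5).trans ?_
            have e1 : (6 * C + 26) / 2 ^ (W + lam + (P - y - K)) =
                (6 * C + 24) / 2 ^ (W + lam + (P - y - K)) +
                  2 * (1 / 2 ^ (W + lam + (P - y - K))) := by ring
            linarith only [hPK, e1]
          rw [hDu] at g6
          refine (cell_le g6).trans ((cells hle le_rfl).trans ?_)
          have e1 : Qt - (W + lam + (P - y - K)) = Qt - (W + lam) - (P - y - K) := by omega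
          rw [e1]
          refine mul_le_mul_of_nonneg_right (by linarith only) (by positivity)
        · rw [if_neg hkl, Nat.sub_zero]
          have hPK : (1 : ℝ) / 2 ^ Qt ≤ 1 / 2 ^ (W + lam) :=
            one_div_le_one_div_of_le (by positivity) (pow_le_pow_right₀ (by norm_num) (by omega))
          have g6 : |Du| ≤ (2 * C + 2) / 2 ^ (W + lam) := by
            refine (gDu _ f1).trans ?_
            have e1 : (2 * C + 2) / 2 ^ (W + lam) =
                2 * C / 2 ^ (W + lam) + 2 * (1 / 2 ^ (W + lam)) := by ring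
            linarith only [hPK, e1]
          rw [hDu] at g6
          refine (cell_le g6).trans ((cells (by omega) le_rfl).trans ?_)
          refine mul_le_mul_of_nonneg_right (by linarith only [hC]) (by positivity)
    · -- the normal coordinate
      change |((⌊(2 : ℝ) ^ Qt * F.x w.2 iN⌋ - ⌊(2 : ℝ) ^ Qt * F.x w'.2 iN⌋ : ℤ) : ℝ)| ≤
        (6 * C + 40) * 2 ^ (Qt - P)
      have g0 := hlt 1 (by decide)
      change ⌊(2 : ℝ) ^ Qt * F.x w.2 i0⌋ = ⌊(2 : ℝ) ^ Qt * F.x w'.2 i0⌋ at g0
      have g1 := hlt 2 (by decide)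
      change ⌊(2 : ℝ) ^ Qt * F.x w.2 iu⌋ = ⌊(2 : ℝ) ^ Qt * F.x w'.2 iu⌋ at g1
      have g2 := cell_eq g0
      have g3 := cell_eq g1
      rw [← hD0] at g2
      rw [← hDu] at g3
      have g4 : |c' * D0| ≤ 4 * (1 / 2 ^ Qt) := by
        rw [abs_mul]
        exact mul_le_mul bc g2 (abs_nonneg _) (by norm_num)
      have g5 : |s' * Du| ≤ 4 * (1 / 2 ^ Qt) := by
        rw [abs_mul]
        exact mul_le_mul bs g3 (abs_nonneg _) (by norm_num)
      have g6 : |DN| ≤ (2 * C + 8) / 2 ^ P := by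
        have e1 : DN = (c' * D0 + s' * Du + DN) - (c' * D0) - (s' * Du) := by ring
        rw [e1]
        refine (abs_sub _ _).trans ?_
        have e2 := abs_sub (c' * D0 + s' * Du + DN) (c' * D0)
        have e3 : (2 * C + 8) / 2 ^ P = 2 * C / 2 ^ P + 8 * (1 / 2 ^ P) := by ring
        linarith only [f2, hPJ, g4, g5, e2, e3]
      rw [hDN] at g6
      refine (cell_le g6).trans ((cells h3 le_rfl).trans ?_)
      refine mul_le_mul_of_nonneg_right (by linarith only [hC]) (by positivity))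
  rw [← hp, ← hW]
  refine hXY.trans (hcount.trans (le_of_eq ?_))
  congr 1
  · congr 1
    unfold Ex
    refine Finset.sum_congr rfl fun w _ => ?_
    by_cases hw : 0 < p w
    · suffices hsum : ∑ i, a i w = Qt - W + (Qt - (W + lam)) + (Qt - P) -
          sv P y P1 (kk W lam P1 z e c s w) by
        change p w * ((∑ i, a i w : ℕ) : ℝ) = p w * ((Qt - W + (Qt - (W + lam)) + (Qt - P) -
          sv P y P1 (kk W lam P1 z e c s w) : ℕ) : ℝ)
        rw [hsum]
      rw [Fin.sum_univ_four]
      change (if cA w then Qt - (W + lam) else 0) +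
        (if cA w then Qt - W - sv P y P1 (k w) else Qt - W) +
        (if cA w then 0 else Qt - (W + lam) - sv P y P1 (k w)) + (Qt - P) = _
      rw [hp] at hw
      have p1 := (prs_pos hw).2.1
      have p3 := (prs_pos hw).1
      have hA24 := Ae_le (hP.c_le _ p3) (hP.s_le _ p3) (hP.c_le _ p1) (hP.s_le _ p1)
        (hP.e_le _ p1)
      have hs8 : |s (z w.1) - s (z w.2)| ≤ 8 := by
        have := abs_sub (s (z w.1)) (s (z w.2))
        linarith only [this, hP, p1, p3, hP.s_le _ p1, hP.s_le _ p3]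
      have hkw : kk W lam P1 z e c s w = k w := rfl
      rw [hkw]
      unfold sv
      by_cases hc : cA w
      · rw [if_pos hc, if_pos hc, if_pos hc]
        have hWK : W ≤ k w := le_kc hA24 hc (by omega)
        split_ifs
        · omega
        · omega
      · rw [if_neg hc, if_neg hc, if_neg hc]
        have hcB : |Ae (c (z w.1)) (s (z w.1)) (c (z w.2)) (s (z w.2)) (e (z w.2))| / 2 ^ W <
            |s (z w.1) - s (z w.2)| / 2 ^ (W + lam) := not_le.1 hc
        have hWK : W + lam ≤ k w := le_kc' hs8 hcB (by omega)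
        split_ifs
        · omega
        · omega
    · have : p w = 0 := le_antisymm (not_lt.1 hw) (hpl.nonneg w)
      rw [this, zero_mul, zero_mul]
  · simp

end Pool.KS6
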