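import Pool.Agent.H77.S6.CU2
import Pool.Agent.H58.STK.Base

/-!
# A copy of the point given its plank, seen from the first plank
-/

set_option autoImplicit false

namespace Pool.KS6

open Finset Real
open Pool.Agent.H49.Ent Pool.Agent.H32.Dense Pool.STK Pool.KA Pool.KSAT Pool.K3

/-- A point of the second plank, in the moved first plank. -/
lemma copy_near {J : ℕ} {F : Fam 3 J} {i0 iu iN : Fin 3}
    {v y lam P P1 b : ℕ} {C : ℝ} (hC : 0 ≤ C) {S : Type} {z : F.Ω → S} {e c s : S → ℝ}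
    {xb db : S → Fin 3 → ℝ}
    (hP : Pk F.x F.d (fun ω => 0 < F.p ω) i0 iu iN (v + y) lam P C z e c s xb db)
    (hv : v ≤ J) (h2 : P1 + y ≤ P) (hyb : y ≤ b)
    {w : F.Ω × F.Ω} (hw : 0 < prs F v w) (hb : |e (z w.1) - e (z w.2)| ≤ C * 2 ^ b / 2 ^ lam)
    {ω : F.Ω} (hω : 0 < F.p ω) (hz : z w.2 = z ω) :
    |F.x ω i0 - xm xb db (z w.1) (F.t w.2 - F.t w.1) i0| ≤ 4 * C / 2 ^ v ∧
    |fu i0 iu (e (z w.1)) (F.x ω) -
      fu i0 iu (e (z w.1)) (xm xb db (z w.1) (F.t w.2 - F.t w.1))| ≤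
        (4 * C + 2 * C ^ 2) * 2 ^ b / 2 ^ (v + y + lam) ∧
    |fn i0 iu iN (c (z w.1)) (s (z w.1)) (F.x ω) -
      fn i0 iu iN (c (z w.1)) (s (z w.1)) (xm xb db (z w.1) (F.t w.2 - F.t w.1))| ≤
      196 * C / 2 ^ kk (v + y) lam P1 z e c s w := by
  have m1 := moved hv hC hP hw
  have p1 := (prs_pos hw).2.1
  have p3 := (prs_pos hw).1
  obtain ⟨W, hW⟩ : ∃ W, W = v + y := ⟨_, rfl⟩
  obtain ⟨e', he'⟩ : ∃ e', e' = e (z w.2) := ⟨_, rfl⟩
  obtain ⟨c', hc'⟩ : ∃ c', c' = c (z w.2) := ⟨_, rfl⟩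
  obtain ⟨s', hs'⟩ : ∃ s', s' = s (z w.2) := ⟨_, rfl⟩
  obtain ⟨e1, he1⟩ : ∃ e1, e1 = e (z w.1) := ⟨_, rfl⟩
  obtain ⟨c1, hc1⟩ : ∃ c1, c1 = c (z w.1) := ⟨_, rfl⟩
  obtain ⟨s1, hs1⟩ : ∃ s1, s1 = s (z w.1) := ⟨_, rfl⟩
  have be := hP.e_le _ p1
  have bc := hP.c_le _ p1
  have bs := hP.s_le _ p1
  have bc1 := hP.c_le _ p3
  have bs1 := hP.s_le _ p3
  rw [← he'] at be hb
  rw [← hc'] at bc
  rw [← hs'] at bs
  rw [← hc1] at bc1
  rw [← hs1] at bs1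
  rw [← he1] at hb
  have hA24 : |Ae c1 s1 c' s' e'| ≤ 24 := Ae_le bc1 bs1 bc bs be
  have hs8 : |s1 - s'| ≤ 8 := by
    have := abs_sub s1 s'
    linarith only [bs, bs1, this]
  have hkw : kk W lam P1 z e c s w = kc W lam P1 c1 s1 c' s' e' := by
    rw [hc1, hs1, hc', hs', he']
    rfl
  obtain ⟨K, hK⟩ : ∃ K, K = kc W lam P1 c1 s1 c' s' e' := ⟨_, rfl⟩
  have hKP : K ≤ P1 := by rw [hK]; exact kc_le
  obtain ⟨k1, k2⟩ := coef_le (W := W) (lam := lam) (P1 := P1) hA24 hs8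
  rw [← hK] at k1 k2
  rw [← hW] at hP
  rw [← hW, hkw, ← hK, ← he1, ← hc1, ← hs1]
  rw [← he1, ← hc1, ← hs1] at m1
  -- the displacement inside the second plank
  obtain ⟨D0, hD0⟩ : ∃ D0, D0 = F.x ω i0 - F.x w.2 i0 := ⟨_, rfl⟩
  obtain ⟨Du, hDu⟩ : ∃ Du, Du = F.x ω iu - F.x w.2 iu := ⟨_, rfl⟩
  obtain ⟨DN, hDN⟩ : ∃ DN, DN = F.x ω iN - F.x w.2 iN := ⟨_, rfl⟩
  have f0 : |D0| ≤ 2 * C / 2 ^ W := by
    have g1 := hP.pe _ p1
    have g2 := hP.pe _ hω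
    rw [← hz] at g2
    have : D0 = (F.x ω i0 - xb (z w.2) i0) - (F.x w.2 i0 - xb (z w.2) i0) := by
      rw [hD0]; ring
    rw [this]
    refine (abs_sub _ _).trans ?_
    have e1 : 2 * C / 2 ^ W = C / 2 ^ W + C / 2 ^ W := by ring
    linarith only [g1, g2, e1]
  have f1 : |Du - e' * D0| ≤ 2 * C / 2 ^ (W + lam) := by
    have g1 := hP.pu _ p1
    have g2 := hP.pu _ hω
    rw [← hz] at g2
    rw [← he'] at g1 g2
    have : Du - e' * D0 = (fu i0 iu e' (F.x ω) - fu i0 iu e' (xb (z w.2))) -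
        (fu i0 iu e' (F.x w.2) - fu i0 iu e' (xb (z w.2))) := by
      rw [hD0, hDu]; unfold fu; ring
    rw [this]
    refine (abs_sub _ _).trans ?_
    have e1 : 2 * C / 2 ^ (W + lam) = C / 2 ^ (W + lam) + C / 2 ^ (W + lam) := by ring
    linarith only [g1, g2, e1]
  have f2 : |c' * D0 + s' * Du + DN| ≤ 2 * C / 2 ^ P := by
    have g1 := hP.pn _ p1
    have g2 := hP.pn _ hω
    rw [← hz] at g2
    rw [← hc', ← hs'] at g1 g2
    have : c' * D0 + s' * Du + DN = (fn i0 iu iN c' s' (F.x ω) - fn i0 iu iN c' s' (xb (z w.2)))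
        - (fn i0 iu iN c' s' (F.x w.2) - fn i0 iu iN c' s' (xb (z w.2))) := by
      rw [hD0, hDu, hDN]; unfold fn; ring
    rw [this]
    refine (abs_sub _ _).trans ?_
    have e1 : 2 * C / 2 ^ P = C / 2 ^ P + C / 2 ^ P := by ring
    linarith only [g1, g2, e1]
  have h2b : (1 : ℝ) ≤ 2 ^ b := one_le_pow₀ (by norm_num)
  have h2y : (1 : ℝ) ≤ 2 ^ y := one_le_pow₀ (by norm_num)
  have hyb' : (2 : ℝ) ^ y ≤ 2 ^ b := pow_le_pow_right₀ (by norm_num) hyb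
  have hW0 : (0 : ℝ) < 2 ^ W := by positivity
  have hL0 : (0 : ℝ) < 2 ^ lam := by positivity
  refine ⟨?_, ?_, ?_⟩
  · have g : F.x ω i0 - xm xb db (z w.1) (F.t w.2 - F.t w.1) i0 =
        D0 + (F.x w.2 i0 - xm xb db (z w.1) (F.t w.2 - F.t w.1) i0) := by rw [hD0]; ring
    rw [g]
    refine (abs_add_le _ _).trans ?_
    have g1 : 2 * C / 2 ^ W ≤ 2 * C / 2 ^ v := by
      rw [hW]
      exact div_le_div_of_nonneg_left (by positivity) (by positivity)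
        (pow_le_pow_right₀ (by norm_num) (by omega))
    have g2 : 4 * C / 2 ^ v = 2 * C / 2 ^ v + 2 * C / 2 ^ v := by ring
    linarith only [m1, f0, g1, g2, m1.1]
  · have g : fu i0 iu e1 (F.x ω) - fu i0 iu e1 (xm xb db (z w.1) (F.t w.2 - F.t w.1)) =
        (Du - e' * D0) - (e1 - e') * D0 +
        (fu i0 iu e1 (F.x w.2) - fu i0 iu e1 (xm xb db (z w.1) (F.t w.2 - F.t w.1))) := by
      rw [hD0, hDu]; unfold fu; ring
    rw [g]
    refine (abs_add_le _ _).trans ?_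
    have g1 := abs_sub (Du - e' * D0) ((e1 - e') * D0)
    have g2 : |(e1 - e') * D0| ≤ 2 * C ^ 2 * 2 ^ b / 2 ^ (W + lam) := by
      rw [abs_mul]
      refine (mul_le_mul hb f0 (abs_nonneg _) (by positivity)).trans (le_of_eq ?_)
      rw [pow_add]
      field_simp
    have g3 : 2 * C / 2 ^ (W + lam) ≤ 2 * C * 2 ^ b / 2 ^ (W + lam) := by
      refine div_le_div_of_nonneg_right ?_ (by positivity)
      nlinarith only [hC, h2b]
    have g4 : 2 * C / 2 ^ (v + lam) ≤ 2 * C * 2 ^ b / 2 ^ (W + lam) := by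
      have e1 : 2 * C / 2 ^ (v + lam) = 2 * C * 2 ^ y / 2 ^ (W + lam) := by
        rw [hW, pow_add, pow_add, pow_add]
        field_simp
      rw [e1]
      exact div_le_div_of_nonneg_right (mul_le_mul_of_nonneg_left hyb' (by positivity))
        (by positivity)
    have g5 : (4 * C + 2 * C ^ 2) * 2 ^ b / 2 ^ (W + lam) = 2 * C * 2 ^ b / 2 ^ (W + lam) +
        2 * C ^ 2 * 2 ^ b / 2 ^ (W + lam) + 2 * C * 2 ^ b / 2 ^ (W + lam) := by ring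
    linarith only [m1, f1, g1, g2, g3, g4, g5, m1.2.1]
  · have g : fn i0 iu iN c1 s1 (F.x ω) -
        fn i0 iu iN c1 s1 (xm xb db (z w.1) (F.t w.2 - F.t w.1)) =
        (c' * D0 + s' * Du + DN) + (Ae c1 s1 c' s' e' * D0 + (s1 - s') * (Du - e' * D0)) +
        (fn i0 iu iN c1 s1 (F.x w.2) -
          fn i0 iu iN c1 s1 (xm xb db (z w.1) (F.t w.2 - F.t w.1))) := by
      rw [hD0, hDu, hDN]; unfold fn Ae; ring
    rw [g]
    have g0 := abs_add_le ((c' * D0 + s' * Du + DN) + (Ae c1 s1 c' s' e' * D0 +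
      (s1 - s') * (Du - e' * D0))) (fn i0 iu iN c1 s1 (F.x w.2) -
          fn i0 iu iN c1 s1 (xm xb db (z w.1) (F.t w.2 - F.t w.1)))
    have g1 := abs_add_le (c' * D0 + s' * Du + DN) (Ae c1 s1 c' s' e' * D0 +
      (s1 - s') * (Du - e' * D0))
    have g2 := abs_add_le (Ae c1 s1 c' s' e' * D0) ((s1 - s') * (Du - e' * D0))
    have g3 : |Ae c1 s1 c' s' e' * D0| ≤ 96 * C / 2 ^ K := by
      rw [abs_mul]
      have a1 : |Ae c1 s1 c' s' e'| * |D0| ≤ |Ae c1 s1 c' s' e'| * (2 * C / 2 ^ W) :=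
        mul_le_mul_of_nonneg_left f0 (abs_nonneg _)
      have a2 : |Ae c1 s1 c' s' e'| * (2 * C / 2 ^ W) =
          (|Ae c1 s1 c' s' e'| / 2 ^ W) * (2 * C) := by ring
      have a3 : (|Ae c1 s1 c' s' e'| / 2 ^ W) * (2 * C) ≤ 48 / 2 ^ K * (2 * C) :=
        mul_le_mul_of_nonneg_right k1 (by positivity)
      have a4 : 48 / 2 ^ K * (2 * C) = 96 * C / 2 ^ K := by ring
      linarith only [a1, a2, a3, a4]
    have g4 : |(s1 - s') * (Du - e' * D0)| ≤ 96 * C / 2 ^ K := by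
      rw [abs_mul]
      have a1 : |s1 - s'| * |Du - e' * D0| ≤ |s1 - s'| * (2 * C / 2 ^ (W + lam)) :=
        mul_le_mul_of_nonneg_left f1 (abs_nonneg _)
      have a2 : |s1 - s'| * (2 * C / 2 ^ (W + lam)) =
          (|s1 - s'| / 2 ^ (W + lam)) * (2 * C) := by ring
      have a3 : (|s1 - s'| / 2 ^ (W + lam)) * (2 * C) ≤ 48 / 2 ^ K * (2 * C) :=
        mul_le_mul_of_nonneg_right k2 (by positivity)
      have a4 : 48 / 2 ^ K * (2 * C) = 96 * C / 2 ^ K := by ring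
      linarith only [a1, a2, a3, a4]
    have g5 : 2 * C / 2 ^ P ≤ 2 * C / 2 ^ K :=
      div_le_div_of_nonneg_left (by positivity) (by positivity)
        (pow_le_pow_right₀ (by norm_num) (by omega))
    have g6 : 2 * C * 2 ^ y / 2 ^ P ≤ 2 * C / 2 ^ K := by
      rw [div_le_div_iff₀ (by positivity) (by positivity)]
      have a1 : (2 : ℝ) ^ y * 2 ^ K ≤ 2 ^ P := by
        rw [← pow_add]
        exact pow_le_pow_right₀ (by norm_num) (by omega)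
      have a2 := mul_le_mul_of_nonneg_left a1 (by positivity : (0 : ℝ) ≤ 2 * C)
      linarith only [a2]
    have g7 : 196 * C / 2 ^ K = 2 * C / 2 ^ K + 96 * C / 2 ^ K + 96 * C / 2 ^ K +
        2 * C / 2 ^ K := by ring
    linarith only [m1, f2, g0, g1, g2, g3, g4, g5, g6, g7, m1.2.2]

open Classical in
/-- The copy given the first plank. -/
theorem U4_le {J : ℕ} (F : Fam 3 J) {Qt : ℕ} (hQJ : Qt ≤ J) {i0 iu iN : Fin 3} (hi : ∀ j : Fin 3, j = i0 ∨ j = iu ∨ j = iN)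
    {v y lam P P1 b : ℕ} {C : ℝ} (hC : 0 ≤ C) {S V' : Type} {z : F.Ω → S} {e c s : S → ℝ}
    {xb db : S → Fin 3 → ℝ}
    (hP : Pk F.x F.d (fun ω => 0 < F.p ω) i0 iu iN (v + y) lam P C z e c s xb db)
    (V : F.Ω × F.Ω → V') (hV : Det (prs F v) V (fun w => F.t w.2 - F.t w.1))
    (hVW : Det (prs F v) V (fun w => F.W w.2))
    (h1 : v + y + lam ≤ P1) (h2 : P1 + y ≤ P) (h3 : P ≤ Qt) (hyb : y ≤ b)
    (hb : ∀ w, 0 < prs F v w → |e (z w.1) - e (z w.2)| ≤ C * 2 ^ b / 2 ^ lam) (h : ℝ)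
    (hh : CH F.p (F.X Qt) (fun ω => ((F.X Qt ω i0, F.X Qt ω iu), (F.X P1 ω, F.W ω))) ≤ h) :
    CH (dbl (prs F v) (fun w => (z w.2, V w))) (fun ww => F.X Qt ww.2.2)
      (fun ww => (z ww.1.1, V ww.1)) ≤
      Real.log (P1 + 1) + h +
      Ex (prs F v) (fun w => (((Qt - v) + (Qt + b - (v + y + lam)) +
        (P1 - kk (v + y) lam P1 z e c s w) : ℕ) : ℝ)) * Real.log 2 +
      3 * Real.log (2 * (392 * C + 4 * C ^ 2 + 9) + 1) := by
  obtain ⟨W, hW⟩ : ∃ W, W = v + y := ⟨_, rfl⟩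
  have hvJ : v ≤ J := by omega
  have hvQ : v ≤ Qt := by omega
  have hpl : IsLaw (prs F v) := prs_law F v
  obtain ⟨d2, hd2⟩ : ∃ d2, d2 = dbl (prs F v) (fun w => (z w.2, V w)) := ⟨_, rfl⟩
  have hd0 : ∀ ww, 0 ≤ d2 ww := by rw [hd2]; exact dbl_nonneg hpl.nonneg
  have hm1 : Marg d2 (prs F v) (fun ww => ww.1) := by rw [hd2]; exact dbl_fst hpl.nonneg
  have hm2 : Marg d2 (prs F v) (fun ww => ww.2) := by rw [hd2]; exact dbl_snd hpl.nonneg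
  have hdl : IsLaw d2 := ⟨hd0, by rw [hm1.sum]; exact hpl.sum_one⟩
  set k : (F.Ω × F.Ω) × (F.Ω × F.Ω) → ℕ := fun ww => kk W lam P1 z e c s ww.1 with hk
  set Q0 : (F.Ω × F.Ω) × (F.Ω × F.Ω) → S × V' := fun ww => (z ww.1.1, V ww.1) with hQ0
  set Y : (F.Ω × F.Ω) × (F.Ω × F.Ω) → Fin 3 → ℤ := fun ww =>
    ![⌊(2 : ℝ) ^ Qt * F.x ww.2.2 i0⌋, ⌊(2 : ℝ) ^ Qt * F.x ww.2.2 iu⌋,
      ⌊(2 : ℝ) ^ P1 * F.x ww.2.2 iN⌋] with hY
  set a : Fin 3 → (F.Ω × F.Ω) × (F.Ω × F.Ω) → ℕ := fun i ww =>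
    ![Qt - v, Qt + b - (W + lam), P1 - k ww] i with ha
  have hcount := CH_le_pow hdl (fun ww => (k ww, Q0 ww)) Y (fun _ => 392 * C + 4 * C ^ 2 + 9) a
    (fun _ => by positivity) (by
    intro i ww ww' hww hww' hQQ hlt
    obtain ⟨q0, q1, q3⟩ : k ww = k ww' ∧ z ww.1.1 = z ww'.1.1 ∧ V ww.1 = V ww'.1 := by
      simp only [hQ0, Prod.mk.injEq] at hQQ
      exact hQQ
    have a1 := hm1.pos hd0 hww
    have a1' := hm1.pos hd0 hww'
    have a2 := hm2.pos hd0 hww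
    have a2' := hm2.pos hd0 hww'
    have hgl : (z ww.1.2, V ww.1) = (z ww.2.2, V ww.2) := by
      rw [hd2] at hww
      exact dbl_eq hpl.nonneg hww
    have hgl' : (z ww'.1.2, V ww'.1) = (z ww'.2.2, V ww'.2) := by
      rw [hd2] at hww'
      exact dbl_eq hpl.nonneg hww'
    have hτ : F.t ww.1.2 - F.t ww.1.1 = F.t ww'.1.2 - F.t ww'.1.1 := hV _ _ a1 a1' q3
    have n1 := copy_near hC hP hvJ h2 hyb a1 (hb _ a1) (prs_pos a2).2.1 (Prod.ext_iff.mp hgl).1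
    have n2 := copy_near hC hP hvJ h2 hyb a1' (hb _ a1') (prs_pos a2').2.1
      (Prod.ext_iff.mp hgl').1
    have q0' : kk (v + y) lam P1 z e c s ww.1 = kk (v + y) lam P1 z e c s ww'.1 := by
      rw [← hW]; exact q0
    rw [← hτ, ← q1, ← q0'] at n2
    rw [← hW] at n1 n2
    have p3 := (prs_pos a1).1
    obtain ⟨D0, hD0⟩ : ∃ D0, D0 = F.x ww.2.2 i0 - F.x ww'.2.2 i0 := ⟨_, rfl⟩
    obtain ⟨Du, hDu⟩ : ∃ Du, Du = F.x ww.2.2 iu - F.x ww'.2.2 iu := ⟨_, rfl⟩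
    obtain ⟨DN, hDN⟩ : ∃ DN, DN = F.x ww.2.2 iN - F.x ww'.2.2 iN := ⟨_, rfl⟩
    obtain ⟨e1, he1⟩ : ∃ e1, e1 = e (z ww.1.1) := ⟨_, rfl⟩
    obtain ⟨c1, hc1⟩ : ∃ c1, c1 = c (z ww.1.1) := ⟨_, rfl⟩
    obtain ⟨s1, hs1⟩ : ∃ s1, s1 = s (z ww.1.1) := ⟨_, rfl⟩
    obtain ⟨xh, hxh⟩ : ∃ xh, xh = xm xb db (z ww.1.1) (F.t ww.1.2 - F.t ww.1.1) := ⟨_, rfl⟩
    rw [← he1, ← hc1, ← hs1, ← hxh] at n1 n2
    have be := hP.e_le _ p3
    have bc := hP.c_le _ p3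
    have bs := hP.s_le _ p3
    rw [← he1] at be
    rw [← hc1] at bc
    rw [← hs1] at bs
    have hKk : kk W lam P1 z e c s ww.1 = k ww := rfl
    rw [hKk] at n1 n2
    have f0 : |D0| ≤ 8 * C / 2 ^ v := by
      have : D0 = (F.x ww.2.2 i0 - xh i0) - (F.x ww'.2.2 i0 - xh i0) := by rw [hD0]; ring
      rw [this]
      refine (abs_sub _ _).trans ?_
      have g : 8 * C / 2 ^ v = 4 * C / 2 ^ v + 4 * C / 2 ^ v := by ring
      linarith only [n2, n1, g, n1.1, n2.1]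
    have f1 : |Du - e1 * D0| ≤ (8 * C + 4 * C ^ 2) * 2 ^ b / 2 ^ (W + lam) := by
      have : Du - e1 * D0 = (fu i0 iu e1 (F.x ww.2.2) - fu i0 iu e1 xh) -
          (fu i0 iu e1 (F.x ww'.2.2) - fu i0 iu e1 xh) := by rw [hD0, hDu]; unfold fu; ring
      rw [this]
      refine (abs_sub _ _).trans ?_
      have g : (8 * C + 4 * C ^ 2) * 2 ^ b / 2 ^ (W + lam) =
        (4 * C + 2 * C ^ 2) * 2 ^ b / 2 ^ (W + lam) +
          (4 * C + 2 * C ^ 2) * 2 ^ b / 2 ^ (W + lam) := by ring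
      linarith only [n2, n1, g, n1.2.1, n2.2.1]
    have f2 : |c1 * D0 + s1 * Du + DN| ≤ 392 * C / 2 ^ k ww := by
      have : c1 * D0 + s1 * Du + DN = (fn i0 iu iN c1 s1 (F.x ww.2.2) - fn i0 iu iN c1 s1 xh) -
          (fn i0 iu iN c1 s1 (F.x ww'.2.2) - fn i0 iu iN c1 s1 xh) := by
        rw [hD0, hDu, hDN]; unfold fn; ring
      rw [this]
      refine (abs_sub _ _).trans ?_
      have g : 392 * C / 2 ^ k ww = 196 * C / 2 ^ k ww + 196 * C / 2 ^ k ww := by ring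
      linarith only [n2, n1, g, n1.2.2, n2.2.2]
    have hC2 : 0 ≤ C ^ 2 := by positivity
    have hkP : k ww ≤ P1 := kc_le
    have hWJ : W + lam ≤ Qt := by omega
    fin_cases i
    · change |((⌊(2 : ℝ) ^ Qt * F.x ww.2.2 i0⌋ - ⌊(2 : ℝ) ^ Qt * F.x ww'.2.2 i0⌋ : ℤ) : ℝ)| ≤
        (392 * C + 4 * C ^ 2 + 9) * 2 ^ (Qt - v)
      rw [hD0] at f0
      refine (cell_le f0).trans ((cells hvQ le_rfl).trans ?_)
      exact mul_le_mul_of_nonneg_right (by linarith only [hC, hC2]) (by positivity)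
    · change |((⌊(2 : ℝ) ^ Qt * F.x ww.2.2 iu⌋ - ⌊(2 : ℝ) ^ Qt * F.x ww'.2.2 iu⌋ : ℤ) : ℝ)| ≤
        (392 * C + 4 * C ^ 2 + 9) * 2 ^ (Qt + b - (W + lam))
      have g0 := hlt 0 (by decide)
      change ⌊(2 : ℝ) ^ Qt * F.x ww.2.2 i0⌋ = ⌊(2 : ℝ) ^ Qt * F.x ww'.2.2 i0⌋ at g0
      have g1 := cell_eq g0
      rw [← hD0] at g1
      have g2 : |e1 * D0| ≤ 2 * (1 / 2 ^ Qt) := by
        rw [abs_mul]
        exact mul_le_mul be g1 (abs_nonneg _) (by norm_num)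
      have g3 : |Du| ≤ (8 * C + 4 * C ^ 2) * 2 ^ b / 2 ^ (W + lam) + 2 * (1 / 2 ^ Qt) := by
        have : Du = (Du - e1 * D0) + e1 * D0 := by ring
        rw [this]
        refine (abs_add_le _ _).trans ?_
        linarith only [f1, g2]
      rw [hDu] at g3
      refine (cell_le g3).trans ?_
      have e1 : (2 : ℝ) ^ Qt * ((8 * C + 4 * C ^ 2) * 2 ^ b / 2 ^ (W + lam) + 2 * (1 / 2 ^ Qt)) + 1 =
          (8 * C + 4 * C ^ 2) * 2 ^ (Qt + b - (W + lam)) + 3 := by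
        have e2 : (2 : ℝ) ^ Qt * 2 ^ b = 2 ^ (Qt + b - (W + lam)) * 2 ^ (W + lam) := by
          rw [← pow_add, ← pow_add]; congr 1; omega
        have e3 : (2 : ℝ) ^ Qt * ((8 * C + 4 * C ^ 2) * 2 ^ b / 2 ^ (W + lam)) =
            (8 * C + 4 * C ^ 2) * (2 ^ Qt * 2 ^ b) / 2 ^ (W + lam) := by ring
        rw [mul_add, e3, e2]
        field_simp
        ring
      rw [e1]
      have e4 : (1 : ℝ) ≤ 2 ^ (Qt + b - (W + lam)) := one_le_pow₀ (by norm_num)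
      nlinarith only [hC, e4]
    · change |((⌊(2 : ℝ) ^ P1 * F.x ww.2.2 iN⌋ - ⌊(2 : ℝ) ^ P1 * F.x ww'.2.2 iN⌋ : ℤ) : ℝ)| ≤
        (392 * C + 4 * C ^ 2 + 9) * 2 ^ (P1 - k ww)
      have g0 := hlt 0 (by decide)
      change ⌊(2 : ℝ) ^ Qt * F.x ww.2.2 i0⌋ = ⌊(2 : ℝ) ^ Qt * F.x ww'.2.2 i0⌋ at g0
      have g1 := hlt 1 (by decide)
      change ⌊(2 : ℝ) ^ Qt * F.x ww.2.2 iu⌋ = ⌊(2 : ℝ) ^ Qt * F.x ww'.2.2 iu⌋ at g1
      have g2 := cell_eq g0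
      have g3 := cell_eq g1
      rw [← hD0] at g2
      rw [← hDu] at g3
      have g4 : |c1 * D0| ≤ 4 * (1 / 2 ^ Qt) := by
        rw [abs_mul]
        exact mul_le_mul bc g2 (abs_nonneg _) (by norm_num)
      have g5 : |s1 * Du| ≤ 4 * (1 / 2 ^ Qt) := by
        rw [abs_mul]
        exact mul_le_mul bs g3 (abs_nonneg _) (by norm_num)
      have hPJ : (1 : ℝ) / 2 ^ Qt ≤ 1 / 2 ^ k ww :=
        one_div_le_one_div_of_le (by positivity) (pow_le_pow_right₀ (by norm_num) (by omega))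
      have g6 : |DN| ≤ (392 * C + 8) / 2 ^ k ww := by
        have e1 : DN = (c1 * D0 + s1 * Du + DN) - (c1 * D0) - (s1 * Du) := by ring
        rw [e1]
        refine (abs_sub _ _).trans ?_
        have e2 := abs_sub (c1 * D0 + s1 * Du + DN) (c1 * D0)
        have e3 : (392 * C + 8) / 2 ^ k ww = 392 * C / 2 ^ k ww + 8 * (1 / 2 ^ k ww) := by ring
        linarith only [f2, g4, g5, hPJ, e2, e3]
      rw [hDN] at g6
      refine (cell_le g6).trans ((cells hkP le_rfl).trans ?_)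
      refine mul_le_mul_of_nonneg_right (by linarith only [hC2]) (by positivity))
  -- the three parts
  have c1 := CH_le_add hd0 (fun ww => F.X Qt ww.2.2) k Q0
  have c2 := CH_le_add hd0 (fun ww => F.X Qt ww.2.2) Y (fun ww => (k ww, Q0 ww))
  have c3 : CH d2 k Q0 ≤ Real.log (P1 + 1) := by
    refine (CH_le_card hd0 hdl.sum_one k Q0 (fun _ => Finset.range (P1 + 1)) ?_).trans ?_
    · intro ww _
      rw [Finset.mem_range]
      exact Nat.lt_succ_of_le kc_le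
    · rw [Finset.card_range, Ex_const hdl.sum_one]
      push_cast
      exact le_rfl
  have c4 : CH d2 (fun ww => F.X Qt ww.2.2) (fun ww => (Y ww, (k ww, Q0 ww))) ≤ h := by
    have e1 : CH d2 (fun ww => F.X Qt ww.2.2) (fun ww =>
        ((F.X Qt ww.2.2 i0, F.X Qt ww.2.2 iu), (F.X P1 ww.2.2, F.W ww.2.2))) ≤ h := by
      have := (hm2.comp (prs_snd F v)).CH (F.X Qt)
        (fun ω => ((F.X Qt ω i0, F.X Qt ω iu), (F.X P1 ω, F.W ω)))
      rw [← this] at hh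
      exact hh
    refine le_trans (CH_mono_cond hd0 ?_) e1
    intro ww ww' hww hww' hQQ
    obtain ⟨r1, r2, r3, r4⟩ : Y ww = Y ww' ∧ k ww = k ww' ∧ z ww.1.1 = z ww'.1.1 ∧
        V ww.1 = V ww'.1 := by
      simp only [hQ0, Prod.mk.injEq] at hQQ
      exact hQQ
    have a2 := hm2.pos hd0 hww
    have a2' := hm2.pos hd0 hww'
    have hgl : (z ww.1.2, V ww.1) = (z ww.2.2, V ww.2) := by
      rw [hd2] at hww
      exact dbl_eq hpl.nonneg hww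
    have hgl' : (z ww'.1.2, V ww'.1) = (z ww'.2.2, V ww'.2) := by
      rw [hd2] at hww'
      exact dbl_eq hpl.nonneg hww'
    have hV2 : V ww.2 = V ww'.2 :=
      ((Prod.ext_iff.mp hgl).2.symm.trans r4).trans (Prod.ext_iff.mp hgl').2
    have hW2 : F.W ww.2.2 = F.W ww'.2.2 := hVW _ _ a2 a2' hV2
    have y0 : ⌊(2 : ℝ) ^ Qt * F.x ww.2.2 i0⌋ = ⌊(2 : ℝ) ^ Qt * F.x ww'.2.2 i0⌋ := congrFun r1 0
    have y1 : ⌊(2 : ℝ) ^ Qt * F.x ww.2.2 iu⌋ = ⌊(2 : ℝ) ^ Qt * F.x ww'.2.2 iu⌋ := congrFun r1 1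
    have y2 : ⌊(2 : ℝ) ^ P1 * F.x ww.2.2 iN⌋ = ⌊(2 : ℝ) ^ P1 * F.x ww'.2.2 iN⌋ :=
      congrFun r1 2
    have hPJ : P1 ≤ Qt := by omega
    have hX : F.X P1 ww.2.2 = F.X P1 ww'.2.2 := by
      funext j
      change ⌊(2 : ℝ) ^ P1 * F.x ww.2.2 j⌋ = ⌊(2 : ℝ) ^ P1 * F.x ww'.2.2 j⌋
      obtain ⟨r, rfl⟩ := Nat.exists_eq_add_of_le hPJ
      rcases hi j with rfl | rfl | rfl
      · exact Pool.STK.B58.floor_fine P1 r y0
      · exact Pool.STK.B58.floor_fine P1 r y1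
      · exact y2
    exact Prod.ext (Prod.ext y0 y1) (Prod.ext hX hW2)
  have c5 : Ex d2 (fun ww => ((∑ i, a i ww : ℕ) : ℝ)) =
      Ex (prs F v) (fun w => (((Qt - v) + (Qt + b - (v + y + lam)) +
        (P1 - kk (v + y) lam P1 z e c s w) : ℕ) : ℝ)) := by
    rw [← hm1.ex (fun w => (((Qt - v) + (Qt + b - (v + y + lam)) +
        (P1 - kk (v + y) lam P1 z e c s w) : ℕ) : ℝ)), ← hW]
    congr 1
    funext ww
    rw [Fin.sum_univ_three]
    rfl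
  rw [c5] at hcount
  rw [← hd2]
  have c6 : ∑ _i : Fin 3, Real.log (2 * (392 * C + 4 * C ^ 2 + 9) + 1) =
      3 * Real.log (2 * (392 * C + 4 * C ^ 2 + 9) + 1) := by simp
  rw [c6] at hcount
  linarith only [hcount, c1, c2, c3, c4]

end Pool.KS6
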