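import Pool.Agent.H77.S6.Basic

/-!
# Events of pairs of copies; collisions
-/

set_option autoImplicit false

namespace Pool.KS6

open Finset Real
open Pool.Agent.H49.Ent Pool.Agent.H32.Dense Pool.STK

section Glue

variable {Ω S T V : Type} [Fintype Ω]

/-- The law of functions of the two copies. -/
theorem law_dbl_pair {p : Ω → ℝ} (hp : ∀ ω, 0 ≤ p ω) (B : Ω → V) {X : Ω → S} {Y : Ω → T}
    (hX : Det p X B) (hY : Det p Y B) {w : Ω × Ω} (hw : 0 < dbl p B w) :
    law (dbl p B) (fun w => (X w.1, Y w.2)) (X w.1, Y w.2) =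
      law p X (X w.1) * law p Y (Y w.2) / law p B (B w.1) := by
  classical
  obtain ⟨hw1, hw2, hw3⟩ := (glue_pos_iff hp hp w).mp hw
  have : law p X (X w.1) * law p Y (Y w.2) = ∑ ω1, ∑ ω2,
      (if X ω1 = X w.1 then p ω1 else 0) * (if Y ω2 = Y w.2 then p ω2 else 0) := by
    unfold law
    rw [Finset.sum_mul_sum]
  rw [this, Finset.sum_div]
  unfold law
  rw [Fintype.sum_prod_type]
  refine Finset.sum_congr rfl (fun ω1 _ => ?_)
  rw [Finset.sum_div]
  refine Finset.sum_congr rfl (fun ω2 _ => ?_)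
  simp only [Prod.mk.injEq]
  by_cases hx : X ω1 = X w.1
  · by_cases hy : Y ω2 = Y w.2
    · rw [if_pos ⟨hx, hy⟩, if_pos hx, if_pos hy]
      by_cases h01 : p ω1 = 0
      · simp [dbl, glue, h01]
      by_cases h02 : p ω2 = 0
      · simp [dbl, glue, h02]
      have e1 := hX _ _ (lt_of_le_of_ne (hp ω1) (Ne.symm h01)) hw1 hx
      have e2 := hY _ _ (lt_of_le_of_ne (hp ω2) (Ne.symm h02)) hw2 hy
      unfold dbl glue
      rw [if_pos (by rw [e1, e2, hw3])]
      simp only [e1]
      rfl
    · rw [if_neg (fun h => hy h.2), if_neg hy]; simp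
  · rw [if_neg (fun h => hx h.1), if_neg hx]; simp

lemma law_le_of_le {Ω' : Type} [Fintype Ω'] {q r : Ω' → ℝ} {c : ℝ} (h : ∀ w, q w ≤ c * r w)
    (X : Ω' → S) (x : S) : law q X x ≤ c * law r X x := by
  unfold law
  rw [Finset.mul_sum]
  refine Finset.sum_le_sum fun w _ => ?_
  split_ifs
  · exact h w
  · simp

/-- Relative entropy is nonnegative. -/
lemma relent_nonneg {Ω' : Type} [Fintype Ω'] {q : Ω' → ℝ} (hq : IsLaw q) (X : Ω' → S)
    (r : S → ℝ) (hr : ∀ w, 0 < q w → 0 < r (X w)) (hr0 : ∀ x, 0 ≤ r x)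
    (hsum : ∀ F : Finset S, ∑ x ∈ F, r x ≤ 1) :
    Ex q (fun w => Real.log (r (X w))) ≤ Ex q (fun w => Real.log (law q X (X w))) := by
  have h := CH_le_cross hq.nonneg hq.sum_one X (fun _ => ()) (fun _ x => r x)
    (fun w hw => hr w hw) (fun _ x => hr0 x) (fun _ _ F => hsum F)
  rw [CH_eq_neg_sum hq.nonneg] at h
  have e1 : Ex q (fun w => -Real.log (law q (fun ω => (X ω, ())) (X w, ()) /
      law q (fun _ => ()) ())) = Ex q (fun w => -Real.log (law q X (X w))) := by
    congr 1
    funext w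
    have h1 : law q (fun _ : Ω' => ()) () = 1 := by
      classical
      unfold law
      simp only [if_true]
      exact hq.sum_one
    have h2 : law q (fun ω => (X ω, ())) (X w, ()) = law q X (X w) := by
      classical
      unfold law
      refine Finset.sum_congr rfl fun v _ => ?_
      simp
    rw [h1, h2, div_one]
  rw [e1] at h
  have h3 : ∀ f : Ω' → ℝ, Ex q (fun w => -f w) = -Ex q f := by
    intro f
    unfold Ex
    rw [← Finset.sum_neg_distrib]
    exact Finset.sum_congr rfl fun w _ => by ring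
  rw [h3, h3] at h
  linarith

lemma law_sum_le {Ω' : Type} [Fintype Ω'] {p : Ω' → ℝ} (hp : IsLaw p) (X : Ω' → S)
    (F : Finset S) : ∑ x ∈ F, law p X x ≤ 1 := by
  classical
  calc ∑ x ∈ F, law p X x ≤ ∑ x ∈ F ∪ univ.image X, law p X x :=
        Finset.sum_le_sum_of_subset_of_nonneg Finset.subset_union_left
          fun x _ _ => law_nonneg hp.nonneg X x
    _ = ∑ x ∈ univ.image X, law p X x := by
        symm
        refine Finset.sum_subset Finset.subset_union_right ?_
        intro x _ hx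
        unfold law
        refine Finset.sum_eq_zero fun ω _ => ?_
        rw [if_neg]
        intro h
        exact hx (Finset.mem_image.mpr ⟨ω, Finset.mem_univ _, h⟩)
    _ = 1 := by rw [sum_law, hp.sum_one]

/-- Sum of the conditional masses. -/
lemma law_cond_sum_le {p : Ω → ℝ} (hp : IsLaw p) (Z : Ω → S) (B : Ω → V) (b : V)
    (F : Finset S) : ∑ z ∈ F, law p (fun ω => (Z ω, B ω)) (z, b) ≤ law p B b := by
  classical
  have h1 : ∑ z ∈ F, law p (fun ω => (Z ω, B ω)) (z, b) =
      ∑ ω, ∑ z ∈ F, (if (Z ω, B ω) = (z, b) then p ω else 0) := by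
    unfold law
    rw [Finset.sum_comm]
    refine Finset.sum_congr rfl fun ω _ => Finset.sum_congr rfl fun z _ => ?_
    dsimp only
    split_ifs <;> rfl
  rw [h1]
  unfold law
  refine Finset.sum_le_sum fun ω _ => ?_
  by_cases hb : B ω = b
  · rw [if_pos hb]
    have h2 : ∀ z ∈ F, (if (Z ω, B ω) = (z, b) then p ω else 0) =
        if Z ω = z then p ω else 0 := by
      intro z _
      simp [hb]
    rw [Finset.sum_congr rfl h2, Finset.sum_ite_eq]
    split_ifs
    · exact le_rfl
    · exact hp.nonneg ω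
  · rw [if_neg hb]
    refine le_of_eq (Finset.sum_eq_zero fun z _ => ?_)
    rw [if_neg]
    intro h
    exact hb (Prod.mk.inj h).2

/-- Two copies given `B` under a law `q ≤ exp(c) dbl`: nearly independent given `B`. -/
theorem event_info {p : Ω → ℝ} (hp : IsLaw p) (B : Ω → V) {q : Ω × Ω → ℝ} (hq : IsLaw q)
    (c : ℝ) (hqd : ∀ w, q w ≤ Real.exp c * dbl p B w) (Z : Ω → S) :
    CH q (fun w => Z w.1) (fun w => B w.1) ≤
      CH q (fun w => Z w.1) (fun w => (Z w.2, B w.1)) + c := by
  classical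
  have hdpos : ∀ w, 0 < q w → 0 < dbl p B w := by
    intro w hw
    by_contra hcon
    have h1 := hqd w
    have h2 : dbl p B w ≤ 0 := not_lt.mp hcon
    have h3 := mul_nonpos_of_nonneg_of_nonpos (Real.exp_pos c).le h2
    linarith
  have hpos : ∀ w, 0 < q w → 0 < p w.1 ∧ 0 < p w.2 ∧ B w.1 = B w.2 := fun w hw =>
    (glue_pos_iff hp.nonneg hp.nonneg w).mp (hdpos w hw)
  set P : S → V → ℝ := fun z b => law p (fun ω => (Z ω, B ω)) (z, b) with hP
  set R : V → ℝ := fun b => law p B b with hR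
  have hkern : ∀ (b : V), 0 < R b → ∀ F : Finset S, ∑ z ∈ F, P z b / R b ≤ 1 := by
    intro b hb F
    rw [← Finset.sum_div, div_le_one hb]
    exact law_cond_sum_le hp Z B b F
  have g1 : CH q (fun w => Z w.1) (fun w => B w.1) ≤
      Ex q (fun w => -Real.log (P (Z w.1) (B w.1) / R (B w.1))) := by
    refine CH_le_cross hq.nonneg hq.sum_one _ _ (fun b z => P z b / R b) ?_ ?_ ?_
    · intro w hw
      exact div_pos (law_pos hp.nonneg _ (hpos w hw).1) (law_pos hp.nonneg _ (hpos w hw).1)
    · intro b z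
      exact div_nonneg (law_nonneg hp.nonneg _ _) (law_nonneg hp.nonneg _ _)
    · intro w hw F
      exact hkern _ (law_pos hp.nonneg _ (hpos w hw).1) F
  have g2 : CH q (fun w => Z w.2) (fun w => B w.1) ≤
      Ex q (fun w => -Real.log (P (Z w.2) (B w.1) / R (B w.1))) := by
    refine CH_le_cross hq.nonneg hq.sum_one _ _ (fun b z => P z b / R b) ?_ ?_ ?_
    · intro w hw
      rw [(hpos w hw).2.2]
      exact div_pos (law_pos hp.nonneg _ (hpos w hw).2.1) (law_pos hp.nonneg _ (hpos w hw).2.1)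
    · intro b z
      exact div_nonneg (law_nonneg hp.nonneg _ _) (law_nonneg hp.nonneg _ _)
    · intro w hw F
      exact hkern _ (law_pos hp.nonneg _ (hpos w hw).1) F
  -- the pair
  have g3 : CH q (fun w => (Z w.1, Z w.2)) (fun w => B w.1) =
      CH q (fun w => Z w.2) (fun w => B w.1) +
        CH q (fun w => Z w.1) (fun w => (Z w.2, B w.1)) := CH_chain hq.nonneg _ _ _
  have g4 := CH_eq_neg_sum hq.nonneg (fun w : Ω × Ω => (Z w.1, Z w.2)) (fun w => B w.1)
  have g5 : Ex q (fun w => -Real.log (P (Z w.1) (B w.1) / R (B w.1))) +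
      Ex q (fun w => -Real.log (P (Z w.2) (B w.1) / R (B w.1))) +
      (Ex q (fun w => Real.log (law q (fun w => B w.1) (B w.1))) -
        Ex q (fun w => Real.log (R (B w.1)))) ≤
      Ex q (fun w => -Real.log (law q (fun w => ((Z w.1, Z w.2), B w.1))
        ((Z w.1, Z w.2), B w.1) / law q (fun w => B w.1) (B w.1))) + c := by
    rw [← Ex_sub, ← Ex_add, ← Ex_add, ← Ex_const hq.sum_one c, ← Ex_add]
    refine Ex_mono hq.nonneg fun w hw => ?_
    obtain ⟨w1, w2, w3⟩ := hpos w hw
    have a1 : 0 < R (B w.1) := law_pos hp.nonneg B w1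
    have a2 : 0 < P (Z w.1) (B w.1) := law_pos hp.nonneg (fun ω => (Z ω, B ω)) w1
    have a3 : 0 < P (Z w.2) (B w.1) := by
      rw [w3]; exact law_pos hp.nonneg (fun ω => (Z ω, B ω)) w2
    have a4 : 0 < law q (fun w => ((Z w.1, Z w.2), B w.1)) ((Z w.1, Z w.2), B w.1) :=
      law_pos hq.nonneg (fun w => ((Z w.1, Z w.2), B w.1)) hw
    have a5 : 0 < law q (fun w => B w.1) (B w.1) := law_pos hq.nonneg (fun w => B w.1) hw
    have a6 : law q (fun w => ((Z w.1, Z w.2), B w.1)) ((Z w.1, Z w.2), B w.1) ≤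
        Real.exp c * (P (Z w.1) (B w.1) * P (Z w.2) (B w.1) / R (B w.1)) := by
      refine (law_le_of_le hqd _ _).trans ?_
      refine mul_le_mul_of_nonneg_left ?_ (Real.exp_pos c).le
      have b1 := law_dbl_pair hp.nonneg B (X := fun ω => (Z ω, B ω)) (Y := fun ω => (Z ω, B ω))
        (fun _ _ _ _ h => (Prod.mk.inj h).2) (fun _ _ _ _ h => (Prod.mk.inj h).2) (hdpos w hw)
      have b2 : law (dbl p B) (fun w => ((Z w.1, Z w.2), B w.1)) ((Z w.1, Z w.2), B w.1) =
          law (dbl p B) (fun w => ((Z w.1, B w.1), (Z w.2, B w.2)))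
            ((Z w.1, B w.1), (Z w.2, B w.2)) := by
        unfold law
        refine Finset.sum_congr rfl fun v _ => ?_
        by_cases hv : dbl p B v = 0
        · rw [hv]; simp
        · have hv' : 0 < dbl p B v := lt_of_le_of_ne (dbl_nonneg hp.nonneg v) (Ne.symm hv)
          have hv3 := dbl_eq hp.nonneg hv'
          by_cases hh : ((Z v.1, Z v.2), B v.1) = ((Z w.1, Z w.2), B w.1)
          · rw [if_pos hh, if_pos]
            simp only [Prod.mk.injEq] at hh ⊢
            refine ⟨⟨hh.1.1, hh.2⟩, hh.1.2, ?_⟩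
            rw [← hv3, ← w3]; exact hh.2
          · rw [if_neg hh, if_neg]
            intro hh2
            apply hh
            simp only [Prod.mk.injEq] at hh2 ⊢
            exact ⟨⟨hh2.1.1, hh2.2.1⟩, hh2.1.2⟩
      rw [b2, b1, ← w3]
    have a7 := Real.log_le_log a4 a6
    rw [Real.log_mul (Real.exp_pos c).ne' (by positivity), Real.log_exp,
      Real.log_div (by positivity) a1.ne', Real.log_mul a2.ne' a3.ne'] at a7
    rw [Real.log_div a2.ne' a1.ne', Real.log_div a3.ne' a1.ne', Real.log_div a4.ne' a5.ne']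
    linarith
  have g6 := relent_nonneg hq (fun w : Ω × Ω => B w.1) R
    (fun w hw => law_pos hp.nonneg B (hpos w hw).1) (fun b => law_nonneg hp.nonneg B b)
    (fun F => law_sum_le hp B F)
  rw [← g4] at g5
  linarith

end Glue

end Pool.KS6
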