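import Pool.Agent.H77.S6.Near

/-!
# Two labels of a point, with a common coarse label

`FR` at a Pliss row, `K3_FRQ_h77.md`: entropy part. Two samples with the same point `X`, independent
given `X`. Their labels have a common coarse label `R`.
-/

set_option autoImplicit false

namespace Pool.KS6

open Finset Real
open Pool.Agent.H49.Ent Pool.Agent.H32.Dense Pool.STK

section TC

variable {Ω S U V K R : Type} [Fintype Ω]

/-- Two labels `z w.1`, `z w.2` of the point `X`; `k` is a function of the pair with few values,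
`R` is a function of `(z w.1, V, k)` and nearly one of `(z w.2, V, k)`. -/
theorem two_coarse {p : Ω → ℝ} (hp : IsLaw p) (X : Ω → S) (z : Ω → U) (V : Ω → K)
    (hV : Det p X V) (k : Ω × Ω → ℕ) (r : Ω × Ω → R) {M : ℕ} {cR : ℝ}
    (hk : ∀ w, k w ≤ M)
    (h1 : Det (dbl p X) (fun w => (z w.1, (V w.1, k w))) r)
    (h2 : CH (dbl p X) r (fun w => (z w.2, (V w.1, k w))) ≤ cR) :
    2 * CH p X (fun ω => (z ω, V ω)) ≤
      CH (dbl p X) (fun w => X w.1) (fun w => (V w.1, (k w, r w))) +
      CH (dbl p X) (fun w => X w.1) (fun w => (z w.1, (z w.2, (V w.1, k w)))) +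
      3 * Real.log (M + 1) + 2 * cR := by
  classical
  have hp0 := hp.nonneg
  obtain ⟨q, hq⟩ : ∃ q, q = dbl p X := ⟨_, rfl⟩
  have hq0 : ∀ w, 0 ≤ q w := by rw [hq]; exact fun w => glue_nonneg hp0 hp0 w
  have m1 : Marg q p (fun w => w.1) := by
    rw [hq]
    intro ω
    rw [Fintype.sum_prod_type, Finset.sum_eq_single ω]
    · simp only [if_true]
      exact glue_fst hp0 (fun _ => rfl) ω
    · intro b _ hb; simp [hb]
    · intro h; exact absurd (Finset.mem_univ _) h
  have m2 : Marg q p (fun w => w.2) := by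
    rw [hq]
    intro ω
    rw [Fintype.sum_prod_type, Finset.sum_comm, Finset.sum_eq_single ω]
    · simp only [if_true]
      exact glue_snd hp0 (fun _ => rfl) ω
    · intro b _ hb; simp [hb]
    · intro h; exact absurd (Finset.mem_univ _) h
  have hql : IsLaw q := ⟨hq0, by rw [m1.sum]; exact hp.sum_one⟩
  have hpos : ∀ w, 0 < q w → 0 < p w.1 ∧ 0 < p w.2 ∧ X w.1 = X w.2 := fun w hw => by
    rw [hq] at hw
    exact (glue_pos_iff hp0 hp0 w).mp hw
  have hVV : ∀ w, 0 < q w → V w.1 = V w.2 := fun w hw =>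
    hV _ _ (hpos w hw).1 (hpos w hw).2.1 (hpos w hw).2.2
  rw [← hq] at h1 h2 ⊢
  -- the number of values of `k`
  have hkL : ∀ {T : Type} (Y : Ω × Ω → T), CH q k Y ≤ Real.log (M + 1) := by
    intro T Y
    have h3 := CH_le_card hq0 hql.sum_one k Y (fun _ => Finset.range (M + 1)) (by
      intro w _
      rw [Finset.mem_range]
      exact Nat.lt_succ_of_le (hk w))
    refine h3.trans (le_of_eq ?_)
    rw [Ex_const hql.sum_one, Finset.card_range]
    push_cast
    rfl
  obtain ⟨G, hG⟩ : ∃ G : Ω × Ω → K × (ℕ × R), G = fun w => (V w.1, (k w, r w)) := ⟨_, rfl⟩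
  -- two labels
  have t0 := two_labels hq0 (fun w => X w.1) (fun _ => ()) (fun w => z w.1) (fun w => z w.2) G
  have t1 : CH q (fun _ : Ω × Ω => ()) (fun w => (X w.1, G w)) = 0 :=
    CH_eq_zero hq0 fun _ _ _ _ _ => rfl
  -- the first label
  have a1 : CH p X (fun ω => (z ω, V ω)) ≤ Real.log (M + 1) +
      CH q (fun w => X w.1) (fun w => (z w.1, G w)) := by
    have e1 : CH q (fun w => X w.1) (fun w => (z w.1, V w.1)) =
        CH p X (fun ω => (z ω, V ω)) := m1.CH X (fun ω => (z ω, V ω))
    rw [← e1]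
    have e2 := CH_le_add hq0 (fun w => X w.1) k (fun w => (z w.1, V w.1))
    have e3 : CH q (fun w => X w.1) (fun w => (k w, (z w.1, V w.1))) ≤
        CH q (fun w => X w.1) (fun w => (z w.1, G w)) := by
      have e4 := CH_le_add hq0 (fun w => X w.1) r (fun w => (k w, (z w.1, V w.1)))
      have e5 : CH q r (fun w => (k w, (z w.1, V w.1))) = 0 := by
        refine CH_eq_zero hq0 fun w w' hw hw' h => h1 w w' hw hw' ?_
        simp only [Prod.mk.injEq] at h ⊢
        tauto
      have e6 : CH q (fun w => X w.1) (fun w => (r w, (k w, (z w.1, V w.1)))) =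
          CH q (fun w => X w.1) (fun w => (z w.1, G w)) := by
        refine CH_congr hq0 (fun _ _ _ _ h => (Prod.ext_iff.mp h).1)
          (fun _ _ _ _ h => (Prod.ext_iff.mp h).1) ?_ ?_
        · intro w w' _ _ h
          simp only [hG, Prod.mk.injEq] at h ⊢
          tauto
        · intro w w' _ _ h
          simp only [hG, Prod.mk.injEq] at h ⊢
          tauto
      rw [e5, e6, zero_add] at e4
      exact e4
    have e7 := hkL (fun w => (z w.1, V w.1))
    linarith
  -- the second label
  have a2 : CH p X (fun ω => (z ω, V ω)) ≤ Real.log (M + 1) + cR +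
      CH q (fun w => X w.1) (fun w => (z w.2, G w)) := by
    have e1 : CH q (fun w => X w.1) (fun w => (z w.2, V w.1)) =
        CH p X (fun ω => (z ω, V ω)) := by
      rw [← m2.CH X (fun ω => (z ω, V ω))]
      refine CH_congr hq0 ?_ ?_ ?_ ?_
      · intro w w' hw hw' h
        simp only [Prod.mk.injEq] at h
        exact (((hpos w hw).2.2).symm.trans h.1).trans (hpos w' hw').2.2
      · intro w w' hw hw' h
        simp only [Prod.mk.injEq] at h
        exact (((hpos w hw).2.2).trans h.1).trans (hpos w' hw').2.2.symm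
      · intro w w' hw hw' h
        simp only [Prod.mk.injEq] at h ⊢
        exact ⟨h.1, ((hVV w hw).symm.trans h.2).trans (hVV w' hw')⟩
      · intro w w' hw hw' h
        simp only [Prod.mk.injEq] at h ⊢
        exact ⟨h.1, ((hVV w hw).trans h.2).trans (hVV w' hw').symm⟩
    rw [← e1]
    have e2 := CH_le_add hq0 (fun w => X w.1) k (fun w => (z w.2, V w.1))
    have e4 := CH_le_add hq0 (fun w => X w.1) r (fun w => (k w, (z w.2, V w.1)))
    have e5 : CH q r (fun w => (k w, (z w.2, V w.1))) ≤ cR := by
      refine le_trans (le_of_eq ?_) h2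
      refine CH_congr hq0 (fun _ _ _ _ h => (Prod.ext_iff.mp h).1)
        (fun _ _ _ _ h => (Prod.ext_iff.mp h).1) ?_ ?_
      · intro w w' _ _ h
        simp only [Prod.mk.injEq] at h ⊢
        tauto
      · intro w w' _ _ h
        simp only [Prod.mk.injEq] at h ⊢
        tauto
    have e6 : CH q (fun w => X w.1) (fun w => (r w, (k w, (z w.2, V w.1)))) =
        CH q (fun w => X w.1) (fun w => (z w.2, G w)) := by
      refine CH_congr hq0 (fun _ _ _ _ h => (Prod.ext_iff.mp h).1)
        (fun _ _ _ _ h => (Prod.ext_iff.mp h).1) ?_ ?_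
      · intro w w' _ _ h
        simp only [hG, Prod.mk.injEq] at h ⊢
        tauto
      · intro w w' _ _ h
        simp only [hG, Prod.mk.injEq] at h ⊢
        tauto
    have e7 := hkL (fun w => (z w.2, V w.1))
    linarith
  -- the strip
  have a3 : CH q (fun w => X w.1) (fun w => (z w.1, z w.2, G w)) ≤
      CH q (fun w => X w.1) (fun w => (z w.1, (z w.2, (V w.1, k w)))) := by
    refine CH_mono_cond hq0 fun w w' _ _ h => ?_
    simp only [hG, Prod.mk.injEq] at h ⊢
    tauto
  -- independence
  have a4 : CH q (fun w => z w.1) (fun w => ((), X w.1, G w)) ≤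
      CH q (fun w => z w.1) (fun w => (z w.2, (), X w.1, G w)) + Real.log (M + 1) + cR := by
    have e1 : CH q (fun w => z w.1) (fun w => X w.1) ≤
        CH q (fun w => z w.1) (fun w => (z w.2, X w.1)) + 0 :=
      event_info hp X hql 0 (fun w => by rw [Real.exp_zero, one_mul, hq]) z
    have e2 : CH q (fun w => z w.1) (fun w => ((), X w.1, G w)) ≤
        CH q (fun w => z w.1) (fun w => X w.1) := by
      refine CH_mono_cond hq0 fun w w' _ _ h => ?_
      simp only [Prod.mk.injEq] at h
      exact h.2.1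
    -- adding `k` and `r` to the condition
    have e3 := CH_le_add hq0 (fun w => z w.1) k (fun w => (z w.2, X w.1))
    have e4 := hkL (fun w => (z w.2, X w.1))
    have e5 := CH_le_add hq0 (fun w => z w.1) r (fun w => (k w, (z w.2, X w.1)))
    have e6 : CH q r (fun w => (k w, (z w.2, X w.1))) ≤ cR := by
      refine le_trans ?_ h2
      refine CH_mono_cond hq0 fun w w' hw hw' h => ?_
      simp only [Prod.mk.injEq] at h ⊢
      exact ⟨h.2.1, hV _ _ (hpos w hw).1 (hpos w' hw').1 h.2.2, h.1⟩
    have e7 : CH q (fun w => z w.1) (fun w => (r w, (k w, (z w.2, X w.1)))) =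
        CH q (fun w => z w.1) (fun w => (z w.2, (), X w.1, G w)) := by
      refine CH_congr hq0 (fun _ _ _ _ h => (Prod.ext_iff.mp h).1)
        (fun _ _ _ _ h => (Prod.ext_iff.mp h).1) ?_ ?_
      · intro w w' hw hw' h
        simp only [hG, Prod.mk.injEq] at h ⊢
        obtain ⟨b1, b2, b3, b4⟩ := h
        exact ⟨b3, trivial, b4, hV _ _ (hpos w hw).1 (hpos w' hw').1 b4, b2, b1⟩
      · intro w w' _ _ h
        simp only [hG, Prod.mk.injEq] at h ⊢
        tauto
    linarith
  rw [t1] at t0
  have hGG : CH q (fun w => X w.1) G = CH q (fun w => X w.1) (fun w => (V w.1, (k w, r w))) := by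
    rw [hG]
  rw [hGG] at t0
  have t0' : CH q (fun w => X w.1) (fun w => (z w.1, G w)) +
      CH q (fun w => X w.1) (fun w => (z w.2, G w)) ≤
      CH q (fun w => X w.1) (fun w => (z w.1, z w.2, G w)) +
      CH q (fun w => X w.1) (fun w => (V w.1, (k w, r w))) + 0 +
      (CH q (fun w => z w.1) (fun w => ((), X w.1, G w)) -
        CH q (fun w => z w.1) (fun w => (z w.2, (), X w.1, G w))) := t0
  linarith

end TC

end Pool.KS6
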