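import Pool.Agent.H77.S6.LC4

/-!
# Geometry of planks in space-time

Gauge of a vector in a plank of precision `k`, closeness of frames, rounding of a plank.
-/

set_option autoImplicit false

namespace Pool.KS6

open Finset Real
open Pool.Agent.H49.Ent Pool.Agent.H32.Dense Pool.STK Pool.KA Pool.KSAT Pool.K3 Pool.K2S

section Gauge

/-- The vector `v` has size at most `a` in the box of the plank `y`, of precision `k`. -/
structure Gz (i0 iu iN : Fin 3) (W lam k : ℕ) (y : Pln) (a : ℝ) (v : Fin 3 → ℝ) : Prop where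
  g0 : |v i0| ≤ a / 2 ^ W
  g1 : |fu i0 iu y.e v| ≤ a / 2 ^ (W + lam)
  g2 : |fn i0 iu iN y.c y.s v| ≤ a / 2 ^ k

/-- The frames of two planks are close at precision `k`. -/
structure FC (W lam k : ℕ) (a : ℝ) (y y' : Pln) : Prop where
  f0 : |y.e - y'.e| ≤ a / 2 ^ lam
  f1 : |y.s - y'.s| ≤ a * 2 ^ (W + lam) / 2 ^ k
  f2 : |Ae y.c y.s y'.c y'.s y'.e| ≤ a * 2 ^ W / 2 ^ k

variable {i0 iu iN : Fin 3} {W lam k : ℕ} {y y' y'' : Pln} {a b : ℝ} {v v' : Fin 3 → ℝ}

lemma FC.nonneg (h : FC W lam k a y y') : 0 ≤ a := by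
  have h1 := (abs_nonneg _).trans h.f0
  by_contra hcon
  push Not at hcon
  have h2 : a / 2 ^ lam < 0 := div_neg_of_neg_of_pos hcon (by positivity)
  linarith

lemma Gz.nonneg (h : Gz i0 iu iN W lam k y a v) : 0 ≤ a := by
  have h1 := (abs_nonneg _).trans h.g0
  by_contra hcon
  push Not at hcon
  have h2 : a / 2 ^ W < 0 := div_neg_of_neg_of_pos hcon (by positivity)
  linarith

lemma Gz.mono (h : Gz i0 iu iN W lam k y a v) (hab : a ≤ b) : Gz i0 iu iN W lam k y b v :=
  ⟨h.g0.trans (div_le_div_of_nonneg_right hab (by positivity)),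
    h.g1.trans (div_le_div_of_nonneg_right hab (by positivity)),
    h.g2.trans (div_le_div_of_nonneg_right hab (by positivity))⟩

lemma FC.mono (h : FC W lam k a y y') (hab : a ≤ b) : FC W lam k b y y' :=
  ⟨h.f0.trans (div_le_div_of_nonneg_right hab (by positivity)),
    h.f1.trans (div_le_div_of_nonneg_right
      (mul_le_mul_of_nonneg_right hab (by positivity)) (by positivity)),
    h.f2.trans (div_le_div_of_nonneg_right
      (mul_le_mul_of_nonneg_right hab (by positivity)) (by positivity))⟩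

lemma fu_add (i0 iu : Fin 3) (e : ℝ) (v v' : Fin 3 → ℝ) :
    fu i0 iu e (fun i => v i + v' i) = fu i0 iu e v + fu i0 iu e v' := by unfold fu; ring

lemma fn_add (i0 iu iN : Fin 3) (c s : ℝ) (v v' : Fin 3 → ℝ) :
    fn i0 iu iN c s (fun i => v i + v' i) = fn i0 iu iN c s v + fn i0 iu iN c s v' := by
  unfold fn; ring

lemma Gz.add (h : Gz i0 iu iN W lam k y a v) (h' : Gz i0 iu iN W lam k y b v') :
    Gz i0 iu iN W lam k y (a + b) (fun i => v i + v' i) := by
  refine ⟨?_, ?_, ?_⟩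
  · rw [add_div]
    exact (abs_add_le _ _).trans (add_le_add h.g0 h'.g0)
  · rw [add_div, fu_add]
    exact (abs_add_le _ _).trans (add_le_add h.g1 h'.g1)
  · rw [add_div, fn_add]
    exact (abs_add_le _ _).trans (add_le_add h.g2 h'.g2)

lemma Gz.smul (h : Gz i0 iu iN W lam k y a v) {r : ℝ} (hr : |r| ≤ 1) :
    Gz i0 iu iN W lam k y a (fun i => r * v i) := by
  have key : ∀ x A : ℝ, |x| ≤ A → |r * x| ≤ A := by
    intro x A hx
    rw [abs_mul]
    have := mul_le_mul_of_nonneg_right hr (abs_nonneg x)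
    linarith
  refine ⟨key _ _ h.g0, ?_, ?_⟩
  · have : fu i0 iu y.e (fun i => r * v i) = r * fu i0 iu y.e v := by unfold fu; ring
    rw [this]
    exact key _ _ h.g1
  · have : fn i0 iu iN y.c y.s (fun i => r * v i) = r * fn i0 iu iN y.c y.s v := by
      unfold fn; ring
    rw [this]
    exact key _ _ h.g2

lemma Gz.neg (h : Gz i0 iu iN W lam k y a v) : Gz i0 iu iN W lam k y a (fun i => -v i) := by
  have h1 := h.smul (r := -1) (by norm_num)
  simpa using h1

/-- Change of the frame. -/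
lemma Gz.change (h : Gz i0 iu iN W lam k y' a v) (hf : FC W lam k b y y') :
    Gz i0 iu iN W lam k y ((1 + 2 * b) * a) v := by
  have ha := h.nonneg
  have hb := hf.nonneg
  have hab : 0 ≤ b * a := mul_nonneg hb ha
  have p0 : (0 : ℝ) < 2 ^ W := by positivity
  have p1 : (0 : ℝ) < 2 ^ lam := by positivity
  have p2 : (0 : ℝ) < 2 ^ k := by positivity
  refine ⟨?_, ?_, ?_⟩
  · refine h.g0.trans (div_le_div_of_nonneg_right ?_ p0.le)
    linarith
  · have e1 : fu i0 iu y.e v = fu i0 iu y'.e v + (-(y.e - y'.e)) * v i0 := by unfold fu; ring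
    rw [e1]
    refine (abs_add_le _ _).trans ?_
    have e2 : |(-(y.e - y'.e)) * v i0| ≤ b / 2 ^ lam * (a / 2 ^ W) := by
      rw [abs_mul, abs_neg]
      exact mul_le_mul hf.f0 h.g0 (abs_nonneg _) (by positivity)
    have e3 : b / 2 ^ lam * (a / 2 ^ W) = b * a / 2 ^ (W + lam) := by
      rw [pow_add, div_mul_div_comm, mul_comm ((2 : ℝ) ^ lam)]
    rw [e3] at e2
    have e4 : (1 + 2 * b) * a / 2 ^ (W + lam) = a / 2 ^ (W + lam) + b * a / 2 ^ (W + lam) +
        b * a / 2 ^ (W + lam) := by ring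
    have e5 : 0 ≤ b * a / 2 ^ (W + lam) := by positivity
    have := h.g1
    rw [e4]
    linarith
  · have e1 : fn i0 iu iN y.c y.s v = fn i0 iu iN y'.c y'.s v +
        (Ae y.c y.s y'.c y'.s y'.e * v i0 + (y.s - y'.s) * fu i0 iu y'.e v) := by
      rw [← fn_diff]; ring
    rw [e1]
    refine (abs_add_le _ _).trans ?_
    refine (add_le_add h.g2 (abs_add_le _ _)).trans ?_
    have e2 : |Ae y.c y.s y'.c y'.s y'.e * v i0| ≤ b * 2 ^ W / 2 ^ k * (a / 2 ^ W) := by
      rw [abs_mul]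
      exact mul_le_mul hf.f2 h.g0 (abs_nonneg _) (by positivity)
    have e3 : |(y.s - y'.s) * fu i0 iu y'.e v| ≤ b * 2 ^ (W + lam) / 2 ^ k *
        (a / 2 ^ (W + lam)) := by
      rw [abs_mul]
      exact mul_le_mul hf.f1 h.g1 (abs_nonneg _) (by positivity)
    have e4 : b * 2 ^ W / 2 ^ k * (a / 2 ^ W) = b * a / 2 ^ k := by field_simp
    have e5 : b * 2 ^ (W + lam) / 2 ^ k * (a / 2 ^ (W + lam)) = b * a / 2 ^ k := by field_simp
    rw [e4] at e2
    rw [e5] at e3
    have e6 : (1 + 2 * b) * a / 2 ^ k = a / 2 ^ k + b * a / 2 ^ k + b * a / 2 ^ k := by ring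
    rw [e6]
    linarith

lemma FC.symm (h : FC W lam k a y y') : FC W lam k (a + a ^ 2) y' y := by
  have ha := h.nonneg
  have p0 : (0 : ℝ) < 2 ^ W := by positivity
  have p1 : (0 : ℝ) < 2 ^ lam := by positivity
  have p2 : (0 : ℝ) < 2 ^ k := by positivity
  have h2 : 0 ≤ a ^ 2 := by positivity
  refine ⟨?_, ?_, ?_⟩
  · rw [abs_sub_comm]
    exact h.f0.trans (div_le_div_of_nonneg_right (by linarith) p1.le)
  · rw [abs_sub_comm]
    refine h.f1.trans (div_le_div_of_nonneg_right ?_ p2.le)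
    exact mul_le_mul_of_nonneg_right (by linarith) (by positivity)
  · have e1 : Ae y'.c y'.s y.c y.s y.e =
        -(Ae y.c y.s y'.c y'.s y'.e) + -((y.s - y'.s) * (y.e - y'.e)) := by unfold Ae; ring
    rw [e1]
    refine (abs_add_le _ _).trans ?_
    rw [abs_neg, abs_neg, abs_mul]
    have e2 := mul_le_mul h.f1 h.f0 (abs_nonneg _) (by positivity)
    have e3 : a * 2 ^ (W + lam) / 2 ^ k * (a / 2 ^ lam) = a ^ 2 * 2 ^ W / 2 ^ k := by
      rw [pow_add]; field_simp
    rw [e3] at e2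
    have e4 : (a + a ^ 2) * 2 ^ W / 2 ^ k = a * 2 ^ W / 2 ^ k + a ^ 2 * 2 ^ W / 2 ^ k := by ring
    rw [e4]
    exact add_le_add h.f2 e2

lemma FC.trans (h : FC W lam k a y y') (h' : FC W lam k b y' y'') :
    FC W lam k (a + b + a * b) y y'' := by
  have ha := h.nonneg
  have hb := h'.nonneg
  have hab : 0 ≤ a * b := mul_nonneg ha hb
  have p0 : (0 : ℝ) < 2 ^ W := by positivity
  have p1 : (0 : ℝ) < 2 ^ lam := by positivity
  have p2 : (0 : ℝ) < 2 ^ k := by positivity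
  refine ⟨?_, ?_, ?_⟩
  · have e1 : y.e - y''.e = (y.e - y'.e) + (y'.e - y''.e) := by ring
    rw [e1]
    refine (abs_add_le _ _).trans ((add_le_add h.f0 h'.f0).trans ?_)
    rw [← add_div]
    exact div_le_div_of_nonneg_right (by linarith) p1.le
  · have e1 : y.s - y''.s = (y.s - y'.s) + (y'.s - y''.s) := by ring
    rw [e1]
    refine (abs_add_le _ _).trans ((add_le_add h.f1 h'.f1).trans ?_)
    rw [← add_div, ← add_mul]
    refine div_le_div_of_nonneg_right ?_ p2.le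
    exact mul_le_mul_of_nonneg_right (by linarith) (by positivity)
  · have e1 : Ae y.c y.s y''.c y''.s y''.e = Ae y.c y.s y'.c y'.s y'.e +
        Ae y'.c y'.s y''.c y''.s y''.e + -((y.s - y'.s) * (y'.e - y''.e)) := by
      unfold Ae; ring
    rw [e1]
    refine (abs_add_three _ _ _).trans ?_
    rw [abs_neg, abs_mul]
    have e2 := mul_le_mul h.f1 h'.f0 (abs_nonneg _) (by positivity)
    have e3 : a * 2 ^ (W + lam) / 2 ^ k * (b / 2 ^ lam) = a * b * 2 ^ W / 2 ^ k := by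
      rw [pow_add]; field_simp
    rw [e3] at e2
    have e4 : (a + b + a * b) * 2 ^ W / 2 ^ k = a * 2 ^ W / 2 ^ k + b * 2 ^ W / 2 ^ k +
        a * b * 2 ^ W / 2 ^ k := by ring
    rw [e4]
    exact add_le_add (add_le_add h.f2 h'.f2) e2

/-- Small vectors. -/
lemma Gz.small {Q : ℕ} (he : |y.e| ≤ 2) (hc : |y.c| ≤ 4) (hs : |y.s| ≤ 4)
    (hv : ∀ i, |v i| ≤ 1 / 2 ^ Q) (h1 : W + lam ≤ Q) (h2 : k ≤ Q) :
    Gz i0 iu iN W lam k y 9 v := by
  have q0 : (1 : ℝ) / 2 ^ Q ≤ 1 / 2 ^ W :=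
    one_div_le_one_div_of_le (by positivity) (pow_le_pow_right₀ (by norm_num) (by omega))
  have q1 : (1 : ℝ) / 2 ^ Q ≤ 1 / 2 ^ (W + lam) :=
    one_div_le_one_div_of_le (by positivity) (pow_le_pow_right₀ (by norm_num) h1)
  have q2 : (1 : ℝ) / 2 ^ Q ≤ 1 / 2 ^ k :=
    one_div_le_one_div_of_le (by positivity) (pow_le_pow_right₀ (by norm_num) h2)
  have q : (0 : ℝ) < 1 / 2 ^ Q := by positivity
  refine ⟨?_, ?_, ?_⟩
  · have e1 : (9 : ℝ) / 2 ^ W = 9 * (1 / 2 ^ W) := by ring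
    rw [e1]
    have := hv i0
    linarith
  · have e1 : (9 : ℝ) / 2 ^ (W + lam) = 9 * (1 / 2 ^ (W + lam)) := by ring
    rw [e1]
    unfold fu
    refine (abs_sub _ _).trans ?_
    have e2 : |y.e * v i0| ≤ 2 * (1 / 2 ^ Q) := by
      rw [abs_mul]
      exact mul_le_mul he (hv i0) (abs_nonneg _) (by norm_num)
    have := hv iu
    linarith
  · have e1 : (9 : ℝ) / 2 ^ k = 9 * (1 / 2 ^ k) := by ring
    rw [e1]
    unfold fn
    refine (abs_add_three _ _ _).trans ?_
    have e2 : |y.c * v i0| ≤ 4 * (1 / 2 ^ Q) := by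
      rw [abs_mul]
      exact mul_le_mul hc (hv i0) (abs_nonneg _) (by norm_num)
    have e3 : |y.s * v iu| ≤ 4 * (1 / 2 ^ Q) := by
      rw [abs_mul]
      exact mul_le_mul hs (hv iu) (abs_nonneg _) (by norm_num)
    have := hv iN
    linarith

/-- The base point of a plank at time `t`. -/
def bs (y : Pln) (t : ℝ) (i : Fin 3) : ℝ := y.xb i + t * y.db i

/-- The line in the plank, as gauges. -/
lemma Inc.gz {P : ℕ} {C t : ℝ} {x d : Fin 3 → ℝ} (h : Inc i0 iu iN W lam P C y t x d)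
    (hC : 0 ≤ C) (hk : k ≤ P) :
    Gz i0 iu iN W lam k y C (fun i => x i - bs y t i) ∧
      Gz i0 iu iN W lam k y C (fun i => (d i - y.db i) / 2 ^ W) := by
  have p0 : (0 : ℝ) < 2 ^ W := by positivity
  have q2 : C / 2 ^ P ≤ C / 2 ^ k :=
    div_le_div_of_nonneg_left hC (by positivity) (pow_le_pow_right₀ (by norm_num) hk)
  refine ⟨⟨h.pe, ?_, ?_⟩, ⟨?_, ?_, ?_⟩⟩
  · have e1 : fu i0 iu y.e (fun i => x i - bs y t i) =
        fu i0 iu y.e x - fu i0 iu y.e (fun i => y.xb i + t * y.db i) := by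
      unfold fu bs; ring
    rw [e1]
    exact h.pu
  · have e1 : fn i0 iu iN y.c y.s (fun i => x i - bs y t i) =
        fn i0 iu iN y.c y.s x - fn i0 iu iN y.c y.s (fun i => y.xb i + t * y.db i) := by
      unfold fn bs; ring
    rw [e1]
    exact h.pn.trans q2
  · rw [abs_div, abs_of_pos p0]
    exact div_le_div_of_nonneg_right h.ve p0.le
  · have e1 : fu i0 iu y.e (fun i => (d i - y.db i) / 2 ^ W) =
        (fu i0 iu y.e d - fu i0 iu y.e y.db) / 2 ^ W := by unfold fu; ring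
    rw [e1, abs_div, abs_of_pos p0, pow_add, mul_comm ((2 : ℝ) ^ W), ← div_div]
    exact div_le_div_of_nonneg_right h.vu p0.le
  · have e1 : fn i0 iu iN y.c y.s (fun i => (d i - y.db i) / 2 ^ W) =
        (fn i0 iu iN y.c y.s d - fn i0 iu iN y.c y.s y.db) / 2 ^ W := by unfold fn; ring
    rw [e1, abs_div, abs_of_pos p0]
    refine (div_le_div_of_nonneg_right h.vn p0.le).trans ?_
    have e2 : C * 2 ^ W / 2 ^ P / 2 ^ W = C / 2 ^ P := by field_simp
    rw [e2]
    exact q2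

/-- Coordinates of a vector of bounded gauge. -/
lemma Gz.coord (h : Gz i0 iu iN W lam k y a v) (he : |y.e| ≤ 2) (hc : |y.c| ≤ 4)
    (hs : |y.s| ≤ 4) :
    |v i0| ≤ a / 2 ^ W ∧ |v iu| ≤ a / 2 ^ (W + lam) + 2 * |v i0| ∧
      |v iN| ≤ a / 2 ^ k + 4 * |v i0| + 4 * |v iu| := by
  refine ⟨h.g0, ?_, ?_⟩
  · have e1 : v iu = fu i0 iu y.e v + y.e * v i0 := by unfold fu; ring
    rw [e1]
    refine (abs_add_le _ _).trans ?_
    have e2 : |y.e * v i0| ≤ 2 * |v i0| := by
      rw [abs_mul]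
      exact mul_le_mul_of_nonneg_right he (abs_nonneg _)
    have := h.g1
    linarith
  · have e1 : v iN = fn i0 iu iN y.c y.s v + (-y.c) * v i0 + (-y.s) * v iu := by
      unfold fn; ring
    rw [e1]
    refine (abs_add_three _ _ _).trans ?_
    have e2 : |(-y.c) * v i0| ≤ 4 * |v i0| := by
      rw [abs_mul, abs_neg]
      exact mul_le_mul_of_nonneg_right hc (abs_nonneg _)
    have e3 : |(-y.s) * v iu| ≤ 4 * |v iu| := by
      rw [abs_mul, abs_neg]
      exact mul_le_mul_of_nonneg_right hs (abs_nonneg _)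
    have := h.g2
    linarith

end Gauge

end Pool.KS6
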