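import Pool.Agent.H77.S6.FQ2

/-!
# Two planks through one point: the number of digits of agreement, rounding

The distance `d3` of two planks measures the two coefficients of the frame and the normal
velocity. `k3` is the number of digits of agreement, at most `P1`.
-/

set_option autoImplicit false

namespace Pool.KS6

open Finset Real
open Pool.Agent.H49.Ent Pool.Agent.H32.Dense Pool.STK Pool.KA Pool.KSAT Pool.K3 Pool.K2S

section Dist

/-- The distance of two planks, in units of the window. -/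
noncomputable def d3 (i0 iu iN : Fin 3) (W lam : ℕ) (y y' : Pln) : ℝ :=
  max (max (|Ae y.c y.s y'.c y'.s y'.e| / 2 ^ W) (|y.s - y'.s| / 2 ^ (W + lam)))
    (|fn i0 iu iN y'.c y'.s (fun i => y.db i - y'.db i)| / 2 ^ W)

open Classical in
/-- The number of digits (at most `P1`) to which two planks agree. -/
noncomputable def k3 (i0 iu iN : Fin 3) (W lam P1 : ℕ) (K : ℝ) (y y' : Pln) : ℕ :=
  Nat.findGreatest (fun k => d3 i0 iu iN W lam y y' ≤ K / 2 ^ k) P1

variable {i0 iu iN : Fin 3} {W lam P1 k : ℕ} {K : ℝ} {y y' : Pln}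

lemma k3_le : k3 i0 iu iN W lam P1 K y y' ≤ P1 := Nat.findGreatest_le P1

lemma d3_le_k3 {n : ℕ} (hn : n ≤ P1) (h : d3 i0 iu iN W lam y y' ≤ K / 2 ^ n) :
    d3 i0 iu iN W lam y y' ≤ K / 2 ^ k3 i0 iu iN W lam P1 K y y' ∧
      n ≤ k3 i0 iu iN W lam P1 K y y' := by
  classical
  unfold k3
  exact ⟨Nat.findGreatest_spec (P := fun k => d3 i0 iu iN W lam y y' ≤ K / 2 ^ k) hn h,
    Nat.le_findGreatest hn h⟩

lemma lt_d3 (h : k3 i0 iu iN W lam P1 K y y' < P1) :
    K / 2 ^ (k3 i0 iu iN W lam P1 K y y' + 1) < d3 i0 iu iN W lam y y' := by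
  classical
  have h1 := Nat.findGreatest_is_greatest (P := fun k => d3 i0 iu iN W lam y y' ≤ K / 2 ^ k)
    (n := P1) (k := k3 i0 iu iN W lam P1 K y y' + 1) (Nat.lt_succ_self _) (by omega)
  exact not_le.1 h1

/-- Close planks have close frames. -/
lemma FC_of_d3 {l : ℕ} (hK : 1 ≤ K) (he : |y.e - y'.e| ≤ 1 / 2 ^ lam)
    (h : d3 i0 iu iN W lam y y' ≤ K / 2 ^ l) : FC W lam l K y y' := by
  unfold d3 at h
  rw [max_le_iff, max_le_iff] at h
  obtain ⟨⟨h1, h2⟩, -⟩ := h
  refine ⟨?_, ?_, ?_⟩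
  · exact he.trans (div_le_div_of_nonneg_right hK (by positivity))
  · rw [div_le_iff₀ (by positivity)] at h2
    refine h2.trans (le_of_eq ?_)
    ring
  · rw [div_le_iff₀ (by positivity)] at h1
    refine h1.trans (le_of_eq ?_)
    ring

lemma vel_of_d3 {l : ℕ} (h : d3 i0 iu iN W lam y y' ≤ K / 2 ^ l) :
    |fn i0 iu iN y'.c y'.s (fun i => (y.db i - y'.db i) / 2 ^ W)| ≤ K / 2 ^ l := by
  unfold d3 at h
  rw [max_le_iff] at h
  refine le_trans (le_of_eq ?_) h.2
  have e1 : fn i0 iu iN y'.c y'.s (fun i => (y.db i - y'.db i) / 2 ^ W) =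
      fn i0 iu iN y'.c y'.s (fun i => y.db i - y'.db i) / 2 ^ W := by unfold fn; ring
  rw [e1, abs_div, abs_of_pos (by positivity : (0 : ℝ) < 2 ^ W)]

/-- The distance of the planks of two lines. -/
lemma d3_le {P : ℕ} {C t : ℝ} {x x' d d' : Fin 3 → ℝ} (hC : 1 ≤ C) (hWP : W ≤ P)
    (h : Inc i0 iu iN W lam P C y t x d) (h' : Inc i0 iu iN W lam P C y' t x' d')
    (hd : ∀ i, |d i| ≤ 1) (hd' : ∀ i, |d' i| ≤ 1) :
    d3 i0 iu iN W lam y y' ≤ 96 * C / 2 ^ W := by
  have p0 : (0 : ℝ) < 2 ^ W := by positivity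
  have hA := Ae_le h.c_le h.s_le h'.c_le h'.s_le h'.e_le
  have hs : |y.s - y'.s| ≤ 8 := by
    have := abs_sub y.s y'.s
    linarith [h.s_le, h'.s_le]
  have hlp : C * 2 ^ W / 2 ^ P ≤ C := by
    rw [div_le_iff₀ (by positivity)]
    exact mul_le_mul_of_nonneg_left (pow_le_pow_right₀ (by norm_num) hWP) (by linarith)
  have hll : C / 2 ^ lam ≤ C := by
    rw [div_le_iff₀ (by positivity)]
    have : (1 : ℝ) ≤ 2 ^ lam := one_le_pow₀ (by norm_num)
    nlinarith
  unfold d3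
  rw [max_le_iff, max_le_iff]
  refine ⟨⟨div_le_div_of_nonneg_right (by linarith) p0.le, ?_⟩,
    div_le_div_of_nonneg_right ?_ p0.le⟩
  · refine (div_le_div_of_nonneg_right hs (by positivity)).trans ?_
    refine (div_le_div_of_nonneg_left (by norm_num) p0
      (pow_le_pow_right₀ (by norm_num) (by omega : W ≤ W + lam))).trans ?_
    exact div_le_div_of_nonneg_right (by linarith) p0.le
  · have e1 : fn i0 iu iN y'.c y'.s (fun i => y.db i - y'.db i) =
        fn i0 iu iN y'.c y'.s (fun i => d i - d' i) +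
        (fn i0 iu iN y'.c y'.s d' - fn i0 iu iN y'.c y'.s y'.db) +
        (-(fn i0 iu iN y.c y.s d - fn i0 iu iN y.c y.s y.db) +
        (Ae y.c y.s y'.c y'.s y'.e * (d i0 - y.db i0) +
          (y.s - y'.s) * ((fu i0 iu y.e d - fu i0 iu y.e y.db) +
            (y.e - y'.e) * (d i0 - y.db i0)))) := by
      unfold fn fu Ae; ring
    rw [e1]
    have b1 : |fn i0 iu iN y'.c y'.s (fun i => d i - d' i)| ≤ 18 := by
      have q : ∀ i, |d i - d' i| ≤ 2 := fun i => by
        have := abs_sub (d i) (d' i)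
        linarith [hd i, hd' i]
      unfold fn
      refine (abs_add_three _ _ _).trans ?_
      rw [abs_mul, abs_mul]
      have q1 := mul_le_mul h'.c_le (q i0) (abs_nonneg _) (by norm_num)
      have q2 := mul_le_mul h'.s_le (q iu) (abs_nonneg _) (by norm_num)
      linarith [q iN]
    have b2 := h'.vn
    have b3 := h.vn
    have b4 : |Ae y.c y.s y'.c y'.s y'.e * (d i0 - y.db i0)| ≤ 24 * C := by
      rw [abs_mul]
      exact mul_le_mul hA h.ve (abs_nonneg _) (by norm_num)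
    have b5 : |(y.e - y'.e) * (d i0 - y.db i0)| ≤ 4 * C := by
      rw [abs_mul]
      refine mul_le_mul ?_ h.ve (abs_nonneg _) (by norm_num)
      have := abs_sub y.e y'.e
      linarith [h.e_le, h'.e_le]
    have b6 : |(y.s - y'.s) * ((fu i0 iu y.e d - fu i0 iu y.e y.db) +
            (y.e - y'.e) * (d i0 - y.db i0))| ≤ 8 * (C + 4 * C) := by
      rw [abs_mul]
      refine mul_le_mul hs ?_ (abs_nonneg _) (by norm_num)
      refine (abs_add_le _ _).trans ?_
      linarith [h.vu]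
    refine (abs_add_three _ _ _).trans ?_
    have b7 := abs_add_le (-(fn i0 iu iN y.c y.s d - fn i0 iu iN y.c y.s y.db))
      (Ae y.c y.s y'.c y'.s y'.e * (d i0 - y.db i0) +
          (y.s - y'.s) * ((fu i0 iu y.e d - fu i0 iu y.e y.db) +
            (y.e - y'.e) * (d i0 - y.db i0)))
    rw [abs_neg] at b7
    have b8 := abs_add_le (Ae y.c y.s y'.c y'.s y'.e * (d i0 - y.db i0))
      ((y.s - y'.s) * ((fu i0 iu y.e d - fu i0 iu y.e y.db) +
            (y.e - y'.e) * (d i0 - y.db i0)))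
    linarith

/-- The base points and base velocities of the planks of two lines through one point. -/
lemma pair_bs {P Q : ℕ} {C Cd t : ℝ} {x x' d d' : Fin 3 → ℝ} (hC : 1 ≤ C) (hK : 1 ≤ K)
    (h : Inc i0 iu iN W lam P C y t x d) (h' : Inc i0 iu iN W lam P C y' t x' d')
    (hd : ∀ i, |d i| ≤ 1) (hd' : ∀ i, |d' i| ≤ 1) (hx : ∀ i, |x i - x' i| ≤ 1 / 2 ^ Q)
    (he : |y.e - y'.e| ≤ 1 / 2 ^ lam)
    (hfd : |fu i0 iu y'.e (fun i => d i - d' i)| ≤ Cd / 2 ^ lam)
    (hk : d3 i0 iu iN W lam y y' ≤ K / 2 ^ k) (hkP : k ≤ P) (hkQ : k ≤ Q) (hWQ : W + lam ≤ Q) :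
    Gz i0 iu iN W lam k y' ((1 + 2 * (K + K ^ 2)) * C + 9 + C)
        (fun i => bs y t i - bs y' t i) ∧
      Gz i0 iu iN W lam k y' (3 * C + Cd + K + 2) (fun i => (y.db i - y'.db i) / 2 ^ W) := by
  have hC0 : 0 ≤ C := by linarith
  have p0 : (0 : ℝ) < 2 ^ W := by positivity
  have p1 : (0 : ℝ) < 2 ^ lam := by positivity
  have p2 : (0 : ℝ) < 2 ^ k := by positivity
  have hCd : 0 ≤ Cd := by
    have h1 := (abs_nonneg _).trans hfd
    by_contra hcon
    push Not at hcon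
    have h2 : Cd / 2 ^ lam < 0 := div_neg_of_neg_of_pos hcon p1
    linarith
  have hF := (FC_of_d3 hK he hk).symm
  obtain ⟨g1, g2⟩ := h.gz (k := k) hC0 hkP
  obtain ⟨g3, g4⟩ := h'.gz (k := k) hC0 hkP
  constructor
  · have a1 := (g1.change hF).neg
    have a2 : Gz i0 iu iN W lam k y' 9 (fun i => x i - x' i) :=
      Gz.small h'.e_le h'.c_le h'.s_le hx hWQ hkQ
    have a3 := (a1.add a2).add g3
    have e1 : (fun i => -(x i - bs y t i) + (x i - x' i) + (x' i - bs y' t i)) =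
        fun i => bs y t i - bs y' t i := by
      funext i; ring
    rw [e1] at a3
    exact a3
  · refine ⟨?_, ?_, ?_⟩
    · rw [abs_div, abs_of_pos p0]
      refine div_le_div_of_nonneg_right ?_ p0.le
      have e1 : y.db i0 - y'.db i0 = -(d i0 - y.db i0) + (d i0 - d' i0) +
          (d' i0 - y'.db i0) := by ring
      rw [e1]
      refine (abs_add_three _ _ _).trans ?_
      rw [abs_neg]
      have q1 := h.ve
      have q2 := h'.ve
      have q3 := abs_sub (d i0) (d' i0)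
      linarith [hd i0, hd' i0]
    · have e1 : fu i0 iu y'.e (fun i => (y.db i - y'.db i) / 2 ^ W) =
          (-(fu i0 iu y.e d - fu i0 iu y.e y.db) + -((y.e - y'.e) * (d i0 - y.db i0)) +
          (fu i0 iu y'.e (fun i => d i - d' i) +
            (fu i0 iu y'.e d' - fu i0 iu y'.e y'.db))) / 2 ^ W := by
        unfold fu; ring
      rw [e1, abs_div, abs_of_pos p0, pow_add, mul_comm ((2 : ℝ) ^ W), ← div_div]
      refine div_le_div_of_nonneg_right ?_ p0.le
      refine (abs_add_three _ _ _).trans ?_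
      rw [abs_neg, abs_neg]
      have q1 := h.vu
      have q2 := h'.vu
      have q3 := abs_add_le (fu i0 iu y'.e (fun i => d i - d' i))
        (fu i0 iu y'.e d' - fu i0 iu y'.e y'.db)
      have q4 : |(y.e - y'.e) * (d i0 - y.db i0)| ≤ 1 / 2 ^ lam * C := by
        rw [abs_mul]
        exact mul_le_mul he h.ve (abs_nonneg _) (by positivity)
      have e2 : (3 * C + Cd + K + 2) / 2 ^ lam = C / 2 ^ lam + 1 / 2 ^ lam * C +
          (Cd / 2 ^ lam + C / 2 ^ lam) + (K + 2) / 2 ^ lam := by ring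
      have e3 : 0 ≤ (K + 2) / 2 ^ lam := by positivity
      rw [e2]
      linarith
    · refine (vel_of_d3 hk).trans (div_le_div_of_nonneg_right ?_ p2.le)
      linarith

end Dist

section Round

variable {i0 iu iN : Fin 3} {W lam k : ℕ} {y y' : Pln} {a b : ℝ}

/-- The cell of a vector in the box of the plank `r`. -/
noncomputable def vc (i0 iu iN : Fin 3) (W lam k : ℕ) (r : Pln) (v : Fin 3 → ℝ) : Fin 3 → ℤ :=
  ![⌊(2 : ℝ) ^ W * v i0⌋, ⌊(2 : ℝ) ^ (W + lam) * fu i0 iu r.e v⌋,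
    ⌊(2 : ℝ) ^ k * fn i0 iu iN r.c r.s v⌋]

lemma vc_same {r : Pln} {v v' : Fin 3 → ℝ}
    (h : vc i0 iu iN W lam k r v = vc i0 iu iN W lam k r v') :
    Gz i0 iu iN W lam k r 1 (fun i => v i - v' i) := by
  have h0 : ⌊(2 : ℝ) ^ W * v i0⌋ = ⌊(2 : ℝ) ^ W * v' i0⌋ := congrFun h 0
  have h1 : ⌊(2 : ℝ) ^ (W + lam) * fu i0 iu r.e v⌋ = ⌊(2 : ℝ) ^ (W + lam) * fu i0 iu r.e v'⌋ :=
    congrFun h 1
  have h2 : ⌊(2 : ℝ) ^ k * fn i0 iu iN r.c r.s v⌋ = ⌊(2 : ℝ) ^ k * fn i0 iu iN r.c r.s v'⌋ :=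
    congrFun h 2
  refine ⟨floor_close h0, ?_, ?_⟩
  · have e1 : fu i0 iu r.e (fun i => v i - v' i) = fu i0 iu r.e v - fu i0 iu r.e v' := by
      unfold fu; ring
    rw [e1]
    exact floor_close h1
  · have e1 : fn i0 iu iN r.c r.s (fun i => v i - v' i) =
        fn i0 iu iN r.c r.s v - fn i0 iu iN r.c r.s v' := by
      unfold fn; ring
    rw [e1]
    exact floor_close h2

lemma vc_near {r : Pln} {v v' : Fin 3 → ℝ}
    (h : Gz i0 iu iN W lam k r a (fun i => v i - v' i)) (j : Fin 3) :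
    |((vc i0 iu iN W lam k r v j - vc i0 iu iN W lam k r v' j : ℤ) : ℝ)| ≤ a + 1 := by
  have sc : ∀ (n : ℕ) (s t : ℝ), |s - t| ≤ a / 2 ^ n → |(2 : ℝ) ^ n * s - 2 ^ n * t| ≤ a := by
    intro n s t h
    have hp : (0 : ℝ) < 2 ^ n := by positivity
    rw [← mul_sub, abs_mul, abs_of_pos hp]
    rw [le_div_iff₀ hp] at h
    linarith
  have g1 := h.g1
  have g2 := h.g2
  have e1 : fu i0 iu r.e (fun i => v i - v' i) = fu i0 iu r.e v - fu i0 iu r.e v' := by
    unfold fu; ring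
  have e2 : fn i0 iu iN r.c r.s (fun i => v i - v' i) =
      fn i0 iu iN r.c r.s v - fn i0 iu iN r.c r.s v' := by
    unfold fn; ring
  rw [e1] at g1
  rw [e2] at g2
  fin_cases j
  · exact floor_diff (sc _ _ _ h.g0)
  · exact floor_diff (sc _ _ _ g1)
  · exact floor_diff (sc _ _ _ g2)

/-- Frames of one cell are close. -/
lemma fcl_FC (h : fcl lam (k - (W + lam)) (k - W) y = fcl lam (k - (W + lam)) (k - W) y') :
    FC W lam k 2 y' y := by
  obtain ⟨h1, h2, h3⟩ := fcl_close h (by omega)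
  have p2 : (0 : ℝ) < 2 ^ k := by positivity
  refine ⟨?_, ?_, ?_⟩
  · rw [abs_sub_comm]
    exact h1.trans (div_le_div_of_nonneg_right (by norm_num) (by positivity))
  · rw [abs_sub_comm]
    refine h2.trans ?_
    rw [div_le_div_iff₀ (by positivity) p2, one_mul, mul_assoc, ← pow_add]
    have h4 : (2 : ℝ) ^ k ≤ 2 ^ (W + lam + (k - (W + lam))) :=
      pow_le_pow_right₀ (by norm_num) (by omega)
    have h5 : (0 : ℝ) < 2 ^ (W + lam + (k - (W + lam))) := by positivity
    linarith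
  · refine le_trans (le_of_eq ?_) (h3.trans ?_)
    · unfold Ae
      rfl
    · rw [div_le_div_iff₀ (by positivity) p2, mul_assoc, ← pow_add]
      refine mul_le_mul_of_nonneg_left ?_ (by norm_num)
      exact pow_le_pow_right₀ (by norm_num) (by omega)

/-- Close frames have close cells, coordinate by coordinate. -/
lemma fcl_near (hWk : W ≤ k) (h : FC W lam k b y y') (hs : |y.s| ≤ 4) (hs' : |y'.s| ≤ 4)
    (j : Fin 3) (hj : ∀ i, i < j → fcl lam (k - (W + lam)) (k - W) y i =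
      fcl lam (k - (W + lam)) (k - W) y' i) :
    |((fcl lam (k - (W + lam)) (k - W) y j - fcl lam (k - (W + lam)) (k - W) y' j : ℤ) : ℝ)| ≤
      2 * b + 9 := by
  have hb := h.nonneg
  have p1 : (0 : ℝ) < 2 ^ lam := by positivity
  have p2 : (0 : ℝ) < 2 ^ k := by positivity
  have sc : ∀ (n : ℕ) (s t M : ℝ), |s - t| ≤ M / 2 ^ n → |(2 : ℝ) ^ n * s - 2 ^ n * t| ≤ M := by
    intro n s t M h
    have hp : (0 : ℝ) < 2 ^ n := by positivity
    rw [← mul_sub, abs_mul, abs_of_pos hp]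
    rw [le_div_iff₀ hp] at h
    linarith
  have hs8 : |y.s - y'.s| ≤ 8 := by
    have := abs_sub y.s y'.s
    linarith
  fin_cases j
  · exact (floor_diff (sc _ _ _ _ h.f0)).trans (by linarith)
  · refine (floor_diff (M := b + 8) (sc _ _ _ _ ?_)).trans (by linarith)
    by_cases hk : W + lam ≤ k
    · refine h.f1.trans ?_
      rw [div_le_div_iff₀ p2 (by positivity), mul_assoc, ← pow_add,
        show W + lam + (k - (W + lam)) = k by omega]
      have : (0 : ℝ) < 2 ^ k := by positivity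
      nlinarith
    · rw [show k - (W + lam) = 0 by omega, pow_zero, div_one]
      linarith
  · have hj0 : ⌊(2 : ℝ) ^ lam * y.e⌋ = ⌊(2 : ℝ) ^ lam * y'.e⌋ := hj 0 (by decide)
    refine (floor_diff (M := 2 * b) (sc _ _ _ _ ?_)).trans (by linarith)
    have c3 := floor_near lam y'.e
    rw [← hj0] at c3
    rw [← hj0]
    obtain ⟨r, hr⟩ : ∃ r, r = (⌊(2 : ℝ) ^ lam * y.e⌋ : ℝ) / 2 ^ lam := ⟨_, rfl⟩
    rw [← hr] at c3 ⊢
    have e1 : (y.c + y.s * r) - (y'.c + y'.s * r) = Ae y.c y.s y'.c y'.s y'.e +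
        -((y.s - y'.s) * (y'.e - r)) := by unfold Ae; ring
    rw [e1]
    refine (abs_add_le _ _).trans ?_
    rw [abs_neg, abs_mul]
    have e2 := mul_le_mul h.f1 c3 (abs_nonneg _) (by positivity)
    have e3 : b * 2 ^ (W + lam) / 2 ^ k * (1 / 2 ^ lam) = b * 2 ^ W / 2 ^ k := by
      rw [pow_add]; field_simp
    rw [e3] at e2
    have e4 : b * 2 ^ W / 2 ^ k = b / 2 ^ (k - W) := by
      have : (2 : ℝ) ^ k = 2 ^ (k - W) * 2 ^ W := by
        rw [← pow_add]; congr 1; omega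
      rw [this]
      field_simp
    have h3 := h.f2
    rw [e4] at e2 h3
    have e5 : 2 * b / 2 ^ (k - W) = b / 2 ^ (k - W) + b / 2 ^ (k - W) := by ring
    rw [e5]
    exact add_le_add h3 e2

end Round

end Pool.KS6
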