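import Pool.Agent.H77.S6.FQ1
import Pool.Agent.H77.S6.FQ3

/-!
# Two planks through one truncated point: the common coarse plank
-/

set_option autoImplicit false

namespace Pool.KS6

open Finset Real
open Pool.Agent.H49.Ent Pool.Agent.H32.Dense Pool.STK Pool.KA Pool.KSAT Pool.K3 Pool.K2S

/-- The hypotheses: planks `z` of the samples, of thickness `1 / 2 ^ Pt`; two samples with the same
point at precision `1 / 2 ^ Qt` have the same slope, and the fans of these points are straight. -/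
structure FQH {J : ℕ} (F : Fam 3 J) (Qt Pt : ℕ) (i0 iu iN : Fin 3) (W lam P1 : ℕ) (C : ℝ)
    (z : F.Ω → Pln) : Prop where
  hQJ : Qt ≤ J
  hi : ∀ j : Fin 3, j = i0 ∨ j = iu ∨ j = iN
  hC : 1 ≤ C
  hI : ∀ ω, 0 < F.p ω → Inc i0 iu iN W lam Pt C (z ω) (F.t ω) (F.x ω) (F.d ω)
  he : ∀ ω ω', 0 < F.p ω → 0 < F.p ω' → ptq F Qt ω = ptq F Qt ω' →
    |(z ω).e - (z ω').e| ≤ 1 / 2 ^ lam
  hd : ∀ ω ω', 0 < F.p ω → 0 < F.p ω' → ptq F Qt ω = ptq F Qt ω' →
    |fu i0 iu (z ω').e (fun i => F.d ω i - F.d ω' i)| ≤ 6 / 2 ^ lam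
  h1 : W + lam ≤ P1
  h2 : P1 ≤ Pt
  h3 : Pt ≤ Qt

section FQ

variable {J : ℕ} {F : Fam 3 J} {Qt Pt : ℕ} {i0 iu iN : Fin 3} {W lam P1 : ℕ} {C : ℝ}
  {z : F.Ω → Pln}

/-- The window and the side information. -/
def vW (F : Fam 3 J) (W : ℕ) (ω : F.Ω) : ℕ × F.ζ := (F.T1 W ω, F.Z ω)

/-- The number of digits of agreement of the planks of a pair. -/
noncomputable def kq (F : Fam 3 J) (i0 iu iN : Fin 3) (W lam P1 : ℕ) (C : ℝ) (z : F.Ω → Pln)
    (w : F.Ω × F.Ω) : ℕ := k3 i0 iu iN W lam P1 (96 * C) (z w.1) (z w.2)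

/-- The frame cell of a plank at precision `k`. -/
noncomputable def fk (W lam k : ℕ) (y : Pln) : Fin 3 → ℤ := fcl lam (k - (W + lam)) (k - W) y

/-- The rounded plank of the first sample. -/
noncomputable def Rq (F : Fam 3 J) (i0 iu iN : Fin 3) (W lam : ℕ) (z : F.Ω → Pln)
    (k : F.Ω × F.Ω → ℕ) (Rp : ℕ → (Fin 3 → ℤ) → Pln) (w : F.Ω × F.Ω) :
    (Fin 3 → ℤ) × ((Fin 3 → ℤ) × (Fin 3 → ℤ)) :=
  (fk W lam (k w) (z w.1),
    (vc i0 iu iN W lam (k w) (Rp (k w) (fk W lam (k w) (z w.1)))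
      (fun i => bs (z w.1) ((F.T1 W w.1 : ℝ) / 2 ^ W) i),
     vc i0 iu iN W lam (k w) (Rp (k w) (fk W lam (k w) (z w.1)))
      (fun i => (z w.1).db i / 2 ^ W)))

/-- Representatives of the frame cells. -/
def IsRep (F : Fam 3 J) (W lam : ℕ) (z : F.Ω → Pln) (Rp : ℕ → (Fin 3 → ℤ) → Pln) : Prop :=
  ∀ k ω, 0 < F.p ω → ∃ ω', 0 < F.p ω' ∧ Rp k (fk W lam k (z ω)) = z ω' ∧
    fk W lam k (z ω') = fk W lam k (z ω)

lemma exists_rep (F : Fam 3 J) (W lam : ℕ) (z : F.Ω → Pln) : ∃ Rp, IsRep F W lam z Rp := by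
  classical
  refine ⟨fun k f => if h : ∃ ω, 0 < F.p ω ∧ fk W lam k (z ω) = f then z h.choose else default,
    fun k ω hω => ?_⟩
  have h : ∃ ω', 0 < F.p ω' ∧ fk W lam k (z ω') = fk W lam k (z ω) := ⟨ω, hω, rfl⟩
  refine ⟨h.choose, h.choose_spec.1, ?_, h.choose_spec.2⟩
  simp only [dif_pos h]

lemma dblq_pos {w : F.Ω × F.Ω} (hw : 0 < dbl F.p (ptq F Qt) w) :
    0 < F.p w.1 ∧ 0 < F.p w.2 ∧ ptq F Qt w.1 = ptq F Qt w.2 ∧
      (∀ i, |F.x w.1 i - F.x w.2 i| ≤ 1 / 2 ^ Qt) ∧ F.T w.1 = F.T w.2 ∧ F.Z w.1 = F.Z w.2 := by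
  have h0 := F.isLaw.nonneg
  obtain ⟨a1, a2, a3⟩ := (glue_pos_iff h0 h0 w).mp hw
  refine ⟨a1, a2, a3, ?_, ?_, ?_⟩
  · intro i
    have h1 : F.X Qt w.1 = F.X Qt w.2 := (Prod.ext_iff.mp a3).1
    have h2 : ⌊(2 : ℝ) ^ Qt * F.x w.1 i⌋ = ⌊(2 : ℝ) ^ Qt * F.x w.2 i⌋ := congrFun h1 i
    exact floor_close h2
  · have h1 : F.W w.1 = F.W w.2 := (Prod.ext_iff.mp a3).2
    exact (Prod.ext_iff.mp h1).1
  · have h1 : F.W w.1 = F.W w.2 := (Prod.ext_iff.mp a3).2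
    exact (Prod.ext_iff.mp h1).2

lemma t_eq_of {ω ω' : F.Ω} (h : F.T ω = F.T ω') : F.t ω = F.t ω' := by
  unfold Fam.t
  rw [h]

/-- The pair at the level of agreement. -/
lemma pair_k (H : FQH F Qt Pt i0 iu iN W lam P1 C z) {w : F.Ω × F.Ω}
    (hw : 0 < dbl F.p (ptq F Qt) w) :
    W ≤ kq F i0 iu iN W lam P1 C z w ∧ kq F i0 iu iN W lam P1 C z w ≤ P1 ∧
    d3 i0 iu iN W lam (z w.1) (z w.2) ≤ 96 * C / 2 ^ kq F i0 iu iN W lam P1 C z w ∧
    FC W lam (kq F i0 iu iN W lam P1 C z w) (96 * C) (z w.1) (z w.2) ∧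
    Gz i0 iu iN W lam (kq F i0 iu iN W lam P1 C z w) (z w.2)
      ((1 + 2 * (96 * C + (96 * C) ^ 2)) * C + 9 + C)
      (fun i => bs (z w.1) (F.t w.1) i - bs (z w.2) (F.t w.1) i) ∧
    Gz i0 iu iN W lam (kq F i0 iu iN W lam P1 C z w) (z w.2) (3 * C + 6 + 96 * C + 2)
      (fun i => ((z w.1).db i - (z w.2).db i) / 2 ^ W) := by
  obtain ⟨p1, p2, hX, hx, hT, -⟩ := dblq_pos hw
  have hC := H.hC
  have I1 := H.hI _ p1
  have I2 := H.hI _ p2
  have ht := t_eq_of hT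
  rw [← ht] at I2
  have hWP : W ≤ P1 := by have := H.h1; omega
  have hWQ : W ≤ Pt := hWP.trans H.h2
  have h1 := d3_le hC hWQ I1 I2 (F.dir _) (F.dir _)
  obtain ⟨h2, h3⟩ := d3_le_k3 hWP h1
  have h4 : kq F i0 iu iN W lam P1 C z w ≤ P1 := k3_le
  have he := H.he _ _ p1 p2 hX
  have hd := H.hd _ _ p1 p2 hX
  have hK : 1 ≤ 96 * C := by linarith
  obtain ⟨g1, g2⟩ := pair_bs (k := kq F i0 iu iN W lam P1 C z w) hC hK I1 I2 (F.dir _) (F.dir _)
    hx he hd h2 (h4.trans H.h2) (h4.trans (H.h2.trans H.h3)) (H.h1.trans (H.h2.trans H.h3))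
  exact ⟨h3, h4, h2, FC_of_d3 hK he h2, g1, g2⟩

/-- Moving a difference of planks in time. -/
lemma move_bs {k : ℕ} {y y' r : Pln} {a b t t1 : ℝ}
    (h1 : Gz i0 iu iN W lam k r a (fun i => bs y t i - bs y' t i))
    (h2 : Gz i0 iu iN W lam k r b (fun i => (y.db i - y'.db i) / 2 ^ W))
    (ht : |(t - t1) * 2 ^ W| ≤ 1) :
    Gz i0 iu iN W lam k r (a + b) (fun i => bs y t1 i - bs y' t1 i) := by
  have h3 := h1.add (h2.smul (r := -((t - t1) * 2 ^ W)) (by rw [abs_neg]; exact ht))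
  have e1 : (fun i => bs y t i - bs y' t i + -((t - t1) * 2 ^ W) * ((y.db i - y'.db i) / 2 ^ W)) =
      fun i => bs y t1 i - bs y' t1 i := by
    funext i
    unfold bs
    have : (2 : ℝ) ^ W ≠ 0 := by positivity
    field_simp
    ring
  rw [e1] at h3
  exact h3

lemma win_le (hWJ : W ≤ J) (ω : F.Ω) : |(F.t ω - (F.T1 W ω : ℝ) / 2 ^ W) * 2 ^ W| ≤ 1 := by
  have hp : (0 : ℝ) < 2 ^ W := by positivity
  have a1 := T1_real F hWJ ω
  have e1 : (F.t ω - (F.T1 W ω : ℝ) / 2 ^ W) * 2 ^ W = F.t ω * 2 ^ W - F.T1 W ω := by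
    field_simp
  rw [e1, abs_le]
  constructor <;> nlinarith [a1.1, a1.2]

/-- The rounded plank is a function of the first plank. -/
lemma Rq_det (Rp : ℕ → (Fin 3 → ℤ) → Pln) :
    Det (dbl F.p (ptq F Qt)) (fun w => (z w.1, (vW F W w.1, kq F i0 iu iN W lam P1 C z w)))
      (Rq F i0 iu iN W lam z (kq F i0 iu iN W lam P1 C z) Rp) := by
  intro w w' _ _ h
  simp only [Prod.mk.injEq, vW] at h
  obtain ⟨h1, ⟨h2, -⟩, h3⟩ := h
  unfold Rq
  rw [h1, h2, h3]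

/-- Constants. -/
noncomputable def cb (C : ℝ) : ℝ :=
  96 * C + (96 * C + (96 * C) ^ 2) + 96 * C * (96 * C + (96 * C) ^ 2)

noncomputable def cB (C : ℝ) : ℝ :=
  (1 + 2 * (2 + 96 * C + 2 * (96 * C))) *
    ((((1 + 2 * (96 * C + (96 * C) ^ 2)) * C + 9 + C) + (3 * C + 6 + 96 * C + 2)) +
      (((1 + 2 * (96 * C + (96 * C) ^ 2)) * C + 9 + C) + (3 * C + 6 + 96 * C + 2)))

noncomputable def cRq (C : ℝ) : ℝ :=
  3 * Real.log (2 * (2 * cb C + 9) + 1) + 6 * Real.log (2 * (cB C + 1) + 1)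

lemma cRq_nonneg (hC : 1 ≤ C) : 0 ≤ cRq C := by
  have h1 : 0 ≤ cb C := by unfold cb; positivity
  have h2 : 0 ≤ cB C := by unfold cB; positivity
  unfold cRq
  have h3 : 0 ≤ Real.log (2 * (2 * cb C + 9) + 1) := Real.log_nonneg (by linarith)
  have h4 : 0 ≤ Real.log (2 * (cB C + 1) + 1) := Real.log_nonneg (by linarith)
  positivity

/-- Given the second plank, the rounded plank has few values. -/
theorem Rq_le (H : FQH F Qt Pt i0 iu iN W lam P1 C z) {Rp : ℕ → (Fin 3 → ℤ) → Pln}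
    (hRp : IsRep F W lam z Rp) :
    CH (dbl F.p (ptq F Qt)) (Rq F i0 iu iN W lam z (kq F i0 iu iN W lam P1 C z) Rp)
      (fun w => (z w.2, (vW F W w.1, kq F i0 iu iN W lam P1 C z w))) ≤ cRq C := by
  classical
  have hp0 := F.isLaw.nonneg
  have hC := H.hC
  have hC0 : 0 ≤ C := by linarith
  obtain ⟨q, hq⟩ : ∃ q, q = dbl F.p (ptq F Qt) := ⟨_, rfl⟩
  have hq0 : ∀ w, 0 ≤ q w := by rw [hq]; exact fun w => glue_nonneg hp0 hp0 w
  have m1 : Marg q F.p (fun w => w.1) := by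
    rw [hq]
    intro ω
    rw [Fintype.sum_prod_type, Finset.sum_eq_single ω]
    · simp only [if_true]
      exact glue_fst hp0 (fun _ => rfl) ω
    · intro b _ hb; simp [hb]
    · intro h; exact absurd (Finset.mem_univ _) h
  have hql : IsLaw q := ⟨hq0, by rw [m1.sum]; exact F.isLaw.sum_one⟩
  rw [← hq]
  have hWJ : W ≤ J := by
    have h1 := H.h1
    have h2 := H.h2
    have h3 := H.h3
    have h4 := H.hQJ
    omega
  obtain ⟨kk, hkk⟩ : ∃ kk, kk = kq F i0 iu iN W lam P1 C z := ⟨_, rfl⟩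
  rw [← hkk]
  obtain ⟨K, hK⟩ : ∃ K, K = 96 * C := ⟨_, rfl⟩
  have hK0 : 0 ≤ K := by rw [hK]; positivity
  obtain ⟨A1, hA1⟩ : ∃ A1, A1 = (1 + 2 * (K + K ^ 2)) * C + 9 + C := ⟨_, rfl⟩
  obtain ⟨A2, hA2⟩ : ∃ A2, A2 = 3 * C + 6 + K + 2 := ⟨_, rfl⟩
  have hA10 : 0 ≤ A1 := by rw [hA1]; positivity
  have hA20 : 0 ≤ A2 := by rw [hA2]; positivity
  have hcB : cB C = (1 + 2 * (2 + K + 2 * K)) * ((A1 + A2) + (A1 + A2)) := by
    unfold cB; rw [hA1, hA2, hK]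
  have hcb : cb C = K + (K + K ^ 2) + K * (K + K ^ 2) := by unfold cb; rw [hK]
  -- two samples with the same second plank
  have key : ∀ w w', 0 < q w → 0 < q w' → z w.2 = z w'.2 → vW F W w.1 = vW F W w'.1 →
      kk w = kk w' → W ≤ kk w ∧ FC W lam (kk w) (cb C) (z w.1) (z w'.1) ∧
      FC W lam (kk w) K (z w.1) (z w.2) ∧
      Gz i0 iu iN W lam (kk w) (z w.2) ((A1 + A2) + (A1 + A2))
        (fun i => bs (z w.1) ((F.T1 W w.1 : ℝ) / 2 ^ W) i -
          bs (z w'.1) ((F.T1 W w'.1 : ℝ) / 2 ^ W) i) ∧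
      Gz i0 iu iN W lam (kk w) (z w.2) ((A1 + A2) + (A1 + A2))
        (fun i => (z w.1).db i / 2 ^ W - (z w'.1).db i / 2 ^ W) := by
    intro w w' hw hw' hz hv hk
    rw [hq] at hw hw'
    obtain ⟨a1, a2, a3, a4, a5, a6⟩ := pair_k H hw
    obtain ⟨b1, b2, b3, b4, b5, b6⟩ := pair_k H hw'
    rw [← hkk, ← hK] at a4 a5 a6 b4 b5 b6
    rw [← hkk] at a1
    rw [← hk, ← hz] at b4 b5 b6
    rw [← hA1] at a5 b5
    rw [← hA2] at a6 b6
    have ht1 : F.T1 W w.1 = F.T1 W w'.1 := (Prod.ext_iff.mp hv).1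
    have c1 := move_bs a5 a6 (win_le hWJ w.1)
    have c2 := move_bs b5 b6 (win_le hWJ w'.1)
    rw [← ht1] at c2
    have c3 := c1.add c2.neg
    have c4 := a6.add b6.neg
    refine ⟨a1, ?_, a4, ?_, ?_⟩
    · rw [hcb]
      exact a4.trans b4.symm
    · rw [← ht1]
      refine c3.mono le_rfl |> fun h => ?_
      have e1 : (fun i => bs (z w.1) ((F.T1 W w.1 : ℝ) / 2 ^ W) i -
          bs (z w.2) ((F.T1 W w.1 : ℝ) / 2 ^ W) i +
          -(bs (z w'.1) ((F.T1 W w.1 : ℝ) / 2 ^ W) i -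
          bs (z w.2) ((F.T1 W w.1 : ℝ) / 2 ^ W) i)) =
          fun i => bs (z w.1) ((F.T1 W w.1 : ℝ) / 2 ^ W) i -
          bs (z w'.1) ((F.T1 W w.1 : ℝ) / 2 ^ W) i := by
        funext i; ring
      rw [e1] at h
      exact h
    · have e1 : (fun i => ((z w.1).db i - (z w.2).db i) / 2 ^ W +
          -(((z w'.1).db i - (z w.2).db i) / 2 ^ W)) =
          fun i => (z w.1).db i / 2 ^ W - (z w'.1).db i / 2 ^ W := by
        funext i; ring
      rw [e1] at c4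
      exact c4.mono (by linarith)
  obtain ⟨Y, hY⟩ : ∃ Y : F.Ω × F.Ω → Pln × ((ℕ × F.ζ) × ℕ), Y = fun w =>
    (z w.2, (vW F W w.1, kk w)) := ⟨_, rfl⟩
  rw [← hY]
  have hYe : ∀ w w', Y w = Y w' → z w.2 = z w'.2 ∧ vW F W w.1 = vW F W w'.1 ∧ kk w = kk w' := by
    intro w w' h
    simp only [hY, Prod.mk.injEq] at h
    exact ⟨h.1, h.2.1, h.2.2⟩
  -- frames
  have f1 : CH q (fun w => fk W lam (kk w) (z w.1)) Y ≤
      3 * Real.log (2 * (2 * cb C + 9) + 1) := by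
    have h := CH_le_seq hql Y (fun w => fk W lam (kk w) (z w.1)) (fun _ _ => 2 * cb C + 9) (by
      intro i w w' hw hw' hh hj
      obtain ⟨y1, y2, y3⟩ := hYe w w' hh
      obtain ⟨g1, g2, -⟩ := key w w' hw hw' y1 y2 y3
      have p1 : 0 < F.p w.1 := m1.pos hq0 hw
      have p2 : 0 < F.p w'.1 := m1.pos hq0 hw'
      rw [← y3] at hj ⊢
      exact fcl_near g1 g2 (H.hI _ p1).s_le (H.hI _ p2).s_le i hj)
    refine h.trans (le_of_eq ?_)
    simp only [Ex_const hql.sum_one]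
    norm_num
  -- the base point and the base velocity
  obtain ⟨X2, hX2⟩ : ∃ X2 : F.Ω × F.Ω → Fin 6 → ℤ, X2 = fun w => Fin.append
      (vc i0 iu iN W lam (kk w) (Rp (kk w) (fk W lam (kk w) (z w.1)))
        (fun i => bs (z w.1) ((F.T1 W w.1 : ℝ) / 2 ^ W) i))
      (vc i0 iu iN W lam (kk w) (Rp (kk w) (fk W lam (kk w) (z w.1)))
        (fun i => (z w.1).db i / 2 ^ W)) := ⟨_, rfl⟩
  have f2 : CH q X2 (fun w => (fk W lam (kk w) (z w.1), Y w)) ≤
      6 * Real.log (2 * (cB C + 1) + 1) := by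
    have h := CH_le_vec hq0 hql.sum_one X2 (fun w => (fk W lam (kk w) (z w.1), Y w))
      (fun _ => cB C + 1) (by
        intro w w' hw hw' hh j
        obtain ⟨hf, hh2⟩ := Prod.ext_iff.mp hh
        obtain ⟨y1, y2, y3⟩ := hYe w w' hh2
        obtain ⟨g1, g2, g3, g4, g5⟩ := key w w' hw hw' y1 y2 y3
        have p1 : 0 < F.p w.1 := m1.pos hq0 hw
        have hf' : fk W lam (kk w) (z w.1) = fk W lam (kk w) (z w'.1) := by
          have : fk W lam (kk w) (z w.1) = fk W lam (kk w') (z w'.1) := hf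
          rw [this, y3]
        obtain ⟨ω', r1, r2, r3⟩ := hRp (kk w) w.1 p1
        have hrf : FC W lam (kk w) 2 (z ω') (z w.1) := fcl_FC r3.symm
        have hrf2 := hrf.trans g3
        have e4 := g4.change hrf2
        have e5 := g5.change hrf2
        rw [← hcB] at e4 e5
        have hlem : ∀ v v' : Fin 3 → ℝ, Gz i0 iu iN W lam (kk w) (z ω') (cB C)
            (fun i => v i - v' i) → ∀ j : Fin 3,
            |((vc i0 iu iN W lam (kk w) (z ω') v j - vc i0 iu iN W lam (kk w) (z ω') v' j : ℤ) :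
              ℝ)| ≤ cB C + 1 := fun v v' h j => vc_near h j
        rw [hX2]
        simp only
        rw [← y3, ← hf', r2]
        refine Fin.addCases (m := 3) (n := 3) (fun j' => ?_) (fun j' => ?_) j
        · rw [Fin.append_left, Fin.append_left]
          exact hlem _ _ e4 j'
        · rw [Fin.append_right, Fin.append_right]
          exact hlem _ _ e5 j')
    refine h.trans (le_of_eq ?_)
    rw [Ex_const hql.sum_one]
    norm_num
  have f3 : CH q (Rq F i0 iu iN W lam z kk Rp) Y ≤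
      CH q (fun w => (X2 w, fk W lam (kk w) (z w.1))) Y := by
    refine CH_mono_left hq0 fun w w' _ _ h => ?_
    simp only [Prod.mk.injEq] at h
    obtain ⟨⟨h1, h2⟩, -⟩ := h
    rw [hX2] at h1
    simp only at h1
    have h3 : ∀ j : Fin 3, vc i0 iu iN W lam (kk w) (Rp (kk w) (fk W lam (kk w) (z w.1)))
        (fun i => bs (z w.1) ((F.T1 W w.1 : ℝ) / 2 ^ W) i) j =
        vc i0 iu iN W lam (kk w') (Rp (kk w') (fk W lam (kk w') (z w'.1)))
        (fun i => bs (z w'.1) ((F.T1 W w'.1 : ℝ) / 2 ^ W) i) j := by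
      intro j
      have := congrFun h1 (Fin.castAdd 3 j)
      rw [Fin.append_left, Fin.append_left] at this
      exact this
    have h4 : ∀ j : Fin 3, vc i0 iu iN W lam (kk w) (Rp (kk w) (fk W lam (kk w) (z w.1)))
        (fun i => (z w.1).db i / 2 ^ W) j =
        vc i0 iu iN W lam (kk w') (Rp (kk w') (fk W lam (kk w') (z w'.1)))
        (fun i => (z w'.1).db i / 2 ^ W) j := by
      intro j
      have := congrFun h1 (Fin.natAdd 3 j)
      rw [Fin.append_right, Fin.append_right] at this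
      exact this
    unfold Rq
    rw [h2]
    rw [h2] at h3 h4
    rw [funext h3, funext h4]
  have f4 := CH_chain hq0 X2 (fun w => fk W lam (kk w) (z w.1)) Y
  rw [f4] at f3
  unfold cRq
  linarith

end FQ

end Pool.KS6
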