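import Pool.Agent.H77.S6.FQ4
import Pool.Agent.H7.KSAT.SL

/-!
# The point given the common coarse plank
-/

set_option autoImplicit false

namespace Pool.KS6

open Finset Real
open Pool.Agent.H49.Ent Pool.Agent.H32.Dense Pool.STK Pool.KA Pool.KSAT Pool.K3 Pool.K2S

/-- The law of two samples of one truncated point, and its marginals. -/
lemma dblq_law {J : ℕ} (F : Fam 3 J) (Qt : ℕ) :
    IsLaw (dbl F.p (ptq F Qt)) ∧ Marg (dbl F.p (ptq F Qt)) F.p (fun w => w.1) ∧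
      Marg (dbl F.p (ptq F Qt)) F.p (fun w => w.2) := by
  have hp0 := F.isLaw.nonneg
  have hq0 : ∀ w, 0 ≤ dbl F.p (ptq F Qt) w := fun w => glue_nonneg hp0 hp0 w
  have m1 : Marg (dbl F.p (ptq F Qt)) F.p (fun w => w.1) := by
    intro ω
    rw [Fintype.sum_prod_type, Finset.sum_eq_single ω]
    · simp only [if_true]
      exact glue_fst hp0 (fun _ => rfl) ω
    · intro b _ hb; simp [hb]
    · intro h; exact absurd (Finset.mem_univ _) h
  have m2 : Marg (dbl F.p (ptq F Qt)) F.p (fun w => w.2) := by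
    intro ω
    rw [Fintype.sum_prod_type, Finset.sum_comm, Finset.sum_eq_single ω]
    · simp only [if_true]
      exact glue_snd hp0 (fun _ => rfl) ω
    · intro b _ hb; simp [hb]
    · intro h; exact absurd (Finset.mem_univ _) h
  exact ⟨⟨hq0, by rw [m1.sum]; exact F.isLaw.sum_one⟩, m1, m2⟩

/-- The time given the window. -/
lemma CH_time_le {J W : ℕ} {Ω V : Type} [Fintype Ω] {p : Ω → ℝ} (hp : IsLaw p) (T : Ω → ℕ)
    (Y : Ω → V) (hWJ : W ≤ J)
    (hY : Det p Y (fun ω => T ω / 2 ^ (J - W))) :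
    CH p T Y ≤ ((J : ℝ) - W) * Real.log 2 := by
  have h1 : CH p T Y ≤ CH p T (fun ω => T ω / 2 ^ (J - W)) :=
    CH_mono_cond hp.nonneg fun ω ω' h h' hh => hY ω ω' h h' hh
  refine h1.trans ?_
  refine (CH_le_card hp.nonneg hp.sum_one T _
    (fun v => Finset.Ico (v * 2 ^ (J - W)) ((v + 1) * 2 ^ (J - W))) ?_).trans ?_
  · intro ω _
    rw [Finset.mem_Ico]
    constructor
    · exact Nat.div_mul_le_self _ _
    · rw [← Nat.div_lt_iff_lt_mul (by positivity)]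
      exact Nat.lt_succ_self _
  · refine le_of_eq ?_
    have : ∀ v : ℕ, (Finset.Ico (v * 2 ^ (J - W)) ((v + 1) * 2 ^ (J - W))).card =
        2 ^ (J - W) := by
      intro v
      rw [Nat.card_Ico, add_mul, one_mul, Nat.add_sub_cancel_left]
    simp only [this]
    push_cast
    rw [Ex_const hp.sum_one, Real.log_pow, Nat.cast_sub hWJ]

section FQ

variable {J : ℕ} {F : Fam 3 J} {Qt Pt : ℕ} {i0 iu iN : Fin 3} {W lam P1 : ℕ} {C : ℝ}
  {z : F.Ω → Pln}

/-- The point at precision `P1`, given the common coarse plank and the time. -/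
lemma P1_le (H : FQH F Qt Pt i0 iu iN W lam P1 C z) {Rp : ℕ → (Fin 3 → ℤ) → Pln}
    (hRp : IsRep F W lam z Rp) :
    CH (dbl F.p (ptq F Qt)) (fun w => F.X P1 w.1)
      (fun w => (F.T w.1, (vW F W w.1, (kq F i0 iu iN W lam P1 C z w,
        Rq F i0 iu iN W lam z (kq F i0 iu iN W lam P1 C z) Rp w)))) ≤
      (((P1 : ℝ) - W) + ((P1 : ℝ) - (W + lam : ℕ))) * Real.log 2 +
      Ex (dbl F.p (ptq F Qt)) (fun w => (P1 : ℝ) - kq F i0 iu iN W lam P1 C z w) * Real.log 2 +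
      3 * Real.log (2 * (10 * C + 11) + 1) := by
  classical
  obtain ⟨hql, m1, m2⟩ := dblq_law F Qt
  have hq0 := hql.nonneg
  have hC := H.hC
  have hC0 : 0 ≤ C := by linarith
  have hWJ : W ≤ J := by
    have h1 := H.h1
    have h2 := H.h2
    have h3 := H.h3
    have h4 := H.hQJ
    omega
  obtain ⟨q, hq⟩ : ∃ q, q = dbl F.p (ptq F Qt) := ⟨_, rfl⟩
  obtain ⟨kk, hkk⟩ : ∃ kk, kk = kq F i0 iu iN W lam P1 C z := ⟨_, rfl⟩
  rw [← hkk]
  rw [← hq] at hql m1 m2 hq0 ⊢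
  obtain ⟨Y, hY⟩ : ∃ Y : F.Ω × F.Ω → ℕ × ((ℕ × F.ζ) × (ℕ × ((Fin 3 → ℤ) ×
      ((Fin 3 → ℤ) × (Fin 3 → ℤ))))), Y = fun w =>
    (F.T w.1, (vW F W w.1, (kk w, Rq F i0 iu iN W lam z kk Rp w))) := ⟨_, rfl⟩
  rw [← hY]
  obtain ⟨X2, hX2⟩ : ∃ X2 : F.Ω × F.Ω → Fin 3 → ℤ, X2 = fun w =>
    ![⌊(2 : ℝ) ^ P1 * F.x w.1 i0⌋, ⌊(2 : ℝ) ^ P1 * F.x w.1 iu⌋, ⌊(2 : ℝ) ^ P1 * F.x w.1 iN⌋] :=
    ⟨_, rfl⟩
  have hXY : CH q (fun w => F.X P1 w.1) Y ≤ CH q X2 Y := by
    refine CH_mono_left hq0 fun w w' _ _ hh => ?_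
    have hh1 := (Prod.ext_iff.mp hh).1
    rw [hX2] at hh1
    funext j
    rcases H.hi j with rfl | rfl | rfl
    · exact congrFun hh1 0
    · exact congrFun hh1 1
    · exact congrFun hh1 2
  obtain ⟨a, ha⟩ : ∃ a : Fin 3 → F.Ω × F.Ω → ℕ, a = fun i w =>
    ![P1 - W, P1 - (W + lam), P1 - kk w] i := ⟨_, rfl⟩
  have hcount := CH_le_pow hql Y X2 (fun _ => 10 * C + 11) a (fun _ => by positivity) (by
    intro i w w' hw hw' hYY hlt
    have p1 : 0 < F.p w.1 := m1.pos hq0 hw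
    have p1' : 0 < F.p w'.1 := m1.pos hq0 hw'
    have hh := hYY
    simp only [hY, Prod.mk.injEq] at hh
    obtain ⟨hT, hv, hk, hR⟩ := hh
    have ht := t_eq_of hT
    have hT1 : F.T1 W w.1 = F.T1 W w'.1 := (Prod.ext_iff.mp hv).1
    unfold Rq at hR
    simp only [Prod.mk.injEq] at hR
    obtain ⟨r1, r2, r3⟩ := hR
    rw [← hk] at r1 r2 r3
    rw [← r1] at r2 r3
    rw [← hT1] at r2
    obtain ⟨ω', s1, s2, s3⟩ := hRp (kk w) w.1 p1
    rw [s2] at r2 r3
    have g1 := vc_same r2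
    have g2 := vc_same r3
    have hk4 : kk w ≤ P1 := by rw [hkk]; exact k3_le
    have hkQ : kk w ≤ Pt := hk4.trans H.h2
    have hrf : FC W lam (kk w) 2 (z ω') (z w.1) := fcl_FC s3.symm
    have hrf' : FC W lam (kk w) 2 (z ω') (z w'.1) := by
      refine fcl_FC ?_
      exact (s3.trans r1).symm
    -- the base points at the time
    have e1 : (fun i => (z w.1).db i / 2 ^ W - (z w'.1).db i / 2 ^ W) =
        fun i => ((z w.1).db i - (z w'.1).db i) / 2 ^ W := by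
      funext i; ring
    rw [e1] at g2
    have g3 := move_bs (t1 := F.t w.1) g1 g2 (by
      have h := win_le hWJ w.1
      rw [← abs_neg]
      refine le_trans (le_of_eq ?_) h
      congr 1
      ring)
    -- the points in the planks
    have g4 := ((H.hI _ p1).gz (k := kk w) hC0 hkQ).1.change hrf
    have g5 := ((H.hI _ p1').gz (k := kk w) hC0 hkQ).1.change hrf'
    rw [← ht] at g5
    have g6 := (g4.add g3).add g5.neg
    have e2 : (fun i => F.x w.1 i - bs (z w.1) (F.t w.1) i +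
        (bs (z w.1) (F.t w.1) i - bs (z w'.1) (F.t w.1) i) +
        -(F.x w'.1 i - bs (z w'.1) (F.t w.1) i)) = fun i => F.x w.1 i - F.x w'.1 i := by
      funext i; ring
    rw [e2] at g6
    have g7 : Gz i0 iu iN W lam (kk w) (z ω') (10 * C + 2) (fun i => F.x w.1 i - F.x w'.1 i) :=
      g6.mono (by linarith)
    have I1 := H.hI _ s1
    obtain ⟨c0, c1, c2⟩ := g7.coord I1.e_le I1.c_le I1.s_le
    have hWP1 : W ≤ P1 := by have := H.h1; omega
    have hWlP1 : W + lam ≤ P1 := H.h1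
    fin_cases i
    · change |(((X2 w) 0 - (X2 w') 0 : ℤ) : ℝ)| ≤ (10 * C + 11) * 2 ^ (a 0 w)
      simp only [hX2, ha, Matrix.cons_val_zero]
      refine (cell_le c0).trans ((cells hWP1 le_rfl).trans ?_)
      refine mul_le_mul_of_nonneg_right (by linarith) (by positivity)
    · change |(((X2 w) 1 - (X2 w') 1 : ℤ) : ℝ)| ≤ (10 * C + 11) * 2 ^ (a 1 w)
      have g0 := hlt 0 (by decide)
      simp only [hX2, Matrix.cons_val_zero] at g0
      have g1 := cell_eq g0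
      simp only [hX2, ha, Matrix.cons_val_one]
      have hle : (1 : ℝ) / 2 ^ P1 ≤ 1 / 2 ^ (W + lam) :=
        one_div_le_one_div_of_le (by positivity) (pow_le_pow_right₀ (by norm_num) hWlP1)
      have c1' : |F.x w.1 iu - F.x w'.1 iu| ≤ (10 * C + 4) / 2 ^ (W + lam) := by
        have e3 : (10 * C + 4) / 2 ^ (W + lam) = (10 * C + 2) / 2 ^ (W + lam) +
            2 * (1 / 2 ^ (W + lam)) := by ring
        rw [e3]
        linarith
      refine (cell_le c1').trans ((cells hWlP1 le_rfl).trans ?_)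
      refine mul_le_mul_of_nonneg_right (by linarith) (by positivity)
    · change |(((X2 w) 2 - (X2 w') 2 : ℤ) : ℝ)| ≤ (10 * C + 11) * 2 ^ (a 2 w)
      have g0 := hlt 0 (by decide)
      have g0' := hlt 1 (by decide)
      simp only [hX2, Matrix.cons_val_zero] at g0
      simp only [hX2, Matrix.cons_val_one] at g0'
      have g1 := cell_eq g0
      have g1' := cell_eq g0'
      simp only [hX2, ha, Matrix.cons_val]
      have hle : (1 : ℝ) / 2 ^ P1 ≤ 1 / 2 ^ kk w :=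
        one_div_le_one_div_of_le (by positivity) (pow_le_pow_right₀ (by norm_num) hk4)
      have c2' : |F.x w.1 iN - F.x w'.1 iN| ≤ (10 * C + 10) / 2 ^ kk w := by
        have e3 : (10 * C + 10) / 2 ^ kk w = (10 * C + 2) / 2 ^ kk w +
            8 * (1 / 2 ^ kk w) := by ring
        rw [e3]
        linarith
      refine (cell_le c2').trans ((cells hk4 le_rfl).trans ?_)
      refine mul_le_mul_of_nonneg_right (by linarith) (by positivity))
  refine hXY.trans (hcount.trans (le_of_eq ?_))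
  have e3 : ∀ w, ((∑ i, a i w : ℕ) : ℝ) = (((P1 : ℝ) - W) + ((P1 : ℝ) - (W + lam : ℕ))) +
      ((P1 : ℝ) - kk w) := by
    intro w
    have hk4 : kk w ≤ P1 := by rw [hkk]; exact k3_le
    have hWP1 : W ≤ P1 := by have := H.h1; omega
    have hWlP1 : W + lam ≤ P1 := H.h1
    rw [ha, Fin.sum_univ_three]
    simp only [Matrix.cons_val_zero, Matrix.cons_val_one, Matrix.cons_val]
    push_cast [Nat.cast_sub hk4, Nat.cast_sub hWP1, Nat.cast_sub hWlP1]
    ring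
  simp only [e3]
  rw [Ex_add, Ex_const hql.sum_one]
  rw [Fin.sum_univ_three]
  ring

/-- **The point given the common coarse plank.** -/
theorem Pt_le (H : FQH F Qt Pt i0 iu iN W lam P1 C z) {Rp : ℕ → (Fin 3 → ℤ) → Pln}
    (hRp : IsRep F W lam z Rp) {ρ : ℝ}
    (hρ : CH F.p (F.X Qt) (fun ω => (F.X P1 ω, F.W ω)) ≤ ρ) :
    CH (dbl F.p (ptq F Qt)) (fun w => ptq F Qt w.1)
      (fun w => (vW F W w.1, (kq F i0 iu iN W lam P1 C z w,
        Rq F i0 iu iN W lam z (kq F i0 iu iN W lam P1 C z) Rp w))) ≤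
      (((J : ℝ) - W) + ((P1 : ℝ) - W) + ((P1 : ℝ) - (W + lam : ℕ))) * Real.log 2 +
      Ex (dbl F.p (ptq F Qt)) (fun w => (P1 : ℝ) - kq F i0 iu iN W lam P1 C z w) * Real.log 2 +
      ρ + 3 * Real.log (2 * (10 * C + 11) + 1) := by
  obtain ⟨hql, m1, m2⟩ := dblq_law F Qt
  have hq0 := hql.nonneg
  have hWJ : W ≤ J := by
    have h1 := H.h1
    have h2 := H.h2
    have h3 := H.h3
    have h4 := H.hQJ
    omega
  have hP := P1_le H hRp
  obtain ⟨q, hq⟩ : ∃ q, q = dbl F.p (ptq F Qt) := ⟨_, rfl⟩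
  rw [← hq] at hql m1 m2 hq0 hP ⊢
  obtain ⟨Y, hY⟩ : ∃ Y : F.Ω × F.Ω → (ℕ × F.ζ) × (ℕ × ((Fin 3 → ℤ) ×
      ((Fin 3 → ℤ) × (Fin 3 → ℤ)))), Y = fun w =>
    (vW F W w.1, (kq F i0 iu iN W lam P1 C z w,
      Rq F i0 iu iN W lam z (kq F i0 iu iN W lam P1 C z) Rp w)) := ⟨_, rfl⟩
  have hYv : ∀ w w', Y w = Y w' → vW F W w.1 = vW F W w'.1 := by
    intro w w' h
    simp only [hY, Prod.mk.injEq] at h
    exact h.1
  rw [← hY]
  have hP' : CH q (fun w => F.X P1 w.1) (fun w => (F.T w.1, Y w)) ≤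
      (((P1 : ℝ) - W) + ((P1 : ℝ) - (W + lam : ℕ))) * Real.log 2 +
      Ex q (fun w => (P1 : ℝ) - kq F i0 iu iN W lam P1 C z w) * Real.log 2 +
      3 * Real.log (2 * (10 * C + 11) + 1) := by
    rw [hY]
    exact hP
  -- decomposition
  have c1 : CH q (fun w => ptq F Qt w.1) Y ≤
      CH q (fun w => (F.X Qt w.1, (F.X P1 w.1, F.T w.1))) Y := by
    refine CH_mono_left hq0 fun w w' _ _ h => ?_
    simp only [Prod.mk.injEq] at h
    obtain ⟨⟨h1, -, h3⟩, h4⟩ := h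
    have h5 := hYv w w' h4
    have h6 : F.Z w.1 = F.Z w'.1 := (Prod.ext_iff.mp h5).2
    exact Prod.ext h1 (Prod.ext h3 h6)
  have c2 := CH_chain hq0 (fun w : F.Ω × F.Ω => F.X Qt w.1) (fun w => (F.X P1 w.1, F.T w.1)) Y
  have c3 := CH_chain hq0 (fun w : F.Ω × F.Ω => F.X P1 w.1) (fun w => F.T w.1) Y
  have d1 : CH q (fun w => F.T w.1) Y ≤ ((J : ℝ) - W) * Real.log 2 := by
    refine CH_time_le hql (fun w => F.T w.1) Y hWJ ?_
    intro w w' _ _ h
    have h5 := hYv w w' h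
    exact (Prod.ext_iff.mp h5).1
  have d2 : CH q (fun w => F.X Qt w.1) (fun w => ((F.X P1 w.1, F.T w.1), Y w)) ≤ ρ := by
    have e1 : CH q (fun w => F.X Qt w.1) (fun w => (F.X P1 w.1, F.W w.1)) =
        CH F.p (F.X Qt) (fun ω => (F.X P1 ω, F.W ω)) :=
      m1.CH (F.X Qt) (fun ω => (F.X P1 ω, F.W ω))
    refine le_trans ?_ (e1.le.trans hρ)
    refine CH_mono_cond hq0 fun w w' _ _ h => ?_
    simp only [Prod.mk.injEq] at h ⊢
    obtain ⟨⟨h1, h2⟩, h3⟩ := h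
    have h5 := hYv w w' h3
    have h6 : F.Z w.1 = F.Z w'.1 := (Prod.ext_iff.mp h5).2
    exact ⟨h1, Prod.ext h2 h6⟩
  rw [c2, c3] at c1
  linarith

end FQ

end Pool.KS6
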