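import Pool.Agent.H77.S6.FQ5

/-!
# The point given the two planks: the strip in space-time
-/

set_option autoImplicit false

namespace Pool.KS6

open Finset Real
open Pool.Agent.H49.Ent Pool.Agent.H32.Dense Pool.STK Pool.KA Pool.KSAT Pool.K3 Pool.K2S

/-- The linear relation between two points in the intersection of two planks. -/
lemma strip_rel {i0 iu iN : Fin 3} {y y' : Pln} {t t' a b : ℝ} {x x' : Fin 3 → ℝ}
    (h1 : |fn i0 iu iN y.c y.s (fun i => x i - bs y t i)| ≤ a)
    (h2 : |fn i0 iu iN y'.c y'.s (fun i => x i - bs y' t i)| ≤ b)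
    (h3 : |fn i0 iu iN y.c y.s (fun i => x' i - bs y t' i)| ≤ a)
    (h4 : |fn i0 iu iN y'.c y'.s (fun i => x' i - bs y' t' i)| ≤ b) :
    |Ae y.c y.s y'.c y'.s y'.e * ((x i0 - bs y t i0) - (x' i0 - bs y t' i0)) +
      (y.s - y'.s) * (fu i0 iu y'.e (fun i => x i - bs y t i) -
        fu i0 iu y'.e (fun i => x' i - bs y t' i)) -
      (t - t') * fn i0 iu iN y'.c y'.s (fun i => y.db i - y'.db i)| ≤ 2 * (a + b) := by
  have e1 : Ae y.c y.s y'.c y'.s y'.e * ((x i0 - bs y t i0) - (x' i0 - bs y t' i0)) +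
      (y.s - y'.s) * (fu i0 iu y'.e (fun i => x i - bs y t i) -
        fu i0 iu y'.e (fun i => x' i - bs y t' i)) -
      (t - t') * fn i0 iu iN y'.c y'.s (fun i => y.db i - y'.db i) =
      (fn i0 iu iN y.c y.s (fun i => x i - bs y t i) -
        fn i0 iu iN y'.c y'.s (fun i => x i - bs y' t i)) -
      (fn i0 iu iN y.c y.s (fun i => x' i - bs y t' i) -
        fn i0 iu iN y'.c y'.s (fun i => x' i - bs y' t' i)) := by
    unfold fn fu Ae bs; ring
  rw [e1]
  have g1 := abs_sub (fn i0 iu iN y.c y.s (fun i => x i - bs y t i))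
    (fn i0 iu iN y'.c y'.s (fun i => x i - bs y' t i))
  have g2 := abs_sub (fn i0 iu iN y.c y.s (fun i => x' i - bs y t' i))
    (fn i0 iu iN y'.c y'.s (fun i => x' i - bs y' t' i))
  have g3 := abs_sub (fn i0 iu iN y.c y.s (fun i => x i - bs y t i) -
        fn i0 iu iN y'.c y'.s (fun i => x i - bs y' t i))
      (fn i0 iu iN y.c y.s (fun i => x' i - bs y t' i) -
        fn i0 iu iN y'.c y'.s (fun i => x' i - bs y' t' i))
  linarith only [h1, h2, h3, h4, g1, g2, g3]

/-- Dividing by a large coefficient. -/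
lemma div_coef {α D M : ℝ} {W k Q : ℕ} (_hM : 0 ≤ M) (hkQ : k ≤ Q)
    (h1 : 2 ^ W / 2 ^ k ≤ |α|) (h2 : |α * D| ≤ M / 2 ^ Q) :
    |D| ≤ M / 2 ^ (W + (Q - k)) := by
  rw [abs_mul] at h2
  have e1 : (2 ^ W / 2 ^ k) * |D| ≤ M / 2 ^ Q :=
    (mul_le_mul_of_nonneg_right h1 (abs_nonneg _)).trans h2
  have e2 : (2 : ℝ) ^ Q = 2 ^ (Q - k) * 2 ^ k := by
    rw [← pow_add]; congr 1; omega
  rw [e2] at e1
  rw [le_div_iff₀ (by positivity), pow_add]
  rw [le_div_iff₀ (by positivity)] at e1
  have e4 : 2 ^ W / 2 ^ k * |D| * (2 ^ (Q - k) * 2 ^ k) = |D| * (2 ^ W * 2 ^ (Q - k)) := by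
    field_simp
  rw [e4] at e1
  exact e1

section FQ

variable {J : ℕ} {F : Fam 3 J} {Qt Pt : ℕ} {i0 iu iN : Fin 3} {W lam P1 : ℕ} {C : ℝ}
  {z : F.Ω → Pln}

/-- The number of rows saved by the strip. -/
noncomputable def s3 (Q P1 k : ℕ) : ℕ := if k < P1 then Q - k else 0

/-- The three coefficients. -/
lemma d3_cases (i0 iu iN : Fin 3) (W lam : ℕ) (y y' : Pln) :
    (d3 i0 iu iN W lam y y' =
      |fn i0 iu iN y'.c y'.s (fun i => y.db i - y'.db i)| / 2 ^ W) ∨
    (d3 i0 iu iN W lam y y' = |Ae y.c y.s y'.c y'.s y'.e| / 2 ^ W) ∨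
    (d3 i0 iu iN W lam y y' = |y.s - y'.s| / 2 ^ (W + lam)) := by
  unfold d3
  rcases max_choice (max (|Ae y.c y.s y'.c y'.s y'.e| / 2 ^ W) (|y.s - y'.s| / 2 ^ (W + lam)))
    (|fn i0 iu iN y'.c y'.s (fun i => y.db i - y'.db i)| / 2 ^ W) with h | h
  · rcases max_choice (|Ae y.c y.s y'.c y'.s y'.e| / 2 ^ W) (|y.s - y'.s| / 2 ^ (W + lam))
      with h' | h'
    · right; left
      rw [h, h']
    · right; right
      rw [h, h']
  · left
    exact h

/-- A lower bound for a coefficient. -/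
lemma coef_ge {α : ℝ} {W' k : ℕ} {C : ℝ} (hC : 1 ≤ C)
    (h : 96 * C / 2 ^ (k + 1) < |α| / 2 ^ W') : 2 ^ W' / 2 ^ k ≤ |α| := by
  have p1 : (0 : ℝ) < 2 ^ W' := by positivity
  have p2 : (0 : ℝ) < 2 ^ k := by positivity
  rw [lt_div_iff₀ p1] at h
  refine le_trans ?_ h.le
  have e1 : 96 * C / 2 ^ (k + 1) * 2 ^ W' = 48 * C * (2 ^ W' / 2 ^ k) := by
    rw [pow_succ]; field_simp; norm_num
  rw [e1]
  have : (0 : ℝ) < 2 ^ W' / 2 ^ k := by positivity
  nlinarith only [this, hC]

open Classical in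
/-- **The point given the two planks.** -/
theorem St_le (H : FQH F Qt Pt i0 iu iN W lam P1 C z) :
    CH (dbl F.p (ptq F Qt)) (fun w => ptq F Pt w.1)
      (fun w => (z w.1, (z w.2, (vW F W w.1, kq F i0 iu iN W lam P1 C z w)))) ≤
      Ex (dbl F.p (ptq F Qt)) (fun w => (((J : ℝ) - W) + ((Pt : ℝ) - W) +
        ((Pt : ℝ) - (W + lam : ℕ))) - (s3 Pt P1 (kq F i0 iu iN W lam P1 C z w) : ℝ)) *
          Real.log 2 + 6 * Real.log (2 * (4 * C + 100) + 1) := by
  obtain ⟨hql, m1, m2⟩ := dblq_law F Qt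
  have hq0 := hql.nonneg
  have hC := H.hC
  have hC0 : 0 ≤ C := by linarith only [hC]
  have hPQt := H.h3
  have hQJ : Pt ≤ J := H.h3.trans H.hQJ
  have hWlQ : W + lam ≤ Pt := H.h1.trans H.h2
  have hWQ : W ≤ Pt := by omega
  have hWJ : W ≤ J := by omega
  have hPQ := H.h2
  have hJr : (0 : ℝ) < 2 ^ J := by positivity
  have hposall : ∀ w, 0 < dbl F.p (ptq F Qt) w → 0 < dbl F.p (ptq F Qt) w := fun _ h => h
  have hdb : ∀ w, 0 < dbl F.p (ptq F Qt) w → 0 < F.p w.1 ∧ 0 < F.p w.2 ∧
    ptq F Qt w.1 = ptq F Qt w.2 ∧ (∀ i, |F.x w.1 i - F.x w.2 i| ≤ 1 / 2 ^ Pt) ∧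
    F.T w.1 = F.T w.2 ∧ F.Z w.1 = F.Z w.2 := by
    intro w hw
    obtain ⟨b1, b2, b3, b4, b5, b6⟩ := dblq_pos hw
    refine ⟨b1, b2, b3, fun i => (b4 i).trans ?_, b5, b6⟩
    exact one_div_le_one_div_of_le (by positivity) (pow_le_pow_right₀ (by norm_num) hPQt)
  have hpk : ∀ w, 0 < dbl F.p (ptq F Qt) w → W ≤ kq F i0 iu iN W lam P1 C z w :=
    fun w hw => (pair_k H hw).1
  obtain ⟨q, hq⟩ : ∃ q, q = dbl F.p (ptq F Qt) := ⟨_, rfl⟩
  obtain ⟨kk, hkk⟩ : ∃ kk, kk = kq F i0 iu iN W lam P1 C z := ⟨_, rfl⟩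
  rw [← hkk] at hpk ⊢
  rw [← hq] at hql m1 m2 hq0 hdb hpk ⊢
  -- the cases
  obtain ⟨vel, hvel⟩ : ∃ vel : F.Ω × F.Ω → ℝ, vel = fun w => fn i0 iu iN (z w.2).c (z w.2).s
    (fun i => (z w.1).db i - (z w.2).db i) := ⟨_, rfl⟩
  obtain ⟨cC, hcC⟩ : ∃ cC : F.Ω × F.Ω → Prop, cC = fun w =>
    d3 i0 iu iN W lam (z w.1) (z w.2) = |vel w| / 2 ^ W := ⟨_, rfl⟩
  obtain ⟨cA, hcA⟩ : ∃ cA : F.Ω × F.Ω → Prop, cA = fun w =>
    d3 i0 iu iN W lam (z w.1) (z w.2) =
      |Ae (z w.1).c (z w.1).s (z w.2).c (z w.2).s (z w.2).e| / 2 ^ W := ⟨_, rfl⟩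
  obtain ⟨η, hη⟩ : ∃ η : F.Ω × F.Ω → Fin 3 → ℝ, η = fun w i =>
    F.x w.1 i - bs (z w.1) (F.t w.1) i := ⟨_, rfl⟩
  obtain ⟨Q0, hQ0⟩ : ∃ Q0 : F.Ω × F.Ω → Pln × (Pln × ((ℕ × F.ζ) × ℕ)), Q0 = fun w =>
    (z w.1, (z w.2, (vW F W w.1, kk w))) := ⟨_, rfl⟩
  rw [← hQ0]
  obtain ⟨Y, hY⟩ : ∃ Y : F.Ω × F.Ω → Fin 6 → ℤ, Y = fun w =>
    ![if cC w then ⌊(2 : ℝ) ^ Pt * η w i0⌋ else (F.T w.1 : ℤ),
      if cC w then ⌊(2 : ℝ) ^ Pt * fu i0 iu (z w.2).e (η w)⌋ else
        if cA w then ⌊(2 : ℝ) ^ Pt * fu i0 iu (z w.2).e (F.x w.1)⌋ else 0,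
      if cC w then (F.T w.1 : ℤ) else 0,
      ⌊(2 : ℝ) ^ Pt * F.x w.1 i0⌋, ⌊(2 : ℝ) ^ Pt * F.x w.1 iu⌋, ⌊(2 : ℝ) ^ Pt * F.x w.1 iN⌋] :=
    ⟨_, rfl⟩
  have hQe : ∀ w w', Q0 w = Q0 w' → z w.1 = z w'.1 ∧ z w.2 = z w'.2 ∧
      F.T1 W w.1 = F.T1 W w'.1 ∧ F.Z w.1 = F.Z w'.1 ∧ kk w = kk w' := by
    intro w w' h
    simp only [hQ0, Prod.mk.injEq, vW] at h
    exact ⟨h.1, h.2.1, h.2.2.1.1, h.2.2.1.2, h.2.2.2⟩
  have hcc : ∀ w w', z w.1 = z w'.1 → z w.2 = z w'.2 → (cC w ↔ cC w') ∧ (cA w ↔ cA w') := by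
    intro w w' h1 h2
    rw [hcC, hcA, hvel]
    simp only [h1, h2, and_self]
  have hXY : CH q (fun w => ptq F Pt w.1) Q0 ≤ CH q Y Q0 := by
    refine CH_mono_left hq0 fun w w' _ _ hh => ?_
    obtain ⟨hh1, hh2⟩ := Prod.ext_iff.mp hh
    obtain ⟨y1, y2, y3, y4, y5⟩ := hQe w w' hh2
    obtain ⟨c1, c2⟩ := hcc w w' y1 y2
    have hh1 : Y w = Y w' := hh1
    have k0 := congrFun hh1 0
    have k2 := congrFun hh1 2
    have k3 := congrFun hh1 3
    have k4 := congrFun hh1 4
    have k5 := congrFun hh1 5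
    rw [hY] at k0 k2 k3 k4 k5
    have hT : F.T w.1 = F.T w'.1 := by
      by_cases hc : cC w
      · have k2' : (if cC w then (F.T w.1 : ℤ) else 0) = if cC w' then (F.T w'.1 : ℤ) else 0 := k2
        rw [if_pos hc, if_pos (c1.1 hc)] at k2'
        exact_mod_cast k2'
      · have k0' : (if cC w then ⌊(2 : ℝ) ^ Pt * η w i0⌋ else (F.T w.1 : ℤ)) =
          if cC w' then ⌊(2 : ℝ) ^ Pt * η w' i0⌋ else (F.T w'.1 : ℤ) := k0
        rw [if_neg hc, if_neg (fun h => hc (c1.2 h))] at k0'
        exact_mod_cast k0'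
    refine Prod.ext ?_ (Prod.ext hT y4)
    funext j
    rcases H.hi j with rfl | rfl | rfl
    · exact k3
    · exact k4
    · exact k5
  -- the exponents
  obtain ⟨sv, hsv⟩ : ∃ sv : F.Ω × F.Ω → ℕ, sv = fun w => s3 Pt P1 (kk w) := ⟨_, rfl⟩
  obtain ⟨a, ha⟩ : ∃ a : Fin 6 → F.Ω × F.Ω → ℕ, a = fun i w =>
    ![if cC w then Pt - W else J - W,
      if cC w then Pt - (W + lam) else if cA w then Pt - (W + lam) else 0,
      if cC w then J - W - sv w else 0,
      if cC w then 0 else if cA w then Pt - W - sv w else Pt - W,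
      if cC w then 0 else if cA w then 0 else Pt - (W + lam) - sv w,
      0] i := ⟨_, rfl⟩
  have hcount := CH_le_pow hql Q0 Y (fun _ => 4 * C + 100) a (fun _ => by positivity) (by
    intro i w w' hw hw' hQQ hlt
    obtain ⟨q1, q2, hT1, -, hk⟩ := hQe w w' hQQ
    obtain ⟨c1, c2⟩ := hcc w w' q1 q2
    obtain ⟨pw1, pw2, -, hx, hT, -⟩ := hdb w hw
    obtain ⟨pw1', pw2', -, hx', hT', -⟩ := hdb w' hw'
    have I1 := H.hI _ pw1
    have I2 := H.hI _ pw2
    have I1' := H.hI _ pw1'
    have I2' := H.hI _ pw2'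
    rw [← t_eq_of hT] at I2
    rw [← t_eq_of hT'] at I2'
    rw [← q1] at I1'
    rw [← q2] at I2'
    -- the two planks
    obtain ⟨y, hy⟩ : ∃ y, y = z w.1 := ⟨_, rfl⟩
    obtain ⟨y', hy'⟩ : ∃ y', y' = z w.2 := ⟨_, rfl⟩
    have hee : |y.e - y'.e| ≤ 1 / 2 ^ lam := by
      rw [hy, hy']
      exact H.he _ _ pw1 pw2 (hdb w hw).2.2.1
    have hCp : (0 : ℝ) < 2 ^ Pt := by positivity
    -- the normal coordinate in the second plank
    have nrm : ∀ (x x2 : Fin 3 → ℝ) (t : ℝ), (∀ i, |x i - x2 i| ≤ 1 / 2 ^ Pt) →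
        |fn i0 iu iN y'.c y'.s x2 - fn i0 iu iN y'.c y'.s (fun i => y'.xb i + t * y'.db i)| ≤
          C / 2 ^ Pt → |y'.c| ≤ 4 → |y'.s| ≤ 4 →
        |fn i0 iu iN y'.c y'.s (fun i => x i - bs y' t i)| ≤ (C + 9) / 2 ^ Pt := by
      intro x x2 t h1 h2 h3 h4
      have e1 : fn i0 iu iN y'.c y'.s (fun i => x i - bs y' t i) =
          (fn i0 iu iN y'.c y'.s x2 - fn i0 iu iN y'.c y'.s (fun i => y'.xb i + t * y'.db i)) +
          (y'.c * (x i0 - x2 i0) + y'.s * (x iu - x2 iu) + (x iN - x2 iN)) := by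
        unfold fn bs; ring
      rw [e1]
      refine (abs_add_le _ _).trans ?_
      have e2 := abs_add_three (y'.c * (x i0 - x2 i0)) (y'.s * (x iu - x2 iu)) (x iN - x2 iN)
      have e3 : |y'.c * (x i0 - x2 i0)| ≤ 4 * (1 / 2 ^ Pt) := by
        rw [abs_mul]
        exact mul_le_mul h3 (h1 i0) (abs_nonneg _) (by norm_num)
      have e4 : |y'.s * (x iu - x2 iu)| ≤ 4 * (1 / 2 ^ Pt) := by
        rw [abs_mul]
        exact mul_le_mul h4 (h1 iu) (abs_nonneg _) (by norm_num)
      have e5 : (C + 9) / 2 ^ Pt = C / 2 ^ Pt + 9 * (1 / 2 ^ Pt) := by ring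
      rw [e5]
      linarith only [h2, e2, e3, e4, h1, h1 iN]
    have n2 : |fn i0 iu iN y'.c y'.s (fun i => F.x w.1 i - bs y' (F.t w.1) i)| ≤
        (C + 9) / 2 ^ Pt := by
      rw [← hy'] at I2
      exact nrm _ _ _ hx I2.pn I2.c_le I2.s_le
    have n2' : |fn i0 iu iN y'.c y'.s (fun i => F.x w'.1 i - bs y' (F.t w'.1) i)| ≤
        (C + 9) / 2 ^ Pt := by
      rw [← hy'] at I2'
      exact nrm _ _ _ hx' I2'.pn I2'.c_le I2'.s_le
    have bc' : |y'.c| ≤ 4 := by rw [hy']; exact I2.c_le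
    have bs' : |y'.s| ≤ 4 := by rw [hy']; exact I2.s_le
    have be' : |y'.e| ≤ 2 := by rw [hy']; exact I2.e_le
    rw [← hy] at I1 I1'
    have gz := (I1.gz (k := Pt) hC0 le_rfl).1
    have gz' := (I1'.gz (k := Pt) hC0 le_rfl).1
    have hηw : η w = fun i => F.x w.1 i - bs y (F.t w.1) i := by rw [hη, hy]
    have hηw' : η w' = fun i => F.x w'.1 i - bs y (F.t w'.1) i := by rw [hη, hy, q1]
    rw [← hηw] at gz
    rw [← hηw'] at gz'
    have n1 := gz.g2
    have n1' := gz'.g2
    rw [hηw] at n1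
    rw [hηw'] at n1'
    have rel := strip_rel n1 n2 n1' n2'
    rw [← hηw, ← hηw'] at rel
    have rel0 : (F.x w.1 i0 - bs y (F.t w.1) i0) - (F.x w'.1 i0 - bs y (F.t w'.1) i0) =
        η w i0 - η w' i0 := by rw [hηw, hηw']
    rw [rel0] at rel
    obtain ⟨α, hα⟩ : ∃ α, α = Ae y.c y.s y'.c y'.s y'.e := ⟨_, rfl⟩
    obtain ⟨σ, hσ⟩ : ∃ σ, σ = y.s - y'.s := ⟨_, rfl⟩
    obtain ⟨v, hv⟩ : ∃ v, v = fn i0 iu iN y'.c y'.s (fun i => y.db i - y'.db i) := ⟨_, rfl⟩
    rw [← hα, ← hσ, ← hv] at rel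
    have hα24 : |α| ≤ 24 := by
      rw [hα]; exact Ae_le I1.c_le I1.s_le bc' bs' be'
    have hσ8 : |σ| ≤ 8 := by
      rw [hσ]
      have := abs_sub y.s y'.s
      linarith only [bs', this, I1, I1.s_le]
    have hCw : cC w ↔ d3 i0 iu iN W lam y y' = |v| / 2 ^ W := by
      rw [hcC, hvel, hv, hy, hy']
    have hAw : cA w ↔ d3 i0 iu iN W lam y y' = |α| / 2 ^ W := by
      rw [hcA, hα, hy, hy']
    have hBw : ¬ cC w → ¬ cA w → d3 i0 iu iN W lam y y' = |σ| / 2 ^ (W + lam) := by
      intro g1 g2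
      rw [hCw, hv] at g1
      rw [hAw, hα] at g2
      rcases d3_cases i0 iu iN W lam y y' with h | h | h
      · exact absurd h g1
      · exact absurd h g2
      · rw [hσ]; exact h
    -- the size of the differences
    obtain ⟨D0, hD0⟩ : ∃ D0, D0 = η w i0 - η w' i0 := ⟨_, rfl⟩
    obtain ⟨Du, hDu⟩ : ∃ Du, Du = fu i0 iu y'.e (η w) - fu i0 iu y'.e (η w') := ⟨_, rfl⟩
    rw [← hD0, ← hDu] at rel
    have rel' : |α * D0 + σ * Du - (F.t w.1 - F.t w'.1) * v| ≤ (4 * C + 18) / 2 ^ Pt := by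
      refine rel.trans (le_of_eq ?_)
      ring
    have f0 : |D0| ≤ 2 * C / 2 ^ W := by
      rw [hD0]
      refine (abs_sub _ _).trans ?_
      have e1 : 2 * C / 2 ^ W = C / 2 ^ W + C / 2 ^ W := by ring
      rw [e1]
      exact add_le_add gz.g0 gz'.g0
    have f1 : |Du| ≤ 4 * C / 2 ^ (W + lam) := by
      rw [hDu]
      have one : ∀ u : Fin 3 → ℝ, |fu i0 iu y.e u| ≤ C / 2 ^ (W + lam) → |u i0| ≤ C / 2 ^ W →
          |fu i0 iu y'.e u| ≤ 2 * C / 2 ^ (W + lam) := by
        intro u h1 h2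
        have e1 : fu i0 iu y'.e u = fu i0 iu y.e u + (y.e - y'.e) * u i0 := by unfold fu; ring
        rw [e1]
        refine (abs_add_le _ _).trans ?_
        have e2 : |(y.e - y'.e) * u i0| ≤ C / 2 ^ (W + lam) := by
          rw [abs_mul]
          refine (mul_le_mul hee h2 (abs_nonneg _) (by positivity)).trans (le_of_eq ?_)
          rw [pow_add, div_mul_div_comm, one_mul, mul_comm ((2 : ℝ) ^ lam)]
        have e3 : 2 * C / 2 ^ (W + lam) = C / 2 ^ (W + lam) + C / 2 ^ (W + lam) := by ring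
        rw [e3]
        exact add_le_add h1 e2
      refine (abs_sub _ _).trans ?_
      have e1 : 4 * C / 2 ^ (W + lam) = 2 * C / 2 ^ (W + lam) + 2 * C / 2 ^ (W + lam) := by ring
      rw [e1]
      exact add_le_add (one _ gz.g1 gz.g0) (one _ gz'.g1 gz'.g0)
    -- the time
    have fT : |((F.T w.1 : ℤ) - (F.T w'.1 : ℤ) : ℝ)| ≤ 2 ^ (J - W) := by
      have h1 : F.T w.1 / 2 ^ (J - W) = F.T w'.1 / 2 ^ (J - W) := hT1
      obtain ⟨r, hr⟩ : ∃ r, r = F.T w.1 / 2 ^ (J - W) := ⟨_, rfl⟩
      have a1 := Nat.div_mul_le_self (F.T w.1) (2 ^ (J - W))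
      have a2 := Nat.lt_div_mul_add (a := F.T w.1) (show 0 < 2 ^ (J - W) by positivity)
      have a3 := Nat.div_mul_le_self (F.T w'.1) (2 ^ (J - W))
      have a4 := Nat.lt_div_mul_add (a := F.T w'.1) (show 0 < 2 ^ (J - W) by positivity)
      rw [← h1] at a3 a4
      have b1 : (F.T w.1 : ℝ) ≤ F.T w'.1 + 2 ^ (J - W) := by
        exact_mod_cast (by omega : F.T w.1 ≤ F.T w'.1 + 2 ^ (J - W))
      have b2 : (F.T w'.1 : ℝ) ≤ F.T w.1 + 2 ^ (J - W) := by
        exact_mod_cast (by omega : F.T w'.1 ≤ F.T w.1 + 2 ^ (J - W))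
      push_cast
      rw [abs_le]
      constructor <;> linarith
    have hkk4 : kk w ≤ P1 := by rw [hkk]; exact k3_le
    have hWk := hpk w hw
    have hkkd : kk w < P1 → 96 * C / 2 ^ (kk w + 1) < d3 i0 iu iN W lam y y' := by
      intro h
      rw [hkk] at h ⊢
      rw [hy, hy']
      exact lt_d3 h
    -- the points at equal times
    have samet : F.T w.1 = F.T w'.1 → F.x w.1 i0 - F.x w'.1 i0 = D0 ∧
        (F.x w.1 iu - F.x w'.1 iu) - y'.e * (F.x w.1 i0 - F.x w'.1 i0) = Du ∧
        F.t w.1 - F.t w'.1 = 0 := by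
      intro h
      have ht := t_eq_of h
      refine ⟨?_, ?_, by rw [ht]; ring⟩
      · rw [hD0, hηw, hηw', ht]; ring
      · rw [hDu, hηw, hηw', ht]
        unfold fu
        ring
    have svle : ∀ r : ℕ, sv w ≤ Pt - kk w := by
      intro _
      rw [hsv]
      simp only [s3]
      split_ifs
      · exact le_rfl
      · exact Nat.zero_le _
    fin_cases i
    · -- y0
      change |(((Y w) 0 - (Y w') 0 : ℤ) : ℝ)| ≤ (4 * C + 100) * 2 ^ (a 0 w)
      have e1 : (Y w) 0 = if cC w then ⌊(2 : ℝ) ^ Pt * η w i0⌋ else (F.T w.1 : ℤ) := by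
        rw [hY]; rfl
      have e2 : (Y w') 0 = if cC w' then ⌊(2 : ℝ) ^ Pt * η w' i0⌋ else (F.T w'.1 : ℤ) := by
        rw [hY]; rfl
      have e3 : a 0 w = if cC w then Pt - W else J - W := by rw [ha]; rfl
      rw [e1, e2, e3]
      by_cases hc : cC w
      · rw [if_pos hc, if_pos (c1.1 hc), if_pos hc]
        rw [hD0] at f0
        refine (cell_le f0).trans ((cells hWQ le_rfl).trans ?_)
        exact mul_le_mul_of_nonneg_right (by linarith only [hC]) (by positivity)
      · rw [if_neg hc, if_neg (fun h => hc (c1.2 h)), if_neg hc]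
        push_cast
        push_cast at fT
        have : (1 : ℝ) * 2 ^ (J - W) ≤ (4 * C + 100) * 2 ^ (J - W) :=
          mul_le_mul_of_nonneg_right (by linarith only [hC]) (by positivity)
        linarith only [fT, this]
    · -- y1
      change |(((Y w) 1 - (Y w') 1 : ℤ) : ℝ)| ≤ (4 * C + 100) * 2 ^ (a 1 w)
      have e1 : (Y w) 1 = if cC w then ⌊(2 : ℝ) ^ Pt * fu i0 iu (z w.2).e (η w)⌋ else
          if cA w then ⌊(2 : ℝ) ^ Pt * fu i0 iu (z w.2).e (F.x w.1)⌋ else 0 := by
        rw [hY]; rfl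
      have e2 : (Y w') 1 = if cC w' then ⌊(2 : ℝ) ^ Pt * fu i0 iu (z w'.2).e (η w')⌋ else
          if cA w' then ⌊(2 : ℝ) ^ Pt * fu i0 iu (z w'.2).e (F.x w'.1)⌋ else 0 := by
        rw [hY]; rfl
      have e3 : a 1 w = if cC w then Pt - (W + lam) else if cA w then Pt - (W + lam) else 0 := by
        rw [ha]; rfl
      rw [e1, e2, e3]
      by_cases hc : cC w
      · rw [if_pos hc, if_pos (c1.1 hc), if_pos hc, ← q2, ← hy']
        rw [hDu] at f1
        refine (cell_le f1).trans ((cells hWlQ le_rfl).trans ?_)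
        exact mul_le_mul_of_nonneg_right (by linarith only) (by positivity)
      · rw [if_neg hc, if_neg (fun h => hc (c1.2 h)), if_neg hc]
        have g0 := hlt 0 (by decide)
        have e4 : (Y w) 0 = if cC w then ⌊(2 : ℝ) ^ Pt * η w i0⌋ else (F.T w.1 : ℤ) := by
          rw [hY]; rfl
        have e5 : (Y w') 0 = if cC w' then ⌊(2 : ℝ) ^ Pt * η w' i0⌋ else (F.T w'.1 : ℤ) := by
          rw [hY]; rfl
        rw [e4, e5, if_neg hc, if_neg (fun h => hc (c1.2 h))] at g0
        have hTT : F.T w.1 = F.T w'.1 := by exact_mod_cast g0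
        obtain ⟨t1, t2, t3⟩ := samet hTT
        by_cases hcA' : cA w
        · rw [if_pos hcA', if_pos (c2.1 hcA'), if_pos hcA', ← q2, ← hy']
          have e6 : fu i0 iu y'.e (F.x w.1) - fu i0 iu y'.e (F.x w'.1) = Du := by
            rw [← t2]; unfold fu; ring
          have f1' : |fu i0 iu y'.e (F.x w.1) - fu i0 iu y'.e (F.x w'.1)| ≤
              4 * C / 2 ^ (W + lam) := by rw [e6]; exact f1
          refine (cell_le f1').trans ((cells hWlQ le_rfl).trans ?_)
          exact mul_le_mul_of_nonneg_right (by linarith only) (by positivity)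
        · rw [if_neg hcA', if_neg (fun h => hcA' (c2.2 h)), if_neg hcA']
          simp only [sub_zero, Int.cast_zero, abs_zero, pow_zero, mul_one]
          linarith only [hC]
    · -- y2
      change |(((Y w) 2 - (Y w') 2 : ℤ) : ℝ)| ≤ (4 * C + 100) * 2 ^ (a 2 w)
      have e1 : (Y w) 2 = if cC w then (F.T w.1 : ℤ) else 0 := by rw [hY]; rfl
      have e2 : (Y w') 2 = if cC w' then (F.T w'.1 : ℤ) else 0 := by rw [hY]; rfl
      have e3 : a 2 w = if cC w then J - W - sv w else 0 := by rw [ha]; rfl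
      rw [e1, e2, e3]
      by_cases hc : cC w
      · rw [if_pos hc, if_pos (c1.1 hc), if_pos hc]
        have g0 := hlt 0 (by decide)
        have e4 : (Y w) 0 = if cC w then ⌊(2 : ℝ) ^ Pt * η w i0⌋ else (F.T w.1 : ℤ) := by
          rw [hY]; rfl
        have e5 : (Y w') 0 = if cC w' then ⌊(2 : ℝ) ^ Pt * η w' i0⌋ else (F.T w'.1 : ℤ) := by
          rw [hY]; rfl
        rw [e4, e5, if_pos hc, if_pos (c1.1 hc)] at g0
        have g1 := hlt 1 (by decide)
        have e6 : (Y w) 1 = if cC w then ⌊(2 : ℝ) ^ Pt * fu i0 iu (z w.2).e (η w)⌋ else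
            if cA w then ⌊(2 : ℝ) ^ Pt * fu i0 iu (z w.2).e (F.x w.1)⌋ else 0 := by
          rw [hY]; rfl
        have e7 : (Y w') 1 = if cC w' then ⌊(2 : ℝ) ^ Pt * fu i0 iu (z w'.2).e (η w')⌋ else
            if cA w' then ⌊(2 : ℝ) ^ Pt * fu i0 iu (z w'.2).e (F.x w'.1)⌋ else 0 := by
          rw [hY]; rfl
        rw [e6, e7, if_pos hc, if_pos (c1.1 hc), ← q2, ← hy'] at g1
        have k0 := cell_eq g0
        have k1 := cell_eq g1
        rw [← hD0] at k0
        rw [← hDu] at k1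
        by_cases hkl : kk w < P1
        · have hs : sv w = Pt - kk w := by
            rw [hsv]; simp only [s3]; rw [if_pos hkl]
          have g3 : 2 ^ W / 2 ^ kk w ≤ |v| := by
            refine coef_ge hC ?_
            rw [← hCw.1 hc]
            exact hkkd hkl
          have g4 : |v * (F.t w.1 - F.t w'.1)| ≤ (4 * C + 50) / 2 ^ Pt := by
            have e8 : v * (F.t w.1 - F.t w'.1) = -(α * D0 + σ * Du -
              (F.t w.1 - F.t w'.1) * v) + (α * D0 + σ * Du) := by ring
            rw [e8]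
            refine (abs_add_le _ _).trans ?_
            rw [abs_neg]
            have b1 : |α * D0| ≤ 24 * (1 / 2 ^ Pt) := by
              rw [abs_mul]
              exact mul_le_mul hα24 k0 (abs_nonneg _) (by norm_num)
            have b2 : |σ * Du| ≤ 8 * (1 / 2 ^ Pt) := by
              rw [abs_mul]
              exact mul_le_mul hσ8 k1 (abs_nonneg _) (by norm_num)
            have b3 := abs_add_le (α * D0) (σ * Du)
            have e9 : (4 * C + 50) / 2 ^ Pt = (4 * C + 18) / 2 ^ Pt + 32 * (1 / 2 ^ Pt) := by ring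
            rw [e9]
            linarith only [rel', b1, b2, b3]
          have g5 := div_coef (by linarith only [hC]) (hkk4.trans hPQ) g3 g4
          have e10 : ((F.T w.1 : ℤ) - (F.T w'.1 : ℤ) : ℝ) = 2 ^ J * (F.t w.1 - F.t w'.1) := by
            unfold Fam.t
            push_cast
            field_simp
          push_cast at e10 ⊢
          rw [e10, abs_mul, abs_of_pos hJr, hs]
          have e11 : J - W - (Pt - kk w) = J - (W + (Pt - kk w)) := by omega
          have e12 : W + (Pt - kk w) ≤ J := by omega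
          rw [e11]
          have e13 := cells e12 (le_refl ((4 * C + 50) / 2 ^ (W + (Pt - kk w))))
          have e14 := mul_le_mul_of_nonneg_left g5 hJr.le
          have e15 : (4 * C + 50 + 1) * 2 ^ (J - (W + (Pt - kk w))) ≤
              (4 * C + 100) * 2 ^ (J - (W + (Pt - kk w))) :=
            mul_le_mul_of_nonneg_right (by linarith only) (by positivity)
          linarith only [e13, e14, e15]
        · have hs : sv w = 0 := by
            rw [hsv]; simp only [s3]; rw [if_neg hkl]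
          rw [hs, Nat.sub_zero]
          push_cast
          push_cast at fT
          have : (1 : ℝ) * 2 ^ (J - W) ≤ (4 * C + 100) * 2 ^ (J - W) :=
            mul_le_mul_of_nonneg_right (by linarith only [hC]) (by positivity)
          linarith only [fT, this]
      · rw [if_neg hc, if_neg (fun h => hc (c1.2 h)), if_neg hc]
        simp only [sub_zero, Int.cast_zero, abs_zero, pow_zero, mul_one]
        linarith only [hC]
    all_goals
      -- the times are equal
      have hTT : F.T w.1 = F.T w'.1 := by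
        by_cases hc : cC w
        · have g2 := hlt 2 (by decide)
          have e4 : (Y w) 2 = if cC w then (F.T w.1 : ℤ) else 0 := by rw [hY]; rfl
          have e5 : (Y w') 2 = if cC w' then (F.T w'.1 : ℤ) else 0 := by rw [hY]; rfl
          rw [e4, e5, if_pos hc, if_pos (c1.1 hc)] at g2
          exact_mod_cast g2
        · have g0 := hlt 0 (by decide)
          have e4 : (Y w) 0 = if cC w then ⌊(2 : ℝ) ^ Pt * η w i0⌋ else (F.T w.1 : ℤ) := by
            rw [hY]; rfl
          have e5 : (Y w') 0 = if cC w' then ⌊(2 : ℝ) ^ Pt * η w' i0⌋ else (F.T w'.1 : ℤ) := by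
            rw [hY]; rfl
          rw [e4, e5, if_neg hc, if_neg (fun h => hc (c1.2 h))] at g0
          exact_mod_cast g0
      obtain ⟨t1, t2, t3⟩ := samet hTT
      rw [t3, zero_mul, sub_zero] at rel'
      -- the differences in the case of the velocity
      have hCk : cC w → |D0| ≤ 1 / 2 ^ Pt ∧ |Du| ≤ 1 / 2 ^ Pt := by
        intro hc
        have g0 := hlt 0 (by decide)
        have e4 : (Y w) 0 = if cC w then ⌊(2 : ℝ) ^ Pt * η w i0⌋ else (F.T w.1 : ℤ) := by
          rw [hY]; rfl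
        have e5 : (Y w') 0 = if cC w' then ⌊(2 : ℝ) ^ Pt * η w' i0⌋ else (F.T w'.1 : ℤ) := by
          rw [hY]; rfl
        rw [e4, e5, if_pos hc, if_pos (c1.1 hc)] at g0
        have g1 := hlt 1 (by decide)
        have e6 : (Y w) 1 = if cC w then ⌊(2 : ℝ) ^ Pt * fu i0 iu (z w.2).e (η w)⌋ else
            if cA w then ⌊(2 : ℝ) ^ Pt * fu i0 iu (z w.2).e (F.x w.1)⌋ else 0 := by
          rw [hY]; rfl
        have e7 : (Y w') 1 = if cC w' then ⌊(2 : ℝ) ^ Pt * fu i0 iu (z w'.2).e (η w')⌋ else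
            if cA w' then ⌊(2 : ℝ) ^ Pt * fu i0 iu (z w'.2).e (F.x w'.1)⌋ else 0 := by
          rw [hY]; rfl
        rw [e6, e7, if_pos hc, if_pos (c1.1 hc), ← q2, ← hy'] at g1
        have k0 := cell_eq g0
        have k1 := cell_eq g1
        rw [← hD0] at k0
        rw [← hDu] at k1
        exact ⟨k0, k1⟩
      have hAk : ¬ cC w → cA w → |Du| ≤ 1 / 2 ^ Pt := by
        intro hc hcA'
        have g1 := hlt 1 (by decide)
        have e6 : (Y w) 1 = if cC w then ⌊(2 : ℝ) ^ Pt * fu i0 iu (z w.2).e (η w)⌋ else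
            if cA w then ⌊(2 : ℝ) ^ Pt * fu i0 iu (z w.2).e (F.x w.1)⌋ else 0 := by
          rw [hY]; rfl
        have e7 : (Y w') 1 = if cC w' then ⌊(2 : ℝ) ^ Pt * fu i0 iu (z w'.2).e (η w')⌋ else
            if cA w' then ⌊(2 : ℝ) ^ Pt * fu i0 iu (z w'.2).e (F.x w'.1)⌋ else 0 := by
          rw [hY]; rfl
        rw [e6, e7, if_neg hc, if_neg (fun h => hc (c1.2 h)), if_pos hcA',
          if_pos (c2.1 hcA'), ← q2, ← hy'] at g1
        have k1 := cell_eq g1
        have e8 : fu i0 iu y'.e (F.x w.1) - fu i0 iu y'.e (F.x w'.1) = Du := by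
          rw [← t2]; unfold fu; ring
        rw [e8] at k1
        exact k1
    · -- y3
      change |(((Y w) 3 - (Y w') 3 : ℤ) : ℝ)| ≤ (4 * C + 100) * 2 ^ (a 3 w)
      have e1 : (Y w) 3 = ⌊(2 : ℝ) ^ Pt * F.x w.1 i0⌋ := by rw [hY]; rfl
      have e2 : (Y w') 3 = ⌊(2 : ℝ) ^ Pt * F.x w'.1 i0⌋ := by rw [hY]; rfl
      have e3 : a 3 w = if cC w then 0 else if cA w then Pt - W - sv w else Pt - W := by
        rw [ha]; rfl
      rw [e1, e2, e3]
      by_cases hc : cC w
      · rw [if_pos hc, pow_zero, mul_one]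
        have k0 := (hCk hc).1
        rw [← t1] at k0
        refine (cell_le k0).trans ?_
        have : (2 : ℝ) ^ Pt * (1 / 2 ^ Pt) = 1 := by field_simp
        rw [this]
        linarith only [hC]
      · rw [if_neg hc]
        by_cases hcA' : cA w
        · rw [if_pos hcA']
          by_cases hkl : kk w < P1
          · have hs : sv w = Pt - kk w := by
              rw [hsv]; simp only [s3]; rw [if_pos hkl]
            have k1 := hAk hc hcA'
            have g3 : 2 ^ W / 2 ^ kk w ≤ |α| := by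
              refine coef_ge hC ?_
              rw [← hAw.1 hcA']
              exact hkkd hkl
            have g4 : |α * D0| ≤ (4 * C + 50) / 2 ^ Pt := by
              have e8 : α * D0 = (α * D0 + σ * Du) - σ * Du := by ring
              rw [e8]
              refine (abs_sub _ _).trans ?_
              have b2 : |σ * Du| ≤ 8 * (1 / 2 ^ Pt) := by
                rw [abs_mul]
                exact mul_le_mul hσ8 k1 (abs_nonneg _) (by norm_num)
              have e9 : (4 * C + 50) / 2 ^ Pt = (4 * C + 18) / 2 ^ Pt + 32 * (1 / 2 ^ Pt) := by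
                ring
              rw [e9]
              have : (0 : ℝ) < 1 / 2 ^ Pt := by positivity
              linarith only [rel', b2, this]
            have g5 := div_coef (by linarith only [hC]) (hkk4.trans hPQ) g3 g4
            rw [← t1] at g5
            have e12 : W + (Pt - kk w) ≤ Pt := by omega
            refine (cell_le g5).trans ((cells e12 le_rfl).trans ?_)
            have e11 : Pt - (W + (Pt - kk w)) = Pt - W - (Pt - kk w) := by omega
            rw [hs, e11]
            exact mul_le_mul_of_nonneg_right (by linarith only) (by positivity)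
          · have hs : sv w = 0 := by
              rw [hsv]; simp only [s3]; rw [if_neg hkl]
            rw [hs, Nat.sub_zero]
            rw [← t1] at f0
            refine (cell_le f0).trans ((cells hWQ le_rfl).trans ?_)
            exact mul_le_mul_of_nonneg_right (by linarith only [hC]) (by positivity)
        · rw [if_neg hcA']
          rw [← t1] at f0
          refine (cell_le f0).trans ((cells hWQ le_rfl).trans ?_)
          exact mul_le_mul_of_nonneg_right (by linarith only [hC]) (by positivity)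
    · -- y4
      change |(((Y w) 4 - (Y w') 4 : ℤ) : ℝ)| ≤ (4 * C + 100) * 2 ^ (a 4 w)
      have e1 : (Y w) 4 = ⌊(2 : ℝ) ^ Pt * F.x w.1 iu⌋ := by rw [hY]; rfl
      have e2 : (Y w') 4 = ⌊(2 : ℝ) ^ Pt * F.x w'.1 iu⌋ := by rw [hY]; rfl
      have e3 : a 4 w = if cC w then 0 else if cA w then 0 else Pt - (W + lam) - sv w := by
        rw [ha]; rfl
      have g3' := hlt 3 (by decide)
      have e4 : (Y w) 3 = ⌊(2 : ℝ) ^ Pt * F.x w.1 i0⌋ := by rw [hY]; rfl
      have e5 : (Y w') 3 = ⌊(2 : ℝ) ^ Pt * F.x w'.1 i0⌋ := by rw [hY]; rfl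
      rw [e4, e5] at g3'
      have k0 := cell_eq g3'
      rw [e1, e2, e3]
      have gDu : ∀ r : ℝ, |Du| ≤ r → |F.x w.1 iu - F.x w'.1 iu| ≤ r + 2 * (1 / 2 ^ Pt) := by
        intro r hr
        have e6 : F.x w.1 iu - F.x w'.1 iu = Du + y'.e * (F.x w.1 i0 - F.x w'.1 i0) := by
          rw [← t2]; ring
        rw [e6]
        refine (abs_add_le _ _).trans (add_le_add hr ?_)
        rw [abs_mul]
        exact mul_le_mul be' k0 (abs_nonneg _) (by norm_num)
      have small : |Du| ≤ 1 / 2 ^ Pt →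
          |((⌊(2 : ℝ) ^ Pt * F.x w.1 iu⌋ - ⌊(2 : ℝ) ^ Pt * F.x w'.1 iu⌋ : ℤ) : ℝ)| ≤
            4 * C + 100 := by
        intro h
        refine (cell_le (gDu _ h)).trans ?_
        have e6 : (2 : ℝ) ^ Pt * (1 / 2 ^ Pt + 2 * (1 / 2 ^ Pt)) = 3 := by
          field_simp; norm_num
        rw [e6]
        linarith only [hC]
      by_cases hc : cC w
      · rw [if_pos hc, pow_zero, mul_one]
        exact small (hCk hc).2
      · rw [if_neg hc]
        by_cases hcA' : cA w
        · rw [if_pos hcA', pow_zero, mul_one]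
          exact small (hAk hc hcA')
        · rw [if_neg hcA']
          by_cases hkl : kk w < P1
          · have hs : sv w = Pt - kk w := by
              rw [hsv]; simp only [s3]; rw [if_pos hkl]
            have hB := hBw hc hcA'
            have g3 : 2 ^ (W + lam) / 2 ^ kk w ≤ |σ| := by
              refine coef_ge hC ?_
              rw [← hB]
              exact hkkd hkl
            have hWlk : W + lam ≤ kk w := by
              have h1 := hkkd hkl
              rw [hB] at h1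
              have h2 : 96 * C / 2 ^ (kk w + 1) < 8 / 2 ^ (W + lam) :=
                h1.trans_le (div_le_div_of_nonneg_right hσ8 (by positivity))
              by_contra hcon
              push Not at hcon
              have h3 : (2 : ℝ) ^ (kk w + 1) ≤ 2 ^ (W + lam) :=
                pow_le_pow_right₀ (by norm_num) (by omega)
              have h4 : (8 : ℝ) / 2 ^ (W + lam) ≤ 96 * C / 2 ^ (kk w + 1) :=
                div_le_div₀ (by positivity) (by linarith only [hC]) (by positivity) h3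
              linarith only [h2, h4]
            have g4 : |σ * Du| ≤ (4 * C + 50) / 2 ^ Pt := by
              have e8 : σ * Du = (α * D0 + σ * Du) - α * D0 := by ring
              rw [e8]
              refine (abs_sub _ _).trans ?_
              rw [t1] at k0
              have b2 : |α * D0| ≤ 24 * (1 / 2 ^ Pt) := by
                rw [abs_mul]
                exact mul_le_mul hα24 k0 (abs_nonneg _) (by norm_num)
              have e9 : (4 * C + 50) / 2 ^ Pt = (4 * C + 18) / 2 ^ Pt + 32 * (1 / 2 ^ Pt) := by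
                ring
              rw [e9]
              have : (0 : ℝ) < 1 / 2 ^ Pt := by positivity
              linarith only [rel', b2, this]
            have g5 := div_coef (by linarith only [hC]) (hkk4.trans hPQ) g3 g4
            have e12 : W + lam + (Pt - kk w) ≤ Pt := by omega
            have hPK : (1 : ℝ) / 2 ^ Pt ≤ 1 / 2 ^ (W + lam + (Pt - kk w)) :=
              one_div_le_one_div_of_le (by positivity) (pow_le_pow_right₀ (by norm_num) e12)
            have g6 : |F.x w.1 iu - F.x w'.1 iu| ≤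
                (4 * C + 52) / 2 ^ (W + lam + (Pt - kk w)) := by
              refine (gDu _ g5).trans ?_
              have e6 : (4 * C + 52) / 2 ^ (W + lam + (Pt - kk w)) =
                (4 * C + 50) / 2 ^ (W + lam + (Pt - kk w)) +
                  2 * (1 / 2 ^ (W + lam + (Pt - kk w))) := by ring
              linarith only [hPK, e6]
            refine (cell_le g6).trans ((cells e12 le_rfl).trans ?_)
            have e11 : Pt - (W + lam + (Pt - kk w)) = Pt - (W + lam) - (Pt - kk w) := by omega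
            rw [hs, e11]
            exact mul_le_mul_of_nonneg_right (by linarith only) (by positivity)
          · have hs : sv w = 0 := by
              rw [hsv]; simp only [s3]; rw [if_neg hkl]
            rw [hs, Nat.sub_zero]
            have hPK : (1 : ℝ) / 2 ^ Pt ≤ 1 / 2 ^ (W + lam) :=
              one_div_le_one_div_of_le (by positivity) (pow_le_pow_right₀ (by norm_num) hWlQ)
            have g6 : |F.x w.1 iu - F.x w'.1 iu| ≤ (4 * C + 2) / 2 ^ (W + lam) := by
              refine (gDu _ f1).trans ?_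
              have e6 : (4 * C + 2) / 2 ^ (W + lam) =
                4 * C / 2 ^ (W + lam) + 2 * (1 / 2 ^ (W + lam)) := by ring
              linarith only [hPK, e6]
            refine (cell_le g6).trans ((cells hWlQ le_rfl).trans ?_)
            exact mul_le_mul_of_nonneg_right (by linarith only) (by positivity)
    · -- y5
      change |(((Y w) 5 - (Y w') 5 : ℤ) : ℝ)| ≤ (4 * C + 100) * 2 ^ (a 5 w)
      have e1 : (Y w) 5 = ⌊(2 : ℝ) ^ Pt * F.x w.1 iN⌋ := by rw [hY]; rfl
      have e2 : (Y w') 5 = ⌊(2 : ℝ) ^ Pt * F.x w'.1 iN⌋ := by rw [hY]; rfl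
      have e3 : a 5 w = 0 := by rw [ha]; rfl
      have g3' := hlt 3 (by decide)
      have g4' := hlt 4 (by decide)
      have e4 : (Y w) 3 = ⌊(2 : ℝ) ^ Pt * F.x w.1 i0⌋ := by rw [hY]; rfl
      have e5 : (Y w') 3 = ⌊(2 : ℝ) ^ Pt * F.x w'.1 i0⌋ := by rw [hY]; rfl
      have e6 : (Y w) 4 = ⌊(2 : ℝ) ^ Pt * F.x w.1 iu⌋ := by rw [hY]; rfl
      have e7 : (Y w') 4 = ⌊(2 : ℝ) ^ Pt * F.x w'.1 iu⌋ := by rw [hY]; rfl
      rw [e4, e5] at g3'
      rw [e6, e7] at g4'
      have k0 := cell_eq g3'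
      have k1 := cell_eq g4'
      rw [e1, e2, e3, pow_zero, mul_one]
      have ht := t_eq_of hTT
      have b1 : F.x w.1 iN - F.x w'.1 iN =
          fn i0 iu iN y'.c y'.s (fun i => F.x w.1 i - bs y' (F.t w.1) i) -
          fn i0 iu iN y'.c y'.s (fun i => F.x w'.1 i - bs y' (F.t w'.1) i) -
          y'.c * (F.x w.1 i0 - F.x w'.1 i0) - y'.s * (F.x w.1 iu - F.x w'.1 iu) := by
        rw [ht]; unfold fn; ring
      have b2 : |y'.c * (F.x w.1 i0 - F.x w'.1 i0)| ≤ 4 * (1 / 2 ^ Pt) := by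
        rw [abs_mul]
        exact mul_le_mul bc' k0 (abs_nonneg _) (by norm_num)
      have b3 : |y'.s * (F.x w.1 iu - F.x w'.1 iu)| ≤ 4 * (1 / 2 ^ Pt) := by
        rw [abs_mul]
        exact mul_le_mul bs' k1 (abs_nonneg _) (by norm_num)
      have b4 : |F.x w.1 iN - F.x w'.1 iN| ≤ (2 * C + 26) / 2 ^ Pt := by
        rw [b1]
        refine (abs_sub _ _).trans ?_
        have c1 := abs_sub (fn i0 iu iN y'.c y'.s (fun i => F.x w.1 i - bs y' (F.t w.1) i) -
          fn i0 iu iN y'.c y'.s (fun i => F.x w'.1 i - bs y' (F.t w'.1) i))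
          (y'.c * (F.x w.1 i0 - F.x w'.1 i0))
        have c2 := abs_sub (fn i0 iu iN y'.c y'.s (fun i => F.x w.1 i - bs y' (F.t w.1) i))
          (fn i0 iu iN y'.c y'.s (fun i => F.x w'.1 i - bs y' (F.t w'.1) i))
        have e8 : (2 * C + 26) / 2 ^ Pt = (C + 9) / 2 ^ Pt + (C + 9) / 2 ^ Pt +
          8 * (1 / 2 ^ Pt) := by ring
        rw [e8]
        linarith only [n2, n2', b2, b3, c1, c2]
      refine (cell_le b4).trans ?_
      have e9 : (2 : ℝ) ^ Pt * ((2 * C + 26) / 2 ^ Pt) = 2 * C + 26 := by field_simp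
      rw [e9]
      linarith only [hC])
  exact by
   refine hXY.trans (hcount.trans ?_)
   have e3 : Ex q (fun w => ((∑ i, a i w : ℕ) : ℝ)) ≤ Ex q (fun w => (((J : ℝ) - W) +
       ((Pt : ℝ) - W) + ((Pt : ℝ) - (W + lam : ℕ))) - (sv w : ℝ)) := by
     refine Ex_mono hq0 fun w hw => ?_
     have hkk4 : kk w ≤ P1 := by rw [hkk]; exact k3_le
     have hWk := hpk w hw
     have hsle : sv w ≤ Pt - kk w := by
       rw [hsv]
       simp only [s3]
       split_ifs
       · exact le_rfl
       · exact Nat.zero_le _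
     have hs1 : sv w ≤ Pt - W := hsle.trans (by omega)
     -- in the last case the number of digits is large
     have hs2 : ¬ cC w → ¬ cA w → sv w ≤ Pt - (W + lam) := by
       intro g1 g2
       by_cases hkl : kk w < P1
       · have hs : sv w = Pt - kk w := by
           rw [hsv]; simp only [s3]; rw [if_pos hkl]
         have hB : d3 i0 iu iN W lam (z w.1) (z w.2) =
             |(z w.1).s - (z w.2).s| / 2 ^ (W + lam) := by
           rw [hcC, hvel] at g1
           rw [hcA] at g2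
           rcases d3_cases i0 iu iN W lam (z w.1) (z w.2) with h | h | h
           · exact absurd h g1
           · exact absurd h g2
           · exact h
         have h1 : 96 * C / 2 ^ (kk w + 1) < d3 i0 iu iN W lam (z w.1) (z w.2) := by
           rw [hkk] at hkl ⊢
           exact lt_d3 hkl
         have p1 : 0 < F.p w.1 := m1.pos hq0 hw
         have p2 : 0 < F.p w.2 := m2.pos hq0 hw
         have hs8 : |(z w.1).s - (z w.2).s| ≤ 8 := by
           have := abs_sub (z w.1).s (z w.2).s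
           linarith only [this, H, p1, p2, (H.hI _ p1).s_le, (H.hI _ p2).s_le]
         rw [hB] at h1
         have h2 : 96 * C / 2 ^ (kk w + 1) < 8 / 2 ^ (W + lam) :=
           h1.trans_le (div_le_div_of_nonneg_right hs8 (by positivity))
         have h5 : W + lam ≤ kk w := by
           by_contra hcon
           push Not at hcon
           have h3 : (2 : ℝ) ^ (kk w + 1) ≤ 2 ^ (W + lam) :=
             pow_le_pow_right₀ (by norm_num) (by omega)
           have h4 : (8 : ℝ) / 2 ^ (W + lam) ≤ 96 * C / 2 ^ (kk w + 1) :=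
             div_le_div₀ (by positivity) (by linarith only [hC]) (by positivity) h3
           linarith only [h2, h4]
         exact by
          rw [hs]
          omega
       · have hs : sv w = 0 := by
           exact by
            rw [hsv]; simp only [s3]; rw [if_neg hkl]
         rw [hs]
         exact Nat.zero_le _
     exact by
      have e4 : (∑ i, a i w) = a 0 w + a 1 w + a 2 w + a 3 w + a 4 w + a 5 w := by
        rw [Fin.sum_univ_six]
      have f0 : a 0 w = if cC w then Pt - W else J - W := by rw [ha]; rfl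
      have f1 : a 1 w = if cC w then Pt - (W + lam) else if cA w then Pt - (W + lam) else 0 := by
        rw [ha]; rfl
      have f2 : a 2 w = if cC w then J - W - sv w else 0 := by rw [ha]; rfl
      have f3 : a 3 w = if cC w then 0 else if cA w then Pt - W - sv w else Pt - W := by
        rw [ha]; rfl
      have f4 : a 4 w = if cC w then 0 else if cA w then 0 else Pt - (W + lam) - sv w := by
        rw [ha]; rfl
      have f5 : a 5 w = 0 := by rw [ha]; rfl
      have key : (∑ i, a i w) + sv w = (J - W) + (Pt - W) + (Pt - (W + lam)) := by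
        rw [e4, f0, f1, f2, f3, f4, f5]
        by_cases hc : cC w
        · simp only [if_pos hc]
          omega
        · simp only [if_neg hc]
          by_cases hc' : cA w
          · simp only [if_pos hc']
            omega
          · simp only [if_neg hc']
            have := hs2 hc hc'
            omega
      have key' : ((∑ i, a i w : ℕ) : ℝ) + sv w = ((J : ℝ) - W) + ((Pt : ℝ) - W) +
          ((Pt : ℝ) - (W + lam : ℕ)) := by
        rw [← Nat.cast_sub hWJ, ← Nat.cast_sub hWQ, ← Nat.cast_sub hWlQ]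
        exact_mod_cast key
      linarith only [key']
   exact by
    have hl : 0 ≤ Real.log 2 := Real.log_nonneg (by norm_num)
    have e5 := mul_le_mul_of_nonneg_right e3 hl
    rw [hsv] at e5
    have e6 : ∑ _i : Fin 6, Real.log (2 * (4 * C + 100) + 1) =
        6 * Real.log (2 * (4 * C + 100) + 1) := by
      rw [Finset.sum_const, Finset.card_univ, Fintype.card_fin, nsmul_eq_mul]
      norm_num
    rw [e6]
    linarith only [e5]

end FQ

end Pool.KS6
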