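import Pool.Agent.H77.S6.FQ6

/-!
# The entropy inequality: two planks through a truncated point are often close
-/

set_option autoImplicit false

namespace Pool.KS6

open Finset Real
open Pool.Agent.H49.Ent Pool.Agent.H32.Dense Pool.STK Pool.KA Pool.KSAT Pool.K3 Pool.K2S

section FQ

variable {J : ℕ} {F : Fam 3 J} {Qt Pt : ℕ} {i0 iu iN : Fin 3} {W lam P1 : ℕ} {C : ℝ}
  {z : F.Ω → Pln}

/-- The truncated point given its plank, with time. -/
lemma tq_ge (hWJ : W ≤ J) {ε : ℝ} (he : F.Tm ε) (hz : Det F.p (slam F W) z) :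
    ((J : ℝ) - W) * Real.log 2 - ε + CH F.p (F.X Qt) (fun ω => (z ω, F.W ω)) ≤
      CH F.p (ptq F Qt) (fun ω => (z ω, vW F W ω)) := by
  have hp0 := F.isLaw.nonneg
  have h1 := time_digits F (w := W) (K := J - W) (by omega) he
  have hJ : W + (J - W) = J := by omega
  rw [hJ, Nat.cast_sub hWJ] at h1
  have hT1 : ∀ ω, F.T1 J ω = F.T ω := by
    intro ω
    unfold Fam.T1
    rw [Nat.sub_self, pow_zero, Nat.div_one]
  have c1 : CH F.p (fun ω => (F.X Qt ω, F.T ω)) (fun ω => (z ω, vW F W ω)) ≤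
      CH F.p (ptq F Qt) (fun ω => (z ω, vW F W ω)) := by
    refine CH_mono_left hp0 fun ω ω' _ _ h => ?_
    simp only [ptq, Prod.mk.injEq] at h
    obtain ⟨⟨h1, h2⟩, -⟩ := h
    have h3 : F.T ω = F.T ω' := (Prod.ext_iff.mp h2).1
    exact Prod.ext h1 h3
  have c2 := CH_chain hp0 (F.X Qt) F.T (fun ω => (z ω, vW F W ω))
  have d1 : CH F.p (fun ω => (F.T1 J ω : ℤ)) (slam F W) ≤
      CH F.p F.T (fun ω => (z ω, vW F W ω)) := by
    have e1 : CH F.p (fun ω => (F.T1 J ω : ℤ)) (slam F W) ≤ CH F.p F.T (slam F W) := by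
      refine CH_mono_left hp0 fun ω ω' _ _ h => ?_
      have h2 : F.T ω = F.T ω' := (Prod.ext_iff.mp h).1
      change ((F.T1 J ω : ℕ) : ℤ) = ((F.T1 J ω' : ℕ) : ℤ)
      rw [hT1, hT1, h2]
    refine e1.trans (CH_mono_cond hp0 fun ω ω' hω hω' h => ?_)
    refine Prod.ext (hz ω ω' hω hω' h) ?_
    simp only [slam, Prod.mk.injEq] at h
    exact Prod.ext h.2.2 h.2.1
  have d2 : CH F.p (F.X Qt) (fun ω => (z ω, F.W ω)) ≤
      CH F.p (F.X Qt) (fun ω => (F.T ω, (z ω, vW F W ω))) := by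
    refine CH_mono_cond hp0 fun ω ω' _ _ h => ?_
    obtain ⟨h1, h2⟩ := Prod.ext_iff.mp h
    have h3 : F.T ω = F.T ω' := (Prod.ext_iff.mp h2).1
    have h4 : F.Z ω = F.Z ω' := (Prod.ext_iff.mp h2).2
    refine Prod.ext h3 (Prod.ext h1 (Prod.ext ?_ h4))
    change F.T ω / 2 ^ (J - W) = F.T ω' / 2 ^ (J - W)
    rw [h3]
  rw [c2] at c1
  linarith

/-- The rows between the thickness and the row, given the two planks. -/
lemma St_rows (hPQ : Pt ≤ Qt) {T : Type} (Y : F.Ω × F.Ω → T) :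
    CH (dbl F.p (ptq F Qt)) (fun w => ptq F Qt w.1) Y ≤
      CH (dbl F.p (ptq F Qt)) (fun w => ptq F Pt w.1) Y +
        3 * ((Qt : ℝ) - Pt) * Real.log 2 := by
  obtain ⟨hql, m1, -⟩ := dblq_law F Qt
  obtain ⟨q, hq⟩ : ∃ q, q = dbl F.p (ptq F Qt) := ⟨_, rfl⟩
  rw [← hq] at hql m1 ⊢
  have hq0 := hql.nonneg
  have c1 : CH q (fun w => ptq F Qt w.1) Y ≤
      CH q (fun w => (F.X Qt w.1, ptq F Pt w.1)) Y := by
    refine CH_mono_left hq0 fun w w' _ _ h => ?_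
    simp only [ptq, Prod.mk.injEq] at h
    obtain ⟨⟨h1, -, h3⟩, -⟩ := h
    exact Prod.ext h1 h3
  have c2 := CH_chain hq0 (fun w : F.Ω × F.Ω => F.X Qt w.1) (fun w => ptq F Pt w.1) Y
  have c3 : CH q (fun w => F.X Qt w.1) (fun w => (ptq F Pt w.1, Y w)) ≤
      3 * ((Qt : ℝ) - Pt) * Real.log 2 := by
    have e1 : CH q (fun w => F.X Qt w.1) (fun w => (F.X Pt w.1, F.W w.1)) =
        CH F.p (F.X Qt) (fun ω => (F.X Pt ω, F.W ω)) :=
      m1.CH (F.X Qt) (fun ω => (F.X Pt ω, F.W ω))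
    have e2 : CH F.p (F.X Qt) (fun ω => (F.X Pt ω, F.W ω)) ≤
        3 * ((Qt : ℝ) - Pt) * Real.log 2 := by
      obtain ⟨n, rfl⟩ := Nat.exists_eq_add_of_le hPQ
      have := Pool.KA.TRC.CH_floor F.isLaw F.x F.W Pt n
      push_cast at this ⊢
      rw [add_sub_cancel_left, mul_assoc]
      exact this
    refine le_trans (CH_mono_cond hq0 fun w w' _ _ h => ?_) (e1.le.trans e2)
    exact (Prod.ext_iff.mp h).1
  rw [c2] at c1
  linarith

/-- **The inequality.** If the planks of two samples of a truncated point rarely agree to `P1`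
digits, the rows between `P1` and `Qt` are nearly full. -/
theorem fq_main (H : FQH F Qt Pt i0 iu iN W lam P1 C z) {ε ρ : ℝ} (he : F.Tm ε)
    (hz : Det F.p (slam F W) z)
    (hρ : CH F.p (F.X Qt) (fun ω => (F.X P1 ω, F.W ω)) ≤ ρ) :
    3 * ((Qt : ℝ) - P1) * Real.log 2 ≤
      2 * ((((Qt : ℝ) - W) + ((Qt : ℝ) - (W + lam : ℕ))) * Real.log 2 -
        CH F.p (F.X Qt) (fun ω => (z ω, F.W ω))) + 2 * ((Qt : ℝ) - Pt) * Real.log 2 +
      2 * ε + ρ +
      ((Pt : ℝ) - P1) * Pe (dbl F.p (ptq F Qt))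
        (fun w => kq F i0 iu iN W lam P1 C z w = P1) * Real.log 2 +
      (3 * Real.log (2 * (10 * C + 11) + 1) + 6 * Real.log (2 * (4 * C + 100) + 1) +
        3 * Real.log (P1 + 1) + 2 * cRq C) := by
  classical
  obtain ⟨hql, m1, m2⟩ := dblq_law F Qt
  have hWJ : W ≤ J := by
    have h1 := H.h1
    have h2 := H.h2
    have h3 := H.h3
    have h4 := H.hQJ
    omega
  obtain ⟨Rp, hRp⟩ := exists_rep F W lam z
  have hV : Det F.p (ptq F Qt) (vW F W) := by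
    intro ω ω' _ _ h
    have h2 : F.W ω = F.W ω' := (Prod.ext_iff.mp h).2
    have h3 : F.T ω = F.T ω' := (Prod.ext_iff.mp h2).1
    have h4 : F.Z ω = F.Z ω' := (Prod.ext_iff.mp h2).2
    refine Prod.ext ?_ h4
    change F.T ω / 2 ^ (J - W) = F.T ω' / 2 ^ (J - W)
    rw [h3]
  have h0 := two_coarse F.isLaw (ptq F Qt) z (vW F W) hV (kq F i0 iu iN W lam P1 C z)
    (Rq F i0 iu iN W lam z (kq F i0 iu iN W lam P1 C z) Rp) (M := P1) (cR := cRq C)
    (fun w => k3_le) (Rq_det Rp) (Rq_le H hRp)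
  have h1 := tq_ge (Qt := Qt) hWJ he hz
  have h2 := Pt_le H hRp hρ
  have h3 := St_le H
  have h4 := St_rows (F := F) H.h3
    (fun w => (z w.1, (z w.2, (vW F W w.1, kq F i0 iu iN W lam P1 C z w))))
  obtain ⟨q, hq⟩ : ∃ q, q = dbl F.p (ptq F Qt) := ⟨_, rfl⟩
  obtain ⟨kk, hkk⟩ : ∃ kk, kk = kq F i0 iu iN W lam P1 C z := ⟨_, rfl⟩
  have hk1 : ∀ w, kk w ≤ P1 := by
    intro w
    rw [hkk]
    exact k3_le
  rw [← hq] at hql h0 h2 h3 h4 ⊢
  rw [← hkk] at h0 h2 h3 h4 ⊢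
  -- the means
  have e1 : Ex q (fun w => (P1 : ℝ) - kk w) + Ex q (fun w => (((J : ℝ) - W) + ((Pt : ℝ) - W) +
        ((Pt : ℝ) - (W + lam : ℕ))) - (s3 Pt P1 (kk w) : ℝ)) =
      (((J : ℝ) - W) + ((Pt : ℝ) - W) + ((Pt : ℝ) - (W + lam : ℕ))) -
        ((Pt : ℝ) - P1) + ((Pt : ℝ) - P1) * Pe q (fun w => kk w = P1) := by
    rw [← Ex_add]
    have e2 : ∀ w, ((P1 : ℝ) - kk w) + ((((J : ℝ) - W) + ((Pt : ℝ) - W) +
        ((Pt : ℝ) - (W + lam : ℕ))) - (s3 Pt P1 (kk w) : ℝ)) =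
        ((((J : ℝ) - W) + ((Pt : ℝ) - W) + ((Pt : ℝ) - (W + lam : ℕ))) - ((Pt : ℝ) - P1)) +
        ((Pt : ℝ) - P1) * (if kk w = P1 then 1 else 0) := by
      intro w
      by_cases h : kk w = P1
      · rw [if_pos h, h]
        have : s3 Pt P1 P1 = 0 := by
          simp only [s3]; rw [if_neg (lt_irrefl _)]
        rw [this]
        push_cast
        ring
      · rw [if_neg h]
        have hlt : kk w < P1 := lt_of_le_of_ne (hk1 w) h
        have : s3 Pt P1 (kk w) = Pt - kk w := by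
          simp only [s3]; rw [if_pos hlt]
        rw [this, Nat.cast_sub (by have := H.h2; omega)]
        ring
    simp only [e2]
    rw [Ex_add, Ex_const hql.sum_one]
    congr 1
    rw [Pe_eq]
    unfold Ex
    rw [Finset.mul_sum]
    refine Finset.sum_congr rfl fun w _ => ?_
    by_cases h : kk w = P1
    · simp only [if_pos h]
      ring
    · simp only [if_neg h]
      ring
  have e2 : Ex q (fun w => (P1 : ℝ) - kk w) * Real.log 2 +
      Ex q (fun w => (((J : ℝ) - W) + ((Pt : ℝ) - W) +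
        ((Pt : ℝ) - (W + lam : ℕ))) - (s3 Pt P1 (kk w) : ℝ)) * Real.log 2 =
      ((((J : ℝ) - W) + ((Pt : ℝ) - W) + ((Pt : ℝ) - (W + lam : ℕ))) -
        ((Pt : ℝ) - P1) + ((Pt : ℝ) - P1) * Pe q (fun w => kk w = P1)) * Real.log 2 := by
    rw [← add_mul, e1]
  have e3 : ((((J : ℝ) - W) + ((Pt : ℝ) - W) + ((Pt : ℝ) - (W + lam : ℕ))) -
        ((Pt : ℝ) - P1) + ((Pt : ℝ) - P1) * Pe q (fun w => kk w = P1)) * Real.log 2 =
      ((J : ℝ) - W) * Real.log 2 + (((Qt : ℝ) - W) + ((Qt : ℝ) - (W + lam : ℕ))) * Real.log 2 -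
        2 * ((Qt : ℝ) - Pt) * Real.log 2 - ((Pt : ℝ) - P1) * Real.log 2 +
        ((Pt : ℝ) - P1) * Pe q (fun w => kk w = P1) * Real.log 2 := by ring
  have e4 : (((J : ℝ) - W) + ((P1 : ℝ) - W) + ((P1 : ℝ) - (W + lam : ℕ))) * Real.log 2 =
      ((J : ℝ) - W) * Real.log 2 + (((Qt : ℝ) - W) + ((Qt : ℝ) - (W + lam : ℕ))) * Real.log 2 -
        2 * ((Qt : ℝ) - P1) * Real.log 2 := by ring
  have e5 : ((Pt : ℝ) - P1) * Real.log 2 = ((Qt : ℝ) - P1) * Real.log 2 -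
      ((Qt : ℝ) - Pt) * Real.log 2 := by ring
  rw [e3] at e2
  rw [e4] at h2
  linarith

end FQ

end Pool.KS6
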