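import Pool.Agent.H77.S6.FQ7
import Pool.Agent.H77.S6.LAB4

/-!
# A visible plank from two close planks of the truncated point; production
-/

set_option autoImplicit false

namespace Pool.KS6

open Finset Real
open Pool.Agent.H49.Ent Pool.Agent.H32.Dense Pool.STK Pool.KA Pool.KSAT Pool.K3 Pool.K2S

/-- The two laws of pairs. -/
lemma dbl_cpy {Ω T : Type} [Fintype Ω] (q : Ω → ℝ) (b : Ω → T) (w : Ω × Ω) :
    dbl q b w = cpy q b w := by
  classical
  obtain ⟨x, y⟩ := w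
  by_cases h : b x = b y
  · unfold dbl glue cpy
    simp only [h, if_true]
  · unfold dbl glue cpy
    simp [h]

/-- Back from gauges to the line in the plank. -/
lemma Inc_of_gz {i0 iu iN : Fin 3} {W lam P : ℕ} {C t : ℝ} {y : Pln} {x d : Fin 3 → ℝ}
    (he : |y.e| ≤ 2) (hc : |y.c| ≤ 4) (hs : |y.s| ≤ 4)
    (h1 : Gz i0 iu iN W lam P y C (fun i => x i - bs y t i))
    (h2 : Gz i0 iu iN W lam P y C (fun i => (d i - y.db i) / 2 ^ W)) :
    Inc i0 iu iN W lam P C y t x d := by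
  have p0 : (0 : ℝ) < 2 ^ W := by positivity
  refine ⟨he, hc, hs, h1.g0, ?_, ?_, ?_, ?_, ?_⟩
  · have e1 : fu i0 iu y.e (fun i => x i - bs y t i) =
        fu i0 iu y.e x - fu i0 iu y.e (fun i => y.xb i + t * y.db i) := by
      unfold fu bs; ring
    rw [← e1]
    exact h1.g1
  · have e1 : fn i0 iu iN y.c y.s (fun i => x i - bs y t i) =
        fn i0 iu iN y.c y.s x - fn i0 iu iN y.c y.s (fun i => y.xb i + t * y.db i) := by
      unfold fn bs; ring
    rw [← e1]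
    exact h1.g2
  · have e1 := h2.g0
    simp only [abs_div, abs_of_pos p0] at e1
    exact (div_le_div_iff_of_pos_right p0).1 e1
  · have e1 : fu i0 iu y.e (fun i => (d i - y.db i) / 2 ^ W) =
        (fu i0 iu y.e d - fu i0 iu y.e y.db) / 2 ^ W := by unfold fu; ring
    have e2 := h2.g1
    rw [e1, abs_div, abs_of_pos p0, pow_add, mul_comm ((2 : ℝ) ^ W), ← div_div] at e2
    exact (div_le_div_iff_of_pos_right p0).1 e2
  · have e1 : fn i0 iu iN y.c y.s (fun i => (d i - y.db i) / 2 ^ W) =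
        (fn i0 iu iN y.c y.s d - fn i0 iu iN y.c y.s y.db) / 2 ^ W := by unfold fn; ring
    have e2 := h2.g2
    rw [e1, abs_div, abs_of_pos p0, div_le_iff₀ p0] at e2
    refine e2.trans (le_of_eq ?_)
    ring

/-- The constant of the visible plank. -/
noncomputable def cP (C : ℝ) : ℝ :=
  (1 + 2 * (96 * C + (96 * C) ^ 2)) * C +
    ((1 + 2 * (96 * C + (96 * C) ^ 2)) * C + 9 + C) + (3 * C + 6 + 96 * C + 2)

lemma one_le_cP {C : ℝ} (hC : 1 ≤ C) : 1 ≤ cP C := by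
  unfold cP
  have h1 : 0 ≤ (1 + 2 * (96 * C + (96 * C) ^ 2)) * C := by positivity
  linarith

/-- The windows of length `1 / 2 ^ W` from finer windows. -/
lemma slam_coarse {J : ℕ} (F : Fam 3 J) {W v : ℕ} (h1 : W ≤ v) (h2 : v ≤ J) (ω : F.Ω) :
    ((slam F v ω).1, ((slam F v ω).2.1, (slam F v ω).2.2 / 2 ^ (v - W))) = slam F W ω := by
  have e := T1_div F (w := W) (K := v - W) (by omega) ω
  have hv : W + (v - W) = v := by omega
  rw [hv] at e
  unfold slam
  simp only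
  rw [e]

section FQ

variable {J : ℕ} {F : Fam 3 J} {Qt Pt : ℕ} {i0 iu iN : Fin 3} {W lam P1 : ℕ} {C : ℝ}
  {z : F.Ω → Pln}

/-- **Production at the truncated points.** -/
theorem fq_lab (H : FQH F Qt Pt i0 iu iN W lam P1 C z)
    {ψ : ((Fin 3 → ℝ) × (Fin 3 → ℝ)) × F.ζ × ℕ → Pln}
    (hψ : ∀ ω, 0 < F.p ω → z ω = ψ (slam F W ω)) {v nK : ℕ} (hWv : W ≤ v)
    (hnK : 96 * C + (96 * C) ^ 2 ≤ 2 ^ nK) (h1 : W + lam + nK ≤ P1) (h2 : v + lam ≤ Qt)
    {β : ℝ} (hβ0 : 0 < β)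
    (hβ : β ≤ Pe (dbl F.p (ptq F Qt)) (fun w => kq F i0 iu iN W lam P1 C z w = P1)) :
    ∃ B : F.Ω → Prop, (∀ ω, B ω → 0 < F.p ω) ∧
      Real.exp (-(8 * (3 * Real.log 15 + 6 * Real.log (16 * cP C + 21)))) / 2 * β ≤
        Pe F.p B ∧ LABq F Qt i0 iu iN v lam (P1 - nK) 2 B := by
  classical
  have hC := H.hC
  have hC0 : 0 ≤ C := by linarith
  have hp := F.isLaw
  have hp0 := hp.nonneg
  obtain ⟨K, hK⟩ : ∃ K, K = 96 * C := ⟨_, rfl⟩
  have hK0 : 0 ≤ K := by rw [hK]; positivity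
  obtain ⟨A1, hA1⟩ : ∃ A1, A1 = (1 + 2 * (K + K ^ 2)) * C + 9 + C := ⟨_, rfl⟩
  obtain ⟨A2, hA2⟩ : ∃ A2, A2 = 3 * C + 6 + K + 2 := ⟨_, rfl⟩
  have hA10 : 0 ≤ A1 := by rw [hA1]; positivity
  have hA20 : 0 ≤ A2 := by rw [hA2]; positivity
  have hcP : cP C = (1 + 2 * (K + K ^ 2)) * C + A1 + A2 := by
    unfold cP; rw [hA1, hA2, hK]
  obtain ⟨r, hr⟩ : ∃ r : F.Ω → F.Ω → Prop, r = fun ω ω' =>
    kq F i0 iu iN W lam P1 C z (ω, ω') = P1 ∧ 0 < F.p ω ∧ 0 < F.p ω' ∧
      ptq F Qt ω = ptq F Qt ω' := ⟨_, rfl⟩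
  have : Nonempty F.Ω := by
    by_contra hcon
    rw [not_nonempty_iff] at hcon
    have := hp.sum_one
    rw [Finset.univ_eq_empty, Finset.sum_empty] at this
    norm_num at this
  have hβ' : β ≤ Pe (cpy F.p (ptq F Qt)) (fun w => r (id w.1) (id w.2)) := by
    refine hβ.trans ?_
    rw [Pe_eq, Pe_eq]
    refine Finset.sum_le_sum fun w _ => ?_
    have hw0 : 0 ≤ dbl F.p (ptq F Qt) w := glue_nonneg hp0 hp0 w
    by_cases hw : 0 < dbl F.p (ptq F Qt) w
    · by_cases hk : kq F i0 iu iN W lam P1 C z w = P1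
      · rw [if_pos hk, if_pos, dbl_cpy]
        obtain ⟨a1, a2, a3, -⟩ := dblq_pos hw
        rw [hr]
        exact ⟨hk, a1, a2, a3⟩
      · rw [if_neg hk]
        rw [← dbl_cpy]
        split_ifs
        · exact hw0
        · exact le_rfl
    · have h0 : dbl F.p (ptq F Qt) w = 0 := le_antisymm (not_lt.1 hw) hw0
      rw [← dbl_cpy, h0]
      split_ifs <;> exact le_rfl
  obtain ⟨ζ, hζ⟩ := exists_fn_of_cpy hp (id : F.Ω → F.Ω) (ptq F Qt) r hβ'
  obtain ⟨A, hA⟩ : ∃ A : F.Ω → Prop, A = fun ω => r (id ω) (ζ (ptq F Qt ω)) := ⟨_, rfl⟩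
  rw [← hA] at hζ
  have hAp : 0 < Pe F.p A := lt_of_lt_of_le hβ0 hζ
  have hAr : ∀ ω, A ω → kq F i0 iu iN W lam P1 C z (ω, ζ (ptq F Qt ω)) = P1 ∧
      0 < dbl F.p (ptq F Qt) (ω, ζ (ptq F Qt ω)) := by
    intro ω hω
    rw [hA, hr] at hω
    obtain ⟨a1, a2, a3, a4⟩ := hω
    exact ⟨a1, (glue_pos_iff hp0 hp0 _).2 ⟨a2, a3, a4⟩⟩
  have hv : v ≤ J := by
    have := H.hQJ
    omega
  obtain ⟨B, hB1, hB2, hB3⟩ := lab_prod F H.hQJ H.hi (v := v) (W := W) (lam := lam) (P := P1)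
    (l2 := lam) (sg := P1 - (W + lam) - nK) (ag := P1 - W - nK) (P2 := P1 - nK) (C := cP C)
    (one_le_cP hC) hAp (y := fun ω => z (ζ (ptq F Qt ω))) (by
      intro ω hω
      obtain ⟨a1, a2⟩ := hAr ω hω
      obtain ⟨b1, b2, b3, b4, b5, b6⟩ := pair_k H a2
      rw [a1, ← hK] at b4 b5 b6
      rw [← hA1] at b5
      rw [← hA2] at b6
      obtain ⟨c1, c2, -⟩ := dblq_pos a2
      have I1 := H.hI _ c1
      have I2 := H.hI _ c2
      obtain ⟨g1, g2⟩ := I1.gz (k := P1) hC0 H.h2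
      have hF := b4.symm
      have k1 := (g1.change hF).add b5
      have k2 := (g2.change hF).add b6
      refine Inc_of_gz I2.e_le I2.c_le I2.s_le ?_ ?_
      · have e1 : (fun i => F.x ω i - bs (z ω) (F.t ω) i +
            (bs (z ω) (F.t ω) i - bs (z (ζ (ptq F Qt ω))) (F.t ω) i)) =
            fun i => F.x ω i - bs (z (ζ (ptq F Qt ω))) (F.t ω) i := by
          funext i; ring
        simp only at k1
        rw [e1] at k1
        refine k1.mono ?_
        rw [hcP]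
        linarith
      · have e1 : (fun i => (F.d ω i - (z ω).db i) / 2 ^ W +
            ((z ω).db i - (z (ζ (ptq F Qt ω))).db i) / 2 ^ W) =
            fun i => (F.d ω i - (z (ζ (ptq F Qt ω))).db i) / 2 ^ W := by
          funext i; ring
        simp only at k2
        rw [e1] at k2
        refine k2.mono ?_
        rw [hcP]
        linarith)
    (φ := fun s => z (ζ s)) (fun ω _ => rfl)
    (ζ := fun s => ψ (s.1, (s.2.1, s.2.2 / 2 ^ (v - W)))) (by
      intro ω hω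
      obtain ⟨a1, a2⟩ := hAr ω hω
      obtain ⟨b1, b2, b3, b4, -, -⟩ := pair_k H a2
      rw [a1, ← hK] at b4
      obtain ⟨c1, c2, -⟩ := dblq_pos a2
      have e0 : ψ ((slam F v ω).1, ((slam F v ω).2.1, (slam F v ω).2.2 / 2 ^ (v - W))) = z ω := by
        rw [slam_coarse F hWv hv ω, hψ ω c1]
      rw [e0]
      have hF := b4.symm
      have he := H.he _ _ c1 c2 (dblq_pos a2).2.2.1
      have hnK' : K + K ^ 2 ≤ 2 ^ nK := by rw [hK]; exact hnK
      have hP : (0 : ℝ) < 2 ^ P1 := by positivity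
      refine ⟨?_, ?_, ?_⟩
      · rw [abs_sub_comm]
        exact he
      · refine hF.f1.trans ?_
        rw [div_le_div_iff₀ hP (by positivity), one_mul, mul_assoc, ← pow_add]
        have e2 : W + lam + (P1 - (W + lam) - nK) = P1 - nK := by omega
        rw [e2]
        have e3 : (2 : ℝ) ^ P1 = 2 ^ nK * 2 ^ (P1 - nK) := by
          rw [← pow_add]; congr 1; omega
        rw [e3]
        exact mul_le_mul_of_nonneg_right hnK' (by positivity)
      · refine hF.f2.trans ?_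
        rw [div_le_div_iff₀ hP (by positivity), one_mul, mul_assoc, ← pow_add]
        have e2 : W + (P1 - W - nK) = P1 - nK := by omega
        rw [e2]
        have e3 : (2 : ℝ) ^ P1 = 2 ^ nK * 2 ^ (P1 - nK) := by
          rw [← pow_add]; congr 1; omega
        rw [e3]
        exact mul_le_mul_of_nonneg_right hnK' (by positivity))
    le_rfl h2 (by omega) (by omega) (by omega) (by have := H.h2; have := H.h3; omega)
  refine ⟨B, fun ω hω => ?_, ?_, hB3⟩
  · have := hB1 ω hω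
    rw [hA, hr] at this
    exact this.2.1
  · refine le_trans ?_ hB2
    exact mul_le_mul_of_nonneg_left hζ (by positivity)

end FQ

end Pool.KS6
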