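import Pool.Agent.H77.S6.Near

/-!
# One frame per box

A point of a box has coordinates `(y, n)`; it lies on a sheet `n = n0 + sg . y` given by its label
`Z`. If `y` is full given the sheet and the digits of `n` given `y` are unsaturated, then the
direction `sg` of the sheet is known from the point, up to a fixed proportion of the digits.
-/

set_option autoImplicit false

namespace Pool.KS6

open Finset Real
open Pool.Agent.H49.Ent Pool.Agent.H32.Dense Pool.STK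

/-- Laws of density at most `exp κ` with respect to `p`. -/
def SubLaw {Ω : Type} [Fintype Ω] (p : Ω → ℝ) (κ : ℝ) (q : Ω → ℝ) : Prop :=
  IsLaw q ∧ ∀ ω, q ω ≤ Real.exp κ * p ω

/-- The point rounded to `i` digits, together with `W`. -/
noncomputable def bx {Ω V : Type} {m : ℕ} (n : Ω → ℝ) (y : Ω → Fin m → ℝ) (W : Ω → V) (i : ℕ)
    (ω : Ω) : ℤ × (Fin m → ℤ) × V := (⌊2 ^ i * n ω⌋, Fl y i ω, W ω)

lemma floor_sub_le' (x y : ℝ) : |((⌊x⌋ - ⌊y⌋ : ℤ) : ℝ)| ≤ |x - y| + 1 := by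
  have h1 := Int.floor_le x
  have h2 := Int.lt_floor_add_one x
  have h3 := Int.floor_le y
  have h4 := Int.lt_floor_add_one y
  push_cast
  rw [abs_le]
  have h5 := abs_le.mp (le_refl |x - y|)
  constructor <;> linarith [h5.1, h5.2]

section FR

variable {Ω U V : Type} [Fintype Ω]

lemma marg_fst' (q : Ω × Ω → ℝ) : Marg q (fun ω => ∑ ω', q (ω, ω')) (fun w => w.1) := by
  classical
  intro ω
  rw [Fintype.sum_prod_type, Finset.sum_eq_single ω]
  · simp
  · intro b _ hb; simp [hb]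
  · intro h; exact absurd (Finset.mem_univ _) h

lemma marg_snd' (q : Ω × Ω → ℝ) : Marg q (fun ω => ∑ ω', q (ω', ω)) (fun w => w.2) := by
  classical
  intro ω
  rw [Fintype.sum_prod_type, Finset.sum_comm, Finset.sum_eq_single ω]
  · simp
  · intro b _ hb; simp [hb]
  · intro h; exact absurd (Finset.mem_univ _) h

lemma CH_le_box {m : ℕ} {p : Ω → ℝ} (hp : IsLaw p) (M : ℕ) (Y : Ω → Fin m → ℤ) (Q : Ω → V)
    (hY : ∀ ω, 0 < p ω → ∀ k, 0 ≤ Y ω k ∧ Y ω k < M) : CH p Y Q ≤ m * Real.log M := by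
  classical
  have h3 := CH_le_card hp.nonneg hp.sum_one Y Q
    (fun _ => Fintype.piFinset fun _ : Fin m => Finset.Ico 0 (M : ℤ)) (by
      intro ω hω
      rw [Fintype.mem_piFinset]
      intro j
      rw [Finset.mem_Ico]
      exact hY ω hω j)
  refine h3.trans ?_
  rw [Ex_const hp.sum_one, Fintype.card_piFinset, Finset.prod_const]
  simp

/-- The event of pairs of copies has small probability, or else the numbers are large. -/
theorem fr_event {m : ℕ} {p : Ω → ℝ} (hp : IsLaw p) (i x : ℕ) (y : Ω → Fin (m + 1) → ℝ)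
    (n n0 : Ω → ℝ) (sg : Ω → Fin (m + 1) → ℝ) (Z : Ω → U) (W : Ω → V) (c S A D κ : ℝ)
    (hc : 0 ≤ c) (hS : 0 ≤ S)
    (hy : ∀ ω, 0 < p ω → ∀ k, 0 ≤ y ω k ∧ y ω k < 1)
    (hsg : ∀ ω, 0 < p ω → ∀ k, |sg ω k| ≤ S)
    (hsh : ∀ ω, 0 < p ω → 2 ^ i * |n ω - (n0 ω + ∑ k, sg ω k * y ω k)| ≤ c)
    (hZ1 : Det p (fun ω => (Z ω, W ω)) n0) (hZ2 : Det p (fun ω => (Z ω, W ω)) sg)
    (hreg : ∀ q : Ω → ℝ, SubLaw p κ q →
      (m + 1) * (i * Real.log 2) - D ≤ CH q (Fl y i) (fun ω => (Z ω, W ω)) ∧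
      CH q (fun ω => ⌊2 ^ i * n ω⌋) (fun ω => (Fl y i ω, W ω)) ≤ A)
    (hx : A + 2 * D + κ + Real.log (4 * (1 + 2 * c + 2 * (m + 1) * S) + 1) <
      ((i : ℝ) - x) * Real.log 2) :
    Ex (dbl p (bx n y W i)) (fun w => ind (∃ k, 1 ≤ 2 ^ x * |sg w.1 k - sg w.2 k|)) <
      Real.exp (-κ) := by
  classical
  by_contra hcon
  push Not at hcon
  set B := bx n y W i with hB
  set d := dbl p B with hd
  set E : Ω × Ω → Prop := fun w => ∃ k, 1 ≤ 2 ^ x * |sg w.1 k - sg w.2 k| with hE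
  set P0 := Ex d (fun w => ind (E w)) with hP0
  have hPpos : 0 < P0 := lt_of_lt_of_le (Real.exp_pos _) hcon
  have hd0 : ∀ w, 0 ≤ d w := dbl_nonneg hp.nonneg
  set q : Ω × Ω → ℝ := fun w => d w * ind (E w) / P0 with hq
  have hqlaw : IsLaw q := by
    refine ⟨fun w => div_nonneg (mul_nonneg (hd0 w) (ind_nonneg _)) hPpos.le, ?_⟩
    have : ∑ w, q w = P0 / P0 := by
      rw [hq, ← Finset.sum_div]
      rfl
    rw [this, div_self hPpos.ne']
  have hqd : ∀ w, q w ≤ Real.exp κ * d w := by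
    intro w
    rw [hq]
    dsimp only
    rw [div_le_iff₀ hPpos]
    have h1 : ind (E w) ≤ 1 := by unfold ind; split_ifs <;> norm_num
    have h2 : 1 ≤ Real.exp κ * P0 := by
      have := mul_le_mul_of_nonneg_left hcon (Real.exp_pos κ).le
      rwa [← Real.exp_add, add_neg_cancel, Real.exp_zero] at this
    calc d w * ind (E w) ≤ d w * 1 := mul_le_mul_of_nonneg_left h1 (hd0 w)
      _ ≤ d w * (Real.exp κ * P0) := mul_le_mul_of_nonneg_left h2 (hd0 w)
      _ = Real.exp κ * d w * P0 := by ring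
  have hqE : ∀ w, 0 < q w → 0 < d w ∧ E w := by
    intro w hw
    rw [hq] at hw
    dsimp only at hw
    constructor
    · by_contra h0
      rw [le_antisymm (not_lt.mp h0) (hd0 w)] at hw
      simp at hw
    · by_contra h0
      unfold ind at hw
      rw [if_neg h0] at hw
      simp at hw
  have hqp : ∀ w, 0 < q w → 0 < p w.1 ∧ 0 < p w.2 ∧ B w.1 = B w.2 := fun w hw =>
    (glue_pos_iff hp.nonneg hp.nonneg w).mp (hqE w hw).1
  -- marginals
  set q1 : Ω → ℝ := fun ω => ∑ ω', q (ω, ω') with hq1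
  set q2 : Ω → ℝ := fun ω => ∑ ω', q (ω', ω) with hq2
  have m1 : Marg q q1 (fun w => w.1) := marg_fst' q
  have m2 : Marg q q2 (fun w => w.2) := marg_snd' q
  have s1 : SubLaw p κ q1 := by
    refine ⟨⟨fun ω => Finset.sum_nonneg fun ω' _ => hqlaw.nonneg _, ?_⟩, fun ω => ?_⟩
    · rw [← m1.sum, hqlaw.sum_one]
    · rw [hq1]
      refine (Finset.sum_le_sum fun ω' _ => hqd (ω, ω')).trans ?_
      rw [← Finset.mul_sum]
      exact le_of_eq (by rw [hd, show (∑ ω', dbl p B (ω, ω')) = p ω from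
        glue_fst hp.nonneg (fun _ => rfl) ω])
  have s2 : SubLaw p κ q2 := by
    refine ⟨⟨fun ω => Finset.sum_nonneg fun ω' _ => hqlaw.nonneg _, ?_⟩, fun ω => ?_⟩
    · rw [← m2.sum, hqlaw.sum_one]
    · rw [hq2]
      refine (Finset.sum_le_sum fun ω' _ => hqd (ω', ω)).trans ?_
      rw [← Finset.mul_sum]
      exact le_of_eq (by rw [hd, show (∑ ω', dbl p B (ω', ω)) = p ω from
        glue_snd hp.nonneg (fun _ => rfl) ω])
  obtain ⟨r1, r2⟩ := hreg q1 s1
  obtain ⟨r3, -⟩ := hreg q2 s2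
  -- the two labels inequality
  have t1 := two_labels hqlaw.nonneg (fun w => Fl y i w.1) (fun w => ⌊2 ^ i * n w.1⌋)
    (fun w => Z w.1) (fun w => Z w.2) (fun w => W w.1)
  have t2 : CH q (fun w => Z w.1) (fun w => (⌊2 ^ i * n w.1⌋, Fl y i w.1, W w.1)) ≤
      CH q (fun w => Z w.1) (fun w => (Z w.2, ⌊2 ^ i * n w.1⌋, Fl y i w.1, W w.1)) + κ :=
    event_info hp B hqlaw κ hqd Z
  have t3 : CH q (fun w => Fl y i w.1) (fun w => (Z w.1, W w.1)) =
      CH q1 (Fl y i) (fun ω => (Z ω, W ω)) := m1.CH (Fl y i) (fun ω => (Z ω, W ω))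
  have t4 : CH q (fun w => Fl y i w.1) (fun w => (Z w.2, W w.1)) =
      CH q2 (Fl y i) (fun ω => (Z ω, W ω)) := by
    rw [← m2.CH (Fl y i) (fun ω => (Z ω, W ω))]
    refine CH_congr hqlaw.nonneg ?_ ?_ ?_ ?_
    · intro w w' hw hw' h
      simp only [Prod.mk.injEq] at h
      have e1 := (hqp w hw).2.2
      have e2 := (hqp w' hw').2.2
      simp only [hB, bx, Prod.mk.injEq] at e1 e2
      exact (e1.2.1.symm.trans h.1).trans e2.2.1
    · intro w w' hw hw' h
      simp only [Prod.mk.injEq] at h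
      have e1 := (hqp w hw).2.2
      have e2 := (hqp w' hw').2.2
      simp only [hB, bx, Prod.mk.injEq] at e1 e2
      exact (e1.2.1.trans h.1).trans e2.2.1.symm
    · intro w w' hw hw' h
      simp only [Prod.mk.injEq] at h ⊢
      have e1 := (hqp w hw).2.2
      have e2 := (hqp w' hw').2.2
      simp only [hB, bx, Prod.mk.injEq] at e1 e2
      rw [← e1.2.2, ← e2.2.2]
      exact h
    · intro w w' hw hw' h
      simp only [Prod.mk.injEq] at h ⊢
      have e1 := (hqp w hw).2.2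
      have e2 := (hqp w' hw').2.2
      simp only [hB, bx, Prod.mk.injEq] at e1 e2
      rw [e1.2.2, e2.2.2]
      exact h
  have t5 : CH q (fun w => ⌊2 ^ i * n w.1⌋) (fun w => (Fl y i w.1, W w.1)) =
      CH q1 (fun ω => ⌊2 ^ i * n ω⌋) (fun ω => (Fl y i ω, W ω)) :=
    m1.CH (fun ω => ⌊2 ^ i * n ω⌋) (fun ω => (Fl y i ω, W ω))
  have hyb : ∀ w, 0 < q w → ∀ k, 0 ≤ Fl y i w.1 k ∧ Fl y i w.1 k < ((2 ^ i : ℕ) : ℤ) := by
    intro w hw k
    obtain ⟨h1, h2⟩ := hy w.1 (hqp w hw).1 k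
    have h3 : (0 : ℝ) < 2 ^ i := by positivity
    unfold Fl fl rd
    dsimp only
    constructor
    · exact Int.floor_nonneg.mpr (by positivity)
    · rw [Int.floor_lt]
      push_cast
      nlinarith
  have t6 : CH q (fun w => Fl y i w.1) (fun w => W w.1) ≤
      ((m + 1 : ℕ) : ℝ) * Real.log ((2 ^ i : ℕ) : ℝ) :=
    CH_le_box hqlaw (2 ^ i) (fun w => Fl y i w.1) (fun w => W w.1) hyb
  -- the strip
  set c' : ℝ := 1 + 2 * c + 2 * (m + 1) * S with hc'
  have hc'0 : 0 ≤ c' := by positivity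
  have t7 : CH q (fun w => Fl y i w.1) (fun w => (Z w.1, Z w.2, W w.1)) ≤
      m * Real.log ((2 ^ i : ℕ) : ℝ) + Ex q (fun _ => Real.log (4 * c' * 2 ^ x + 1)) := by
    refine strip_le hqlaw (2 ^ i) (fun w => Fl y i w.1) (fun w => (Z w.1, Z w.2, W w.1))
      (fun w k => sg w.1 k - sg w.2 k) (fun w => 2 ^ i * (n0 w.1 - n0 w.2)) c' (fun _ => 2 ^ x)
      hyb ?_ ?_ ?_ ?_
    · intro w w' hw hw' h
      simp only [Prod.mk.injEq] at h
      obtain ⟨p1, p2, p3⟩ := hqp w hw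
      obtain ⟨p1', p2', p3'⟩ := hqp w' hw'
      simp only [hB, bx, Prod.mk.injEq] at p3 p3'
      have e1 : sg w.1 = sg w'.1 := hZ2 _ _ p1 p1' (by
        simp only [Prod.mk.injEq]; exact ⟨h.1, h.2.2⟩)
      have e2 : sg w.2 = sg w'.2 := hZ2 _ _ p2 p2' (by
        simp only [Prod.mk.injEq]
        exact ⟨h.2.1, by rw [← p3.2.2, ← p3'.2.2]; exact h.2.2⟩)
      dsimp only
      rw [e1, e2]
    · intro w w' hw hw' h
      simp only [Prod.mk.injEq] at h
      obtain ⟨p1, p2, p3⟩ := hqp w hw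
      obtain ⟨p1', p2', p3'⟩ := hqp w' hw'
      simp only [hB, bx, Prod.mk.injEq] at p3 p3'
      have e1 : n0 w.1 = n0 w'.1 := hZ1 _ _ p1 p1' (by
        simp only [Prod.mk.injEq]; exact ⟨h.1, h.2.2⟩)
      have e2 : n0 w.2 = n0 w'.2 := hZ1 _ _ p2 p2' (by
        simp only [Prod.mk.injEq]
        exact ⟨h.2.1, by rw [← p3.2.2, ← p3'.2.2]; exact h.2.2⟩)
      dsimp only
      rw [e1, e2]
    · intro w hw
      obtain ⟨p1, p2, p3⟩ := hqp w hw
      simp only [hB, bx, Prod.mk.injEq] at p3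
      obtain ⟨p4, p5, -⟩ := p3
      have hM : (0 : ℝ) < 2 ^ i := by positivity
      have f1 := hsh w.1 p1
      have f2 := hsh w.2 p2
      have f3 : |(2 ^ i * n w.1 : ℝ) - 2 ^ i * n w.2| ≤ 1 := by
        have := Int.abs_sub_lt_one_of_floor_eq_floor p4
        exact this.le
      have f4 : ∀ k, (0 ≤ 2 ^ i * y w.1 k - (Fl y i w.1 k : ℝ) ∧
          2 ^ i * y w.1 k - (Fl y i w.1 k : ℝ) ≤ 1) := by
        intro k
        unfold Fl fl rd
        dsimp only
        have a1 := Int.floor_le ((2 : ℝ) ^ i * y w.1 k)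
        have a2 := Int.lt_floor_add_one ((2 : ℝ) ^ i * y w.1 k)
        constructor <;> linarith
      have f5 : ∀ k, (0 ≤ 2 ^ i * y w.2 k - (Fl y i w.1 k : ℝ) ∧
          2 ^ i * y w.2 k - (Fl y i w.1 k : ℝ) ≤ 1) := by
        intro k
        rw [p5]
        unfold Fl fl rd
        dsimp only
        have a1 := Int.floor_le ((2 : ℝ) ^ i * y w.2 k)
        have a2 := Int.lt_floor_add_one ((2 : ℝ) ^ i * y w.2 k)
        constructor <;> linarith
      have g1 : |∑ k, sg w.1 k * (2 ^ i * y w.1 k - (Fl y i w.1 k : ℝ))| ≤ (m + 1) * S := by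
        refine (Finset.abs_sum_le_sum_abs _ _).trans ?_
        have : ∀ k ∈ Finset.univ, |sg w.1 k * (2 ^ i * y w.1 k - (Fl y i w.1 k : ℝ))| ≤ S := by
          intro k _
          rw [abs_mul]
          have b1 := hsg w.1 p1 k
          have b2 : |2 ^ i * y w.1 k - (Fl y i w.1 k : ℝ)| ≤ 1 := by
            rw [abs_of_nonneg (f4 k).1]; exact (f4 k).2
          calc |sg w.1 k| * |2 ^ i * y w.1 k - (Fl y i w.1 k : ℝ)| ≤ S * 1 :=
                mul_le_mul b1 b2 (abs_nonneg _) hS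
            _ = S := mul_one S
        refine (Finset.sum_le_sum this).trans ?_
        simp
      have g2 : |∑ k, sg w.2 k * (2 ^ i * y w.2 k - (Fl y i w.1 k : ℝ))| ≤ (m + 1) * S := by
        refine (Finset.abs_sum_le_sum_abs _ _).trans ?_
        have : ∀ k ∈ Finset.univ, |sg w.2 k * (2 ^ i * y w.2 k - (Fl y i w.1 k : ℝ))| ≤ S := by
          intro k _
          rw [abs_mul]
          have b1 := hsg w.2 p2 k
          have b2 : |2 ^ i * y w.2 k - (Fl y i w.1 k : ℝ)| ≤ 1 := by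
            rw [abs_of_nonneg (f5 k).1]; exact (f5 k).2
          calc |sg w.2 k| * |2 ^ i * y w.2 k - (Fl y i w.1 k : ℝ)| ≤ S * 1 :=
                mul_le_mul b1 b2 (abs_nonneg _) hS
            _ = S := mul_one S
        refine (Finset.sum_le_sum this).trans ?_
        simp
      have g3 : 2 ^ i * (n0 w.1 - n0 w.2) + ∑ k, (sg w.1 k - sg w.2 k) * (Fl y i w.1 k : ℝ) =
          (2 ^ i * n w.1 - 2 ^ i * n w.2) -
          2 ^ i * (n w.1 - (n0 w.1 + ∑ k, sg w.1 k * y w.1 k)) +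
          2 ^ i * (n w.2 - (n0 w.2 + ∑ k, sg w.2 k * y w.2 k)) -
          ∑ k, sg w.1 k * (2 ^ i * y w.1 k - (Fl y i w.1 k : ℝ)) +
          ∑ k, sg w.2 k * (2 ^ i * y w.2 k - (Fl y i w.1 k : ℝ)) := by
        have e1 : ∑ k, (sg w.1 k - sg w.2 k) * (Fl y i w.1 k : ℝ) =
            ∑ k, sg w.1 k * (Fl y i w.1 k : ℝ) - ∑ k, sg w.2 k * (Fl y i w.1 k : ℝ) := by
          rw [← Finset.sum_sub_distrib]
          exact Finset.sum_congr rfl fun k _ => by ring
        have e2 : ∀ v : Fin (m + 1) → ℝ, ∀ z : Fin (m + 1) → ℝ,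
            ∑ k, v k * (2 ^ i * z k - (Fl y i w.1 k : ℝ)) =
            2 ^ i * ∑ k, v k * z k - ∑ k, v k * (Fl y i w.1 k : ℝ) := by
          intro v z
          rw [Finset.mul_sum, ← Finset.sum_sub_distrib]
          exact Finset.sum_congr rfl fun k _ => by ring
        rw [e1, e2, e2]
        ring
      have h1 : |2 ^ i * (n w.1 - (n0 w.1 + ∑ k, sg w.1 k * y w.1 k))| ≤ c := by
        rw [abs_mul, abs_of_pos hM]; exact f1
      have h2 : |2 ^ i * (n w.2 - (n0 w.2 + ∑ k, sg w.2 k * y w.2 k))| ≤ c := by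
        rw [abs_mul, abs_of_pos hM]; exact f2
      show |2 ^ i * (n0 w.1 - n0 w.2) + ∑ k, (sg w.1 k - sg w.2 k) * (Fl y i w.1 k : ℝ)| ≤ c'
      rw [g3]
      rw [abs_le] at f3 h1 h2 g1 g2 ⊢
      constructor <;> linarith [f3.1, f3.2, h1.1, h1.2, h2.1, h2.2, g1.1, g1.2, g2.1, g2.2]
    · intro w hw
      refine ⟨by positivity, ?_⟩
      exact (hqE w hw).2
  rw [Ex_const hqlaw.sum_one] at t7
  -- conclusion
  have u1 : Real.log ((2 ^ i : ℕ) : ℝ) = i * Real.log 2 := by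
    push_cast
    rw [Real.log_pow]
  have u2 : Real.log (4 * c' * 2 ^ x + 1) ≤ x * Real.log 2 + Real.log (4 * c' + 1) := by
    rw [← Real.log_pow, ← Real.log_mul (by positivity) (by positivity)]
    refine Real.log_le_log (by positivity) ?_
    have h1 : (1 : ℝ) ≤ 2 ^ x := one_le_pow₀ (by norm_num)
    nlinarith
  rw [u1] at t6 t7
  rw [t3, t4, t5] at t1
  push_cast at t6
  have u3 : ((i : ℝ) - x) * Real.log 2 = i * Real.log 2 - x * Real.log 2 := by ring
  rw [u3] at hx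
  linarith

/-- One frame per box: the direction of the sheet is known from the point. -/
theorem fr_CH {m : ℕ} {p : Ω → ℝ} (hp : IsLaw p) (i x : ℕ) (y : Ω → Fin (m + 1) → ℝ)
    (n n0 : Ω → ℝ) (sg : Ω → Fin (m + 1) → ℝ) (Z : Ω → U) (W : Ω → V) (c S A D κ : ℝ)
    (hc : 0 ≤ c) (hS : 0 ≤ S)
    (hy : ∀ ω, 0 < p ω → ∀ k, 0 ≤ y ω k ∧ y ω k < 1)
    (hsg : ∀ ω, 0 < p ω → ∀ k, |sg ω k| ≤ S)
    (hsh : ∀ ω, 0 < p ω → 2 ^ i * |n ω - (n0 ω + ∑ k, sg ω k * y ω k)| ≤ c)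
    (hZ1 : Det p (fun ω => (Z ω, W ω)) n0) (hZ2 : Det p (fun ω => (Z ω, W ω)) sg)
    (hreg : ∀ q : Ω → ℝ, SubLaw p κ q →
      (m + 1) * (i * Real.log 2) - D ≤ CH q (Fl y i) (fun ω => (Z ω, W ω)) ∧
      CH q (fun ω => ⌊2 ^ i * n ω⌋) (fun ω => (Fl y i ω, W ω)) ≤ A)
    (hx : A + 2 * D + κ + Real.log (4 * (1 + 2 * c + 2 * (m + 1) * S) + 1) <
      ((i : ℝ) - x) * Real.log 2) :
    CH p (Fl sg x) (bx n y W i) ≤ Real.log 2 + (m + 1) * (Real.log 5 +
      Real.exp (-κ) * Real.log (2 * (2 ^ x * (2 * S) + 1) + 1)) := by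
  have h0 := fr_event hp i x y n n0 sg Z W c S A D κ hc hS hy hsg hsh hZ1 hZ2 hreg hx
  have h1 := CH_le_near hp (Fl sg x) (bx n y W i) 1 (2 ^ x * (2 * S) + 1) zero_le_one
    (by positivity) (by
      intro ω ω' hω hω' k
      unfold Fl fl rd
      dsimp only
      have a1 := hsg ω hω k
      have a2 := hsg ω' hω' k
      refine (floor_sub_le' (2 ^ x * sg ω k) (2 ^ x * sg ω' k)).trans ?_
      rw [← mul_sub, abs_mul, abs_of_pos (by positivity : (0 : ℝ) < 2 ^ x)]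
      have a3 : |sg ω k - sg ω' k| ≤ 2 * S := by
        refine (abs_sub _ _).trans ?_
        linarith
      have a4 := mul_le_mul_of_nonneg_left a3 (by positivity : (0 : ℝ) ≤ 2 ^ x)
      linarith) (Real.exp (-κ)) (by
      refine le_trans (Ex_mono (dbl_nonneg hp.nonneg) ?_) h0.le
      intro w hw
      by_cases hE : ∃ k, 1 ≤ 2 ^ x * |sg w.1 k - sg w.2 k|
      · have e1 : ind (∃ k, 1 ≤ 2 ^ x * |sg w.1 k - sg w.2 k|) = 1 := by
          unfold ind; rw [if_pos hE]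
        rw [e1]
        unfold ind
        split_ifs <;> norm_num
      · have e2 : ∀ k, |((Fl sg x w.1 k - Fl sg x w.2 k : ℤ) : ℝ)| ≤ 1 := by
          intro k
          push Not at hE
          have b1 := hE k
          unfold Fl fl rd
          dsimp only
          have b2 : |2 ^ x * sg w.1 k - 2 ^ x * sg w.2 k| < 1 := by
            rw [← mul_sub, abs_mul, abs_of_pos (by positivity : (0 : ℝ) < 2 ^ x)]
            exact b1
          have b3 := floor_sub_le' (2 ^ x * sg w.1 k) (2 ^ x * sg w.2 k)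
          have b4 : |((⌊(2 : ℝ) ^ x * sg w.1 k⌋ - ⌊(2 : ℝ) ^ x * sg w.2 k⌋ : ℤ) : ℝ)| < 2 := by
            linarith
          have b5 : |⌊(2 : ℝ) ^ x * sg w.1 k⌋ - ⌊(2 : ℝ) ^ x * sg w.2 k⌋| < 2 := by
            exact_mod_cast b4
          have b6 : |⌊(2 : ℝ) ^ x * sg w.1 k⌋ - ⌊(2 : ℝ) ^ x * sg w.2 k⌋| ≤ 1 := by omega
          exact_mod_cast b6
        have e3 : ind (¬ ∀ k, |((Fl sg x w.1 k - Fl sg x w.2 k : ℤ) : ℝ)| ≤ 1) = 0 := by
          unfold ind; rw [if_neg (not_not.mpr e2)]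
        rw [e3]
        exact ind_nonneg _)
  have e4 : (4 * 1 + 1 : ℝ) = 5 := by norm_num
  rw [e4] at h1
  push_cast at h1
  exact h1

end FR

end Pool.KS6
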