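import Pool.Agent.H77.S6.FR
import Pool.Agent.H9.K2.Defs2

/-!
# One frame per box, for regular laws

The hypothesis of `fr_CH` on all laws of bounded density follows from the regularity of four
functions.
-/

set_option autoImplicit false

namespace Pool.KS6

open Finset Real
open Pool.Agent.H49.Ent Pool.Agent.H32.Dense Pool.STK Pool.KA

section Reg

variable {Ω S T U V : Type} [Fintype Ω]

lemma SubLaw.le {p q : Ω → ℝ} {κ : ℝ} (hq : SubLaw p κ q) {f : Ω → S} {h e : ℝ}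
    (hf : Rg p f h e) : H q f ≤ h + e := by
  classical
  obtain ⟨ω₀, hω₀⟩ : ∃ ω, 0 < q ω := by
    by_contra hcon
    push Not at hcon
    have h0 : ∑ ω, q ω = 0 :=
      Finset.sum_eq_zero fun ω _ => le_antisymm (hcon ω) (hq.1.nonneg ω)
    have h1 := hq.1.sum_one
    linarith
  set F : Finset S := (Finset.univ.filter (fun ω => p ω ≠ 0)).image f with hF
  have hmem : ∀ ω, 0 < q ω → f ω ∈ F := fun ω hω =>
    Finset.mem_image_of_mem f (Finset.mem_filter.mpr ⟨Finset.mem_univ ω, by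
      intro h0
      have h1 := hq.2 ω
      rw [h0, mul_zero] at h1
      linarith⟩)
  have h1 := H_le_log_card hq.1.nonneg hq.1.sum_one f F hmem
  have h2 : 0 < (F.card : ℝ) := by exact_mod_cast Finset.card_pos.mpr ⟨_, hmem ω₀ hω₀⟩
  have h3 : (F.card : ℝ) ≤ Real.exp (h + e) := hf.1
  have h5 := Real.log_le_log h2 h3
  rw [Real.log_exp] at h5
  linarith

lemma SubLaw.ge {p q : Ω → ℝ} {κ : ℝ} (hq : SubLaw p κ q) {f : Ω → S} {h e : ℝ}
    (hf : Rg p f h e) : h - e - κ ≤ H q f := by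
  unfold H
  have h1 : ∑ ω, q ω * Real.log (law q f (f ω)) ≤ ∑ ω, q ω * (-(h - e - κ)) := by
    refine Finset.sum_le_sum fun ω _ => ?_
    rcases (hq.1.nonneg ω).eq_or_lt with h0 | h0
    · rw [← h0, zero_mul, zero_mul]
    · refine mul_le_mul_of_nonneg_left ?_ h0.le
      have h3 : law q f (f ω) ≤ Real.exp κ * Real.exp (-(h - e)) :=
        (law_le_of_le hq.2 f (f ω)).trans
          (mul_le_mul_of_nonneg_left (hf.2 (f ω)) (Real.exp_pos κ).le)
      rw [← Real.exp_add] at h3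
      have h2 := Real.log_le_log (law_pos hq.1.nonneg f h0) h3
      rw [Real.log_exp] at h2
      linarith
  rw [← Finset.sum_mul, hq.1.sum_one, one_mul] at h1
  linarith

/-- Conditional entropies of regular functions under laws of bounded density. -/
lemma SubLaw.CH_ge {p q : Ω → ℝ} {κ : ℝ} (hq : SubLaw p κ q) {f : Ω → S} {g : Ω → T}
    {h1 h2 e : ℝ} (hf : Rg p (fun ω => (f ω, g ω)) h1 e) (hg : Rg p g h2 e) :
    h1 - h2 - 2 * e - κ ≤ CH q f g := by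
  have a1 := hq.ge hf
  have a2 := hq.le hg
  unfold CH
  linarith

lemma SubLaw.CH_le {p q : Ω → ℝ} {κ : ℝ} (hq : SubLaw p κ q) {f : Ω → S} {g : Ω → T}
    {h1 h2 e : ℝ} (hf : Rg p (fun ω => (f ω, g ω)) h1 e) (hg : Rg p g h2 e) :
    CH q f g ≤ h1 - h2 + 2 * e + κ := by
  have a1 := hq.le hf
  have a2 := hq.ge hg
  unfold CH
  linarith

lemma subLaw_self {p : Ω → ℝ} (hp : IsLaw p) {κ : ℝ} (hκ : 0 ≤ κ) : SubLaw p κ p := by
  refine ⟨hp, fun ω => ?_⟩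
  have h1 : 1 ≤ Real.exp κ := Real.one_le_exp hκ
  have h2 := hp.nonneg ω
  nlinarith

/-- One frame per box, regular case: `hYZ - hZ` is the entropy of the position given the sheet,
`hNY - hY` the entropy of the normal coordinate given the position. -/
theorem fr_reg {m : ℕ} {p : Ω → ℝ} (hp : IsLaw p) (i x : ℕ) (y : Ω → Fin (m + 1) → ℝ)
    (n n0 : Ω → ℝ) (sg : Ω → Fin (m + 1) → ℝ) (Z : Ω → U) (W : Ω → V)
    (c S κ e hYZ hZ hNY hY : ℝ) (hc : 0 ≤ c) (hS : 0 ≤ S)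
    (hy : ∀ ω, 0 < p ω → ∀ k, 0 ≤ y ω k ∧ y ω k < 1)
    (hsg : ∀ ω, 0 < p ω → ∀ k, |sg ω k| ≤ S)
    (hsh : ∀ ω, 0 < p ω → 2 ^ i * |n ω - (n0 ω + ∑ k, sg ω k * y ω k)| ≤ c)
    (hZ1 : Det p (fun ω => (Z ω, W ω)) n0) (hZ2 : Det p (fun ω => (Z ω, W ω)) sg)
    (r1 : Rg p (fun ω => (Fl y i ω, (Z ω, W ω))) hYZ e)
    (r2 : Rg p (fun ω => (Z ω, W ω)) hZ e)
    (r3 : Rg p (fun ω => (⌊2 ^ i * n ω⌋, (Fl y i ω, W ω))) hNY e)
    (r4 : Rg p (fun ω => (Fl y i ω, W ω)) hY e)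
    (hx : (hNY - hY) + 2 * ((m + 1) * (i * Real.log 2) - (hYZ - hZ)) + 6 * e + 4 * κ +
      Real.log (4 * (1 + 2 * c + 2 * (m + 1) * S) + 1) < ((i : ℝ) - x) * Real.log 2) :
    CH p (Fl sg x) (bx n y W i) ≤ Real.log 2 + (m + 1) * (Real.log 5 +
      Real.exp (-κ) * Real.log (2 * (2 ^ x * (2 * S) + 1) + 1)) := by
  refine fr_CH hp i x y n n0 sg Z W c S (hNY - hY + 2 * e + κ)
    ((m + 1) * (i * Real.log 2) - (hYZ - hZ - 2 * e - κ)) κ hc hS hy hsg hsh hZ1 hZ2 ?_ ?_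
  · intro q hq
    have a1 := hq.CH_ge r1 r2
    have a2 := hq.CH_le r3 r4
    exact ⟨by linarith, a2⟩
  · linarith

end Reg

end Pool.KS6
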