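import Pool.Agent.H77.S6.LAB

/-!
# Production of plank labels
-/

set_option autoImplicit false

namespace Pool.KS6

open Finset Real
open Pool.Agent.H49.Ent Pool.Agent.H32.Dense Pool.STK Pool.KA Pool.KSAT Pool.K3 Pool.K2S

section Prod

variable {J : ℕ}

/-- The rounded coordinates of the line at the beginning of the window. -/
noncomputable def kmc (F : Fam 3 J) (i0 iu iN : Fin 3) (v l2 P2 : ℕ) (r : Pln) (ω : F.Ω) :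
    Fin 6 → ℤ :=
  ![⌊(2 : ℝ) ^ v * F.x1 v ω i0⌋, ⌊(2 : ℝ) ^ (v + l2) * fu i0 iu r.e (F.x1 v ω)⌋,
    ⌊(2 : ℝ) ^ P2 * fn i0 iu iN r.c r.s (F.x1 v ω)⌋, ⌊F.d ω i0⌋,
    ⌊(2 : ℝ) ^ l2 * fu i0 iu r.e (F.d ω)⌋, ⌊(2 : ℝ) ^ P2 / 2 ^ v * fn i0 iu iN r.c r.s (F.d ω)⌋]

/-- The plank of the rounded coordinates. -/
noncomputable def plg (i0 iu : Fin 3) (v l2 P2 : ℕ) (R : (Fin 3 → ℤ) → Pln)
    (k : (Fin 6 → ℤ) × (Fin 3 → ℤ)) (τ : ℕ) : Pln where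
  e := (R k.2).e
  c := (R k.2).c
  s := (R k.2).s
  xb := fun i => bp i0 iu (R k.2).e (R k.2).c (R k.2).s ((k.1 0 : ℝ) / 2 ^ v)
      ((k.1 1 : ℝ) / 2 ^ (v + l2)) ((k.1 2 : ℝ) / 2 ^ P2) i - (τ : ℝ) / 2 ^ v *
    bp i0 iu (R k.2).e (R k.2).c (R k.2).s (k.1 3 : ℝ) ((k.1 4 : ℝ) / 2 ^ l2)
      ((k.1 5 : ℝ) * 2 ^ v / 2 ^ P2) i
  db := bp i0 iu (R k.2).e (R k.2).c (R k.2).s (k.1 3 : ℝ) ((k.1 4 : ℝ) / 2 ^ l2)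
      ((k.1 5 : ℝ) * 2 ^ v / 2 ^ P2)

/-- The time since the beginning of the window. -/
lemma t_tc (F : Fam 3 J) {v : ℕ} (hv : v ≤ J) (ω : F.Ω) :
    |F.t ω - (F.T1 v ω : ℝ) / 2 ^ v| ≤ 1 / 2 ^ v := by
  have h := T1_real F hv ω
  have hp : (0 : ℝ) < 2 ^ v := by positivity
  have e1 : F.t ω - (F.T1 v ω : ℝ) / 2 ^ v = (2 ^ v * F.t ω - F.T1 v ω) / 2 ^ v := by
    field_simp
  rw [e1, abs_div, abs_of_pos hp]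
  refine div_le_div_of_nonneg_right ?_ hp.le
  rw [abs_le]
  constructor <;> linarith [h.1, h.2]

/-- Moving along the line and along the base. -/
lemma mvl (F : Fam 3 J) {v : ℕ} (hv : v ≤ J) (ω : F.Ω) (f : (Fin 3 → ℝ) → ℝ)
    (hf : ∀ (a b : Fin 3 → ℝ) (r : ℝ), f (fun i => a i + r * b i) = f a + r * f b)
    {X db : Fin 3 → ℝ} {a b : ℝ} (h1 : |f (F.x1 v ω) - f X| ≤ a) (h2 : |f (F.d ω) - f db| ≤ b) :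
    |f (F.x ω) - f (fun i => (X i - (F.T1 v ω : ℝ) / 2 ^ v * db i) + F.t ω * db i)| ≤
      a + b / 2 ^ v := by
  have ht := t_tc F hv ω
  obtain ⟨τ, hτ⟩ : ∃ τ, τ = F.t ω - (F.T1 v ω : ℝ) / 2 ^ v := ⟨_, rfl⟩
  rw [← hτ] at ht
  have e1 : F.x ω = fun i => F.x1 v ω i + τ * F.d ω i := by
    funext i
    unfold Fam.x Fam.x1
    rw [hτ]; ring
  have e2 : (fun i => (X i - (F.T1 v ω : ℝ) / 2 ^ v * db i) + F.t ω * db i) =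
      fun i => X i + τ * db i := by
    funext i
    rw [hτ]; ring
  rw [e2, e1, hf, hf]
  have e3 : f (F.x1 v ω) + τ * f (F.d ω) - (f X + τ * f db) =
      (f (F.x1 v ω) - f X) + τ * (f (F.d ω) - f db) := by ring
  rw [e3]
  refine (abs_add_le _ _).trans ?_
  have e4 : |τ * (f (F.d ω) - f db)| ≤ 1 / 2 ^ v * b := by
    rw [abs_mul]
    exact mul_le_mul ht h2 (abs_nonneg _) (by positivity)
  have e5 : 1 / 2 ^ v * b = b / 2 ^ v := by ring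
  linarith

/-- The plank of the rounded coordinates contains the line. -/
lemma plg_Inc (F : Fam 3 J) {i0 iu iN : Fin 3} (hi : ∀ j : Fin 3, j = i0 ∨ j = iu ∨ j = iN)
    {v l2 P2 : ℕ} (hv : v ≤ J) {R : (Fin 3 → ℤ) → Pln} {k : Fin 3 → ℤ} (h1 : |(R k).e| ≤ 2)
    (h2 : |(R k).c| ≤ 4) (h3 : |(R k).s| ≤ 4) (ω : F.Ω) :
    Inc i0 iu iN v l2 P2 2 (plg i0 iu v l2 P2 R (kmc F i0 iu iN v l2 P2 (R k) ω, k) (F.T1 v ω))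
      (F.t ω) (F.x ω) (F.d ω) := by
  obtain ⟨n1, n2, n3⟩ := three hi
  have hp : (0 : ℝ) < 2 ^ v := by positivity
  have hp2 : (0 : ℝ) < 2 ^ P2 := by positivity
  obtain ⟨r, hr⟩ : ∃ r, r = R k := ⟨_, rfl⟩
  rw [← hr] at h1 h2 h3 ⊢
  have a0 := floor_near v (F.x1 v ω i0)
  have a1 := floor_near (v + l2) (fu i0 iu r.e (F.x1 v ω))
  have a2 := floor_near P2 (fn i0 iu iN r.c r.s (F.x1 v ω))
  have b0 : |F.d ω i0 - (⌊F.d ω i0⌋ : ℝ)| ≤ 1 := by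
    have := floor_near 0 (F.d ω i0)
    simpa using this
  have b1 := floor_near l2 (fu i0 iu r.e (F.d ω))
  have b2 : |fn i0 iu iN r.c r.s (F.d ω) -
      (⌊(2 : ℝ) ^ P2 / 2 ^ v * fn i0 iu iN r.c r.s (F.d ω)⌋ : ℝ) * 2 ^ v / 2 ^ P2| ≤
      2 ^ v / 2 ^ P2 := by
    obtain ⟨g, hg⟩ : ∃ g, g = fn i0 iu iN r.c r.s (F.d ω) := ⟨_, rfl⟩
    rw [← hg]
    have e1 := Int.floor_le ((2 : ℝ) ^ P2 / 2 ^ v * g)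
    have e2 := Int.lt_floor_add_one ((2 : ℝ) ^ P2 / 2 ^ v * g)
    have e3 : g - (⌊(2 : ℝ) ^ P2 / 2 ^ v * g⌋ : ℝ) * 2 ^ v / 2 ^ P2 =
        ((2 : ℝ) ^ P2 / 2 ^ v * g - ⌊(2 : ℝ) ^ P2 / 2 ^ v * g⌋) * (2 ^ v / 2 ^ P2) := by
      field_simp
    have e4 : (0 : ℝ) ≤ 2 ^ v / 2 ^ P2 := by positivity
    rw [e3, abs_mul, abs_of_nonneg e4]
    have e5 : |(2 : ℝ) ^ P2 / 2 ^ v * g - ⌊(2 : ℝ) ^ P2 / 2 ^ v * g⌋| ≤ 1 := by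
      rw [abs_le]
      constructor <;> linarith
    nlinarith
  have hRk : R k = r := hr.symm
  refine ⟨?_, ?_, ?_, ?_, ?_, ?_, ?_, ?_, ?_⟩
  · change |(R k).e| ≤ 2
    rw [hRk]; exact h1
  · change |(R k).c| ≤ 4
    rw [hRk]; exact h2
  · change |(R k).s| ≤ 4
    rw [hRk]; exact h3
  · have h := mvl F hv ω (fun x => x i0) (fun _ _ _ => rfl)
      (X := bp i0 iu (R k).e (R k).c (R k).s ((⌊(2 : ℝ) ^ v * F.x1 v ω i0⌋ : ℝ) / 2 ^ v)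
        ((⌊(2 : ℝ) ^ (v + l2) * fu i0 iu r.e (F.x1 v ω)⌋ : ℝ) / 2 ^ (v + l2))
        ((⌊(2 : ℝ) ^ P2 * fn i0 iu iN r.c r.s (F.x1 v ω)⌋ : ℝ) / 2 ^ P2))
      (db := bp i0 iu (R k).e (R k).c (R k).s (⌊F.d ω i0⌋ : ℝ)
        ((⌊(2 : ℝ) ^ l2 * fu i0 iu r.e (F.d ω)⌋ : ℝ) / 2 ^ l2)
        ((⌊(2 : ℝ) ^ P2 / 2 ^ v * fn i0 iu iN r.c r.s (F.d ω)⌋ : ℝ) * 2 ^ v / 2 ^ P2))
      (a := 1 / 2 ^ v) (b := 1) (by simp only [bp_i0]; exact a0) (by simp only [bp_i0]; exact b0)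
    refine le_trans (le_of_eq ?_) (h.trans (le_of_eq ?_))
    · rfl
    · ring
  · have h := mvl F hv ω (fu i0 iu (R k).e) (fu_lin i0 iu _)
      (X := bp i0 iu (R k).e (R k).c (R k).s ((⌊(2 : ℝ) ^ v * F.x1 v ω i0⌋ : ℝ) / 2 ^ v)
        ((⌊(2 : ℝ) ^ (v + l2) * fu i0 iu r.e (F.x1 v ω)⌋ : ℝ) / 2 ^ (v + l2))
        ((⌊(2 : ℝ) ^ P2 * fn i0 iu iN r.c r.s (F.x1 v ω)⌋ : ℝ) / 2 ^ P2))
      (db := bp i0 iu (R k).e (R k).c (R k).s (⌊F.d ω i0⌋ : ℝ)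
        ((⌊(2 : ℝ) ^ l2 * fu i0 iu r.e (F.d ω)⌋ : ℝ) / 2 ^ l2)
        ((⌊(2 : ℝ) ^ P2 / 2 ^ v * fn i0 iu iN r.c r.s (F.d ω)⌋ : ℝ) * 2 ^ v / 2 ^ P2))
      (a := 1 / 2 ^ (v + l2)) (b := 1 / 2 ^ l2)
      (by rw [bp_fu n1, hRk]; exact a1) (by rw [bp_fu n1, hRk]; exact b1)
    refine le_trans (le_of_eq ?_) (h.trans (le_of_eq ?_))
    · rfl
    · rw [div_div, ← pow_add, add_comm l2 v]; ring
  · have h := mvl F hv ω (fn i0 iu iN (R k).c (R k).s) (fn_lin i0 iu iN _ _)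
      (X := bp i0 iu (R k).e (R k).c (R k).s ((⌊(2 : ℝ) ^ v * F.x1 v ω i0⌋ : ℝ) / 2 ^ v)
        ((⌊(2 : ℝ) ^ (v + l2) * fu i0 iu r.e (F.x1 v ω)⌋ : ℝ) / 2 ^ (v + l2))
        ((⌊(2 : ℝ) ^ P2 * fn i0 iu iN r.c r.s (F.x1 v ω)⌋ : ℝ) / 2 ^ P2))
      (db := bp i0 iu (R k).e (R k).c (R k).s (⌊F.d ω i0⌋ : ℝ)
        ((⌊(2 : ℝ) ^ l2 * fu i0 iu r.e (F.d ω)⌋ : ℝ) / 2 ^ l2)
        ((⌊(2 : ℝ) ^ P2 / 2 ^ v * fn i0 iu iN r.c r.s (F.d ω)⌋ : ℝ) * 2 ^ v / 2 ^ P2))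
      (a := 1 / 2 ^ P2) (b := 2 ^ v / 2 ^ P2)
      (by rw [bp_fn n1 n2 n3, hRk]; exact a2) (by rw [bp_fn n1 n2 n3, hRk]; exact b2)
    refine le_trans (le_of_eq ?_) (h.trans (le_of_eq ?_))
    · rfl
    · field_simp; ring
  · refine le_trans (le_of_eq ?_) (b0.trans (by norm_num))
    change |F.d ω i0 - bp i0 iu (R k).e (R k).c (R k).s (⌊F.d ω i0⌋ : ℝ)
        ((⌊(2 : ℝ) ^ l2 * fu i0 iu r.e (F.d ω)⌋ : ℝ) / 2 ^ l2)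
        ((⌊(2 : ℝ) ^ P2 / 2 ^ v * fn i0 iu iN r.c r.s (F.d ω)⌋ : ℝ) * 2 ^ v / 2 ^ P2) i0| = _
    rw [bp_i0]
  · change |fu i0 iu (R k).e (F.d ω) - fu i0 iu (R k).e (bp i0 iu (R k).e (R k).c (R k).s
        (⌊F.d ω i0⌋ : ℝ) ((⌊(2 : ℝ) ^ l2 * fu i0 iu r.e (F.d ω)⌋ : ℝ) / 2 ^ l2)
        ((⌊(2 : ℝ) ^ P2 / 2 ^ v * fn i0 iu iN r.c r.s (F.d ω)⌋ : ℝ) * 2 ^ v / 2 ^ P2))| ≤ _
    rw [bp_fu n1, hRk]
    refine b1.trans ?_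
    exact div_le_div_of_nonneg_right (by norm_num) (by positivity)
  · change |fn i0 iu iN (R k).c (R k).s (F.d ω) - fn i0 iu iN (R k).c (R k).s
        (bp i0 iu (R k).e (R k).c (R k).s
        (⌊F.d ω i0⌋ : ℝ) ((⌊(2 : ℝ) ^ l2 * fu i0 iu r.e (F.d ω)⌋ : ℝ) / 2 ^ l2)
        ((⌊(2 : ℝ) ^ P2 / 2 ^ v * fn i0 iu iN r.c r.s (F.d ω)⌋ : ℝ) * 2 ^ v / 2 ^ P2))| ≤ _
    rw [bp_fn n1 n2 n3, hRk]
    refine b2.trans ?_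
    exact div_le_div_of_nonneg_right (by linarith) hp2.le

end Prod

end Pool.KS6
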