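import Pool.Agent.H77.S6.LAB2

/-!
# Production of plank labels: visibility, and the label on a smaller event
-/

set_option autoImplicit false

namespace Pool.KS6

open Finset Real
open Pool.Agent.H49.Ent Pool.Agent.H32.Dense Pool.STK Pool.KA Pool.KSAT Pool.K3 Pool.K2S

section Prod

variable {J : ℕ}

/-- The velocities of two lines in one plank, in the frame of a close plank. -/
lemma vel_close {i0 iu iN : Fin 3} {W lam P v l2 sg ag P2 : ℕ} {C t t' : ℝ} (hC : 1 ≤ C)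
    {y r : Pln} {x x' d d' : Fin 3 → ℝ} (hI : Inc i0 iu iN W lam P C y t x d)
    (hI' : Inc i0 iu iN W lam P C y t' x' d')
    (he : |y.e - r.e| ≤ 1 / 2 ^ l2) (hs : |y.s - r.s| ≤ 1 / 2 ^ sg)
    (ha : |(r.c - y.c) + (r.s - y.s) * y.e| ≤ 2 / 2 ^ ag)
    (h1 : l2 ≤ lam) (h3 : ag ≤ sg + l2) (h4 : P2 ≤ v + ag) (h5 : W + P2 ≤ v + P) :
    |d i0 - d' i0| ≤ 2 * C ∧ |fu i0 iu r.e d - fu i0 iu r.e d'| ≤ 4 * C / 2 ^ l2 ∧
      |fn i0 iu iN r.c r.s d - fn i0 iu iN r.c r.s d'| ≤ 8 * C * (2 ^ v / 2 ^ P2) := by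
  have p1 : (0 : ℝ) < 2 ^ lam := by positivity
  have p2 : (0 : ℝ) < 2 ^ l2 := by positivity
  have p3 : (0 : ℝ) < 2 ^ sg := by positivity
  have p4 : (0 : ℝ) < 2 ^ ag := by positivity
  have p5 : (0 : ℝ) < 2 ^ P := by positivity
  have p6 : (0 : ℝ) < 2 ^ P2 := by positivity
  have c0 : |d i0 - d' i0| ≤ 2 * C := by
    have a1 := hI.ve
    have a2 := hI'.ve
    rw [abs_le] at a1 a2 ⊢
    constructor <;> linarith only [a1, a2, a1.1, a1.2, a2.1, a2.2]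
  have cu : |fu i0 iu y.e d - fu i0 iu y.e d'| ≤ 2 * C / 2 ^ lam := by
    have a1 := hI.vu
    have a2 := hI'.vu
    have e1 : 2 * C / 2 ^ lam = C / 2 ^ lam + C / 2 ^ lam := by ring
    rw [e1]
    rw [abs_le] at a1 a2 ⊢
    constructor <;> linarith only [a1, a2, a1.1, a1.2, a2.1, a2.2]
  have cn : |fn i0 iu iN y.c y.s d - fn i0 iu iN y.c y.s d'| ≤ 2 * C * (2 ^ W / 2 ^ P) := by
    have a1 := hI.vn
    have a2 := hI'.vn
    have e1 : 2 * C * (2 ^ W / 2 ^ P) = C * 2 ^ W / 2 ^ P + C * 2 ^ W / 2 ^ P := by ring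
    rw [e1]
    rw [abs_le] at a1 a2 ⊢
    constructor <;> linarith only [a1, a2, a1.1, a1.2, a2.1, a2.2]
  refine ⟨c0, ?_, ?_⟩
  · have e1 : fu i0 iu r.e d - fu i0 iu r.e d' = (fu i0 iu y.e d - fu i0 iu y.e d') +
        (y.e - r.e) * (d i0 - d' i0) := by unfold fu; ring
    rw [e1]
    refine (abs_add_le _ _).trans ?_
    have e2 : |(y.e - r.e) * (d i0 - d' i0)| ≤ 1 / 2 ^ l2 * (2 * C) := by
      rw [abs_mul]
      exact mul_le_mul he c0 (abs_nonneg _) (by positivity)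
    have e3 : 2 * C / 2 ^ lam ≤ 2 * C / 2 ^ l2 :=
      div_le_div_of_nonneg_left (by linarith only [hC]) p2 (pow_le_pow_right₀ (by norm_num) h1)
    have e4 : 4 * C / 2 ^ l2 = 2 * C / 2 ^ l2 + 1 / 2 ^ l2 * (2 * C) := by ring
    linarith only [cu, e2, e3, e4]
  · have e1 : fn i0 iu iN r.c r.s d - fn i0 iu iN r.c r.s d' =
        (fn i0 iu iN y.c y.s d - fn i0 iu iN y.c y.s d') +
        ((r.c - y.c) + (r.s - y.s) * y.e) * (d i0 - d' i0) +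
        (r.s - y.s) * (fu i0 iu y.e d - fu i0 iu y.e d') := by unfold fn fu; ring
    rw [e1]
    obtain ⟨G, hG⟩ : ∃ G : ℝ, G = 2 ^ v / 2 ^ P2 := ⟨_, rfl⟩
    have hG0 : 0 < G := by rw [hG]; positivity
    have g1 : (2 : ℝ) ^ W / 2 ^ P ≤ G := by
      rw [hG, div_le_div_iff₀ p5 p6, ← pow_add, ← pow_add]
      exact pow_le_pow_right₀ (by norm_num) h5
    have g2 : (1 : ℝ) / 2 ^ ag ≤ G := by
      rw [hG, div_le_div_iff₀ p4 p6, one_mul, ← pow_add]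
      exact pow_le_pow_right₀ (by norm_num) h4
    have g3 : (1 : ℝ) / 2 ^ sg * (1 / 2 ^ lam) ≤ G := by
      refine le_trans ?_ g2
      rw [one_div_mul_one_div, ← pow_add]
      exact one_div_le_one_div_of_le (by positivity)
        (pow_le_pow_right₀ (by norm_num) (by omega))
    rw [← hG]
    refine (abs_add_le _ _).trans ?_
    have f1 := abs_add_le (fn i0 iu iN y.c y.s d - fn i0 iu iN y.c y.s d')
      (((r.c - y.c) + (r.s - y.s) * y.e) * (d i0 - d' i0))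
    have f2 : |((r.c - y.c) + (r.s - y.s) * y.e) * (d i0 - d' i0)| ≤ 2 / 2 ^ ag * (2 * C) := by
      rw [abs_mul]
      exact mul_le_mul ha c0 (abs_nonneg _) (by positivity)
    have f3 : |(r.s - y.s) * (fu i0 iu y.e d - fu i0 iu y.e d')| ≤
        1 / 2 ^ sg * (2 * C / 2 ^ lam) := by
      rw [abs_mul, abs_sub_comm]
      exact mul_le_mul hs cu (abs_nonneg _) (by positivity)
    have f4 : 2 * C * (2 ^ W / 2 ^ P) ≤ 2 * C * G :=
      mul_le_mul_of_nonneg_left g1 (by linarith only [hC])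
    have f5 : (2 : ℝ) / 2 ^ ag * (2 * C) ≤ 4 * C * G := by
      have : (2 : ℝ) / 2 ^ ag * (2 * C) = 4 * C * (1 / 2 ^ ag) := by ring
      rw [this]
      exact mul_le_mul_of_nonneg_left g2 (by linarith only [hC])
    have f6 : (1 : ℝ) / 2 ^ sg * (2 * C / 2 ^ lam) ≤ 2 * C * G := by
      have : (1 : ℝ) / 2 ^ sg * (2 * C / 2 ^ lam) = 2 * C * (1 / 2 ^ sg * (1 / 2 ^ lam)) := by ring
      rw [this]
      exact mul_le_mul_of_nonneg_left g3 (by linarith only [hC])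
    linarith only [cn, f1, f2, f3, f4, f5, f6]

/-- The rounded coordinates are visible up to a bounded number of values. -/
lemma kmc_vis (F : Fam 3 J) {Qt : ℕ} (hQJ : Qt ≤ J) {i0 iu iN : Fin 3}
    {W lam P v l2 sg ag P2 : ℕ} {C : ℝ} (hC : 1 ≤ C)
    {y r : Pln} {ω ω' : F.Ω} (hx : F.X Qt ω = F.X Qt ω') (hT : F.T ω = F.T ω')
    (hI : Inc i0 iu iN W lam P C y (F.t ω) (F.x ω) (F.d ω))
    (hI' : Inc i0 iu iN W lam P C y (F.t ω') (F.x ω') (F.d ω'))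
    (he : |y.e - r.e| ≤ 1 / 2 ^ l2) (hs : |y.s - r.s| ≤ 1 / 2 ^ sg)
    (ha : |(r.c - y.c) + (r.s - y.s) * y.e| ≤ 2 / 2 ^ ag)
    (hr1 : |r.e| ≤ 2) (hr2 : |r.c| ≤ 4) (hr3 : |r.s| ≤ 4)
    (h1 : l2 ≤ lam) (h2 : v + l2 ≤ Qt) (h3 : ag ≤ sg + l2) (h4 : P2 ≤ v + ag)
    (h5 : W + P2 ≤ v + P) (h6 : P2 ≤ Qt) (k : Fin 6) :
    |((kmc F i0 iu iN v l2 P2 r ω k - kmc F i0 iu iN v l2 P2 r ω' k : ℤ) : ℝ)| ≤ 8 * C + 10 := by
  obtain ⟨c0, cu, cn⟩ := vel_close hC hI hI' he hs ha h1 h3 h4 h5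
  have hv : v ≤ J := by omega
  have hvQ : v ≤ Qt := by omega
  have p0 : (0 : ℝ) < 2 ^ v := by positivity
  have pJ : (0 : ℝ) < 2 ^ Qt := by positivity
  have p2 : (0 : ℝ) < 2 ^ l2 := by positivity
  have p6 : (0 : ℝ) < 2 ^ P2 := by positivity
  have hxx : ∀ i, |F.x ω i - F.x ω' i| ≤ 1 / 2 ^ Qt := by
    intro i
    have h : ⌊(2 : ℝ) ^ Qt * F.x ω i⌋ = ⌊(2 : ℝ) ^ Qt * F.x ω' i⌋ := congrFun hx i
    exact floor_close h
  have ht := t_tc F hv ω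
  have htt : F.t ω' = F.t ω := by unfold Fam.t; rw [hT]
  have hT1 : F.T1 v ω' = F.T1 v ω := by unfold Fam.T1; rw [hT]
  obtain ⟨τ, hτ⟩ : ∃ τ, τ = (F.T1 v ω : ℝ) / 2 ^ v - F.t ω := ⟨_, rfl⟩
  have hτ1 : |τ| ≤ 1 / 2 ^ v := by rw [hτ, abs_sub_comm]; exact ht
  have e1 : F.x1 v ω = fun i => F.x ω i + τ * F.d ω i := by
    funext i
    unfold Fam.x Fam.x1
    rw [hτ]; ring
  have e2 : F.x1 v ω' = fun i => F.x ω' i + τ * F.d ω' i := by
    funext i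
    unfold Fam.x Fam.x1
    rw [hτ, hT1, htt]; ring
  have gen : ∀ (f : (Fin 3 → ℝ) → ℝ),
      (∀ (a b : Fin 3 → ℝ) (r : ℝ), f (fun i => a i + r * b i) = f a + r * f b) →
      ∀ A B : ℝ, |f (F.x ω) - f (F.x ω')| ≤ A → |f (F.d ω) - f (F.d ω')| ≤ B →
      |f (F.x1 v ω) - f (F.x1 v ω')| ≤ A + 1 / 2 ^ v * B := by
    intro f hf A B hA hB
    rw [e1, e2, hf, hf]
    have e3 : f (F.x ω) + τ * f (F.d ω) - (f (F.x ω') + τ * f (F.d ω')) =
        (f (F.x ω) - f (F.x ω')) + τ * (f (F.d ω) - f (F.d ω')) := by ring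
    rw [e3]
    refine (abs_add_le _ _).trans ?_
    have e4 : |τ * (f (F.d ω) - f (F.d ω'))| ≤ 1 / 2 ^ v * B := by
      rw [abs_mul]
      exact mul_le_mul hτ1 hB (abs_nonneg _) (by positivity)
    linarith only [hA, e4]
  have k0 := gen (fun x => x i0) (fun _ _ _ => rfl) _ _ (hxx i0) c0
  have x1' : |fu i0 iu r.e (F.x ω) - fu i0 iu r.e (F.x ω')| ≤ 3 / 2 ^ Qt := by
    have e3 : fu i0 iu r.e (F.x ω) - fu i0 iu r.e (F.x ω') =
        (F.x ω iu - F.x ω' iu) - r.e * (F.x ω i0 - F.x ω' i0) := by unfold fu; ring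
    rw [e3]
    refine (abs_sub _ _).trans ?_
    have e4 : |r.e * (F.x ω i0 - F.x ω' i0)| ≤ 2 * (1 / 2 ^ Qt) := by
      rw [abs_mul]
      exact mul_le_mul hr1 (hxx i0) (abs_nonneg _) (by norm_num)
    have e5 := hxx iu
    have e6 : (3 : ℝ) / 2 ^ Qt = 1 / 2 ^ Qt + 2 * (1 / 2 ^ Qt) := by ring
    linarith only [e4, e5, e6]
  have x2' : |fn i0 iu iN r.c r.s (F.x ω) - fn i0 iu iN r.c r.s (F.x ω')| ≤ 9 / 2 ^ Qt := by
    have e3 : fn i0 iu iN r.c r.s (F.x ω) - fn i0 iu iN r.c r.s (F.x ω') =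
        r.c * (F.x ω i0 - F.x ω' i0) + r.s * (F.x ω iu - F.x ω' iu) +
        (F.x ω iN - F.x ω' iN) := by unfold fn; ring
    rw [e3]
    refine (abs_add_three _ _ _).trans ?_
    have e4 : |r.c * (F.x ω i0 - F.x ω' i0)| ≤ 4 * (1 / 2 ^ Qt) := by
      rw [abs_mul]
      exact mul_le_mul hr2 (hxx i0) (abs_nonneg _) (by norm_num)
    have e4' : |r.s * (F.x ω iu - F.x ω' iu)| ≤ 4 * (1 / 2 ^ Qt) := by
      rw [abs_mul]
      exact mul_le_mul hr3 (hxx iu) (abs_nonneg _) (by norm_num)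
    have e5 := hxx iN
    have e6 : (9 : ℝ) / 2 ^ Qt = 4 * (1 / 2 ^ Qt) + 4 * (1 / 2 ^ Qt) + 1 / 2 ^ Qt := by ring
    linarith only [e4, e4', e5, e6]
  have k1 := gen (fu i0 iu r.e) (fu_lin i0 iu _) _ _ x1' cu
  have k2 := gen (fn i0 iu iN r.c r.s) (fn_lin i0 iu iN _ _) _ _ x2' cn
  have sc : ∀ (q a b M : ℝ), 0 < q → |a - b| ≤ M → |q * a - q * b| ≤ q * M := by
    intro q a b M hq h
    rw [← mul_sub, abs_mul, abs_of_pos hq]
    exact mul_le_mul_of_nonneg_left h hq.le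
  have j1 : (2 : ℝ) ^ v * (1 / 2 ^ Qt) ≤ 1 := by
    rw [mul_one_div, div_le_one pJ]
    exact pow_le_pow_right₀ (by norm_num) hvQ
  have j2 : (2 : ℝ) ^ (v + l2) * (3 / 2 ^ Qt) ≤ 3 := by
    have : (2 : ℝ) ^ (v + l2) * (3 / 2 ^ Qt) = 3 * (2 ^ (v + l2) / 2 ^ Qt) := by ring
    rw [this]
    have : (2 : ℝ) ^ (v + l2) / 2 ^ Qt ≤ 1 := by
      rw [div_le_one pJ]
      exact pow_le_pow_right₀ (by norm_num) h2
    linarith only [this]
  have j3 : (2 : ℝ) ^ P2 * (9 / 2 ^ Qt) ≤ 9 := by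
    have : (2 : ℝ) ^ P2 * (9 / 2 ^ Qt) = 9 * (2 ^ P2 / 2 ^ Qt) := by ring
    rw [this]
    have : (2 : ℝ) ^ P2 / 2 ^ Qt ≤ 1 := by
      rw [div_le_one pJ]
      exact pow_le_pow_right₀ (by norm_num) h6
    linarith only [this]
  have m0 : |(2 : ℝ) ^ v * F.x1 v ω i0 - 2 ^ v * F.x1 v ω' i0| ≤ 1 + 2 * C := by
    refine (sc _ _ _ _ p0 k0).trans ?_
    have : (2 : ℝ) ^ v * (1 / 2 ^ Qt + 1 / 2 ^ v * (2 * C)) = 2 ^ v * (1 / 2 ^ Qt) + 2 * C := by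
      field_simp
    rw [this]; linarith only [j1]
  have m1 : |(2 : ℝ) ^ (v + l2) * fu i0 iu r.e (F.x1 v ω) -
      2 ^ (v + l2) * fu i0 iu r.e (F.x1 v ω')| ≤ 3 + 4 * C := by
    refine (sc _ _ _ _ (by positivity) k1).trans ?_
    have : (2 : ℝ) ^ (v + l2) * (3 / 2 ^ Qt + 1 / 2 ^ v * (4 * C / 2 ^ l2)) =
        2 ^ (v + l2) * (3 / 2 ^ Qt) + 4 * C := by
      rw [pow_add]; field_simp
    rw [this]; linarith only [j2]
  have m2 : |(2 : ℝ) ^ P2 * fn i0 iu iN r.c r.s (F.x1 v ω) -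
      2 ^ P2 * fn i0 iu iN r.c r.s (F.x1 v ω')| ≤ 9 + 8 * C := by
    refine (sc _ _ _ _ p6 k2).trans ?_
    have : (2 : ℝ) ^ P2 * (9 / 2 ^ Qt + 1 / 2 ^ v * (8 * C * (2 ^ v / 2 ^ P2))) =
        2 ^ P2 * (9 / 2 ^ Qt) + 8 * C := by
      field_simp
    rw [this]; linarith only [j3]
  have m3 : |F.d ω i0 - F.d ω' i0| ≤ 2 * C := c0
  have m4 : |(2 : ℝ) ^ l2 * fu i0 iu r.e (F.d ω) - 2 ^ l2 * fu i0 iu r.e (F.d ω')| ≤ 4 * C := by
    refine (sc _ _ _ _ p2 cu).trans (le_of_eq ?_)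
    field_simp
  have m5 : |(2 : ℝ) ^ P2 / 2 ^ v * fn i0 iu iN r.c r.s (F.d ω) -
      2 ^ P2 / 2 ^ v * fn i0 iu iN r.c r.s (F.d ω')| ≤ 8 * C := by
    refine (sc _ _ _ _ (by positivity) cn).trans (le_of_eq ?_)
    field_simp
  have hle : ∀ M, M ≤ 8 * C + 9 → M + 1 ≤ 8 * C + 10 := fun M h => by linarith only [h]
  fin_cases k
  · exact (floor_diff m0).trans (hle _ (by linarith only [hC]))
  · exact (floor_diff m1).trans (hle _ (by linarith only [hC]))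
  · exact (floor_diff m2).trans (hle _ (by linarith only))
  · exact (floor_diff m3).trans (hle _ (by linarith only [hC]))
  · exact (floor_diff m4).trans (hle _ (by linarith only [hC]))
  · exact (floor_diff m5).trans (hle _ (by linarith only))

end Prod

end Pool.KS6
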