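import Pool.Agent.H77.S6.CU4

/-!
# Lemma C: the planks of one line in a window agree almost to their thickness

If two planks of one line in a window agree only to `P1` digits of the normal coordinate, outside a
small event, then the rows after `P1` are nearly full in the normal direction.
-/

set_option autoImplicit false

namespace Pool.KS6

open Finset Real
open Pool.Agent.H49.Ent Pool.Agent.H32.Dense Pool.STK Pool.KA Pool.KSAT Pool.K3

/-- The class is at least the window. -/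
lemma W_le_kk {J : ℕ} {F : Fam 3 J} {i0 iu iN : Fin 3} {v W lam P P1 : ℕ} {C : ℝ} {S : Type}
    {z : F.Ω → S} {e c s : S → ℝ} {xb db : S → Fin 3 → ℝ}
    (hP : Pk F.x F.d (fun ω => 0 < F.p ω) i0 iu iN W lam P C z e c s xb db)
    (h1 : W + lam ≤ P1) {w : F.Ω × F.Ω} (hw : 0 < prs F v w) :
    W ≤ kk W lam P1 z e c s w := by
  have p1 := (prs_pos hw).2.1
  have p3 := (prs_pos hw).1
  have hA24 := Ae_le (hP.c_le _ p3) (hP.s_le _ p3) (hP.c_le _ p1) (hP.s_le _ p1) (hP.e_le _ p1)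
  have hs8 : |s (z w.1) - s (z w.2)| ≤ 8 := by
    have := abs_sub (s (z w.1)) (s (z w.2))
    linarith [hP.s_le _ p1, hP.s_le _ p3]
  by_cases hc : |s (z w.1) - s (z w.2)| / 2 ^ (W + lam) ≤
      |Ae (c (z w.1)) (s (z w.1)) (c (z w.2)) (s (z w.2)) (e (z w.2))| / 2 ^ W
  · exact le_kc hA24 hc (by omega)
  · have := le_kc' (P1 := P1) hs8 (not_le.1 hc) h1
    have h2 : W + lam ≤ kk W lam P1 z e c s w := this
    omega

open Classical in
/-- **Lemma C.** -/
theorem lemC {J : ℕ} (F : Fam 3 J) {Qt : ℕ} (hQJ : Qt ≤ J) {i0 iu iN : Fin 3} (hi : ∀ j : Fin 3, j = i0 ∨ j = iu ∨ j = iN)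
    {v y lam P P1 b : ℕ} {C : ℝ} (hC : 0 ≤ C) {S : Type} {z : F.Ω → S} {e c s : S → ℝ}
    {xb db : S → Fin 3 → ℝ}
    (hP : Pk F.x F.d (fun ω => 0 < F.p ω) i0 iu iN (v + y) lam P C z e c s xb db)
    (h1 : v + y + lam ≤ P1) (h2 : P1 + y ≤ P) (h3 : P ≤ Qt) (hyb : y ≤ b)
    (hb : ∀ w, 0 < prs F v w → |e (z w.1) - e (z w.2)| ≤ C * 2 ^ b / 2 ^ lam)
    {ε s₀ F0 h π₁ : ℝ} (hT : F.Tm ε) (hs : CH F.p z (fun ω => (F.X Qt ω, F.W ω)) ≤ s₀)
    (hF : F0 ≤ CH F.p (F.X Qt) (fun ω => (z ω, F.W ω)))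
    (hh : CH F.p (F.X Qt) (fun ω => ((F.X Qt ω i0, F.X Qt ω iu), (F.X P1 ω, F.W ω))) ≤ h)
    (hπ : Ex (prs F v) (fun w => if kk (v + y) lam P1 z e c s w = P1 then (1 : ℝ) else 0) ≤ π₁) :
    2 * F0 ≤ (((Qt : ℝ) - v) + ((Qt : ℝ) - (v + y)) + 2 * ((Qt : ℝ) - (v + y + lam)) + b +
        ((Qt : ℝ) - P) - (1 - π₁) * ((P : ℝ) - y - P1)) * Real.log 2 + Real.log (P1 + 1) + h +
      2 * s₀ + 2 * (ε + Real.log 5) + 4 * Real.log (2 * (6 * C + 40) + 1) +
      3 * Real.log (2 * (392 * C + 4 * C ^ 2 + 9) + 1) := by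
  have hvJ : v ≤ J := by omega
  have hvQ : v ≤ Qt := by omega
  have hpl : IsLaw (prs F v) := prs_law F v
  have h0 := hpl.nonneg
  obtain ⟨V, hVd⟩ : ∃ V : F.Ω × F.Ω → (ℕ × F.ζ) × ℕ, V = fun w => (F.W w.1, F.T w.2) := ⟨_, rfl⟩
  have hV1 : Det (prs F v) V (fun w => F.t w.2 - F.t w.1) := by
    intro w w' _ _ hh'
    rw [hVd] at hh'
    have e1 := (Prod.ext_iff.mp hh')
    have e2 : F.T w.1 = F.T w'.1 := (Prod.ext_iff.mp e1.1).1
    have e3 : F.T w.2 = F.T w'.2 := e1.2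
    change F.t w.2 - F.t w.1 = F.t w'.2 - F.t w'.1
    unfold Fam.t
    rw [e2, e3]
  have hV2 : Det (prs F v) V (fun w => F.W w.2) := by
    intro w w' hw hw' hh'
    rw [hVd] at hh'
    have e1 := (Prod.ext_iff.mp hh')
    have e2 : F.Z w.1 = F.Z w'.1 := (Prod.ext_iff.mp e1.1).2
    have e3 : F.T w.2 = F.T w'.2 := e1.2
    have e4 := (prs_pos hw).2.2.2.2.1
    have e5 := (prs_pos hw').2.2.2.2.1
    exact Prod.ext e3 ((e4.symm.trans e2).trans e5)
  have hVs : Det (prs F v) V (fun w => V w.swap) := by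
    intro w w' hw hw' hh'
    have e1 := hV2 w w' hw hw' hh'
    rw [hVd] at hh' ⊢
    have e2 := (Prod.ext_iff.mp hh')
    have e3 : F.T w.1 = F.T w'.1 := (Prod.ext_iff.mp e2.1).1
    exact Prod.ext e1 e3
  have hVs' : Det (prs F v) (fun w => V w.swap) V := by
    intro w w' hw hw' hh'
    rw [hVd] at hh' ⊢
    have e1 := (Prod.ext_iff.mp hh')
    have e2 : F.W w.2 = F.W w'.2 := e1.1
    have e3 : F.T w.1 = F.T w'.1 := e1.2
    have e4 := (prs_pos hw).2.2.2.2.1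
    have e5 := (prs_pos hw').2.2.2.2.1
    have e6 : F.Z w.2 = F.Z w'.2 := (Prod.ext_iff.mp e2).2
    have e7 : F.T w.2 = F.T w'.2 := (Prod.ext_iff.mp e2).1
    exact Prod.ext (Prod.ext e3 ((e4.trans e6).trans e5.symm)) e7
  -- exchangeability
  have hx : CH (prs F v) (fun w => F.X Qt w.2) V = CH (prs F v) (fun w => F.X Qt w.1) V := by
    have a1 := (prs_swap F v).CH (fun w => F.X Qt w.1) V
    rw [← a1]
    exact CH_congr h0 (fun _ _ _ _ q => (Prod.ext_iff.mp q).1) (fun _ _ _ _ q => (Prod.ext_iff.mp q).1)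
      hVs hVs'
  have hx' : CH (prs F v) (fun w => F.X Qt w.2) (fun w => (z w.2, V w)) =
      CH (prs F v) (fun w => F.X Qt w.1) (fun w => (z w.1, V w)) := by
    have a1 := (prs_swap F v).CH (fun w => F.X Qt w.1) (fun w => (z w.1, V w))
    rw [← a1]
    refine CH_congr h0 (fun _ _ _ _ q => (Prod.ext_iff.mp q).1)
      (fun _ _ _ _ q => (Prod.ext_iff.mp q).1) ?_ ?_
    · intro w w' hw hw' q
      exact Prod.ext (Prod.ext_iff.mp q).1 (hVs w w' hw hw' (Prod.ext_iff.mp q).2)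
    · intro w w' hw hw' q
      exact Prod.ext (Prod.ext_iff.mp q).1 (hVs' w w' hw hw' (Prod.ext_iff.mp q).2)
  have hv : CH (prs F v) (fun w => z w.1) (fun w => (F.X Qt w.1, V w)) ≤ s₀ := by
    have a1 := (prs_fst F v).CH z (fun ω => (F.X Qt ω, F.W ω))
    refine le_trans ?_ (a1.trans_le hs)
    refine CH_mono_cond h0 fun w w' _ _ q => ?_
    rw [hVd] at q
    obtain ⟨q1, q2⟩ := Prod.ext_iff.mp q
    exact Prod.ext q1 (Prod.ext_iff.mp q2).1
  have hv' : CH (prs F v) (fun w => z w.2) (fun w => (F.X Qt w.2, V w)) ≤ s₀ := by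
    have a1 := (prs_snd F v).CH z (fun ω => (F.X Qt ω, F.W ω))
    refine le_trans ?_ (a1.trans_le hs)
    refine CH_mono_cond h0 fun w w' hw hw' q => ?_
    obtain ⟨q1, q2⟩ := Prod.ext_iff.mp q
    exact Prod.ext q1 (hV2 w w' hw hw' q2)
  have hlow : F0 - (ε + Real.log 5) ≤
      CH (prs F v) (fun w => F.X Qt w.1) (fun w => (z w.1, V w)) := by
    have a1 := prs_time F hvJ hT (F.X Qt) (fun ω => (z ω, F.W ω)) (by
      intro ω ω' _ _ q
      have q1 : F.T ω = F.T ω' := (Prod.ext_iff.mp (Prod.ext_iff.mp q).2).1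
      unfold Fam.T1
      rw [q1])
    have a2 : CH (prs F v) (fun w => F.X Qt w.1) (fun w => (F.T w.2, (z w.1, F.W w.1))) =
        CH (prs F v) (fun w => F.X Qt w.1) (fun w => (z w.1, V w)) := by
      rw [hVd]
      refine CH_congr h0 (fun _ _ _ _ q => (Prod.ext_iff.mp q).1)
        (fun _ _ _ _ q => (Prod.ext_iff.mp q).1) ?_ ?_
      · intro w w' _ _ q
        simp only [Prod.mk.injEq] at q ⊢
        tauto
      · intro w w' _ _ q
        simp only [Prod.mk.injEq] at q ⊢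
        tauto
    linarith
  have hU2 := U2_le F hQJ hi hC hP V hV1 h1 h2 h3
  have hU4 := U4_le F hQJ hi hC hP V hV1 hV2 h1 h2 h3 hyb hb h hh
  have hlc := lc hpl (fun w => F.X Qt w.1) (fun w => F.X Qt w.2) (fun w => z w.1)
    (fun w => z w.2) V s₀ _ hv hv' hx hx' hU2
  -- the numbers
  obtain ⟨W, hW⟩ : ∃ W, W = v + y := ⟨_, rfl⟩
  have hnum : Ex (prs F v) (fun w => (((Qt - (v + y) + (Qt - (v + y + lam)) + (Qt - P) -
        sv P y P1 (kk (v + y) lam P1 z e c s w) : ℕ)) : ℝ)) +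
      Ex (prs F v) (fun w => (((Qt - v) + (Qt + b - (v + y + lam)) +
        (P1 - kk (v + y) lam P1 z e c s w) : ℕ) : ℝ)) ≤
      ((Qt : ℝ) - v) + ((Qt : ℝ) - (v + y)) + 2 * ((Qt : ℝ) - (v + y + lam)) + b +
        ((Qt : ℝ) - P) - (1 - π₁) * ((P : ℝ) - y - P1) := by
    rw [← Ex_add]
    have hPy : (0 : ℝ) ≤ (P : ℝ) - y - P1 := by
      have : ((P1 + y : ℕ) : ℝ) ≤ P := by exact_mod_cast h2
      push_cast at this
      linarith
    have g1 : Ex (prs F v) (fun w => (((Qt - (v + y) + (Qt - (v + y + lam)) + (Qt - P) -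
        sv P y P1 (kk (v + y) lam P1 z e c s w) : ℕ)) : ℝ) +
        (((Qt - v) + (Qt + b - (v + y + lam)) + (P1 - kk (v + y) lam P1 z e c s w) : ℕ) : ℝ)) ≤
        Ex (prs F v) (fun w => (((Qt : ℝ) - v) + ((Qt : ℝ) - (v + y)) +
          2 * ((Qt : ℝ) - (v + y + lam)) + b + ((Qt : ℝ) - P) - ((P : ℝ) - y - P1)) +
          ((P : ℝ) - y - P1) * (if kk (v + y) lam P1 z e c s w = P1 then (1 : ℝ) else 0)) := by
      refine Ex_mono h0 fun w hw => ?_
      have hWk := W_le_kk hP (P1 := P1) h1 hw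
      obtain ⟨K, hK⟩ : ∃ K, K = kk (v + y) lam P1 z e c s w := ⟨_, rfl⟩
      rw [← hK] at hWk ⊢
      have hKP : K ≤ P1 := by rw [hK]; exact kc_le
      unfold sv
      by_cases hkl : K < P1
      · rw [if_pos hkl, if_neg (by omega), mul_zero, add_zero]
        obtain ⟨g, hg⟩ : ∃ g, P = g + y + K := ⟨P - y - K, by omega⟩
        have e1 : P - y - K = g := by omega
        rw [e1]
        obtain ⟨r, hr⟩ : ∃ r, Qt = r + P := ⟨Qt - P, by omega⟩
        have e2 : Qt - (v + y) + (Qt - (v + y + lam)) + (Qt - P) - g =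
            (r + y + K) - (v + y) + (Qt - (v + y + lam)) + r := by omega
        rw [e2]
        have e3 : v + y ≤ r + y + K := by omega
        have e4 : v + y + lam ≤ Qt := by omega
        have e5 : v + y + lam ≤ Qt + b := by omega
        push_cast [Nat.cast_sub e3, Nat.cast_sub e4, Nat.cast_sub e5, Nat.cast_sub hvQ,
          Nat.cast_sub hKP]
        have e6 : (P : ℝ) = g + y + K := by rw [hg]; push_cast; ring
        have e7 : (Qt : ℝ) = r + P := by rw [hr]; push_cast; ring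
        rw [e7, e6]
        linarith
      · have hKP' : K = P1 := by omega
        rw [if_neg hkl, if_pos hKP', mul_one, Nat.sub_zero, hKP', Nat.sub_self]
        have e3 : v + y ≤ Qt := by omega
        have e4 : v + y + lam ≤ Qt := by omega
        have e5 : v + y + lam ≤ Qt + b := by omega
        push_cast [Nat.cast_sub e3, Nat.cast_sub e4, Nat.cast_sub e5, Nat.cast_sub hvQ,
          Nat.cast_sub h3]
        linarith
    have g3 : Ex (prs F v) (fun w => (((Qt : ℝ) - v) + ((Qt : ℝ) - (v + y)) +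
          2 * ((Qt : ℝ) - (v + y + lam)) + b + ((Qt : ℝ) - P) - ((P : ℝ) - y - P1)) +
          ((P : ℝ) - y - P1) * (if kk (v + y) lam P1 z e c s w = P1 then (1 : ℝ) else 0)) =
        (((Qt : ℝ) - v) + ((Qt : ℝ) - (v + y)) +
          2 * ((Qt : ℝ) - (v + y + lam)) + b + ((Qt : ℝ) - P) - ((P : ℝ) - y - P1)) +
          ((P : ℝ) - y - P1) * Ex (prs F v)
            (fun w => (if kk (v + y) lam P1 z e c s w = P1 then (1 : ℝ) else 0)) := by
      rw [Ex_add, Ex_const hpl.sum_one, Ex_smul]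
    rw [g3] at g1
    have g2 := mul_le_mul_of_nonneg_left hπ hPy
    linarith
  have hlog : 0 ≤ Real.log 2 := Real.log_nonneg (by norm_num)
  have hnum' := mul_le_mul_of_nonneg_right hnum hlog
  rw [add_mul] at hnum'
  linarith

end Pool.KS6
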