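import Pool.Agent.H77.S6.LAB4
import Pool.Agent.H35.K2S.FFAll
import Pool.Agent.H5.K3.BoxX

/-!
# Lemma C, the quantities in a plank
-/

set_option autoImplicit false

namespace Pool.KS6

open Finset Real
open Pool.Agent.H49.Ent Pool.Agent.H32.Dense Pool.STK Pool.KA Pool.KSAT Pool.K3 Pool.K2S

section Num

/-- Two points of one plank whose coordinates have been rounded. -/
lemma pk_two {Ω : Type} {x d : Ω → Fin 3 → ℝ} {A : Ω → Prop} {i0 iu iN : Fin 3} {W lam P : ℕ}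
    {C : ℝ} {S : Type} {z : Ω → S} {e c s : S → ℝ} {xb db : S → Fin 3 → ℝ}
    (hP : Pk x d A i0 iu iN W lam P C z e c s xb db) {ω ω' : Ω} (h : A ω) (h' : A ω')
    (hz : z ω = z ω') :
    |x ω i0 - x ω' i0| ≤ 2 * C / 2 ^ W ∧
    |x ω iu - x ω' iu| ≤ 2 * C / 2 ^ (W + lam) + 2 * |x ω i0 - x ω' i0| ∧
    |x ω iN - x ω' iN| ≤ 2 * C / 2 ^ P + 4 * |x ω i0 - x ω' i0| + 4 * |x ω iu - x ω' iu| := by
  have a0 := hP.pe ω h
  have a1 := hP.pe ω' h'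
  have b0 := hP.pu ω h
  have b1 := hP.pu ω' h'
  have c0 := hP.pn ω h
  have c1 := hP.pn ω' h'
  rw [← hz] at a1 b1 c1
  have k1 := hP.e_le ω h
  have k2 := hP.c_le ω h
  have k3 := hP.s_le ω h
  obtain ⟨E, hE⟩ : ∃ E, E = e (z ω) := ⟨_, rfl⟩
  obtain ⟨K, hK⟩ : ∃ K, K = c (z ω) := ⟨_, rfl⟩
  obtain ⟨L, hL⟩ : ∃ L, L = s (z ω) := ⟨_, rfl⟩
  rw [← hE] at b0 b1 k1
  rw [← hK] at c0 c1 k2
  rw [← hL] at c0 c1 k3
  have t0 : |x ω i0 - x ω' i0| ≤ 2 * C / 2 ^ W := by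
    have e1 : 2 * C / 2 ^ W = C / 2 ^ W + C / 2 ^ W := by ring
    rw [e1]
    rw [abs_le] at a0 a1 ⊢
    constructor <;> linarith [a0.1, a0.2, a1.1, a1.2]
  have t1 : |fu i0 iu E (x ω) - fu i0 iu E (x ω')| ≤ 2 * C / 2 ^ (W + lam) := by
    have e1 : 2 * C / 2 ^ (W + lam) = C / 2 ^ (W + lam) + C / 2 ^ (W + lam) := by ring
    rw [e1]
    rw [abs_le] at b0 b1 ⊢
    constructor <;> linarith [b0.1, b0.2, b1.1, b1.2]
  have t2 : |fn i0 iu iN K L (x ω) - fn i0 iu iN K L (x ω')| ≤ 2 * C / 2 ^ P := by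
    have e1 : 2 * C / 2 ^ P = C / 2 ^ P + C / 2 ^ P := by ring
    rw [e1]
    rw [abs_le] at c0 c1 ⊢
    constructor <;> linarith [c0.1, c0.2, c1.1, c1.2]
  refine ⟨t0, ?_, ?_⟩
  · have e1 : x ω iu - x ω' iu = (fu i0 iu E (x ω) - fu i0 iu E (x ω')) +
        E * (x ω i0 - x ω' i0) := by unfold fu; ring
    rw [e1]
    refine (abs_add_le _ _).trans ?_
    rw [abs_mul]
    have := mul_le_mul_of_nonneg_right k1 (abs_nonneg (x ω i0 - x ω' i0))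
    linarith
  · have e1 : x ω iN - x ω' iN = (fn i0 iu iN K L (x ω) - fn i0 iu iN K L (x ω')) +
        (-K) * (x ω i0 - x ω' i0) + (-L) * (x ω iu - x ω' iu) := by unfold fn; ring
    rw [e1]
    refine (abs_add_three _ _ _).trans ?_
    rw [abs_mul, abs_mul, abs_neg, abs_neg]
    have m1 := mul_le_mul_of_nonneg_right k2 (abs_nonneg (x ω i0 - x ω' i0))
    have m2 := mul_le_mul_of_nonneg_right k3 (abs_nonneg (x ω iu - x ω' iu))
    linarith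

lemma fl_close' {Q : ℕ} {a b : ℝ} (h : ⌊(2 : ℝ) ^ Q * a⌋ = ⌊(2 : ℝ) ^ Q * b⌋) :
    |a - b| ≤ 1 / 2 ^ Q := floor_close h

/-- The floor of two close numbers, at precision `Q`. -/
lemma fl_near' {Q : ℕ} {a b M : ℝ} (h : |a - b| ≤ M) :
    |((⌊(2 : ℝ) ^ Q * a⌋ - ⌊(2 : ℝ) ^ Q * b⌋ : ℤ) : ℝ)| ≤ 2 ^ Q * M + 1 := by
  refine floor_diff ?_
  have hp : (0 : ℝ) < 2 ^ Q := by positivity
  rw [← mul_sub, abs_mul, abs_of_pos hp]
  exact mul_le_mul_of_nonneg_left h hp.le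

/-- The number of positions in a plank. -/
theorem pk_CH {Ω : Type} [Fintype Ω] {p : Ω → ℝ} (hp : IsLaw p) {x d : Ω → Fin 3 → ℝ}
    {i0 iu iN : Fin 3} (hi : ∀ j : Fin 3, j = i0 ∨ j = iu ∨ j = iN) {W lam P Q : ℕ}
    {C : ℝ} (hC : 0 ≤ C) {S : Type} {z : Ω → S} {e c s : S → ℝ} {xb db : S → Fin 3 → ℝ}
    (hP : Pk x d (fun ω => 0 < p ω) i0 iu iN W lam P C z e c s xb db) :
    CH p (fun ω => fl Q (x ω)) z ≤
      (((Q - W) + (Q - (W + lam)) + (Q - P) : ℕ) : ℝ) * Real.log 2 +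
        3 * Real.log (2 * (2 * C + 9) + 1) := by
  have hQ : (0 : ℝ) < 2 ^ Q := by positivity
  have h1 := CH_le_pow hp z (fun ω => ![⌊(2 : ℝ) ^ Q * x ω i0⌋, ⌊(2 : ℝ) ^ Q * x ω iu⌋,
    ⌊(2 : ℝ) ^ Q * x ω iN⌋]) (fun _ => 2 * C + 9)
    (fun i _ => ![Q - W, Q - (W + lam), Q - P] i) (fun _ => by linarith) (by
      intro i ω ω' hω hω' hz hj
      obtain ⟨t0, t1, t2⟩ := pk_two hP hω hω' hz
      -- powers
      have key : ∀ (n : ℕ) (M : ℝ), 0 ≤ M → 2 ^ Q * (M / 2 ^ n) ≤ M * 2 ^ (Q - n) := by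
        intro n M hM
        have hn : (0 : ℝ) < 2 ^ n := by positivity
        have e1 : (2 : ℝ) ^ Q * (M / 2 ^ n) = M * 2 ^ Q / 2 ^ n := by ring
        rw [e1, div_le_iff₀ hn, mul_assoc, ← pow_add]
        exact mul_le_mul_of_nonneg_left (pow_le_pow_right₀ (by norm_num) (by omega)) hM
      have one : ∀ n : ℕ, (1 : ℝ) ≤ 2 ^ (Q - n) := fun n => one_le_pow₀ (by norm_num)
      fin_cases i
      · have h2 := fl_near' (Q := Q) t0
        have h3 := key W (2 * C) (by linarith)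
        have h4 := one W
        change |((⌊(2 : ℝ) ^ Q * x ω i0⌋ - ⌊(2 : ℝ) ^ Q * x ω' i0⌋ : ℤ) : ℝ)| ≤
          (2 * C + 9) * 2 ^ (Q - W)
        nlinarith
      · have hj0 : ⌊(2 : ℝ) ^ Q * x ω i0⌋ = ⌊(2 : ℝ) ^ Q * x ω' i0⌋ := hj 0 (by decide)
        have c0 := floor_close hj0
        have h2 := fl_near' (Q := Q) t1
        have h3 := key (W + lam) (2 * C) (by linarith)
        have h4 := one (W + lam)
        have h5 : (2 : ℝ) ^ Q * (2 * |x ω i0 - x ω' i0|) ≤ 2 := by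
          rw [le_div_iff₀ hQ] at c0
          linarith
        change |((⌊(2 : ℝ) ^ Q * x ω iu⌋ - ⌊(2 : ℝ) ^ Q * x ω' iu⌋ : ℤ) : ℝ)| ≤
          (2 * C + 9) * 2 ^ (Q - (W + lam))
        nlinarith
      · have hj0 : ⌊(2 : ℝ) ^ Q * x ω i0⌋ = ⌊(2 : ℝ) ^ Q * x ω' i0⌋ := hj 0 (by decide)
        have hj1 : ⌊(2 : ℝ) ^ Q * x ω iu⌋ = ⌊(2 : ℝ) ^ Q * x ω' iu⌋ := hj 1 (by decide)
        have c0 := floor_close hj0
        have c1 := floor_close hj1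
        have h2 := fl_near' (Q := Q) t2
        have h3 := key P (2 * C) (by linarith)
        have h4 := one P
        have h5 : (2 : ℝ) ^ Q * (4 * |x ω i0 - x ω' i0|) ≤ 4 := by
          rw [le_div_iff₀ hQ] at c0
          linarith
        have h6 : (2 : ℝ) ^ Q * (4 * |x ω iu - x ω' iu|) ≤ 4 := by
          rw [le_div_iff₀ hQ] at c1
          linarith
        change |((⌊(2 : ℝ) ^ Q * x ω iN⌋ - ⌊(2 : ℝ) ^ Q * x ω' iN⌋ : ℤ) : ℝ)| ≤
          (2 * C + 9) * 2 ^ (Q - P)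
        nlinarith)
  have h2 : CH p (fun ω => fl Q (x ω)) z ≤ CH p (fun ω => ![⌊(2 : ℝ) ^ Q * x ω i0⌋,
      ⌊(2 : ℝ) ^ Q * x ω iu⌋, ⌊(2 : ℝ) ^ Q * x ω iN⌋]) z := by
    refine CH_mono_left hp.nonneg fun ω ω' _ _ hh => ?_
    have hh1 := (Prod.ext_iff.mp hh).1
    funext j
    rcases hi j with rfl | rfl | rfl
    · exact congrFun hh1 0
    · exact congrFun hh1 1
    · exact congrFun hh1 2
  refine h2.trans (h1.trans (le_of_eq ?_))
  rw [Ex_const hp.sum_one]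
  simp [Fin.sum_univ_three]

/-- The normal digits given the others, in a plank. -/
theorem pk_CH_N {Ω : Type} [Fintype Ω] {p : Ω → ℝ} (hp : IsLaw p) {x d : Ω → Fin 3 → ℝ}
    {i0 iu iN : Fin 3} (hi : ∀ j : Fin 3, j = i0 ∨ j = iu ∨ j = iN) {W lam P Q : ℕ}
    {C : ℝ} (hC : 0 ≤ C) {S : Type} {z : Ω → S} {e c s : S → ℝ} {xb db : S → Fin 3 → ℝ}
    (hP : Pk x d (fun ω => 0 < p ω) i0 iu iN W lam P C z e c s xb db) :
    CH p (fun ω => fl Q (x ω)) (fun ω => ((fl Q (x ω) i0, fl Q (x ω) iu), z ω)) ≤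
      ((Q - P : ℕ) : ℝ) * Real.log 2 + Real.log (2 * (2 * C + 9) + 1) := by
  have hQ : (0 : ℝ) < 2 ^ Q := by positivity
  have h1 := CH_le_pow hp (fun ω => ((fl Q (x ω) i0, fl Q (x ω) iu), z ω))
    (fun ω => ![⌊(2 : ℝ) ^ Q * x ω iN⌋]) (fun _ => 2 * C + 9)
    (fun i _ => Q - P) (fun _ => by linarith) (by
      intro i ω ω' hω hω' hz _
      obtain ⟨hz1, hz2⟩ := Prod.ext_iff.mp hz
      obtain ⟨hz3, hz4⟩ := Prod.ext_iff.mp hz1
      obtain ⟨t0, t1, t2⟩ := pk_two hP hω hω' hz2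
      have key : ∀ (n : ℕ) (M : ℝ), 0 ≤ M → 2 ^ Q * (M / 2 ^ n) ≤ M * 2 ^ (Q - n) := by
        intro n M hM
        have hn : (0 : ℝ) < 2 ^ n := by positivity
        have e1 : (2 : ℝ) ^ Q * (M / 2 ^ n) = M * 2 ^ Q / 2 ^ n := by ring
        rw [e1, div_le_iff₀ hn, mul_assoc, ← pow_add]
        exact mul_le_mul_of_nonneg_left (pow_le_pow_right₀ (by norm_num) (by omega)) hM
      have one : ∀ n : ℕ, (1 : ℝ) ≤ 2 ^ (Q - n) := fun n => one_le_pow₀ (by norm_num)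
      have c0 := floor_close hz3
      have c1 := floor_close hz4
      have h2 := fl_near' (Q := Q) t2
      have h3 := key P (2 * C) (by linarith)
      have h4 := one P
      have h5 : (2 : ℝ) ^ Q * (4 * |x ω i0 - x ω' i0|) ≤ 4 := by
        rw [le_div_iff₀ hQ] at c0
        linarith
      have h6 : (2 : ℝ) ^ Q * (4 * |x ω iu - x ω' iu|) ≤ 4 := by
        rw [le_div_iff₀ hQ] at c1
        linarith
      fin_cases i
      change |((⌊(2 : ℝ) ^ Q * x ω iN⌋ - ⌊(2 : ℝ) ^ Q * x ω' iN⌋ : ℤ) : ℝ)| ≤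
          (2 * C + 9) * 2 ^ (Q - P)
      nlinarith)
  refine le_trans ?_ (h1.trans (le_of_eq ?_))
  · refine CH_mono_left hp.nonneg fun ω ω' _ _ hh => ?_
    obtain ⟨hh1, hh2⟩ := Prod.ext_iff.mp hh
    obtain ⟨hh3, -⟩ := Prod.ext_iff.mp hh2
    obtain ⟨hh4, hh5⟩ := Prod.ext_iff.mp hh3
    funext j
    rcases hi j with rfl | rfl | rfl
    · exact hh4
    · exact hh5
    · exact congrFun hh1 0
  · rw [Ex_const hp.sum_one]
    simp

/-- The entropy of the normal coordinate beyond `Q`, from the fullness in the plank. -/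
theorem pk_normal {Ω : Type} [Fintype Ω] {p : Ω → ℝ} (hp : IsLaw p) {x d : Ω → Fin 3 → ℝ}
    {i0 iu iN : Fin 3} (hi : ∀ j : Fin 3, j = i0 ∨ j = iu ∨ j = iN) {W lam P Q J : ℕ}
    {C : ℝ} (hC : 0 ≤ C) {S T : Type} {z : Ω → S} {e c s : S → ℝ} {xb db : S → Fin 3 → ℝ}
    (hP : Pk x d (fun ω => 0 < p ω) i0 iu iN W lam P C z e c s xb db) (V : Ω → T) {F0 : ℝ}
    (hF : F0 ≤ CH p (fun ω => fl J (x ω)) (fun ω => (z ω, V ω))) :
    CH p (fun ω => fl J (x ω))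
        (fun ω => ((fl J (x ω) i0, fl J (x ω) iu), (fl Q (x ω), V ω))) ≤
      CH p (fun ω => fl J (x ω)) (fun ω => (fl Q (x ω), V ω)) - F0 +
      (((Q - W) + (Q - (W + lam)) + (Q - P) : ℕ) : ℝ) * Real.log 2 +
      ((J - P : ℕ) : ℝ) * Real.log 2 + 4 * Real.log (2 * (2 * C + 9) + 1) := by
  have h0 := hp.nonneg
  have a1 := CH_chain h0 (fun ω => fl J (x ω)) (fun ω => (fl J (x ω) i0, fl J (x ω) iu))
    (fun ω => (fl Q (x ω), V ω))
  have a2 : CH p (fun ω => (fl J (x ω), (fl J (x ω) i0, fl J (x ω) iu)))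
      (fun ω => (fl Q (x ω), V ω)) = CH p (fun ω => fl J (x ω)) (fun ω => (fl Q (x ω), V ω)) := by
    refine CH_congr h0 ?_ ?_ (fun _ _ _ _ h => h) (fun _ _ _ _ h => h)
    · intro ω ω' _ _ h
      exact (Prod.ext_iff.mp (Prod.ext_iff.mp h).1).1
    · intro ω ω' _ _ h
      have h1 := (Prod.ext_iff.mp h).1
      exact Prod.ext h1 (Prod.ext (congrFun h1 i0) (congrFun h1 iu))
  -- lower bound for the other coordinates
  have b1 : CH p (fun ω => (fl J (x ω) i0, fl J (x ω) iu)) (fun ω => (fl Q (x ω), (z ω, V ω))) ≤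
      CH p (fun ω => (fl J (x ω) i0, fl J (x ω) iu)) (fun ω => (fl Q (x ω), V ω)) := by
    refine CH_mono_cond h0 fun ω ω' _ _ h => ?_
    obtain ⟨h1, h2⟩ := Prod.ext_iff.mp h
    exact Prod.ext h1 (Prod.ext_iff.mp h2).2
  have b2 := CH_le_add h0 (fun ω => fl J (x ω)) (fun ω => fl Q (x ω)) (fun ω => (z ω, V ω))
  have b3 := CH_le_add h0 (fun ω => fl J (x ω)) (fun ω => (fl J (x ω) i0, fl J (x ω) iu))
    (fun ω => (fl Q (x ω), (z ω, V ω)))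
  have b4 : CH p (fun ω => fl Q (x ω)) (fun ω => (z ω, V ω)) ≤ CH p (fun ω => fl Q (x ω)) z :=
    CH_mono_cond h0 fun ω ω' _ _ h => (Prod.ext_iff.mp h).1
  have b5 := pk_CH hp hi hC hP (Q := Q)
  have b6 : CH p (fun ω => fl J (x ω)) (fun ω => ((fl J (x ω) i0, fl J (x ω) iu),
      (fl Q (x ω), (z ω, V ω)))) ≤
      CH p (fun ω => fl J (x ω)) (fun ω => ((fl J (x ω) i0, fl J (x ω) iu), z ω)) := by
    refine CH_mono_cond h0 fun ω ω' _ _ h => ?_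
    obtain ⟨h1, h2⟩ := Prod.ext_iff.mp h
    exact Prod.ext h1 (Prod.ext_iff.mp (Prod.ext_iff.mp h2).2).1
  have b7 := pk_CH_N hp hi hC hP (Q := J)
  rw [a2] at a1
  linarith

/-- The plank as a frame of the fans. -/
theorem onL_Inc {J : ℕ} (F : Fam 3 J) {Qt : ℕ} {i0 iu iN : Fin 3}
    (hi : ∀ j : Fin 3, j = i0 ∨ j = iu ∨ j = iN) {W lam P : ℕ} {C : ℝ} (hC : 0 ≤ C)
    {A : F.Ω → Prop} {y : F.Ω → Pln}
    (hI : ∀ ω, A ω → Inc i0 iu iN W lam P C (y ω) (F.t ω) (F.x ω) (F.d ω))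
    {φ : (Fin 3 → ℤ) × (ℕ × F.ζ) → Pln} (hφ : ∀ ω, A ω → y ω = φ (ptq F Qt ω))
    (h1 : W + lam ≤ P) :
    ∃ n : (Fin 3 → ℤ) × (ℕ × F.ζ) → Fin 3 → ℝ, OnL i0 (5 * C / 2 ^ lam) (ptq F Qt) F.d A
      (fun q => bp i0 iu (φ q).e (φ q).c (φ q).s 1 0 0) n := by
  obtain ⟨n1, n2, n3⟩ := three hi
  refine ⟨fun q j => (φ q).db j - bp i0 iu (φ q).e (φ q).c (φ q).s 1 0 0 j * (φ q).db i0,
    fun ω hω j => ?_⟩
  have hI' := hI ω hω
  rw [hφ ω hω] at hI'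
  obtain ⟨Y, hY⟩ : ∃ Y, Y = φ (ptq F Qt ω) := ⟨_, rfl⟩
  rw [← hY] at hI'
  simp only [← hY]
  have hl : (0 : ℝ) < 2 ^ lam := by positivity
  have cu := hI'.vu
  have cn := hI'.vn
  have hs := hI'.s_le
  rcases hi j with hj | hj | hj
  · rw [hj, bp_i0]
    have : F.d ω i0 - 1 * F.d ω i0 - (Y.db i0 - 1 * Y.db i0) = 0 := by ring
    rw [this, abs_zero]
    positivity
  · rw [hj]
    have e1 : bp i0 iu Y.e Y.c Y.s 1 0 0 iu = Y.e := by
      unfold bp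
      rw [if_neg n1, if_pos rfl]
      ring
    rw [e1]
    have e2 : F.d ω iu - Y.e * F.d ω i0 - (Y.db iu - Y.e * Y.db i0) =
        fu i0 iu Y.e (F.d ω) - fu i0 iu Y.e Y.db := by unfold fu; ring
    rw [e2]
    refine cu.trans ?_
    exact div_le_div_of_nonneg_right (by linarith) hl.le
  · rw [hj]
    have e1 : bp i0 iu Y.e Y.c Y.s 1 0 0 iN = -Y.c - Y.s * Y.e := by
      unfold bp
      rw [if_neg n2, if_neg n3]
      ring
    rw [e1]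
    have e2 : F.d ω iN - (-Y.c - Y.s * Y.e) * F.d ω i0 -
        (Y.db iN - (-Y.c - Y.s * Y.e) * Y.db i0) =
        (fn i0 iu iN Y.c Y.s (F.d ω) - fn i0 iu iN Y.c Y.s Y.db) +
        (-Y.s) * (fu i0 iu Y.e (F.d ω) - fu i0 iu Y.e Y.db) := by unfold fu fn; ring
    rw [e2]
    refine (abs_add_le _ _).trans ?_
    have e3 : |(-Y.s) * (fu i0 iu Y.e (F.d ω) - fu i0 iu Y.e Y.db)| ≤ 4 * (C / 2 ^ lam) := by
      rw [abs_mul, abs_neg]
      exact mul_le_mul hs cu (abs_nonneg _) (by norm_num)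
    have e4 : C * 2 ^ W / 2 ^ P ≤ C / 2 ^ lam := by
      rw [div_le_div_iff₀ (by positivity) hl, mul_assoc, ← pow_add]
      exact mul_le_mul_of_nonneg_left (pow_le_pow_right₀ (by norm_num) h1) hC
    have e5 : 5 * C / 2 ^ lam = C / 2 ^ lam + 4 * (C / 2 ^ lam) := by ring
    linarith

end Num

end Pool.KS6
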