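import Pool.Agent.H77.S6.LC4

/-!
# Lemma C in a family: the inequality, and the pairs with close planks
-/

set_option autoImplicit false

namespace Pool.KS6

open Finset Real
open Pool.Agent.H49.Ent Pool.Agent.H32.Dense Pool.STK Pool.KA Pool.KSAT Pool.K3 Pool.K2S

/-- Two planks of one line are close. -/
def Cls (l2 W lam P1 : ℕ) (y y' : Pln) : Prop :=
  |y.e - y'.e| ≤ 1 / 2 ^ l2 ∧ dl W lam y.c y.s y'.c y'.s y'.e ≤ 1 / 2 ^ P1

open Classical in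
/-- **Lemma C in a family.** -/
theorem lemC_fam {J : ℕ} (F : Fam 3 J) {Qt : ℕ} (hQJ : Qt ≤ J) {i0 iu iN : Fin 3}
    (hi : ∀ j : Fin 3, j = i0 ∨ j = iu ∨ j = iN)
    {v y lam P P1 b l2 : ℕ} {C : ℝ} (hC : 1 ≤ C) {z : F.Ω → Pln}
    (hI : ∀ ω, 0 < F.p ω → Inc i0 iu iN (v + y) lam P C (z ω) (F.t ω) (F.x ω) (F.d ω))
    {φ : (Fin 3 → ℤ) × (ℕ × F.ζ) → Pln} (hφ : ∀ ω, 0 < F.p ω → z ω = φ (ptq F Qt ω))
    (h1 : v + y + lam ≤ P1) (h2 : P1 + y ≤ P) (h3 : P ≤ Qt) (hyb : y ≤ b) (hl2 : lam ≤ l2 + b)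
    (hb : ∀ w, 0 < prs F v w → |(z w.1).e - (z w.2).e| ≤ 1 / 2 ^ l2)
    {ε F0 ρ π₁ : ℝ} (hT : F.Tm ε)
    (hF : F0 ≤ CH F.p (F.X Qt) (fun ω => (z ω, F.W ω)))
    (hρ : CH F.p (F.X Qt) (fun ω => (F.X P1 ω, F.W ω)) ≤ ρ)
    (hπ : Pe (prs F v) (fun w => Cls l2 (v + y) lam P1 (z w.1) (z w.2)) ≤ π₁) :
    3 * F0 ≤ (3 * ((Qt : ℝ) - (v + y)) + 3 * ((Qt : ℝ) - (v + y + lam)) + 2 * y + b +
      3 * ((Qt : ℝ) - P) - 3 * ((Qt : ℝ) - P1) + π₁ * Qt) * Real.log 2 + ρ + Real.log (P1 + 1) +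
      2 * (ε + Real.log 5) + 4 * Real.log (2 * (2 * C + 9) + 1) +
      4 * Real.log (2 * (6 * C + 40) + 1) + 3 * Real.log (2 * (392 * C + 4 * C ^ 2 + 9) + 1) := by
  have hp := F.isLaw
  have h0 := hp.nonneg
  have hC0 : 0 ≤ C := by linarith
  have hPk := Pk_of_Inc (A := fun ω => 0 < F.p ω) hI
  have hs : CH F.p (fun ω => (z ω, F.T ω)) (fun ω => (F.X Qt ω, F.W ω)) ≤ 0 := by
    refine (CH_eq_zero h0 fun ω ω' hω hω' h => ?_).le
    obtain ⟨a1, a2⟩ := Prod.ext_iff.mp h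
    have e1 : z ω = z ω' := by
      rw [hφ ω hω, hφ ω' hω']
      exact congrArg φ h
    exact Prod.ext e1 (Prod.ext_iff.mp a2).1
  have hF' : F0 ≤ CH F.p (F.X Qt) (fun ω => ((z ω, F.T ω), F.W ω)) := by
    refine hF.trans (le_of_eq ?_)
    refine CH_congr h0 (fun _ _ _ _ h => (Prod.ext_iff.mp h).1)
      (fun _ _ _ _ h => (Prod.ext_iff.mp h).1) ?_ ?_
    · intro ω ω' _ _ h
      obtain ⟨a1, a2⟩ := Prod.ext_iff.mp h
      exact Prod.ext (Prod.ext a1 (Prod.ext_iff.mp a2).1) a2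
    · intro ω ω' _ _ h
      obtain ⟨a1, a2⟩ := Prod.ext_iff.mp h
      exact Prod.ext (Prod.ext_iff.mp a1).1 a2
  have hN := pk_normal (Q := P1) (J := Qt) hp hi hC0 hPk F.W hF'
  have hb' : ∀ w, 0 < prs F v w →
      |(fun q : Pln × ℕ => q.1.e) (z w.1, F.T w.1) - (fun q : Pln × ℕ => q.1.e) (z w.2, F.T w.2)| ≤
        C * 2 ^ b / 2 ^ lam := by
    intro w hw
    refine (hb w hw).trans ?_
    rw [div_le_div_iff₀ (by positivity) (by positivity), one_mul]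
    calc (2 : ℝ) ^ lam ≤ 2 ^ (l2 + b) := pow_le_pow_right₀ (by norm_num) hl2
      _ = 1 * 2 ^ b * 2 ^ l2 := by rw [pow_add]; ring
      _ ≤ C * 2 ^ b * 2 ^ l2 := by
        refine mul_le_mul_of_nonneg_right ?_ (by positivity)
        exact mul_le_mul_of_nonneg_right hC (by positivity)
  have hpl : IsLaw (prs F v) := prs_law F v
  have hπ' : Ex (prs F v) (fun w => if kk (v + y) lam P1 (fun ω => (z ω, F.T ω))
      (fun q => q.1.e) (fun q => q.1.c) (fun q => q.1.s) w = P1 then (1 : ℝ) else 0) ≤ π₁ := by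
    refine le_trans ?_ hπ
    rw [Pe_eq]
    unfold Ex
    refine Finset.sum_le_sum fun w _ => ?_
    beta_reduce
    by_cases hw0 : prs F v w = 0
    · rw [hw0]; simp
    have hw : 0 < prs F v w := lt_of_le_of_ne (hpl.nonneg w) (Ne.symm hw0)
    by_cases hk : kk (v + y) lam P1 (fun ω => (z ω, F.T ω))
      (fun q => q.1.e) (fun q => q.1.c) (fun q => q.1.s) w = P1
    · have q1 := (prs_pos hw).1
      have q2 := (prs_pos hw).2.1
      have I1 := hI _ q1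
      have I2 := hI _ q2
      have hA : |Ae (z w.1).c (z w.1).s (z w.2).c (z w.2).s (z w.2).e| ≤ 24 :=
        Ae_le I1.c_le I1.s_le I2.c_le I2.s_le I2.e_le
      have hs8 : |(z w.1).s - (z w.2).s| ≤ 8 := by
        have := abs_sub (z w.1).s (z w.2).s
        linarith [I1.s_le, I2.s_le]
      have hd := dl_le_kc (W := v + y) (lam := lam) (P1 := P1) hA hs8
      have hk' : kc (v + y) lam P1 (z w.1).c (z w.1).s (z w.2).c (z w.2).s (z w.2).e = P1 := hk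
      rw [hk'] at hd
      rw [if_pos hk, if_pos ⟨hb w hw, hd⟩, mul_one]
    · rw [if_neg hk, mul_zero]
      split_ifs
      · exact hpl.nonneg w
      · exact le_rfl
  have hh := lemC F hQJ hi hC0 hPk h1 h2 h3 hyb hb' hT hs hF' hN hπ'
  have hv : v + y ≤ P1 := by omega
  have hPP : P1 ≤ P := by omega
  have e1 : (P1 - (v + y)) + (P1 - (v + y + lam)) + (P1 - P) =
      (P1 - (v + y)) + (P1 - (v + y + lam)) := by omega
  rw [e1] at hh
  push_cast [Nat.cast_sub hv, Nat.cast_sub h1, Nat.cast_sub h3] at hh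
  have hρ' : CH F.p (fun ω => fl Qt (F.x ω)) (fun ω => (fl P1 (F.x ω), F.W ω)) ≤ ρ := hρ
  have hπ0 : 0 ≤ π₁ := le_trans (Pe_nonneg hpl _) hπ
  have hl : 0 ≤ Real.log 2 := Real.log_nonneg (by norm_num)
  have hq : π₁ * ((P : ℝ) - y - P1) ≤ π₁ * Qt := by
    refine mul_le_mul_of_nonneg_left ?_ hπ0
    have q1 : (P : ℝ) ≤ Qt := by exact_mod_cast h3
    have q2 : (0 : ℝ) ≤ y := Nat.cast_nonneg y
    have q3 : (0 : ℝ) ≤ P1 := Nat.cast_nonneg P1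
    linarith
  have hq' := mul_le_mul_of_nonneg_right hq hl
  nlinarith

/-- Close planks in pairs give a plank label. -/
theorem cls_lab {J : ℕ} (F : Fam 3 J) {Qt : ℕ} (hQJ : Qt ≤ J) {i0 iu iN : Fin 3}
    (hi : ∀ j : Fin 3, j = i0 ∨ j = iu ∨ j = iN)
    {v y lam P P1 b l2 P2 : ℕ} {C : ℝ} (hC : 1 ≤ C) {A : F.Ω → Prop} (hA : 0 < Pe F.p A)
    {z : F.Ω → Pln}
    (hI : ∀ ω, A ω → Inc i0 iu iN (v + y) lam P C (z ω) (F.t ω) (F.x ω) (F.d ω))
    {φ : (Fin 3 → ℤ) × (ℕ × F.ζ) → Pln} (hφ : ∀ ω, A ω → z ω = φ (ptq F Qt ω))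
    (hlaw : IsLaw (Pool.Agent.H49.Ent.cond F.p A True))
    (h1 : v + y + lam + 6 ≤ P1) (h2 : P1 + y ≤ P) (h3 : P ≤ Qt) (hl2 : lam = l2 + b)
    (hP2 : P2 + y + b + 6 ≤ P1) {β : ℝ} (hβ0 : 0 < β)
    (hβ : β ≤ Pe (prs (F.res A True hlaw) v) (fun w => Cls l2 (v + y) lam P1 (z w.1) (z w.2))) :
    ∃ B : F.Ω → Prop, Sub B A ∧
      Real.exp (-(8 * (3 * Real.log 15 + 6 * Real.log (16 * C + 21)))) / 2 * (β * Pe F.p A) ≤
        Pe F.p B ∧ LABq F Qt i0 iu iN v l2 P2 2 B := by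
  classical
  obtain ⟨ζ, hζ⟩ := exists_fn_of_cpy (isLaw_cond F.isLaw hA) z (slam F v)
    (Cls l2 (v + y) lam P1) hβ
  rw [Pe_cond, le_div_iff₀ hA] at hζ
  obtain ⟨A1, hA1⟩ : ∃ A1 : F.Ω → Prop, A1 = fun ω => A ω ∧
      Cls l2 (v + y) lam P1 (z ω) (ζ (slam F v ω)) := ⟨_, rfl⟩
  rw [← hA1] at hζ
  have hA1p : 0 < Pe F.p A1 := lt_of_lt_of_le (by positivity) hζ
  have hsub : ∀ ω, A1 ω → A ω := fun ω hω => by rw [hA1] at hω; exact hω.1
  obtain ⟨sg, hsg⟩ : ∃ sg, sg = P1 - (v + y + lam) - 6 := ⟨_, rfl⟩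
  obtain ⟨ag, hag⟩ : ∃ ag, ag = P1 - (v + y) - b - 6 := ⟨_, rfl⟩
  have key := lab_prod F hQJ hi (v := v) (W := v + y) (lam := lam) (P := P) (l2 := l2) (sg := sg)
    (ag := ag) (P2 := P2) hC hA1p (fun ω hω => hI ω (hsub ω hω)) (fun ω hω => hφ ω (hsub ω hω))
    (ζ := ζ) (by
      intro ω hω
      rw [hA1] at hω
      obtain ⟨-, c1, c2⟩ := hω
      unfold dl at c2
      have p1 : (0 : ℝ) < 2 ^ P1 := by positivity
      have p2 : (0 : ℝ) < 2 ^ (v + y) := by positivity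
      have p3 : (0 : ℝ) < 2 ^ (v + y + lam) := by positivity
      rw [div_le_iff₀ (by norm_num), max_le_iff, div_le_iff₀ p2, div_le_iff₀ p3] at c2
      obtain ⟨c3, c4⟩ := c2
      refine ⟨c1, c4.trans ?_, c3.trans ?_⟩
      · rw [le_div_iff₀ (by positivity)]
        have e1 : 1 / (2 : ℝ) ^ P1 * 48 * 2 ^ (v + y + lam) * 2 ^ sg =
            48 * (2 ^ (v + y + lam + sg)) / 2 ^ P1 := by rw [pow_add]; ring
        rw [e1, div_le_one p1]
        have e2 : (2 : ℝ) ^ P1 = 2 ^ 6 * 2 ^ (v + y + lam + sg) := by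
          rw [← pow_add]; congr 1; omega
        rw [e2]
        have : (0 : ℝ) < 2 ^ (v + y + lam + sg) := by positivity
        linarith
      · rw [le_div_iff₀ (by positivity)]
        have e1 : 1 / (2 : ℝ) ^ P1 * 48 * 2 ^ (v + y) * 2 ^ ag =
            48 * (2 ^ (v + y + ag)) / 2 ^ P1 := by rw [pow_add]; ring
        rw [e1, div_le_one p1]
        have e2 : (2 : ℝ) ^ P1 = 2 ^ (6 + b) * 2 ^ (v + y + ag) := by
          rw [← pow_add]; congr 1; omega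
        rw [e2]
        have e3 : (48 : ℝ) ≤ 2 ^ (6 + b) := by
          calc (48 : ℝ) ≤ 2 ^ 6 := by norm_num
            _ ≤ _ := pow_le_pow_right₀ (by norm_num) (by omega)
        exact mul_le_mul_of_nonneg_right e3 (by positivity))
    (by omega) (by omega) (by omega) (by omega) (by omega) (by omega)
  obtain ⟨B, hB1, hB2, hB3⟩ := key
  refine ⟨B, fun ω hω => hsub ω (hB1 ω hω), ?_, hB3⟩
  refine le_trans ?_ hB2
  exact mul_le_mul_of_nonneg_left hζ (by positivity)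

end Pool.KS6
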