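import Pool.Agent.H77.S6.LC7

/-!
# Lemma C as a claim: top row `J`
-/

set_option autoImplicit false

namespace Pool.KS6

open Finset Real
open Pool.Agent.H49.Ent Pool.Agent.H32.Dense Pool.STK Pool.KA Pool.KSAT Pool.K3 Pool.K2S

/-- The rows after `x` of a large event. -/
theorem rows_claim {a R : ℝ} (ha : 1 ≤ a) (hU : UBa 3 a R) {c : ℝ} (hc : 0 < c) {ε : ℝ}
    (hε : 0 < ε) :
    Claim (m := 3) a R (fun J F A => ∀ x : ℕ, x ≤ J → c * J ≤ x →
      CH (Pool.Agent.H49.Ent.cond F.p A True) (F.X J) (fun ω => (F.X x ω, F.W ω)) ≤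
        3 * Real.log 2 * ((J : ℝ) - x) - R / a * ((J : ℝ) - x) + ε * J) := by
  obtain ⟨τ₂, hτ₂, J₃, hrow⟩ := rows_up aop_thm ha hU hc hε
  have ha0 : 0 < a := by linarith
  obtain ⟨τ, hτ⟩ : ∃ τ, τ = τ₂ / (6 * (1 + a)) := ⟨_, rfl⟩
  have hτ0 : 0 < τ := by rw [hτ]; positivity
  refine Claim.of hτ0 J₃ fun J hJ F A hS x hx hcx => ?_
  obtain ⟨hTr, hMx, hRb, hPA⟩ := hS
  obtain ⟨hlaw, -, hMxA, -⟩ := max_res F ha hτ0.le hτ0.le hTr hMx hRb A hPA
  have e6 : (1 + a) * (5 * τ + τ) = τ₂ := by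
    rw [hτ]
    field_simp
    ring
  rw [e6] at hMxA
  have h := hrow J hJ (F.res A True hlaw) hMxA x hx hcx
  have e1 : CH (F.res A True hlaw).p ((F.res A True hlaw).X J)
      (fun ω => ((F.res A True hlaw).X x ω, (F.res A True hlaw).W ω)) =
      CH (Pool.Agent.H49.Ent.cond F.p A True) (F.X J) (fun ω => (F.X x ω, F.W ω)) := rfl
  rw [e1] at h
  obtain ⟨ρ, hρ⟩ : ∃ ρ, ρ = CH (Pool.Agent.H49.Ent.cond F.p A True) (F.X J)
    (fun ω => (F.X x ω, F.W ω)) := ⟨_, rfl⟩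
  rw [← hρ] at h ⊢
  obtain ⟨D, hD⟩ : ∃ D, D = (J : ℝ) - (x : ℝ) := ⟨_, rfl⟩
  have hD0 : 0 ≤ D := by
    have h3 : (x : ℝ) ≤ J := by exact_mod_cast hx
    rw [hD]
    linarith
  have hJ0 : (0 : ℝ) ≤ J := Nat.cast_nonneg J
  rw [← hD] at h ⊢
  have h1 : 0 ≤ 3 * Real.log 2 * D := by
    have := Real.log_nonneg (show (1 : ℝ) ≤ 2 by norm_num)
    positivity
  have h2 : 0 ≤ ε * J := by positivity
  have h3 : (3 * Real.log 2 * D - R / a * D + ε * J) * a =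
      3 * Real.log 2 * D * a - R * D + ε * J * a := by
    field_simp
  refine le_of_mul_le_mul_right ?_ ha0
  rw [h3]
  have h4 := mul_le_mul_of_nonneg_left ha h1
  have h5 := mul_le_mul_of_nonneg_left ha h2
  push_cast at h
  linarith

theorem lc_thm : LCStmt := by
  intro a R ha hR hU h₁ η C hh₁ hη hC N i0 iu iN hi w y l p p1 b hyw hyb hbl hwl hp1 hpN
  have hN0 : 0 < N := by omega
  have hNr : (0 : ℝ) < N := by exact_mod_cast hN0
  have h1 := lcq_thm a R ha hR hU h₁ (η / 2) C hh₁ (by positivity) hC N i0 iu iN hi w y l p p1 b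
    hyw hyb hbl hwl hp1 hpN (fun J => J) (fun J => ⟨by
      have h1 : p * (J / N) ≤ N * (J / N) := Nat.mul_le_mul_right _ hpN
      exact h1.trans (Nat.mul_div_le J N), le_rfl⟩)
  have h2 := rows_claim ha hU (c := 1 / (2 * N)) (by positivity) (ε := η / 2) (by positivity)
  refine Claim.mono N ?_ (h1.and h2)
  rintro J hJ F A ⟨k1, k2⟩ hb hcn z hI hφ hnum
  refine k1 hb hcn z hI hφ ?_
  obtain ⟨u, hu⟩ : ∃ u, u = J / N := ⟨_, rfl⟩
  have hu1 : N * u ≤ J := by rw [hu]; exact Nat.mul_div_le J N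
  have hu2 : (J : ℝ) < N * (u + 1) := by
    have := Nat.lt_mul_div_succ J hN0
    rw [← hu] at this
    exact_mod_cast this
  have hu3 : 1 ≤ u := by
    rw [hu]
    exact (Nat.one_le_div_iff hN0).2 hJ
  rw [← hu] at hnum ⊢
  have hP1J : p1 * u ≤ J := by
    have h1 : p1 * u ≤ N * u := Nat.mul_le_mul_right u (by omega)
    exact h1.trans hu1
  have hc0 : 1 / (2 * N) * (J : ℝ) ≤ ((p1 * u : ℕ) : ℝ) := by
    have h1 : (u : ℝ) ≤ ((p1 * u : ℕ) : ℝ) := by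
      have : 1 * u ≤ p1 * u := Nat.mul_le_mul_right u (by omega)
      have h2 : u ≤ p1 * u := by omega
      exact_mod_cast h2
    refine le_trans ?_ h1
    rw [div_mul_eq_mul_div, one_mul, div_le_iff₀ (by positivity)]
    have h3 : (1 : ℝ) ≤ u := by exact_mod_cast hu3
    have h4 : (N : ℝ) * (u + 1) ≤ u * (2 * N) := by
      have : (N : ℝ) * 1 ≤ N * u := mul_le_mul_of_nonneg_left h3 hNr.le
      linarith
    linarith
  have h3 := k2 (p1 * u) hP1J hc0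
  linarith

end Pool.KS6
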