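import Pool.Agent.H77.S6.Event

/-!
# Planks at two times of a window: macroscopic inequalities

`X`, `X'` are the points of a line at two times, `z`, `z'` the planks there, `V` the common side
information (the times, a larger plank). The law of the line and the two times is invariant under
the exchange of the times; this is used through equalities of entropies.
-/

set_option autoImplicit false

namespace Pool.KS6

open Finset Real
open Pool.Agent.H49.Ent Pool.Agent.H32.Dense Pool.STK

section Mac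

variable {Ω S T U K : Type} [Fintype Ω]

/-- Visible labels: the other point is as uncertain, given the plank, as the point itself. -/
theorem xj_other {p : Ω → ℝ} (hp : ∀ ω, 0 ≤ p ω) (X X' : Ω → S) (z : Ω → T) (V : Ω → K)
    (s : ℝ) (hv : CH p z (fun ω => (X ω, V ω)) ≤ s) (hx : CH p X' V = CH p X V) :
    CH p X (fun ω => (z ω, V ω)) - s ≤ CH p X' (fun ω => (z ω, V ω)) := by
  have h1 := CH_chain hp X z V
  have h2 := CH_chain hp z X V
  have h3 : CH p (fun ω => (X ω, z ω)) V = CH p (fun ω => (z ω, X ω)) V := by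
    refine CH_congr hp ?_ ?_ (fun _ _ _ _ h => h) (fun _ _ _ _ h => h)
    · intro ω ω' _ _ h
      simp only [Prod.mk.injEq] at h ⊢
      tauto
    · intro ω ω' _ _ h
      simp only [Prod.mk.injEq] at h ⊢
      tauto
  have h4 := CH_le_add hp X' z V
  linarith

/-- Row XJ: a jump of the direction costs no fullness. `b` is the block of digits which is known
from the two planks together, `β` its entropy given one plank. -/
theorem xj {p : Ω → ℝ} (hp : ∀ ω, 0 ≤ p ω) (X X' : Ω → S) (z z' : Ω → T) (b : Ω → U)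
    (V : Ω → K) (s c β : ℝ) (hv : CH p z (fun ω => (X ω, V ω)) ≤ s)
    (hv' : CH p z' (fun ω => (X' ω, V ω)) ≤ s) (hx : CH p X' V = CH p X V)
    (hb : Det p (fun ω => (X' ω, V ω)) b)
    (hb0 : CH p b (fun ω => (z ω, z' ω, V ω)) ≤ c)
    (hb1 : β ≤ CH p b (fun ω => (z' ω, V ω))) :
    CH p X (fun ω => (z ω, V ω)) + β - c - 2 * s ≤ CH p X V := by
  have h1 := xj_other hp X X' z V s hv hx
  -- the strip
  have h2 : CH p X' (fun ω => (z ω, z' ω, V ω)) ≤
      c + CH p X' (fun ω => (b ω, (z' ω, V ω))) := by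
    have e1 := CH_le_add hp X' b (fun ω => (z ω, z' ω, V ω))
    have e2 : CH p X' (fun ω => (b ω, (z ω, z' ω, V ω))) ≤
        CH p X' (fun ω => (b ω, (z' ω, V ω))) :=
      CH_mono_cond hp (fun ω ω' _ _ h => by
        simp only [Prod.mk.injEq] at h ⊢
        tauto)
    linarith
  have h3 : CH p b (fun ω => (z' ω, V ω)) + CH p X' (fun ω => (b ω, (z' ω, V ω))) ≤
      CH p X' (fun ω => (z' ω, V ω)) := by
    rw [← CH_chain hp X' b]
    refine CH_mono_left hp ?_
    intro ω ω' hω hω' h
    simp only [Prod.mk.injEq] at h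
    have e := hb ω ω' hω hω' (by simp only [Prod.mk.injEq]; exact ⟨h.1, h.2.2⟩)
    exact Prod.ext h.1 e
  -- the second plank given the first
  have h4 : CH p X' (fun ω => (z ω, V ω)) ≤
      CH p z' (fun ω => (z ω, V ω)) + CH p X' (fun ω => (z ω, z' ω, V ω)) := by
    have e1 := CH_le_add hp X' z' (fun ω => (z ω, V ω))
    have e2 : CH p X' (fun ω => (z' ω, (z ω, V ω))) = CH p X' (fun ω => (z ω, z' ω, V ω)) := by
      refine CH_congr hp ?_ ?_ ?_ ?_
      · intro ω ω' _ _ h; exact (Prod.mk.inj h).1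
      · intro ω ω' _ _ h; exact (Prod.mk.inj h).1
      · intro ω ω' _ _ h
        simp only [Prod.mk.injEq] at h ⊢
        tauto
      · intro ω ω' _ _ h
        simp only [Prod.mk.injEq] at h ⊢
        tauto
    linarith
  have h5 : CH p z' (fun ω => (z ω, V ω)) ≤ CH p z' V :=
    CH_mono_cond hp (fun ω ω' _ _ h => (Prod.mk.inj h).2)
  have h6 : CH p z' V + CH p X' (fun ω => (z' ω, V ω)) ≤ CH p X' V + s := by
    have e1 := CH_chain hp X' z' V
    have e2 := CH_chain hp z' X' V
    have e3 : CH p (fun ω => (X' ω, z' ω)) V = CH p (fun ω => (z' ω, X' ω)) V := by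
      refine CH_congr hp ?_ ?_ (fun _ _ _ _ h => h) (fun _ _ _ _ h => h)
      · intro ω ω' _ _ h
        simp only [Prod.mk.injEq] at h ⊢
        tauto
      · intro ω ω' _ _ h
        simp only [Prod.mk.injEq] at h ⊢
        tauto
    linarith
  linarith

/-- Row LA: the plank at one time given the point at another time. -/
theorem la {p : Ω → ℝ} (hp : ∀ ω, 0 ≤ p ω) (X X' : Ω → S) (z : Ω → T) (V : Ω → K)
    (hx : CH p X' V = CH p X V) :
    CH p z (fun ω => (X' ω, V ω)) = CH p z (fun ω => (X ω, V ω)) +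
      (CH p X' (fun ω => (z ω, V ω)) - CH p X (fun ω => (z ω, V ω))) := by
  have sw : ∀ A : Ω → S, CH p (fun ω => (A ω, z ω)) V = CH p (fun ω => (z ω, A ω)) V := by
    intro A
    refine CH_congr hp ?_ ?_ (fun _ _ _ _ h => h) (fun _ _ _ _ h => h)
    · intro ω ω' _ _ h
      simp only [Prod.mk.injEq] at h ⊢
      tauto
    · intro ω ω' _ _ h
      simp only [Prod.mk.injEq] at h ⊢
      tauto
  have h1 := CH_chain hp X z V
  have h2 := CH_chain hp z X V
  have h3 := CH_chain hp X' z V
  have h4 := CH_chain hp z X' V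
  have h5 := sw X
  have h6 := sw X'
  linarith

end Mac

section Avg

variable {Ω S T U K : Type} [Fintype Ω]

/-- Conditional entropies under conditioned laws: averages over the values of a class function. -/
theorem CH_classes {p : Ω → ℝ} (hp : IsLaw p) {N : ℕ} (k : Ω → Fin N) (X : Ω → S)
    (W : Ω → T) :
    CH p X (fun ω => (k ω, W ω)) = ∑ j, law p k j * CH (cond p k j) X W := by
  classical
  have e1 : ∀ {R : Type} (Y : Ω → R), CH p Y k = ∑ j, law p k j * H (cond p k j) Y := by
    intro R Y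
    rw [CH_eq_sum hp.nonneg]
    refine Finset.sum_subset (Finset.subset_univ _) ?_
    intro j _ hj
    have : law p k j = 0 := law_eq_zero_of_notMem p k hj
    rw [this, zero_mul]
  have e2 := e1 (fun ω => (X ω, W ω))
  have e3 := e1 W
  have e4 : CH p X (fun ω => (k ω, W ω)) = CH p (fun ω => (X ω, W ω)) k - CH p W k := by
    unfold CH
    have f1 : H p (fun ω => (X ω, (k ω, W ω))) = H p (fun ω => ((X ω, W ω), k ω)) := by
      refine H_congr hp.nonneg ?_ ?_
      · intro ω ω' _ _ h
        simp only [Prod.mk.injEq] at h ⊢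
        tauto
      · intro ω ω' _ _ h
        simp only [Prod.mk.injEq] at h ⊢
        tauto
    have f2 : H p (fun ω => (k ω, W ω)) = H p (fun ω => (W ω, k ω)) := by
      refine H_congr hp.nonneg ?_ ?_
      · intro ω ω' _ _ h
        simp only [Prod.mk.injEq] at h ⊢
        tauto
      · intro ω ω' _ _ h
        simp only [Prod.mk.injEq] at h ⊢
        tauto
    rw [f1, f2]
    ring
  rw [e4, e2, e3, ← Finset.sum_sub_distrib]
  refine Finset.sum_congr rfl fun j _ => ?_
  unfold CH
  ring

lemma law_sum_one {p : Ω → ℝ} (hp : IsLaw p) {N : ℕ} (k : Ω → Fin N) : ∑ j, law p k j = 1 := by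
  classical
  rw [← hp.sum_one, ← sum_law p k]
  symm
  refine Finset.sum_subset (Finset.subset_univ _) ?_
  intro j _ hj
  exact law_eq_zero_of_notMem p k hj

/-- Row LB: no jump of the direction. `k ω` is the class of the number of digits of the velocity
which are known from the plank `z` and the point `X'`; in every class of probability at least
`exp (-κ)` the fan of `X'` is active at these digits. -/
theorem lb {p : Ω → ℝ} (hp : IsLaw p) {N : ℕ} (k : Ω → Fin N) (D : Fin N → Ω → S)
    (X' : Ω → T) (z : Ω → U) (W : Ω → K) (ρ ε c κ : ℝ) (v : Fin N → ℝ) (M : ℝ)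
    (hM : ∀ j, ρ * v j - ε - c ≤ M) (hM0 : 0 ≤ M)
    (hfan : ∀ j, Real.exp (-κ) ≤ law p k j →
      ρ * v j - ε ≤ CH (cond p k j) (D j) (fun ω => (X' ω, W ω)))
    (hknown : ∀ j, Real.exp (-κ) ≤ law p k j →
      CH (cond p k j) (D j) (fun ω => (z ω, X' ω, W ω)) ≤ c) :
    ρ * Ex p (fun ω => v (k ω)) - ε - c - N * Real.exp (-κ) * M ≤
      CH p z (fun ω => (X' ω, W ω)) := by
  classical
  have h1 : CH p z (fun ω => (k ω, (X' ω, W ω))) ≤ CH p z (fun ω => (X' ω, W ω)) :=
    CH_mono_cond hp.nonneg (fun ω ω' _ _ h => (Prod.mk.inj h).2)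
  rw [CH_classes hp k z (fun ω => (X' ω, W ω))] at h1
  have h2 : ∀ j ∈ Finset.univ, law p k j * (ρ * v j - ε - c) - Real.exp (-κ) * M ≤
      law p k j * CH (cond p k j) z (fun ω => (X' ω, W ω)) := by
    intro j _
    have l0 : 0 ≤ law p k j := law_nonneg hp.nonneg k j
    have c0 : ∀ ω, 0 ≤ cond p k j ω := cond_nonneg hp.nonneg k j
    have n0 : 0 ≤ CH (cond p k j) z (fun ω => (X' ω, W ω)) := CH_nonneg c0 _ _
    by_cases hj : Real.exp (-κ) ≤ law p k j
    · have a1 := hfan j hj
      have a2 := hknown j hj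
      have a3 := CH_le_add c0 (D j) z (fun ω => (X' ω, W ω))
      have a4 : CH (cond p k j) (D j) (fun ω => (z ω, (X' ω, W ω))) =
          CH (cond p k j) (D j) (fun ω => (z ω, X' ω, W ω)) := rfl
      have a5 : ρ * v j - ε - c ≤ CH (cond p k j) z (fun ω => (X' ω, W ω)) := by linarith
      have a6 := mul_le_mul_of_nonneg_left a5 l0
      have a7 : 0 ≤ Real.exp (-κ) * M := mul_nonneg (Real.exp_pos _).le hM0
      linarith
    · push Not at hj
      have b1 : law p k j * (ρ * v j - ε - c) ≤ law p k j * M :=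
        mul_le_mul_of_nonneg_left (hM j) l0
      have b2 : law p k j * M ≤ Real.exp (-κ) * M := mul_le_mul_of_nonneg_right hj.le hM0
      have b3 := mul_nonneg l0 n0
      linarith
  have h3 := Finset.sum_le_sum h2
  rw [Finset.sum_sub_distrib, Finset.sum_const, Finset.card_univ, Fintype.card_fin,
    nsmul_eq_mul] at h3
  have h4 : ∑ j, law p k j * (ρ * v j - ε - c) = ρ * Ex p (fun ω => v (k ω)) - ε - c := by
    have e1 : Ex p (fun ω => v (k ω)) = ∑ j, law p k j * v j := by
      have f1 := sum_mul_eq_sum_image p k v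
      unfold Ex
      rw [f1]
      refine Finset.sum_subset (Finset.subset_univ _) ?_
      intro j _ hj
      rw [law_eq_zero_of_notMem p k hj, zero_mul]
    have e2 : ∑ j, law p k j * (ρ * v j - ε - c) =
        ρ * (∑ j, law p k j * v j) - (ε + c) * ∑ j, law p k j := by
      rw [Finset.mul_sum, Finset.mul_sum, ← Finset.sum_sub_distrib]
      exact Finset.sum_congr rfl fun j _ => by ring
    rw [e2, e1, law_sum_one hp k]
    ring
  rw [h4] at h3
  linarith

end Avg

section Copy

variable {Ω S T U K : Type} [Fintype Ω]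

/-- Row LC: no jump of the plane. `w.2` is a copy of the line given the plank `z'`; `U2` bounds
the entropy of the point given both planks, `U4` that of the copy given the first plank. -/
theorem lc {p : Ω → ℝ} (hp : IsLaw p) (X X' : Ω → S) (z z' : Ω → T) (V : Ω → K) (s U2 : ℝ)
    (hv : CH p z (fun ω => (X ω, V ω)) ≤ s)
    (hv' : CH p z' (fun ω => (X' ω, V ω)) ≤ s) (hx : CH p X' V = CH p X V)
    (hx' : CH p X' (fun ω => (z' ω, V ω)) = CH p X (fun ω => (z ω, V ω)))
    (h2 : CH p X' (fun ω => (z ω, z' ω, V ω)) ≤ U2) :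
    2 * CH p X (fun ω => (z ω, V ω)) - 2 * s - U2 ≤
      CH (dbl p (fun ω => (z' ω, V ω))) (fun w => X' w.2) (fun w => (z w.1, V w.1)) := by
  set B : Ω → T × K := fun ω => (z' ω, V ω) with hB
  have hd0 := dbl_nonneg hp.nonneg (b := B)
  have g1 := xj_other hp.nonneg X X' z V s hv hx
  -- the second plank given the first
  have g2 : CH p X' (fun ω => (z ω, V ω)) ≤
      CH p z' (fun ω => (z ω, V ω)) + CH p X' (fun ω => (z ω, z' ω, V ω)) := by
    have e1 := CH_le_add hp.nonneg X' z' (fun ω => (z ω, V ω))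
    have e2 : CH p X' (fun ω => (z' ω, (z ω, V ω))) = CH p X' (fun ω => (z ω, z' ω, V ω)) := by
      refine CH_congr hp.nonneg ?_ ?_ ?_ ?_
      · intro ω ω' _ _ h; exact (Prod.mk.inj h).1
      · intro ω ω' _ _ h; exact (Prod.mk.inj h).1
      · intro ω ω' _ _ h
        simp only [Prod.mk.injEq] at h ⊢
        tauto
      · intro ω ω' _ _ h
        simp only [Prod.mk.injEq] at h ⊢
        tauto
    linarith
  -- the copy
  have g3 : CH (dbl p B) (fun w => z' w.1) (fun w => (z w.1, V w.1)) =
      CH p z' (fun ω => (z ω, V ω)) := (dbl_fst hp.nonneg).CH z' (fun ω => (z ω, V ω))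
  have g4 : CH (dbl p B) (fun w => X' w.2) (fun w => (B w.2, z w.1)) = CH p X' B :=
    CH_glue_snd hp.nonneg hp.nonneg (fun _ => rfl) X' z (fun _ _ _ _ h => h)
  have g5 : CH (dbl p B) (fun w => X' w.2) (fun w => (z' w.1, (z w.1, V w.1))) =
      CH (dbl p B) (fun w => X' w.2) (fun w => (B w.2, z w.1)) := by
    refine CH_congr hd0 ?_ ?_ ?_ ?_
    · intro w w' _ _ h; exact (Prod.mk.inj h).1
    · intro w w' _ _ h; exact (Prod.mk.inj h).1
    · intro w w' hw hw' h
      have e1 := dbl_eq hp.nonneg hw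
      have e2 := dbl_eq hp.nonneg hw'
      simp only [hB, Prod.mk.injEq] at e1 e2 h ⊢
      rw [← e1.1, ← e1.2, ← e2.1, ← e2.2]
      tauto
    · intro w w' hw hw' h
      have e1 := dbl_eq hp.nonneg hw
      have e2 := dbl_eq hp.nonneg hw'
      simp only [hB, Prod.mk.injEq] at e1 e2 h ⊢
      rw [e1.1, e1.2, e2.1, e2.2]
      tauto
  have g6 : CH (dbl p B) (fun w => z' w.1) (fun w => (X' w.2, (z w.1, V w.1))) ≤ s := by
    have e1 : CH (dbl p B) (fun w => z' w.2) (fun w => (X' w.2, V w.2)) =
        CH p z' (fun ω => (X' ω, V ω)) := (dbl_snd hp.nonneg).CH z' (fun ω => (X' ω, V ω))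
    have e2 : CH (dbl p B) (fun w => z' w.1) (fun w => (X' w.2, (z w.1, V w.1))) =
        CH (dbl p B) (fun w => z' w.2) (fun w => (X' w.2, (z w.1, V w.2))) := by
      refine CH_congr hd0 ?_ ?_ ?_ ?_
      · intro w w' hw hw' h
        have e1 := dbl_eq hp.nonneg hw
        have e2 := dbl_eq hp.nonneg hw'
        simp only [hB, Prod.mk.injEq] at e1 e2 h ⊢
        exact (e1.1.symm.trans h.1).trans e2.1
      · intro w w' hw hw' h
        have e1 := dbl_eq hp.nonneg hw
        have e2 := dbl_eq hp.nonneg hw'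
        simp only [hB, Prod.mk.injEq] at e1 e2 h ⊢
        exact (e1.1.trans h.1).trans e2.1.symm
      · intro w w' hw hw' h
        have e1 := dbl_eq hp.nonneg hw
        have e2 := dbl_eq hp.nonneg hw'
        simp only [hB, Prod.mk.injEq] at e1 e2 h ⊢
        rw [← e1.2, ← e2.2]
        exact h
      · intro w w' hw hw' h
        have e1 := dbl_eq hp.nonneg hw
        have e2 := dbl_eq hp.nonneg hw'
        simp only [hB, Prod.mk.injEq] at e1 e2 h ⊢
        rw [e1.2, e2.2]
        exact h
    have e3 : CH (dbl p B) (fun w => z' w.2) (fun w => (X' w.2, (z w.1, V w.2))) ≤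
        CH (dbl p B) (fun w => z' w.2) (fun w => (X' w.2, V w.2)) :=
      CH_mono_cond hd0 (fun w w' _ _ h => by
        simp only [Prod.mk.injEq] at h ⊢
        tauto)
    linarith
  have g7 : CH (dbl p B) (fun w => z' w.1) (fun w => (z w.1, V w.1)) +
      CH (dbl p B) (fun w => X' w.2) (fun w => (z' w.1, (z w.1, V w.1))) ≤
      CH (dbl p B) (fun w => X' w.2) (fun w => (z w.1, V w.1)) +
      CH (dbl p B) (fun w => z' w.1) (fun w => (X' w.2, (z w.1, V w.1))) := by
    have e1 := CH_chain hd0 (fun w => X' w.2) (fun w => z' w.1) (fun w => (z w.1, V w.1))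
    have e2 := CH_chain hd0 (fun w => z' w.1) (fun w => X' w.2) (fun w => (z w.1, V w.1))
    have e3 : CH (dbl p B) (fun w => (X' w.2, z' w.1)) (fun w => (z w.1, V w.1)) =
        CH (dbl p B) (fun w => (z' w.1, X' w.2)) (fun w => (z w.1, V w.1)) := by
      refine CH_congr hd0 ?_ ?_ (fun _ _ _ _ h => h) (fun _ _ _ _ h => h)
      · intro ω ω' _ _ h
        simp only [Prod.mk.injEq] at h ⊢
        tauto
      · intro ω ω' _ _ h
        simp only [Prod.mk.injEq] at h ⊢
        tauto
    linarith
  have g8 : CH p X' B = CH p X (fun ω => (z ω, V ω)) := hx'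
  linarith

end Copy

end Pool.KS6
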