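import Pool.Agent.H77.S6.Seq
import Pool.Agent.H5.K3.BoxA

/-!
# Planks in three dimensions: geometry of two planks of one line

The coordinates are `x i0` (along the fans), `fu e x = x iu - e * x i0` and the normal form
`fn c s x = c * x i0 + s * x iu + x iN`. A plank has the lengths `1 / 2 ^ w`, `1 / 2 ^ (w + lam)`,
`1 / 2 ^ P` in these coordinates.
-/

set_option autoImplicit false

namespace Pool.KS6

open Finset Real
open Pool.Agent.H49.Ent Pool.Agent.H32.Dense Pool.STK Pool.KA Pool.KSAT Pool.K3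

/-- The transversal coordinate in the frame `(1, e)`. -/
def fu (i0 iu : Fin 3) (e : ℝ) (y : Fin 3 → ℝ) : ℝ := y iu - e * y i0

/-- The normal form. -/
def fn (i0 iu iN : Fin 3) (c s : ℝ) (y : Fin 3 → ℝ) : ℝ := c * y i0 + s * y iu + y iN

/-- The difference of two normal forms along the fans of the second plank. -/
def Ae (c s c' s' e' : ℝ) : ℝ := (c - c') + (s - s') * e'

/-- The difference of two normal forms. -/
lemma fn_diff (i0 iu iN : Fin 3) (c s c' s' e' : ℝ) (y : Fin 3 → ℝ) :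
    fn i0 iu iN c s y - fn i0 iu iN c' s' y =
      Ae c s c' s' e' * y i0 + (s - s') * fu i0 iu e' y := by
  unfold fn fu Ae; ring

lemma Ae_le {c s c' s' e' : ℝ} (hc : |c| ≤ 4) (hs : |s| ≤ 4) (hc' : |c'| ≤ 4) (hs' : |s'| ≤ 4)
    (he : |e'| ≤ 2) : |Ae c s c' s' e'| ≤ 24 := by
  unfold Ae
  have h1 := abs_add_le (c - c') ((s - s') * e')
  have h2 := abs_sub c c'
  have h3 := abs_sub s s'
  have h4 : |(s - s') * e'| ≤ 8 * 2 := by
    rw [abs_mul]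
    exact mul_le_mul (by linarith) he (abs_nonneg _) (by norm_num)
  linarith

/-- The plank of a label: `z` determines the slope `e`, the normal form `(c, s, 1)`, a base point
and a base velocity; the line of the sample lies in the plank. -/
structure Pk {Ω : Type} (x d : Ω → Fin 3 → ℝ) (A : Ω → Prop) (i0 iu iN : Fin 3) (w lam P : ℕ)
    (C : ℝ) {S : Type} (z : Ω → S) (e c s : S → ℝ) (xb db : S → Fin 3 → ℝ) : Prop where
  e_le : ∀ ω, A ω → |e (z ω)| ≤ 2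
  c_le : ∀ ω, A ω → |c (z ω)| ≤ 4
  s_le : ∀ ω, A ω → |s (z ω)| ≤ 4
  pe : ∀ ω, A ω → |x ω i0 - xb (z ω) i0| ≤ C / 2 ^ w
  pu : ∀ ω, A ω → |fu i0 iu (e (z ω)) (x ω) - fu i0 iu (e (z ω)) (xb (z ω))| ≤
    C / 2 ^ (w + lam)
  pn : ∀ ω, A ω → |fn i0 iu iN (c (z ω)) (s (z ω)) (x ω) -
    fn i0 iu iN (c (z ω)) (s (z ω)) (xb (z ω))| ≤ C / 2 ^ P
  ve : ∀ ω, A ω → |d ω i0 - db (z ω) i0| ≤ C
  vu : ∀ ω, A ω → |fu i0 iu (e (z ω)) (d ω) - fu i0 iu (e (z ω)) (db (z ω))| ≤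
    C / 2 ^ lam
  vn : ∀ ω, A ω → |fn i0 iu iN (c (z ω)) (s (z ω)) (d ω) -
    fn i0 iu iN (c (z ω)) (s (z ω)) (db (z ω))| ≤ C * 2 ^ w / 2 ^ P

section Motion

variable {J : ℕ}

/-- Two samples of one line in one window. -/
lemma motion {m : ℕ} (F : Fam m J) {v : ℕ} (hv : v ≤ J) {w : F.Ω × F.Ω}
    (h : 0 < prs F v w) :
    (∀ i, F.x w.2 i = F.x w.1 i + (F.t w.2 - F.t w.1) * F.d w.1 i) ∧
      |F.t w.2 - F.t w.1| ≤ 1 / 2 ^ v := by
  obtain ⟨-, -, hu, hd, -, hT⟩ := prs_pos h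
  refine ⟨fun i => ?_, ?_⟩
  · unfold Fam.x
    rw [hu, hd]
    ring
  · have a1 := T1_real F hv w.1
    have a2 := T1_real F hv w.2
    rw [← hT] at a2
    have hp : (0 : ℝ) < 2 ^ v := by positivity
    have h3 : |F.t w.2 - F.t w.1| * 2 ^ v ≤ 1 := by
      have h4 : |F.t w.2 - F.t w.1| * 2 ^ v = |(F.t w.2 - F.t w.1) * 2 ^ v| := by
        rw [abs_mul, abs_of_pos hp]
      rw [h4, abs_le]
      constructor <;> nlinarith [a1.1, a1.2, a2.1, a2.2]
    rw [le_div_iff₀ hp]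
    exact h3

/-- The base point of the plank, moved along the base velocity. -/
def xm {S : Type} (xb db : S → Fin 3 → ℝ) (s : S) (τ : ℝ) (i : Fin 3) : ℝ := xb s i + τ * db s i

/-- The other point of the line in the moved plank. -/
lemma moved {F : Fam 3 J} {i0 iu iN : Fin 3} {v y lam P : ℕ} {C : ℝ} {S : Type}
    {z : F.Ω → S} {e c s : S → ℝ} {xb db : S → Fin 3 → ℝ} (hv : v ≤ J) (hC : 0 ≤ C)
    (hP : Pk F.x F.d (fun ω => 0 < F.p ω) i0 iu iN (v + y) lam P C z e c s xb db)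
    {w : F.Ω × F.Ω} (h : 0 < prs F v w) :
    |F.x w.2 i0 - xm xb db (z w.1) (F.t w.2 - F.t w.1) i0| ≤ 2 * C / 2 ^ v ∧
    |fu i0 iu (e (z w.1)) (F.x w.2) -
      fu i0 iu (e (z w.1)) (xm xb db (z w.1) (F.t w.2 - F.t w.1))| ≤ 2 * C / 2 ^ (v + lam) ∧
    |fn i0 iu iN (c (z w.1)) (s (z w.1)) (F.x w.2) -
      fn i0 iu iN (c (z w.1)) (s (z w.1)) (xm xb db (z w.1) (F.t w.2 - F.t w.1))| ≤
      2 * C * 2 ^ y / 2 ^ P := by
  obtain ⟨h1, h2⟩ := motion F hv h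
  have hp1 := (prs_pos h).1
  obtain ⟨τ, hτ⟩ : ∃ τ, τ = F.t w.2 - F.t w.1 := ⟨_, rfl⟩
  rw [← hτ] at h1 h2 ⊢
  have hv0 : (0 : ℝ) < 2 ^ v := by positivity
  have key : ∀ (f : (Fin 3 → ℝ) → ℝ) (a b : ℝ),
      (∀ y' y'' : Fin 3 → ℝ, ∀ r : ℝ, f (fun i => y' i + r * y'' i) = f y' + r * f y'') →
      |f (F.x w.1) - f (xb (z w.1))| ≤ a → |f (F.d w.1) - f (db (z w.1))| ≤ b →
      |f (F.x w.2) - f (xm xb db (z w.1) τ)| ≤ a + b / 2 ^ v := by
    intro f a b hf ha hb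
    have e1 : F.x w.2 = fun i => F.x w.1 i + τ * F.d w.1 i := funext h1
    have e2 : f (xm xb db (z w.1) τ) = f (xb (z w.1)) + τ * f (db (z w.1)) := hf _ _ _
    rw [e1, hf, e2]
    have e3 : f (F.x w.1) + τ * f (F.d w.1) - (f (xb (z w.1)) + τ * f (db (z w.1))) =
        (f (F.x w.1) - f (xb (z w.1))) + τ * (f (F.d w.1) - f (db (z w.1))) := by ring
    rw [e3]
    refine (abs_add_le _ _).trans ?_
    have e4 : |τ * (f (F.d w.1) - f (db (z w.1)))| ≤ 1 / 2 ^ v * b := by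
      rw [abs_mul]
      exact mul_le_mul h2 hb (abs_nonneg _) (by positivity)
    have e5 : 1 / 2 ^ v * b = b / 2 ^ v := by ring
    linarith
  refine ⟨?_, ?_, ?_⟩
  · refine (key (fun y => y i0) _ _ (fun _ _ _ => rfl) (hP.pe _ hp1) (hP.ve _ hp1)).trans ?_
    have e1 : C / 2 ^ (v + y) ≤ C / 2 ^ v :=
      div_le_div_of_nonneg_left hC hv0 (pow_le_pow_right₀ (by norm_num) (by omega))
    have e2 : 2 * C / 2 ^ v = C / 2 ^ v + C / 2 ^ v := by ring
    linarith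
  · refine (key (fu i0 iu (e (z w.1))) _ _ (fun y' y'' r => by unfold fu; ring) (hP.pu _ hp1)
      (hP.vu _ hp1)).trans ?_
    have e1 : C / 2 ^ (v + y + lam) ≤ C / 2 ^ (v + lam) :=
      div_le_div_of_nonneg_left hC (by positivity) (pow_le_pow_right₀ (by norm_num) (by omega))
    have e2 : C / 2 ^ lam / 2 ^ v = C / 2 ^ (v + lam) := by
      rw [pow_add, div_div, mul_comm ((2 : ℝ) ^ lam)]
    have e3 : 2 * C / 2 ^ (v + lam) = C / 2 ^ (v + lam) + C / 2 ^ (v + lam) := by ring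
    linarith
  · refine (key (fn i0 iu iN (c (z w.1)) (s (z w.1))) _ _ (fun y' y'' r => by unfold fn; ring)
      (hP.pn _ hp1) (hP.vn _ hp1)).trans ?_
    have e0 : (0 : ℝ) < 2 ^ P := by positivity
    have e1 : C * 2 ^ (v + y) / 2 ^ P / 2 ^ v = C * 2 ^ y / 2 ^ P := by
      rw [pow_add]
      field_simp
    have e4 : C / 2 ^ P ≤ C * 2 ^ y / 2 ^ P := by
      refine div_le_div_of_nonneg_right ?_ e0.le
      have : (1 : ℝ) ≤ 2 ^ y := one_le_pow₀ (by norm_num)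
      nlinarith
    have e3 : 2 * C * 2 ^ y / 2 ^ P = C * 2 ^ y / 2 ^ P + C * 2 ^ y / 2 ^ P := by ring
    linarith

end Motion

end Pool.KS6
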